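import Mathlib

/-!
Benzels, stones, bones and their tilings, as in the problem statements.
-/

namespace Pool.Agent.Q162.Benzel

/-- Cells of the hexagonal grid are triples of integers with sum one. -/
abbrev Cell := ℤ × ℤ × ℤ

/-- The `(a, b)`-benzel. -/
def benzel (a b : ℤ) : Set Cell :=
  {c | c.1 + c.2.1 + c.2.2 = 1 ∧ (-(a - 1) ≤ c.2.1 - c.1 ∧ c.2.1 - c.1 ≤ b - 1) ∧
    (-(a - 1) ≤ c.2.2 - c.2.1 ∧ c.2.2 - c.2.1 ≤ b - 1) ∧
    (-(a - 1) ≤ c.1 - c.2.2 ∧ c.1 - c.2.2 ≤ b - 1)}

/-- Right stones `{u + e₁, u + e₂, u + e₃}`, where the coordinates of `u` have sum zero. -/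
def IsRightStone (T : Finset Cell) : Prop :=
  ∃ u : Cell, u.1 + u.2.1 + u.2.2 = 0 ∧ T = {u + (1, 0, 0), u + (0, 1, 0), u + (0, 0, 1)}

/-- Left stones `{v - e₁, v - e₂, v - e₃}`, where the coordinates of `v` have sum two. -/
def IsLeftStone (T : Finset Cell) : Prop :=
  ∃ v : Cell, v.1 + v.2.1 + v.2.2 = 2 ∧ T = {v - (1, 0, 0), v - (0, 1, 0), v - (0, 0, 1)}

/-- The three bone directions. -/
def dir : Fin 3 → Cell
  | 0 => (1, -1, 0)
  | 1 => (0, 1, -1)
  | 2 => (-1, 0, 1)

/-- Bones `{c, c + d, c + 2 d}` with `d` the direction number `i`. -/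
def IsBone (i : Fin 3) (T : Finset Cell) : Prop :=
  ∃ c : Cell, c.1 + c.2.1 + c.2.2 = 1 ∧ T = {c, c + dir i, c + 2 • dir i}

/-- `P` is a tiling of the set `R` by tiles satisfying `proto`: every member of `P` is such a tile,
different members are disjoint, and the members cover exactly `R`. -/
def IsTiling (proto : Finset Cell → Prop) (R : Set Cell) (P : Finset (Finset Cell)) : Prop :=
  (∀ T ∈ P, proto T) ∧ (∀ T ∈ P, ∀ T' ∈ P, T ≠ T' → Disjoint T T') ∧
    (∀ c, (∃ T ∈ P, c ∈ T) ↔ c ∈ R)

/-- All five prototiles. -/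
def Proto113 (T : Finset Cell) : Prop := IsRightStone T ∨ IsLeftStone T ∨ ∃ i, IsBone i T

/-- Both stones and the bones in the two directions different from number `i`. -/
def Proto112 (i : Fin 3) (T : Finset Cell) : Prop :=
  IsRightStone T ∨ IsLeftStone T ∨ ∃ j, j ≠ i ∧ IsBone j T

/-- Right stones and all three kinds of bones. -/
def Proto103 (T : Finset Cell) : Prop := IsRightStone T ∨ ∃ i, IsBone i T

/-- Number of tilings of the `(a, b)`-benzel by all five prototiles. -/
noncomputable def T113 (a b : ℤ) : ℕ := Set.ncard {P | IsTiling Proto113 (benzel a b) P}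

/-- Number of tilings of the `(a, b)`-benzel by both stones and the bones in the two directions
different from number `i`. -/
noncomputable def T112 (i : Fin 3) (a b : ℤ) : ℕ :=
  Set.ncard {P | IsTiling (Proto112 i) (benzel a b) P}

/-- Number of tilings of the `(a, b)`-benzel by right stones and all bones. -/
noncomputable def T103 (a b : ℤ) : ℕ := Set.ncard {P | IsTiling Proto103 (benzel a b) P}

open Classical in
/-- Number of stones of a tiling. -/
noncomputable def stones (P : Finset (Finset Cell)) : ℕ :=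
  (P.filter (fun T => IsRightStone T ∨ IsLeftStone T)).card

/-- The sum of `q` to the number of stones over all tilings by the five prototiles. -/
noncomputable def T113w (a b : ℤ) (q : ℕ) : ℕ :=
  ∑ᶠ P ∈ {P | IsTiling Proto113 (benzel a b) P}, q ^ stones P

end Pool.Agent.Q162.Benzel
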