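import Pool.Agent.Q162.Benzel.Form

/-!
Sequences with periods a power of two in a ring where a power of two vanishes.
-/

namespace Pool.Agent.Q162.Bz

open Finset

section
variable {R : Type*} [CommRing R]

/-- Periodic with period a power of two. -/
def Per (g : ℕ → R) : Prop := ∃ m : ℕ, ∀ n, g (n + 2 ^ m) = g n

/-- Periodic from the index one on. -/
def Per1 (g : ℕ → R) : Prop := Per (fun n => g (n + 1))

theorem per_mul {g : ℕ → R} {P : ℕ} (h : ∀ n, g (n + P) = g n) (t n : ℕ) :
    g (n + t * P) = g n := by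
  induction t with
  | zero => simp
  | succ t ih =>
    rw [show n + (t + 1) * P = n + t * P + P by ring, h, ih]

theorem per_up {g : ℕ → R} {m : ℕ} (h : ∀ n, g (n + 2 ^ m) = g n) {m' : ℕ} (hm : m ≤ m') :
    ∀ n, g (n + 2 ^ m') = g n := by
  intro n
  obtain ⟨d, rfl⟩ := Nat.exists_eq_add_of_le hm
  rw [pow_add, mul_comm]
  exact per_mul h (2 ^ d) n

theorem per_modEq {g : ℕ → R} {m : ℕ} (h : ∀ n, g (n + 2 ^ m) = g n) {a b : ℕ}
    (hab : a ≡ b [MOD 2 ^ m]) : g a = g b := by
  rcases Nat.le_total a b with hle | hle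
  · obtain ⟨c, hc⟩ := (Nat.modEq_iff_dvd' hle).1 hab
    have : b = a + c * 2 ^ m := by
      rw [mul_comm c, ← hc]
      omega
    rw [this, per_mul h]
  · obtain ⟨c, hc⟩ := (Nat.modEq_iff_dvd' hle).1 hab.symm
    have : a = b + c * 2 ^ m := by
      rw [mul_comm c, ← hc]
      omega
    rw [this, per_mul h]

theorem Per.two {g h : ℕ → R} (hg : Per g) (hh : Per h) : ∃ m : ℕ,
    (∀ n, g (n + 2 ^ m) = g n) ∧ ∀ n, h (n + 2 ^ m) = h n := by
  obtain ⟨m1, h1⟩ := hg
  obtain ⟨m2, h2⟩ := hh
  exact ⟨max m1 m2, per_up h1 (le_max_left _ _), per_up h2 (le_max_right _ _)⟩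

theorem Per.add {g h : ℕ → R} (hg : Per g) (hh : Per h) : Per (fun n => g n + h n) := by
  obtain ⟨m, h1, h2⟩ := Per.two hg hh
  exact ⟨m, fun n => by simp only [h1, h2]⟩

theorem Per.sub {g h : ℕ → R} (hg : Per g) (hh : Per h) : Per (fun n => g n - h n) := by
  obtain ⟨m, h1, h2⟩ := Per.two hg hh
  exact ⟨m, fun n => by simp only [h1, h2]⟩

theorem Per.mul {g h : ℕ → R} (hg : Per g) (hh : Per h) : Per (fun n => g n * h n) := by
  obtain ⟨m, h1, h2⟩ := Per.two hg hh
  exact ⟨m, fun n => by simp only [h1, h2]⟩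

theorem Per.neg {g : ℕ → R} (hg : Per g) : Per (fun n => - g n) := by
  obtain ⟨m, h1⟩ := hg
  exact ⟨m, fun n => by simp only [h1]⟩

theorem Per.const (c : R) : Per (fun _ => c) := ⟨0, fun _ => rfl⟩

theorem Per.shift {g : ℕ → R} (hg : Per g) (k : ℕ) : Per (fun n => g (n + k)) := by
  obtain ⟨m, h1⟩ := hg
  refine ⟨m, fun n => ?_⟩
  show g (n + 2 ^ m + k) = g (n + k)
  rw [show n + 2 ^ m + k = n + k + 2 ^ m by ring, h1]

theorem Per.one {g : ℕ → R} (hg : Per g) : Per1 g := hg.shift 1

theorem Per1.shift {g : ℕ → R} (hg : Per1 g) (k : ℕ) : Per (fun n => g (n + (k + 1))) := by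
  have := Per.shift hg k
  obtain ⟨m, h⟩ := this
  refine ⟨m, fun n => ?_⟩
  have := h n
  simp only at this
  show g (n + 2 ^ m + (k + 1)) = g (n + (k + 1))
  rw [show n + 2 ^ m + (k + 1) = n + 2 ^ m + k + 1 by ring, this]
  congr 1

theorem Per.pow {u : R} (hu : ∃ m : ℕ, u ^ (2 ^ m) = 1) : Per (fun n => u ^ n) := by
  obtain ⟨m, h⟩ := hu
  exact ⟨m, fun n => by simp only [pow_add, h, mul_one]⟩

/-- A sequence with periodic differences. -/
theorem Per.of_diff {K : ℕ} (h2 : ((2 : R) ^ K) = 0) {g d : ℕ → R} (hd : Per d)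
    (hg : ∀ n, g (n + 1) = g n + d n) : Per g := by
  obtain ⟨m, hm⟩ := hd
  have h1 : ∀ n, g (n + 2 ^ m) = g n + (g (0 + 2 ^ m) - g 0) := by
    intro n
    induction n with
    | zero => ring
    | succ n ih =>
      rw [show n + 1 + 2 ^ m = n + 2 ^ m + 1 by ring, hg, ih, hg n, hm n]
      ring
  have h3 : ∀ t n : ℕ, g (n + t * 2 ^ m) = g n + (t : R) * (g (0 + 2 ^ m) - g 0) := by
    intro t
    induction t with
    | zero => intro n; simp
    | succ t ih =>
      intro n
      rw [show n + (t + 1) * 2 ^ m = n + t * 2 ^ m + 2 ^ m by ring, h1, ih]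
      push_cast
      ring
  refine ⟨K + m, fun n => ?_⟩
  rw [pow_add, h3]
  push_cast
  rw [h2]
  ring

theorem Per.choose {K : ℕ} (h2 : ((2 : R) ^ K) = 0) (k : ℕ) :
    Per (fun n => ((n.choose k : ℕ) : R)) := by
  induction k with
  | zero =>
    simp only [Nat.choose_zero_right]
    exact Per.const _
  | succ k ih =>
    apply Per.of_diff h2 ih
    intro n
    rw [Nat.choose_succ_succ]
    push_cast
    ring

/-- Cauchy product. -/
def cv (g h : ℕ → R) (n : ℕ) : R := ∑ p ∈ antidiagonal n, g p.1 * h p.2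

theorem cv_range (g h : ℕ → R) (n : ℕ) : cv g h n = ∑ i ∈ range (n + 1), g i * h (n - i) := by
  unfold cv
  exact Finset.Nat.sum_antidiagonal_eq_sum_range_succ (fun i j => g i * h j) n

theorem Per1.cv {K : ℕ} (h2 : ((2 : R) ^ K) = 0) {g h : ℕ → R} (hg : Per1 g) (hh : Per1 h) :
    Per1 (cv g h) := by
  obtain ⟨m, h3, h4⟩ := Per.two hg hh
  have hP : 0 < 2 ^ m := by positivity
  obtain ⟨P, hPe⟩ : ∃ P, 2 ^ m = P := ⟨_, rfl⟩
  rw [hPe] at h3 h4 hP
  have g1 : ∀ n, 1 ≤ n → g (n + P) = g n := by
    intro n hn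
    obtain ⟨k, rfl⟩ := Nat.exists_eq_add_of_le' hn
    have := h3 k
    rw [show k + 1 + P = k + P + 1 by ring]
    exact this
  have h1 : ∀ n, 1 ≤ n → h (n + P) = h n := by
    intro n hn
    obtain ⟨k, rfl⟩ := Nat.exists_eq_add_of_le' hn
    have := h4 k
    rw [show k + 1 + P = k + P + 1 by ring]
    exact this
  set C : ℕ → R := fun n => ∑ j ∈ range P, g (n + j) * h (P - j) with hC
  have hCp : ∀ n, 1 ≤ n → C (n + P) = C n := by
    intro n hn
    rw [hC]
    simp only
    refine Finset.sum_congr rfl ?_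
    intro j _
    rw [show n + P + j = n + j + P by ring, g1 (n + j) (by omega)]
  have hS : ∀ n, 1 ≤ n → Bz.cv g h (n + P) = Bz.cv g h n + C n := by
    intro n hn
    rw [cv_range, cv_range, Finset.sum_range_succ (fun i => g i * h (n - i)) n, Nat.sub_self,
      show n + P + 1 = n + (P + 1) by ring, Finset.sum_range_add]
    have e1 : ∑ x ∈ range n, g x * h (n + P - x) = ∑ x ∈ range n, g x * h (n - x) := by
      refine Finset.sum_congr rfl ?_
      intro i hi
      rw [mem_range] at hi
      rw [show n + P - i = n - i + P by omega, h1 (n - i) (by omega)]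
    have e2 : ∑ x ∈ range (P + 1), g (n + x) * h (n + P - (n + x)) = C n + g n * h 0 := by
      rw [Finset.sum_range_succ]
      congr 1
      · refine Finset.sum_congr rfl ?_
        intro j _
        rw [show n + P - (n + j) = P - j by omega]
      · rw [show n + P - (n + P) = 0 by omega, g1 n hn]
    rw [e1, e2]
    ring
  have hT : ∀ t n : ℕ, 1 ≤ n → Bz.cv g h (n + t * P) = Bz.cv g h n + (t : R) * C n := by
    intro t
    induction t with
    | zero => intro n _; simp
    | succ t ih =>
      intro n hn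
      have hCt : C (n + t * P) = C n := by
        clear ih
        induction t with
        | zero => simp
        | succ t ih2 =>
          rw [show n + (t + 1) * P = n + t * P + P by ring, hCp _ (by omega), ih2]
      rw [show n + (t + 1) * P = n + t * P + P by ring, hS _ (by omega), ih n hn, hCt]
      push_cast
      ring
  refine ⟨K + m, fun n => ?_⟩
  show Bz.cv g h (n + 2 ^ (K + m) + 1) = Bz.cv g h (n + 1)
  rw [show n + 2 ^ (K + m) + 1 = n + 1 + 2 ^ K * 2 ^ m by rw [pow_add]; ring, hPe,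
    hT _ (n + 1) (by omega)]
  push_cast
  rw [h2]
  ring

/-- Sums over the triangle in terms of natural numbers. -/
theorem S3_nat (m : ℕ) (Φ : ℕ → ℕ → ℕ → R) :
    S3 (m : ℤ) (fun a b g => Φ a.toNat b.toNat g.toNat) =
      ∑ p ∈ antidiagonal m, ∑ p' ∈ antidiagonal p.2, Φ p.1 p'.1 p'.2 := by
  unfold S3
  rw [Finset.sum_sigma']
  symm
  refine Finset.sum_bij (fun x _ => ((x.1.1 : ℤ), (x.2.2 : ℤ))) ?_ ?_ ?_ ?_
  · rintro ⟨⟨p1, p2⟩, ⟨q1, q2⟩⟩ hx
    rw [mem_sigma, HasAntidiagonal.mem_antidiagonal, HasAntidiagonal.mem_antidiagonal] at hx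
    simp only at hx
    rw [mem_Dl]
    unfold InD
    simp only
    omega
  · rintro ⟨⟨p1, p2⟩, ⟨q1, q2⟩⟩ hx ⟨⟨p1', p2'⟩, ⟨q1', q2'⟩⟩ hx' e
    rw [mem_sigma, HasAntidiagonal.mem_antidiagonal, HasAntidiagonal.mem_antidiagonal] at hx hx'
    simp only at hx hx'
    simp only [Prod.mk.injEq] at e
    obtain ⟨e1, e2⟩ := e
    have e3 : p1 = p1' := by omega
    have e4 : q2 = q2' := by omega
    have e5 : p2 = p2' := by omega
    have e6 : q1 = q1' := by omega
    subst e3 e4 e5 e6
    rfl
  · rintro ⟨a, g⟩ hq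
    rw [mem_Dl] at hq
    unfold InD at hq
    simp only at hq
    refine ⟨⟨(a.toNat, m - a.toNat), (m - a.toNat - g.toNat, g.toNat)⟩, ?_, ?_⟩
    · rw [mem_sigma, HasAntidiagonal.mem_antidiagonal, HasAntidiagonal.mem_antidiagonal]
      simp only
      omega
    · simp only [Prod.mk.injEq]
      omega
  · rintro ⟨⟨p1, p2⟩, ⟨q1, q2⟩⟩ hx
    rw [mem_sigma, HasAntidiagonal.mem_antidiagonal, HasAntidiagonal.mem_antidiagonal] at hx
    simp only at hx
    simp only
    congr 1
    omega

/-- Sums of products of one-variable functions over the triangle are periodic. -/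
theorem per_S3 {K : ℕ} (h2 : ((2 : R) ^ K) = 0) {x y z : ℕ → R} (hx : Per1 x) (hy : Per1 y)
    (hz : Per1 z) :
    Per1 (fun m : ℕ => S3 (m : ℤ) (fun a b g => x a.toNat * y b.toNat * z g.toNat)) := by
  have : (fun m : ℕ => S3 (m : ℤ) (fun a b g => x a.toNat * y b.toNat * z g.toNat)) =
      Bz.cv x (Bz.cv y z) := by
    funext m
    rw [S3_nat m (fun a b g => x a * y b * z g)]
    unfold Bz.cv
    refine Finset.sum_congr rfl ?_
    intro p _
    rw [Finset.mul_sum]
    refine Finset.sum_congr rfl ?_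
    intro p' _
    ring
  rw [this]
  exact Per1.cv h2 hx (Per1.cv h2 hy hz)

/-- Functions of two variables that are sums of products. -/
def Qg (R : Type*) [CommRing R] : AddSubgroup (ℕ → ℕ → R) :=
  AddSubgroup.closure {F | ∃ g h : ℕ → R, Per1 g ∧ Per h ∧ F = fun a b => g a * h b}

theorem Qg_pure {g h : ℕ → R} (hg : Per1 g) (hh : Per h) : (fun a b => g a * h b) ∈ Qg R :=
  AddSubgroup.subset_closure ⟨g, h, hg, hh, rfl⟩

theorem Qg_shift {F : ℕ → ℕ → R} (hF : F ∈ Qg R) : (fun a b => F a (b + 1)) ∈ Qg R := by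
  induction hF using AddSubgroup.closure_induction with
  | mem F hF =>
    obtain ⟨g, h, hg, hh, rfl⟩ := hF
    exact Qg_pure hg (hh.shift 1)
  | zero => exact (Qg R).zero_mem
  | add F G _ _ h1 h2 => exact (Qg R).add_mem h1 h2
  | neg F _ h1 => exact (Qg R).neg_mem h1

theorem S3_add (m : ℤ) (Φ Ψ : ℤ → ℤ → ℤ → R) :
    S3 m (fun a b g => Φ a b g + Ψ a b g) = S3 m Φ + S3 m Ψ := by
  unfold S3
  exact Finset.sum_add_distrib

theorem S3_ng (m : ℤ) (Φ : ℤ → ℤ → ℤ → R) :
    S3 m (fun a b g => - Φ a b g) = - S3 m Φ := by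
  unfold S3
  exact Finset.sum_neg_distrib _

theorem per1_add {g h : ℕ → R} (hg : Per1 g) (hh : Per1 h) : Per1 (fun n => g n + h n) :=
  Per.add hg hh

theorem per1_neg {g : ℕ → R} (hg : Per1 g) : Per1 (fun n => - g n) := Per.neg hg

theorem per1_zero : Per1 (fun _ : ℕ => (0 : R)) := Per.const 0

/-- The main periodicity statement, first cyclic order. -/
theorem per_tri {K : ℕ} (h2 : ((2 : R) ^ K) = 0) {F G H : ℕ → ℕ → R} (hF : F ∈ Qg R)
    (hG : G ∈ Qg R) (hH : H ∈ Qg R) :
    Per1 (fun m : ℕ => S3 (m : ℤ) (fun a b g => F a.toNat b.toNat * G b.toNat g.toNat *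
      H g.toNat a.toNat)) := by
  induction hF using AddSubgroup.closure_induction with
  | zero =>
    have : (fun m : ℕ => S3 (m : ℤ) (fun a b g => (0 : ℕ → ℕ → R) a.toNat b.toNat *
        G b.toNat g.toNat * H g.toNat a.toNat)) = fun _ => 0 := by
      funext m
      unfold S3
      simp
    rw [this]
    exact per1_zero
  | add F F' _ _ h1 h3 =>
    have := per1_add h1 h3
    convert this using 2 with m
    rw [← S3_add]
    congr 1
    funext a b g
    simp only [Pi.add_apply]
    ring
  | neg F _ h1 =>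
    have := per1_neg h1
    convert this using 2 with m
    rw [← S3_ng]
    congr 1
    funext a b g
    simp only [Pi.neg_apply]
    ring
  | mem F hF =>
    obtain ⟨f1, f2, hf1, hf2, rfl⟩ := hF
    induction hG using AddSubgroup.closure_induction with
    | zero =>
      have : (fun m : ℕ => S3 (m : ℤ) (fun a b g => f1 a.toNat * f2 b.toNat *
          (0 : ℕ → ℕ → R) b.toNat g.toNat * H g.toNat a.toNat)) = fun _ => 0 := by
        funext m
        unfold S3
        simp
      rw [this]
      exact per1_zero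
    | add G G' _ _ h1 h3 =>
      have := per1_add h1 h3
      convert this using 2 with m
      rw [← S3_add]
      congr 1
      funext a b g
      simp only [Pi.add_apply]
      ring
    | neg G _ h1 =>
      have := per1_neg h1
      convert this using 2 with m
      rw [← S3_ng]
      congr 1
      funext a b g
      simp only [Pi.neg_apply]
      ring
    | mem G hG =>
      obtain ⟨g1, g2, hg1, hg2, rfl⟩ := hG
      induction hH using AddSubgroup.closure_induction with
      | zero =>
        have : (fun m : ℕ => S3 (m : ℤ) (fun a b g => f1 a.toNat * f2 b.toNat *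
            (g1 b.toNat * g2 g.toNat) * (0 : ℕ → ℕ → R) g.toNat a.toNat)) = fun _ => 0 := by
          funext m
          unfold S3
          simp
        rw [this]
        exact per1_zero
      | add H H' _ _ h1 h3 =>
        have := per1_add h1 h3
        convert this using 2 with m
        rw [← S3_add]
        congr 1
        funext a b g
        simp only [Pi.add_apply]
        ring
      | neg H _ h1 =>
        have := per1_neg h1
        convert this using 2 with m
        rw [← S3_ng]
        congr 1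
        funext a b g
        simp only [Pi.neg_apply]
        ring
      | mem H hH =>
        obtain ⟨k1, k2, hk1, hk2, rfl⟩ := hH
        have := per_S3 h2 (x := fun a => f1 a * k2 a) (y := fun b => g1 b * f2 b)
          (z := fun g => k1 g * g2 g) (Per.mul hf1 hk2.one) (Per.mul hg1 hf2.one)
          (Per.mul hk1 hg2.one)
        convert this using 2 with m
        congr 1
        funext a b g
        ring

/-- The main periodicity statement, second cyclic order. -/
theorem per_tri' {K : ℕ} (h2 : ((2 : R) ^ K) = 0) {F G H : ℕ → ℕ → R} (hF : F ∈ Qg R)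
    (hG : G ∈ Qg R) (hH : H ∈ Qg R) :
    Per1 (fun m : ℕ => S3 (m : ℤ) (fun a b g => F g.toNat b.toNat * G a.toNat g.toNat *
      H b.toNat a.toNat)) := by
  have := per_tri h2 hG hF hH
  -- exchange the roles of the last two coordinates
  have hsw : ∀ (m : ℕ) (Φ : ℕ → ℕ → ℕ → R),
      S3 (m : ℤ) (fun a b g => Φ a.toNat b.toNat g.toNat) =
      S3 (m : ℤ) (fun a b g => Φ a.toNat g.toNat b.toNat) := by
    intro m Φ
    rw [S3_nat m Φ, S3_nat m (fun a b g => Φ a g b)]
    refine Finset.sum_congr rfl ?_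
    intro p _
    rw [← Finset.Nat.sum_antidiagonal_swap]
    rfl
  convert this using 2 with m
  rw [hsw m (fun a b g => F g b * G a g * H b a)]
  congr 1
  funext a b g
  ring

end

end Pool.Agent.Q162.Bz
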