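import Pool.Agent.Q162.Benzel.Adic

/-!
Periodicity of the weighted ballot-type numbers and of the tiling sums.
-/

namespace Pool.Agent.Q162.Bz

open Finset Pool.Agent.Q162.Benzel

section
variable {R : Type*} [CommRing R]

/-- Truncated sum for weighted Delannoy numbers. -/
def Sd (c : R) (N i j : ℕ) : R :=
  ∑ k ∈ range N, ((i.choose k : ℕ) : R) * ((j.choose k : ℕ) : R) * c ^ k

theorem Sd_zero_left (c : R) (N j : ℕ) (hN : 1 ≤ N) : Sd c N 0 j = 1 := by
  obtain ⟨n, rfl⟩ := Nat.exists_eq_add_of_le' hN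
  unfold Sd
  rw [Finset.sum_range_succ']
  simp

theorem Sd_zero_right (c : R) (N i : ℕ) (hN : 1 ≤ N) : Sd c N i 0 = 1 := by
  obtain ⟨n, rfl⟩ := Nat.exists_eq_add_of_le' hN
  unfold Sd
  rw [Finset.sum_range_succ']
  simp

theorem Sd_succ (c : R) (N i j : ℕ) (hN : 1 ≤ N) (hc : c ^ N = 0) :
    Sd c N (i + 1) (j + 1) = Sd c N i (j + 1) + Sd c N (i + 1) j + (c - 1) * Sd c N i j := by
  obtain ⟨n, rfl⟩ := Nat.exists_eq_add_of_le' hN
  have e : ∀ i j : ℕ, Sd c (n + 1) i j = ∑ k ∈ range n, ((i.choose (k + 1) : ℕ) : R) *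
      ((j.choose (k + 1) : ℕ) : R) * c ^ (k + 1) + 1 := by
    intro i j
    unfold Sd
    rw [Finset.sum_range_succ']
    simp
  have e' : c * Sd c (n + 1) i j = ∑ k ∈ range n, ((i.choose k : ℕ) : R) *
      ((j.choose k : ℕ) : R) * c ^ (k + 1) := by
    unfold Sd
    rw [Finset.sum_range_succ, mul_add, Finset.mul_sum]
    have : c * (((i.choose n : ℕ) : R) * ((j.choose n : ℕ) : R) * c ^ n) = 0 := by
      rw [show c * (((i.choose n : ℕ) : R) * ((j.choose n : ℕ) : R) * c ^ n) =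
        ((i.choose n : ℕ) : R) * ((j.choose n : ℕ) : R) * c ^ (n + 1) by ring, hc, mul_zero]
    rw [this, add_zero]
    refine Finset.sum_congr rfl ?_
    intro k _
    ring
  have e2 : (c - 1) * Sd c (n + 1) i j = c * Sd c (n + 1) i j - Sd c (n + 1) i j := by ring
  rw [e2, e', e (i + 1) (j + 1), e i (j + 1), e (i + 1) j, e i j]
  have e3 : ∑ k ∈ range n, (((i + 1).choose (k + 1) : ℕ) : R) *
      (((j + 1).choose (k + 1) : ℕ) : R) * c ^ (k + 1) =
      ∑ k ∈ range n, (((i.choose (k + 1) : ℕ) : R) * (((j + 1).choose (k + 1) : ℕ) : R) *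
        c ^ (k + 1) + (((i + 1).choose (k + 1) : ℕ) : R) * ((j.choose (k + 1) : ℕ) : R) *
        c ^ (k + 1) - ((i.choose (k + 1) : ℕ) : R) * ((j.choose (k + 1) : ℕ) : R) *
        c ^ (k + 1) + ((i.choose k : ℕ) : R) * ((j.choose k : ℕ) : R) * c ^ (k + 1)) := by
    refine Finset.sum_congr rfl ?_
    intro k _
    rw [Nat.choose_succ_succ i k, Nat.choose_succ_succ j k]
    push_cast
    ring
  rw [e3, Finset.sum_add_distrib, Finset.sum_sub_distrib, Finset.sum_add_distrib]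
  ring

theorem del_closed (u c : R) (N : ℕ) (hN : 1 ≤ N) (hc : c ^ N = 0) : ∀ n i j : ℕ, i + j ≤ n →
    del u ((c - 1) * u ^ 2) i j = u ^ (i + j) * Sd c N i j := by
  intro n
  induction n with
  | zero =>
    intro i j h
    have hi : i = 0 := by omega
    have hj : j = 0 := by omega
    subst hi hj
    rw [del, Sd_zero_left c N 0 hN]
    simp
  | succ n ih =>
    intro i j h
    rcases i with _ | i <;> rcases j with _ | j
    · rw [del, Sd_zero_left c N 0 hN]
      simp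
    · rw [del, ih 0 j (by omega), Sd_zero_left c N _ hN, Sd_zero_left c N _ hN]
      ring
    · rw [del, ih i 0 (by omega), Sd_zero_right c N _ hN, Sd_zero_right c N _ hN]
      ring
    · rw [del, ih i (j + 1) (by omega), ih (i + 1) j (by omega), ih i j (by omega),
        Sd_succ c N i j hN hc]
      ring

theorem fb_mem (u c v : R) (hv : v = (c - 1) * u ^ 2) (N K : ℕ) (hN : 1 ≤ N) (hc : c ^ N = 0)
    (h2 : ((2 : R) ^ K) = 0) (hu : ∃ m : ℕ, u ^ (2 ^ m) = 1) :
    (fun a b : ℕ => fb u v (a : ℤ) (b : ℤ)) ∈ Qg R := by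
  have hpu : Per (fun n => u ^ n) := Per.pow hu
  have hpc : ∀ k, Per (fun n => ((n.choose k : ℕ) : R)) := fun k => Per.choose h2 k
  have h1 : (fun a b : ℕ => del u v a (a + b)) ∈ Qg R := by
    have : (fun a b : ℕ => del u v a (a + b)) = ∑ k ∈ range N, ∑ p ∈ antidiagonal k,
        fun a b : ℕ => (u ^ a * u ^ a * ((a.choose k : ℕ) : R) * ((a.choose p.1 : ℕ) : R) * c ^ k) *
          (u ^ b * ((b.choose p.2 : ℕ) : R)) := by
      funext a b
      rw [hv, del_closed u c N hN hc _ a (a + b) le_rfl]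
      simp only [Finset.sum_apply]
      unfold Sd
      rw [Finset.mul_sum]
      refine Finset.sum_congr rfl ?_
      intro k _
      rw [Nat.add_choose_eq]
      push_cast
      rw [Finset.mul_sum, Finset.sum_mul, Finset.mul_sum]
      refine Finset.sum_congr rfl ?_
      intro p _
      ring
    rw [this]
    refine AddSubgroup.sum_mem _ ?_
    intro k _
    refine AddSubgroup.sum_mem _ ?_
    intro p _
    apply Qg_pure
    · exact ((((hpu.mul hpu).mul (hpc k)).mul (hpc p.1)).mul (Per.const _)).one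
    · exact hpu.mul (hpc p.2)
  have h3 : (fun a b : ℕ => if a = 0 then 0 else del u v (a - 1) (a + b + 1)) ∈ Qg R := by
    have : (fun a b : ℕ => if a = 0 then 0 else del u v (a - 1) (a + b + 1)) =
        ∑ k ∈ range N, ∑ p ∈ antidiagonal k,
        fun a b : ℕ => (if a = 0 then 0 else (u ^ (a - 1) * u ^ (a + 1) *
          (((a - 1).choose k : ℕ) : R) * (((a + 1).choose p.1 : ℕ) : R) * c ^ k)) *
          (u ^ b * ((b.choose p.2 : ℕ) : R)) := by
      funext a b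
      simp only [Finset.sum_apply]
      by_cases ha : a = 0
      · simp [ha]
      · simp only [if_neg ha]
        rw [hv, del_closed u c N hN hc _ (a - 1) (a + b + 1) le_rfl]
        unfold Sd
        rw [Finset.mul_sum]
        refine Finset.sum_congr rfl ?_
        intro k _
        rw [show a + b + 1 = a + 1 + b by ring, Nat.add_choose_eq]
        push_cast
        rw [Finset.mul_sum, Finset.sum_mul, Finset.mul_sum]
        refine Finset.sum_congr rfl ?_
        intro p _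
        ring
    rw [this]
    refine AddSubgroup.sum_mem _ ?_
    intro k _
    refine AddSubgroup.sum_mem _ ?_
    intro p _
    apply Qg_pure
    · unfold Per1
      simp only [Nat.add_eq_zero_iff, one_ne_zero, and_false, if_false, Nat.add_sub_cancel]
      exact ((((hpu.mul (hpu.shift 2)).mul (hpc k)).mul ((hpc p.1).shift 2)).mul (Per.const _))
    · exact hpu.mul (hpc p.2)
  have h4 : (fun a b : ℕ => fb u v (a : ℤ) (b : ℤ)) = (fun a b : ℕ => del u v a (a + b)) -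
      (fun a b : ℕ => if a = 0 then 0 else del u v (a - 1) (a + b + 1)) := by
    funext a b
    simp only [Pi.sub_apply]
    unfold fb
    have e1 : (a : ℤ) + (b : ℤ) = ((a + b : ℕ) : ℤ) := by push_cast; ring
    rw [e1, Dz_nat]
    congr 1
    by_cases ha : a = 0
    · subst ha
      rw [if_pos rfl, Dz_neg u v (Or.inl (by simp))]
    · rw [if_neg ha]
      have e2 : (a : ℤ) - 1 = ((a - 1 : ℕ) : ℤ) := by omega
      have e3 : ((a + b : ℕ) : ℤ) + 1 = ((a + b + 1 : ℕ) : ℤ) := by push_cast; ring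
      rw [e2, e3, Dz_nat]
  rw [h4]
  exact AddSubgroup.sub_mem _ h1 h3

/-- In terms of integer arguments. -/
theorem S3_toNat (m : ℤ) (Φ : ℤ → ℤ → ℤ → R) :
    S3 m Φ = S3 m (fun a b g => Φ (a.toNat : ℤ) (b.toNat : ℤ) (g.toNat : ℤ)) := by
  unfold S3
  refine Finset.sum_congr rfl ?_
  intro q hq
  rw [mem_Dl] at hq
  unfold InD at hq
  simp only []
  rw [Int.toNat_of_nonneg hq.1, Int.toNat_of_nonneg hq.2.1, Int.toNat_of_nonneg (by omega)]

/-- Cardinalities of the triangles. -/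
theorem card_per (k : ℕ) : ∃ m : ℕ, ∀ n, (Dl (((n + 2 ^ m + 1 : ℕ)) : ℤ)).card ≡
    (Dl (((n + 1 : ℕ)) : ℤ)).card [MOD 2 ^ k] := by
  have h2 : ((2 : ZMod (2 ^ k)) ^ k) = 0 := by
    have : ((2 ^ k : ℕ) : ZMod (2 ^ k)) = 0 := ZMod.natCast_self _
    push_cast at this
    exact this
  have := per_S3 (R := ZMod (2 ^ k)) h2 (x := fun _ => 1) (y := fun _ => 1) (z := fun _ => 1)
    (Per.const 1) (Per.const 1) (Per.const 1)
  obtain ⟨m, hm⟩ := this
  refine ⟨m, fun n => ?_⟩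
  have := hm n
  simp only [mul_one] at this
  unfold S3 at this
  simp only [Finset.sum_const, nsmul_eq_mul, mul_one] at this
  exact (ZMod.natCast_eq_natCast_iff _ _ _).1 this

theorem pow_card_per {r : R} (hr : ∃ m : ℕ, r ^ (2 ^ m) = 1) :
    Per1 (fun n : ℕ => r ^ (Dl (n : ℤ)).card) := by
  obtain ⟨k, hk⟩ := hr
  obtain ⟨m, hm⟩ := card_per k
  refine ⟨m, fun n => ?_⟩
  simp only
  have h := hm n
  have hmod : ∀ a : ℕ, r ^ a = r ^ (a % 2 ^ k) := by
    intro a
    conv_lhs => rw [← Nat.div_add_mod a (2 ^ k), pow_add, pow_mul, hk, one_pow, one_mul]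
  rw [hmod, hmod (Dl (((n + 1 : ℕ)) : ℤ)).card]
  congr 1

theorem card_pos_Dl (M : ℤ) (hM : 1 ≤ M) : 3 ≤ (Dl M).card := by
  have : (({(0, 0), (1, 0), (0, 1)} : Finset (ℤ × ℤ))).card = 3 := by decide
  rw [← this]
  apply Finset.card_le_card
  intro q hq
  rw [mem_insert, mem_insert, mem_singleton] at hq
  rw [mem_Dl]
  unfold InD
  rcases hq with rfl | rfl | rfl <;> simp only <;> omega

/-- Periodicity of the tiling sums of the larger family. -/
theorem per_three (W : Finset Cell → R) (r r' v : R) (hrr : r * r' = 1) (hW : Wt W r v (fun _ => 1))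
    (c : R) (hv : r' * v = (c - 1) * r' ^ 2) (N K : ℕ) (hN : 1 ≤ N) (hc : c ^ N = 0)
    (h2 : ((2 : R) ^ K) = 0) (hr : ∃ m : ℕ, r ^ (2 ^ m) = 1) :
    Per (fun n : ℕ => Z Proto113 W ((Reg ((n + 2 : ℕ) : ℤ) 0).map (phE ((n + 2 : ℕ) : ℤ)))) := by
  have hr' : ∃ m : ℕ, r' ^ (2 ^ m) = 1 := by
    obtain ⟨m, hm⟩ := hr
    refine ⟨m, ?_⟩
    have : (r * r') ^ (2 ^ m) = 1 := by rw [hrr, one_pow]
    rw [mul_pow, hm, one_mul] at this
    exact this
  have hF := fb_mem r' c (r' * v) hv N K hN hc h2 hr'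
  have hFs := Qg_shift hF
  have pA := per_tri h2 hF hF hF
  have pB := per_tri h2 hF hFs hF
  have pC := per_tri h2 hF hF hFs
  have pD := per_tri h2 hFs hF hF
  have pP := pow_card_per hr
  have key : (fun n : ℕ => Z Proto113 W ((Reg ((n + 2 : ℕ) : ℤ) 0).map
      (phE ((n + 2 : ℕ) : ℤ)))) = fun n : ℕ =>
      (r' * r ^ (Dl ((n + (1 + 1) : ℕ) : ℤ)).card) * (
      S3 ((n + (1 + 1) : ℕ) : ℤ) (fun a b g => fb r' (r' * v) (a.toNat : ℤ) (b.toNat : ℤ) *
        fb r' (r' * v) (b.toNat : ℤ) (g.toNat : ℤ) *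
        fb r' (r' * v) (g.toNat : ℤ) (a.toNat : ℤ)) -
      (r' * r') * S3 ((n + (0 + 1) : ℕ) : ℤ) (fun a b g =>
        fb r' (r' * v) (a.toNat : ℤ) (b.toNat : ℤ) *
        fb r' (r' * v) (b.toNat : ℤ) ((g.toNat + 1 : ℕ) : ℤ) *
        fb r' (r' * v) (g.toNat : ℤ) (a.toNat : ℤ)) -
      (r' * r') * S3 ((n + (0 + 1) : ℕ) : ℤ) (fun a b g =>
        fb r' (r' * v) (a.toNat : ℤ) (b.toNat : ℤ) *
        fb r' (r' * v) (b.toNat : ℤ) (g.toNat : ℤ) *
        fb r' (r' * v) (g.toNat : ℤ) ((a.toNat + 1 : ℕ) : ℤ)) -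
      (r' * r') * S3 ((n + (0 + 1) : ℕ) : ℤ) (fun a b g =>
        fb r' (r' * v) (a.toNat : ℤ) ((b.toNat + 1 : ℕ) : ℤ) *
        fb r' (r' * v) (b.toNat : ℤ) (g.toNat : ℤ) *
        fb r' (r' * v) (g.toNat : ℤ) (a.toNat : ℤ))) := by
    funext n
    rw [bz3 ((n + 2 : ℕ) : ℤ) (by omega) W r r' v (fun _ => 1) hrr hW
      (fun _ a c => fb r' (r' * v) a c) (by intro t a c; simp)]
    have hcard := card_pos_Dl ((n + 2 : ℕ) : ℤ) (by omega)
    have e0 : r ^ ((Dl ((n + 2 : ℕ) : ℤ)).card - 1) = r' * r ^ (Dl ((n + (1 + 1) : ℕ) : ℤ)).card := by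
      obtain ⟨d, hd⟩ : ∃ d, (Dl ((n + 2 : ℕ) : ℤ)).card = d + 1 :=
        ⟨(Dl ((n + 2 : ℕ) : ℤ)).card - 1, by omega⟩
      rw [show (n + (1 + 1) : ℕ) = n + 2 by ring, hd, Nat.add_sub_cancel, pow_succ]
      linear_combination (-(r ^ d)) * hrr
    rw [e0]
    simp only [mul_one]
    congr 1
    have e1 : ((n + 2 : ℕ) : ℤ) - 1 = ((n + (0 + 1) : ℕ) : ℤ) := by push_cast; ring
    rw [e1, show (n + (1 + 1) : ℕ) = n + 2 by ring]
    rw [S3_toNat ((n + 2 : ℕ) : ℤ)]
    rw [S3_toNat ((n + (0 + 1) : ℕ) : ℤ) (fun a b g => fb r' (r' * v) a b *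
      fb r' (r' * v) b (g + 1) * fb r' (r' * v) g a)]
    rw [S3_toNat ((n + (0 + 1) : ℕ) : ℤ) (fun a b g => fb r' (r' * v) a b *
      fb r' (r' * v) b g * fb r' (r' * v) g (a + 1))]
    rw [S3_toNat ((n + (0 + 1) : ℕ) : ℤ) (fun a b g => fb r' (r' * v) a (b + 1) *
      fb r' (r' * v) b g * fb r' (r' * v) g a)]
    push_cast
    rfl
  rw [key]
  exact ((Per.const r').mul (pP.shift 1)).mul
    ((((pA.shift 1).sub ((Per.const (r' * r')).mul (pB.shift 0))).sub
      ((Per.const (r' * r')).mul (pC.shift 0))).sub ((Per.const (r' * r')).mul (pD.shift 0)))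

end

end Pool.Agent.Q162.Bz
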