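import Pool.Agent.Q162.Benzel.Adic2

/-!
Periodicity of the tiling sums of the smaller family, and of the stone-weighted tiling counts.
-/

namespace Pool.Agent.Q162.Bz

open Finset Pool.Agent.Q162.Benzel

section
variable {R : Type*} [CommRing R]

/-- Periodicity of the tiling sums of the smaller family. -/
theorem per_four (W : Finset Cell → R) (r r' v : R) (hrr : r * r' = 1) (hW : Wt W r v (fun _ => 1))
    (c : R) (hv : r' * v = (c - 1) * r' ^ 2) (N K : ℕ) (hN : 1 ≤ N) (hc : c ^ N = 0)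
    (h2 : ((2 : R) ^ K) = 0) (hr : ∃ m : ℕ, r ^ (2 ^ m) = 1) :
    Per (fun n : ℕ => Z Proto113 W ((Reg ((n + 3 : ℕ) : ℤ) 1).map (phE ((n + 3 : ℕ) : ℤ)))) := by
  have hr' : ∃ m : ℕ, r' ^ (2 ^ m) = 1 := by
    obtain ⟨m, hm⟩ := hr
    refine ⟨m, ?_⟩
    have : (r * r') ^ (2 ^ m) = 1 := by rw [hrr, one_pow]
    rw [mul_pow, hm, one_mul] at this
    exact this
  have hF := fb_mem r' c (r' * v) hv N K hN hc h2 hr'
  have hFs := Qg_shift hF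
  have pA := per_tri' h2 hFs hFs hFs
  have pB := per_tri' h2 hF hF hF
  have pC := per_tri' h2 hF hFs hFs
  have pD := per_tri' h2 hFs hF hFs
  have pE := per_tri' h2 hFs hFs hF
  have pP := pow_card_per hr
  have key : (fun n : ℕ => Z Proto113 W ((Reg ((n + 3 : ℕ) : ℤ) 1).map
      (phE ((n + 3 : ℕ) : ℤ)))) = fun n : ℕ =>
      (r' ^ 3 * r ^ (Dl ((n + (2 + 1) : ℕ) : ℤ)).card) * (
      r * S3 ((n + (0 + 1) : ℕ) : ℤ) (fun a b g =>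
        fb r' (r' * v) (g.toNat : ℤ) ((b.toNat + 1 : ℕ) : ℤ) *
        fb r' (r' * v) (a.toNat : ℤ) ((g.toNat + 1 : ℕ) : ℤ) *
        fb r' (r' * v) (b.toNat : ℤ) ((a.toNat + 1 : ℕ) : ℤ)) +
      r * S3 ((n + (1 + 1) : ℕ) : ℤ) (fun a b g =>
        fb r' (r' * v) (g.toNat : ℤ) (b.toNat : ℤ) *
        fb r' (r' * v) (a.toNat : ℤ) (g.toNat : ℤ) *
        fb r' (r' * v) (b.toNat : ℤ) (a.toNat : ℤ)) +
      S3 ((n + (0 + 1) : ℕ) : ℤ) (fun a b g =>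
        fb r' (r' * v) (g.toNat : ℤ) (b.toNat : ℤ) *
        fb r' (r' * v) (a.toNat : ℤ) ((g.toNat + 1 : ℕ) : ℤ) *
        fb r' (r' * v) (b.toNat : ℤ) ((a.toNat + 1 : ℕ) : ℤ)) +
      S3 ((n + (0 + 1) : ℕ) : ℤ) (fun a b g =>
        fb r' (r' * v) (g.toNat : ℤ) ((b.toNat + 1 : ℕ) : ℤ) *
        fb r' (r' * v) (a.toNat : ℤ) (g.toNat : ℤ) *
        fb r' (r' * v) (b.toNat : ℤ) ((a.toNat + 1 : ℕ) : ℤ)) +
      S3 ((n + (0 + 1) : ℕ) : ℤ) (fun a b g =>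
        fb r' (r' * v) (g.toNat : ℤ) ((b.toNat + 1 : ℕ) : ℤ) *
        fb r' (r' * v) (a.toNat : ℤ) ((g.toNat + 1 : ℕ) : ℤ) *
        fb r' (r' * v) (b.toNat : ℤ) (a.toNat : ℤ))) := by
    funext n
    rw [bz4 ((n + 3 : ℕ) : ℤ) (by omega) W r r' v (fun _ => 1) hrr hW
      (fun _ a c => fb r' (r' * v) a c) (by intro t a c; simp)]
    have hcard := card_pos_Dl ((n + 3 : ℕ) : ℤ) (by omega)
    have e0 : r ^ ((Dl ((n + 3 : ℕ) : ℤ)).card - 3) =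
        r' ^ 3 * r ^ (Dl ((n + (2 + 1) : ℕ) : ℤ)).card := by
      obtain ⟨d, hd⟩ : ∃ d, (Dl ((n + 3 : ℕ) : ℤ)).card = d + 3 :=
        ⟨(Dl ((n + 3 : ℕ) : ℤ)).card - 3, by omega⟩
      rw [show (n + (2 + 1) : ℕ) = n + 3 by ring, hd, Nat.add_sub_cancel, pow_add]
      have h3 : r' ^ 3 * (r ^ d * r ^ 3) = r ^ d * (r * r') ^ 3 := by ring
      rw [h3, hrr, one_pow, mul_one]
    rw [e0]
    simp only [one_mul]
    congr 1
    have e1 : ((n + 3 : ℕ) : ℤ) - 1 = ((n + (1 + 1) : ℕ) : ℤ) := by push_cast; ring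
    have e2 : ((n + 3 : ℕ) : ℤ) - 2 = ((n + (0 + 1) : ℕ) : ℤ) := by push_cast; ring
    rw [e1, e2]
    rw [S3_toNat ((n + (0 + 1) : ℕ) : ℤ) (fun a b g => fb r' (r' * v) g (b + 1) *
      fb r' (r' * v) a (g + 1) * fb r' (r' * v) b (a + 1))]
    rw [S3_toNat ((n + (1 + 1) : ℕ) : ℤ) (fun a b g => fb r' (r' * v) g b *
      fb r' (r' * v) a g * fb r' (r' * v) b a)]
    rw [S3_toNat ((n + (0 + 1) : ℕ) : ℤ) (fun a b g => fb r' (r' * v) g b *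
      fb r' (r' * v) a (g + 1) * fb r' (r' * v) b (a + 1))]
    rw [S3_toNat ((n + (0 + 1) : ℕ) : ℤ) (fun a b g => fb r' (r' * v) g (b + 1) *
      fb r' (r' * v) a g * fb r' (r' * v) b (a + 1))]
    rw [S3_toNat ((n + (0 + 1) : ℕ) : ℤ) (fun a b g => fb r' (r' * v) g (b + 1) *
      fb r' (r' * v) a (g + 1) * fb r' (r' * v) b a)]
    push_cast
    rfl
  rw [key]
  exact ((Per.const (r' ^ 3)).mul (pP.shift 2)).mul
    ((((((Per.const r).mul (pA.shift 0)).add ((Per.const r).mul (pB.shift 1))).add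
      (pC.shift 0)).add (pD.shift 0)).add (pE.shift 0))

end

section

open Classical in
/-- Weight `q` for stones and `1` for bones. -/
noncomputable def sw (R : Type*) [CommRing R] (q : ℕ) (T : Finset Cell) : R :=
  if IsRightStone T ∨ IsLeftStone T then (q : R) else 1

theorem wt_sw (R : Type*) [CommRing R] (q : ℕ) :
    Wt (sw R q) (q : R) (q : R) (fun _ => 1) := by
  refine ⟨?_, ?_, ?_⟩
  · intro T hT
    exact if_pos (Or.inl hT)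
  · intro T hT
    exact if_pos (Or.inr hT)
  · intro i T hT
    refine if_neg ?_
    rintro (h | h)
    · exact not_right_bone i h hT
    · exact not_left_bone i h hT

open Classical in
theorem T113w_eq (R : Type*) [CommRing R] (q : ℕ) (M κ : ℤ) (hκ : κ = 0 ∨ κ = 1) (hM : 1 ≤ M) :
    ((T113w (M + 2) (2 * M + 1 - κ) q : ℕ) : R) =
      Z Proto113 (sw R q) ((Reg M κ).map (phE M)) := by
  unfold T113w
  rw [tilings_eq _ M κ hκ hM, finsum_mem_coe_finset]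
  unfold Z
  push_cast
  refine Finset.sum_congr rfl ?_
  intro P _
  unfold sw stones
  rw [Finset.prod_ite]
  simp

theorem T113_eq_w (a b : ℤ) (h : {P | IsTiling Proto113 (benzel a b) P}.Finite) :
    T113 a b = T113w a b 1 := by
  unfold T113 T113w
  simp only [one_pow]
  rw [finsum_mem_eq_finite_toFinset_sum _ h, Finset.sum_const, smul_eq_mul, mul_one,
    Set.ncard_eq_toFinset_card _ h]

theorem odd_pow_one {q : ℕ} (hq : Odd q) (k : ℕ) (hk : 1 ≤ k) :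
    ∃ m : ℕ, ((q : ℕ) : ZMod (2 ^ k)) ^ (2 ^ m) = 1 := by
  have hcop : q.Coprime (2 ^ k) := Nat.Coprime.pow_right k (Nat.coprime_two_right.2 hq)
  refine ⟨k - 1, ?_⟩
  have h := ZMod.pow_totient (ZMod.unitOfCoprime q hcop)
  rw [Nat.totient_prime_pow Nat.prime_two (by omega)] at h
  have h' := congrArg (fun x : (ZMod (2 ^ k))ˣ => (x : ZMod (2 ^ k))) h
  simpa using h'

theorem two_pow_zero (k : ℕ) : ((2 : ZMod (2 ^ k)) ^ k) = 0 := by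
  have : ((2 ^ k : ℕ) : ZMod (2 ^ k)) = 0 := ZMod.natCast_self _
  push_cast at this
  exact this

/-- The periodicity statement in the shape used in the problems. -/
theorem per_modEq' {k : ℕ} {g : ℕ → ℕ} (h : Per (fun n : ℕ => ((g n : ℕ) : ZMod (2 ^ k)))) :
    ∃ m : ℕ, ∀ n n' : ℕ, n ≡ n' [MOD 2 ^ m] → g n ≡ g n' [MOD 2 ^ k] := by
  obtain ⟨m, hm⟩ := h
  refine ⟨m, fun n n' hn => ?_⟩
  have := per_modEq (g := fun n : ℕ => ((g n : ℕ) : ZMod (2 ^ k))) hm hn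
  exact (ZMod.natCast_eq_natCast_iff _ _ _).1 this

theorem adic_data {q : ℕ} (hq : Odd q) (k : ℕ) :
    ∃ r' c : ZMod (2 ^ k), (q : ZMod (2 ^ k)) * r' = 1 ∧
      r' * (q : ZMod (2 ^ k)) = (c - 1) * r' ^ 2 ∧ c ^ k = 0 := by
  have hcop : q.Coprime (2 ^ k) := Nat.Coprime.pow_right k (Nat.coprime_two_right.2 hq)
  refine ⟨((ZMod.unitOfCoprime q hcop)⁻¹ : (ZMod (2 ^ k))ˣ), 1 + (q : ZMod (2 ^ k)) ^ 2, ?_, ?_,
    ?_⟩
  · have := (ZMod.unitOfCoprime q hcop).mul_inv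
    rwa [ZMod.coe_unitOfCoprime] at this
  · have h1 := (ZMod.unitOfCoprime q hcop).mul_inv
    rw [ZMod.coe_unitOfCoprime] at h1
    set s : ZMod (2 ^ k) := (((ZMod.unitOfCoprime q hcop)⁻¹ : (ZMod (2 ^ k))ˣ) : ZMod (2 ^ k))
    have : (1 + (q : ZMod (2 ^ k)) ^ 2 - 1) * s ^ 2 = (q * s) ^ 2 := by ring
    rw [this, h1, one_pow, mul_comm, h1]
  · obtain ⟨t, rfl⟩ := hq
    have : (1 + ((2 * t + 1 : ℕ) : ZMod (2 ^ k)) ^ 2) = 2 * (2 * t ^ 2 + 2 * t + 1) := by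
      push_cast
      ring
    rw [this, mul_pow, two_pow_zero, zero_mul]

/-- The stone-weighted counts of the larger family, for odd weights. -/
theorem adic_larger {q : ℕ} (hq : Odd q) (k : ℕ) (hk : 1 ≤ k) :
    ∃ m : ℕ, ∀ n n' : ℕ, 4 ≤ n → 4 ≤ n' → n ≡ n' [MOD 2 ^ m] →
      T113w (n : ℤ) (2 * (n : ℤ) - 3) q ≡ T113w (n' : ℤ) (2 * (n' : ℤ) - 3) q [MOD 2 ^ k] := by
  obtain ⟨r', c, h1, h2, h3⟩ := adic_data hq k
  have hp := per_three (sw (ZMod (2 ^ k)) q) (q : ZMod (2 ^ k)) r' q h1 (wt_sw _ q) c h2 k k hk h3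
    (two_pow_zero k) (odd_pow_one hq k hk)
  have he : (fun n : ℕ => Z Proto113 (sw (ZMod (2 ^ k)) q) ((Reg ((n + 2 : ℕ) : ℤ) 0).map
      (phE ((n + 2 : ℕ) : ℤ)))) = fun n : ℕ =>
      ((T113w ((n + 4 : ℕ) : ℤ) (2 * ((n + 4 : ℕ) : ℤ) - 3) q : ℕ) : ZMod (2 ^ k)) := by
    funext n
    rw [← T113w_eq (ZMod (2 ^ k)) q ((n + 2 : ℕ) : ℤ) 0 (Or.inl rfl) (by omega)]
    congr 2
    push_cast
    ring
  rw [he] at hp
  obtain ⟨m, hm⟩ := per_modEq' hp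
  refine ⟨m, fun n n' hn hn' hnn => ?_⟩
  obtain ⟨a, rfl⟩ := Nat.exists_eq_add_of_le' hn
  obtain ⟨b, rfl⟩ := Nat.exists_eq_add_of_le' hn'
  exact hm a b (Nat.ModEq.add_right_cancel' 4 hnn)

/-- The stone-weighted counts of the smaller family, for odd weights. -/
theorem adic_smaller {q : ℕ} (hq : Odd q) (k : ℕ) (hk : 1 ≤ k) :
    ∃ m : ℕ, ∀ n n' : ℕ, 5 ≤ n → 5 ≤ n' → n ≡ n' [MOD 2 ^ m] →
      T113w (n : ℤ) (2 * (n : ℤ) - 4) q ≡ T113w (n' : ℤ) (2 * (n' : ℤ) - 4) q [MOD 2 ^ k] := by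
  obtain ⟨r', c, h1, h2, h3⟩ := adic_data hq k
  have hp := per_four (sw (ZMod (2 ^ k)) q) (q : ZMod (2 ^ k)) r' q h1 (wt_sw _ q) c h2 k k hk h3
    (two_pow_zero k) (odd_pow_one hq k hk)
  have he : (fun n : ℕ => Z Proto113 (sw (ZMod (2 ^ k)) q) ((Reg ((n + 3 : ℕ) : ℤ) 1).map
      (phE ((n + 3 : ℕ) : ℤ)))) = fun n : ℕ =>
      ((T113w ((n + 5 : ℕ) : ℤ) (2 * ((n + 5 : ℕ) : ℤ) - 4) q : ℕ) : ZMod (2 ^ k)) := by
    funext n
    rw [← T113w_eq (ZMod (2 ^ k)) q ((n + 3 : ℕ) : ℤ) 1 (Or.inr rfl) (by omega)]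
    congr 2
    push_cast
    ring
  rw [he] at hp
  obtain ⟨m, hm⟩ := per_modEq' hp
  refine ⟨m, fun n n' hn hn' hnn => ?_⟩
  obtain ⟨a, rfl⟩ := Nat.exists_eq_add_of_le' hn
  obtain ⟨b, rfl⟩ := Nat.exists_eq_add_of_le' hn'
  exact hm a b (Nat.ModEq.add_right_cancel' 5 hnn)

theorem fin_larger (n : ℕ) (hn : 4 ≤ n) :
    {P | IsTiling Proto113 (benzel (n : ℤ) (2 * (n : ℤ) - 3)) P}.Finite := by
  have := tilings_eq Proto113 ((n : ℤ) - 2) 0 (Or.inl rfl) (by omega)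
  rw [show (n : ℤ) - 2 + 2 = n by ring, show 2 * ((n : ℤ) - 2) + 1 - 0 = 2 * (n : ℤ) - 3 by ring]
    at this
  rw [this]
  exact Finset.finite_toSet _

theorem fin_smaller (n : ℕ) (hn : 5 ≤ n) :
    {P | IsTiling Proto113 (benzel (n : ℤ) (2 * (n : ℤ) - 4)) P}.Finite := by
  have := tilings_eq Proto113 ((n : ℤ) - 2) 1 (Or.inr rfl) (by omega)
  rw [show (n : ℤ) - 2 + 2 = n by ring, show 2 * ((n : ℤ) - 2) + 1 - 1 = 2 * (n : ℤ) - 4 by ring]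
    at this
  rw [this]
  exact Finset.finite_toSet _

/-- The unweighted counts of the larger family. -/
theorem adic_larger_one (k : ℕ) (hk : 1 ≤ k) :
    ∃ m : ℕ, ∀ n n' : ℕ, 4 ≤ n → 4 ≤ n' → n ≡ n' [MOD 2 ^ m] →
      T113 (n : ℤ) (2 * (n : ℤ) - 3) ≡ T113 (n' : ℤ) (2 * (n' : ℤ) - 3) [MOD 2 ^ k] := by
  obtain ⟨m, hm⟩ := adic_larger (q := 1) odd_one k hk
  refine ⟨m, fun n n' hn hn' hnn => ?_⟩
  rw [T113_eq_w _ _ (fin_larger n hn), T113_eq_w _ _ (fin_larger n' hn')]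
  exact hm n n' hn hn' hnn

/-- The unweighted counts of the smaller family. -/
theorem adic_smaller_one (k : ℕ) (hk : 1 ≤ k) :
    ∃ m : ℕ, ∀ n n' : ℕ, 5 ≤ n → 5 ≤ n' → n ≡ n' [MOD 2 ^ m] →
      T113 (n : ℤ) (2 * (n : ℤ) - 4) ≡ T113 (n' : ℤ) (2 * (n' : ℤ) - 4) [MOD 2 ^ k] := by
  obtain ⟨m, hm⟩ := adic_smaller (q := 1) odd_one k hk
  refine ⟨m, fun n n' hn hn' hnn => ?_⟩
  rw [T113_eq_w _ _ (fin_smaller n hn), T113_eq_w _ _ (fin_smaller n' hn')]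
  exact hm n n' hn hn' hnn

end

end Pool.Agent.Q162.Bz
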