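import Mathlib

/-!
Weighted Delannoy numbers and the reflected differences that count paths in a half plane.
-/

namespace Pool.Agent.Q162.Bz

variable {K : Type*} [CommRing K]

/-- Weighted Delannoy numbers: unit steps have weight `u`, diagonal steps weight `v`. -/
def del (u v : K) : ℕ → ℕ → K
  | 0, 0 => 1
  | 0, j + 1 => u * del u v 0 j
  | i + 1, 0 => u * del u v i 0
  | i + 1, j + 1 => u * del u v i (j + 1) + u * del u v (i + 1) j + v * del u v i j
termination_by i j => i + j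

theorem del_symm (u v : K) : ∀ n i j : ℕ, i + j ≤ n → del u v i j = del u v j i := by
  intro n
  induction n with
  | zero =>
    intro i j h
    have hi : i = 0 := by omega
    have hj : j = 0 := by omega
    subst hi hj
    rfl
  | succ n ih =>
    intro i j h
    rcases i with _ | i <;> rcases j with _ | j
    · rfl
    · rw [del, del, ih 0 j (by omega)]
    · rw [del, del, ih i 0 (by omega)]
    · rw [del, del, ih i (j + 1) (by omega), ih (i + 1) j (by omega), ih i j (by omega)]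
      ring

/-- Extension by zero to all integer arguments. -/
def Dz (u v : K) (i j : ℤ) : K := if 0 ≤ i ∧ 0 ≤ j then del u v i.toNat j.toNat else 0

theorem Dz_neg (u v : K) {i j : ℤ} (h : i < 0 ∨ j < 0) : Dz u v i j = 0 := by
  unfold Dz
  rw [if_neg]
  omega

theorem Dz_nat (u v : K) (i j : ℕ) : Dz u v (i : ℤ) (j : ℤ) = del u v i j := by
  unfold Dz
  rw [if_pos ⟨by omega, by omega⟩]
  simp

theorem Dz_zero (u v : K) : Dz u v 0 0 = 1 := by
  have := Dz_nat u v 0 0
  simp only [Nat.cast_zero] at this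
  rw [this, del]

theorem Dz_symm (u v : K) (i j : ℤ) : Dz u v i j = Dz u v j i := by
  by_cases h : 0 ≤ i ∧ 0 ≤ j
  · obtain ⟨a, rfl⟩ := Int.eq_ofNat_of_zero_le h.1
    obtain ⟨b, rfl⟩ := Int.eq_ofNat_of_zero_le h.2
    rw [Dz_nat, Dz_nat, del_symm u v (a + b) a b le_rfl]
  · rw [Dz_neg u v (by omega), Dz_neg u v (by omega)]

theorem Dz_rec (u v : K) (i j : ℤ) (h : i ≠ 0 ∨ j ≠ 0) :
    Dz u v i j = u * Dz u v (i - 1) j + u * Dz u v i (j - 1) + v * Dz u v (i - 1) (j - 1) := by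
  by_cases h' : 0 ≤ i ∧ 0 ≤ j
  · obtain ⟨a, rfl⟩ := Int.eq_ofNat_of_zero_le h'.1
    obtain ⟨b, rfl⟩ := Int.eq_ofNat_of_zero_le h'.2
    rcases a with _ | a <;> rcases b with _ | b
    · simp at h
    · have e1 : ((b + 1 : ℕ) : ℤ) - 1 = (b : ℤ) := by push_cast; ring
      rw [Dz_neg u v (i := ((0 : ℕ) : ℤ) - 1) (by simp), Dz_neg u v (i := ((0 : ℕ) : ℤ) - 1)
        (by simp), e1, Dz_nat, Dz_nat, del]
      ring
    · have e1 : ((a + 1 : ℕ) : ℤ) - 1 = (a : ℤ) := by push_cast; ring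
      rw [Dz_neg u v (j := ((0 : ℕ) : ℤ) - 1) (by simp), Dz_neg u v (j := ((0 : ℕ) : ℤ) - 1)
        (by simp), e1, Dz_nat, Dz_nat, del]
      ring
    · have e1 : ((a + 1 : ℕ) : ℤ) - 1 = (a : ℤ) := by push_cast; ring
      have e2 : ((b + 1 : ℕ) : ℤ) - 1 = (b : ℤ) := by push_cast; ring
      rw [e1, e2, Dz_nat, Dz_nat, Dz_nat, Dz_nat, del]
  · rw [Dz_neg u v (i := i) (j := j) (by omega), Dz_neg u v (i := i - 1) (j := j) (by omega),
      Dz_neg u v (i := i) (j := j - 1) (by omega), Dz_neg u v (i := i - 1) (j := j - 1) (by omega)]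
    ring

/-- Weighted number of paths that make `i` (resp. `j`) steps in the two unit directions of the
cone, starting at height `b` above the boundary. -/
def Np (u v : K) (i j b : ℤ) : K := Dz u v i j - Dz u v (j - 1 - b) (i + 1 + b)

theorem Np_rec (u v : K) (i j b : ℤ) (h : i ≠ 0 ∨ j ≠ 0) (hi : 0 ≤ i) (hb : 0 ≤ b) :
    Np u v i j b = u * Np u v (i - 1) j (b + 1) + u * Np u v i (j - 1) (b - 1) +
      v * Np u v (i - 1) (j - 1) b := by
  unfold Np
  rw [Dz_rec u v i j h, Dz_rec u v (j - 1 - b) (i + 1 + b) (Or.inr (by omega))]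
  have e1 : j - 1 - (b + 1) = j - 1 - b - 1 := by ring
  have e2 : i - 1 + 1 + (b + 1) = i + 1 + b := by ring
  have e3 : j - 1 - 1 - (b - 1) = j - 1 - b := by ring
  have e4 : i + 1 + (b - 1) = i + 1 + b - 1 := by ring
  have e5 : j - 1 - 1 - b = j - 1 - b - 1 := by ring
  have e6 : i - 1 + 1 + b = i + 1 + b - 1 := by ring
  rw [e1, e2, e3, e4, e5, e6]
  ring

theorem Np_dead (u v : K) (i j b : ℤ) (h : i < 0 ∨ j < 0) (hb : -1 ≤ b) (hx : j ≤ b + i) :
    Np u v i j b = 0 := by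
  unfold Np
  rw [Dz_neg u v h, Dz_neg u v (by omega)]
  ring

theorem Np_bdry (u v : K) (i j : ℤ) : Np u v i j (-1) = 0 := by
  unfold Np
  have e1 : j - 1 - -1 = j := by ring
  have e2 : i + 1 + -1 = i := by ring
  rw [e1, e2, Dz_symm u v j i]
  ring

theorem Np_zero (u v : K) (b : ℤ) (hb : 0 ≤ b) : Np u v 0 0 b = 1 := by
  unfold Np
  rw [Dz_zero, Dz_neg u v (Or.inl (by omega))]
  ring

end Pool.Agent.Q162.Bz
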