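import Pool.Agent.Q162.Benzel.Cover
import Pool.Agent.Q162.Benzel.Del

/-!
Stone-and-link model.  Cells are pairs of a type and a stone; a stone is a pair `(a, g)` whose third
coordinate is `M - a - g`.  The arms theorem evaluates the weighted number of tilings by full stones
and links of a region with up to three arms.
-/

namespace Pool.Agent.Q162.Bz

open Finset

/-- Rotated coordinates of a stone. -/
def Ac (M : ℤ) (t : Fin 3) (q : ℤ × ℤ) : ℤ :=
  match t with
  | 0 => q.1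
  | 1 => M - q.1 - q.2
  | 2 => q.2

def Bc (M : ℤ) (t : Fin 3) (q : ℤ × ℤ) : ℤ :=
  match t with
  | 0 => M - q.1 - q.2
  | 1 => q.2
  | 2 => q.1

def Gc (M : ℤ) (t : Fin 3) (q : ℤ × ℤ) : ℤ :=
  match t with
  | 0 => q.2
  | 1 => q.1
  | 2 => M - q.1 - q.2

theorem ABG (M : ℤ) (t : Fin 3) (q : ℤ × ℤ) : Ac M t q + Bc M t q + Gc M t q = M := by
  fin_cases t <;> simp only [Ac, Bc, Gc] <;> ring

theorem co_ext (M : ℤ) (t : Fin 3) (q q' : ℤ × ℤ) (hA : Ac M t q = Ac M t q')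
    (hG : Gc M t q = Gc M t q') : q = q' := by
  fin_cases t <;> simp only [Ac, Gc] at hA hG <;> ext <;> omega

/-- Basic steps. -/
def Es : Fin 3 → ℤ × ℤ
  | 0 => (-1, 0)
  | 1 => (0, 1)
  | 2 => (1, -1)

/-- The three steps of an arm of type `t`. -/
def stp (t k : Fin 3) : ℤ × ℤ :=
  match k with
  | 0 => Es t
  | 1 => Es (t + 1)
  | 2 => Es t + Es (t + 1)

def dA (k : Fin 3) : ℤ := match k with
  | 0 => -1
  | 1 => 0
  | 2 => -1

def dB (k : Fin 3) : ℤ := match k with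
  | 0 => 1
  | 1 => -1
  | 2 => 0

def dG (k : Fin 3) : ℤ := match k with
  | 0 => 0
  | 1 => 1
  | 2 => 1

theorem Ac_stp (M : ℤ) (t k : Fin 3) (q : ℤ × ℤ) : Ac M t (q + stp t k) = Ac M t q + dA k := by
  fin_cases t <;> fin_cases k <;> simp [Ac, stp, Es, dA] <;> ring

theorem Bc_stp (M : ℤ) (t k : Fin 3) (q : ℤ × ℤ) : Bc M t (q + stp t k) = Bc M t q + dB k := by
  fin_cases t <;> fin_cases k <;> simp [Bc, stp, Es, dB] <;> ring

theorem Gc_stp (M : ℤ) (t k : Fin 3) (q : ℤ × ℤ) : Gc M t (q + stp t k) = Gc M t q + dG k := by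
  fin_cases t <;> fin_cases k <;> simp [Gc, stp, Es, dG] <;> ring

theorem stp_facts (k : Fin 3) : dA k ≤ 0 ∧ 0 ≤ dG k ∧ dA k - dG k < 0 := by
  fin_cases k <;> simp [dA, dG]

theorem stp_inj (t k k' : Fin 3) (q : ℤ × ℤ) (h : q + stp t k = q + stp t k') : k = k' := by
  have h1 := Ac_stp 0 t k q
  have h2 := Gc_stp 0 t k q
  rw [h, Ac_stp] at h1
  rw [h, Gc_stp] at h2
  fin_cases k <;> fin_cases k' <;> simp [dA, dG] at h1 h2 <;> rfl

theorem stp_ne (t k : Fin 3) (q : ℤ × ℤ) : q + stp t k ≠ q := by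
  intro h
  have h1 := Ac_stp 0 t k q
  have h2 := Gc_stp 0 t k q
  rw [h] at h1 h2
  have := stp_facts k
  omega

/-- A full stone. -/
def std (q : ℤ × ℤ) : Finset (Fin 3 × ℤ × ℤ) := {(0, q), (1, q), (2, q)}

/-- A link of type `t` from `q` with step number `k`. -/
def lnk (t : Fin 3) (q : ℤ × ℤ) (k : Fin 3) : Finset (Fin 3 × ℤ × ℤ) :=
  {(t, q), (t + 1, q + stp t k), (t + 2, q + stp t k)}

theorem mem_std {x : Fin 3} {y q : ℤ × ℤ} : (x, y) ∈ std q ↔ y = q := by
  unfold std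
  simp only [mem_insert, mem_singleton, Prod.mk.injEq]
  constructor
  · rintro (h | h | h) <;> exact h.2
  · intro h
    fin_cases x <;> simp [h]

theorem ne_iff3 (t x : Fin 3) : x ≠ t ↔ x = t + 1 ∨ x = t + 2 := by
  fin_cases t <;> fin_cases x <;> decide

theorem mem_lnk {t x : Fin 3} {y q : ℤ × ℤ} {k : Fin 3} :
    (x, y) ∈ lnk t q k ↔ (x = t ∧ y = q) ∨ (x ≠ t ∧ y = q + stp t k) := by
  unfold lnk
  rw [ne_iff3]
  simp only [mem_insert, mem_singleton, Prod.mk.injEq]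
  tauto

/-- Tiles that meet at most two stones. -/
def tile2 (T : Finset (Fin 3 × ℤ × ℤ)) : Prop :=
  (∃ q, T = std q) ∨ ∃ t q k, T = lnk t q k

theorem tile2_ne (T : Finset (Fin 3 × ℤ × ℤ)) (h : tile2 T) : T.Nonempty := by
  rcases h with ⟨q, rfl⟩ | ⟨t, q, k, rfl⟩
  · exact ⟨(0, q), mem_std.2 rfl⟩
  · exact ⟨(t, q), mem_lnk.2 (Or.inl ⟨rfl, rfl⟩)⟩

theorem lnk_inj {t k k' : Fin 3} {q : ℤ × ℤ} (h : lnk t q k = lnk t q k') : k = k' := by
  have h1 : (t + 1, q + stp t k) ∈ lnk t q k' := by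
    rw [← h, mem_lnk]
    right
    exact ⟨(ne_iff3 t _).2 (Or.inl rfl), rfl⟩
  rw [mem_lnk] at h1
  rcases h1 with h1 | h1
  · exact absurd h1.1 ((ne_iff3 t _).2 (Or.inl rfl))
  · exact stp_inj t k k' q h1.2

section
variable {K : Type*} [CommRing K]

open Classical in
/-- Branching at a lone cell. -/
theorem step_branch (w : Finset (Fin 3 × ℤ × ℤ) → K) (R : Finset (Fin 3 × ℤ × ℤ)) (t : Fin 3)
    (P : ℤ × ℤ) (h0 : (t, P) ∈ R) (h1 : ∀ x, x ≠ t → (x, P) ∉ R) :
    Z tile2 w R = ∑ k : Fin 3, if (∀ x, x ≠ t → (x, P + stp t k) ∈ R) then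
      w (lnk t P k) * Z tile2 w (R \ lnk t P k) else 0 := by
  rw [Z_branch tile2 w tile2_ne R (t, P) h0, ← Finset.sum_filter]
  symm
  have himg : R.powerset.filter (fun T => tile2 T ∧ (t, P) ∈ T) =
      (univ.filter (fun k : Fin 3 => ∀ x, x ≠ t → (x, P + stp t k) ∈ R)).image
        (fun k => lnk t P k) := by
    ext T
    rw [mem_filter, mem_powerset, mem_image]
    constructor
    · rintro ⟨hTR, hT, hc⟩
      rcases hT with ⟨q, rfl⟩ | ⟨t', q, k, rfl⟩
      · exfalso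
        rw [mem_std] at hc
        subst hc
        exact h1 (t + 1) ((ne_iff3 t _).2 (Or.inl rfl)) (hTR (mem_std.2 rfl))
      · rw [mem_lnk] at hc
        rcases hc with ⟨rfl, rfl⟩ | ⟨hne, rfl⟩
        · refine ⟨k, ?_, rfl⟩
          rw [mem_filter]
          refine ⟨mem_univ _, ?_⟩
          intro x hx
          exact hTR (mem_lnk.2 (Or.inr ⟨hx, rfl⟩))
        · exfalso
          have hex : ∃ x : Fin 3, x ≠ t ∧ x ≠ t' := by
            revert hne
            fin_cases t <;> fin_cases t' <;> decide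
          obtain ⟨x, hx, hx'⟩ := hex
          exact h1 x hx (hTR (mem_lnk.2 (Or.inr ⟨hx', rfl⟩)))
    · rintro ⟨k, hk, rfl⟩
      rw [mem_filter] at hk
      refine ⟨?_, Or.inr ⟨t, P, k, rfl⟩, mem_lnk.2 (Or.inl ⟨rfl, rfl⟩)⟩
      rintro ⟨x, y⟩ hxy
      rw [mem_lnk] at hxy
      rcases hxy with ⟨rfl, rfl⟩ | ⟨hne, rfl⟩
      · exact h0
      · exact hk.2 x hne
  rw [himg, Finset.sum_image]
  intro k _ k' _ h
  exact lnk_inj h

/-- A dead arm. -/
theorem dead (M : ℤ) (w : Finset (Fin 3 × ℤ × ℤ) → K) (t : Fin 3) :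
    ∀ n : ℕ, ∀ R : Finset (Fin 3 × ℤ × ℤ), R.card ≤ n → ∀ P : ℤ × ℤ,
    (t, P) ∈ R → (∀ x, x ≠ t → (x, P) ∉ R) →
    (∀ q, Ac M t q ≤ Ac M t P → Gc M t P ≤ Gc M t q → (∀ x, x ≠ t → (x, q) ∈ R) → (t, q) ∈ R) →
    Z tile2 w R = 0 := by
  classical
  intro n
  induction n with
  | zero =>
    intro R hn P h0
    have : R = ∅ := Finset.card_eq_zero.1 (by omega)
    rw [this] at h0
    simp at h0
  | succ n ih =>
    intro R hn P h0 h1 h2
    rw [step_branch w R t P h0 h1]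
    refine Finset.sum_eq_zero ?_
    intro k _
    split_ifs with hk
    · have hz : Z tile2 w (R \ lnk t P k) = 0 := by
        have hf := stp_facts k
        have hA := Ac_stp M t k P
        have hG := Gc_stp M t k P
        apply ih (R \ lnk t P k) _ (P + stp t k)
        · rw [mem_sdiff, mem_lnk]
          refine ⟨h2 _ (by omega) (by omega) hk, ?_⟩
          rintro (h | h)
          · exact stp_ne t k P h.2
          · exact h.1 rfl
        · intro x hx h
          rw [mem_sdiff, mem_lnk] at h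
          exact h.2 (Or.inr ⟨hx, rfl⟩)
        · intro q hqA hqG hq
          rw [mem_sdiff, mem_lnk]
          have hq' : ∀ x, x ≠ t → (x, q) ∈ R := fun x hx => (mem_sdiff.1 (hq x hx)).1
          refine ⟨h2 q (by omega) (by omega) hq', ?_⟩
          rintro (h | h)
          · have hqP := h.2
            subst hqP
            exact h1 (t + 1) ((ne_iff3 t _).2 (Or.inl rfl))
              (hq' _ ((ne_iff3 t _).2 (Or.inl rfl)))
          · exact h.1 rfl
        · have : (R \ lnk t P k).card < R.card := by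
            apply Finset.card_lt_card
            refine ⟨sdiff_subset, ?_⟩
            intro h
            have := h h0
            rw [mem_sdiff, mem_lnk] at this
            exact this.2 (Or.inl ⟨rfl, rfl⟩)
          omega
      rw [hz, mul_zero]
    · rfl

/-- Membership in the triangle. -/
def InD (M : ℤ) (q : ℤ × ℤ) : Prop := 0 ≤ q.1 ∧ 0 ≤ q.2 ∧ q.1 + q.2 ≤ M

theorem inD_iff (M : ℤ) (t : Fin 3) (q : ℤ × ℤ) :
    InD M q ↔ 0 ≤ Ac M t q ∧ 0 ≤ Bc M t q ∧ 0 ≤ Gc M t q := by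
  unfold InD
  fin_cases t <;> simp only [Ac, Bc, Gc] <;> constructor <;> intro h <;> omega

/-- The region of stones passed by an arm of type `t` between `P` and `X`. -/
def inpar (M : ℤ) (t : Fin 3) (P X q : ℤ × ℤ) : Prop :=
  Ac M t X ≤ Ac M t q ∧ Ac M t q ≤ Ac M t P ∧ Gc M t P ≤ Gc M t q ∧ Gc M t q ≤ Gc M t X

/-- Normalised path weight. -/
def Nt (M : ℤ) (un : Fin 3 → K) (vn : K) (t : Fin 3) (P X : ℤ × ℤ) : K :=
  Np (un t) vn (Ac M t P - Ac M t X) (Gc M t X - Gc M t P) (Bc M t P)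

/-- Normalised weight of a step. -/
def wst (un : Fin 3 → K) (vn : K) (t k : Fin 3) : K :=
  match k with
  | 0 => un t
  | 1 => un t
  | 2 => vn

theorem Nt_rec (M : ℤ) (un : Fin 3 → K) (vn : K) (t : Fin 3) (P X : ℤ × ℤ) (hP : InD M P)
    (hne : P ≠ X) (hA : Ac M t X ≤ Ac M t P) :
    Nt M un vn t P X = ∑ k : Fin 3, wst un vn t k * Nt M un vn t (P + stp t k) X := by
  rw [inD_iff M t] at hP
  unfold Nt
  rw [Np_rec _ _ _ _ _ _ (by omega) hP.2.1, Fin.sum_univ_three]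
  · simp only [Ac_stp, Bc_stp, Gc_stp, dA, dB, dG, wst]
    congr 1
    · congr 1
      · congr 2 <;> ring
      · congr 2 <;> ring
    · congr 2 <;> ring
  · by_contra h
    push Not at h
    exact hne (co_ext M t P X (by omega) (by omega))

theorem Nt_dead (M : ℤ) (un : Fin 3 → K) (vn : K) (t : Fin 3) (P X : ℤ × ℤ)
    (hP : -1 ≤ Bc M t P) (hX : InD M X)
    (h : Ac M t P < Ac M t X ∨ Gc M t X < Gc M t P) : Nt M un vn t P X = 0 := by
  rw [inD_iff M t] at hX
  unfold Nt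
  have h1 := ABG M t P
  have h2 := ABG M t X
  apply Np_dead
  · omega
  · exact hP
  · omega

theorem Nt_bdry (M : ℤ) (un : Fin 3 → K) (vn : K) (t : Fin 3) (P X : ℤ × ℤ)
    (hP : Bc M t P = -1) : Nt M un vn t P X = 0 := by
  unfold Nt
  rw [hP]
  exact Np_bdry _ _ _ _

theorem Nt_self (M : ℤ) (un : Fin 3 → K) (vn : K) (t : Fin 3) (P : ℤ × ℤ)
    (hP : InD M P) : Nt M un vn t P P = 1 := by
  rw [inD_iff M t] at hP
  unfold Nt
  rw [sub_self, sub_self]
  exact Np_zero _ _ _ hP.2.1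

end

end Pool.Agent.Q162.Bz
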