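import Pool.Agent.Q162.Benzel.Arms

/-!
The arms theorem.
-/

namespace Pool.Agent.Q162.Bz

open Finset

section
variable {K : Type*} [CommRing K]

theorem Z_full (w : Finset (Fin 3 × ℤ × ℤ) → K) (r : K) (hw0 : ∀ q, w (std q) = r) :
    ∀ n : ℕ, ∀ (R : Finset (Fin 3 × ℤ × ℤ)) (F : Finset (ℤ × ℤ)), F.card = n →
    (∀ t q, (t, q) ∈ R ↔ q ∈ F) → Z tile2 w R = r ^ n := by
  classical
  intro n
  induction n with
  | zero =>
    intro R F hn hR
    have hF : F = ∅ := Finset.card_eq_zero.1 hn
    have hR' : R = ∅ := by
      rw [Finset.eq_empty_iff_forall_notMem]
      rintro ⟨t, q⟩ h
      rw [hR, hF] at h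
      simp at h
    rw [hR', Z_empty tile2 w tile2_ne, pow_zero]
  | succ n ih =>
    intro R F hn hR
    obtain ⟨q, hq⟩ : F.Nonempty := by
      rw [← Finset.card_pos]
      omega
    rw [Z_branch tile2 w tile2_ne R (0, q) ((hR _ _).2 hq)]
    rw [Finset.sum_eq_single (std q)]
    · rw [hw0, ih (R \ std q) (F.erase q)]
      · ring
      · rw [Finset.card_erase_of_mem hq]
        omega
      · intro t q'
        rw [mem_sdiff, hR, mem_std, mem_erase]
        tauto
    · intro T hT hne
      rw [mem_filter, mem_powerset] at hT
      obtain ⟨hTR, hT2, hcT⟩ := hT
      rcases hT2 with ⟨q', rfl⟩ | ⟨t, s, k, rfl⟩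
      · rw [mem_std] at hcT
        exact absurd (by rw [hcT]) hne
      · have hf := stp_facts k
        have hA := Ac_stp 0 t k s
        have hG := Gc_stp 0 t k s
        have hPF : s + stp t k ∈ F := by
          rw [← hR (t + 1)]
          exact hTR (mem_lnk.2 (Or.inr ⟨(ne_iff3 t _).2 (Or.inl rfl), rfl⟩))
        have hz : Z tile2 w (R \ lnk t s k) = 0 := by
          apply dead 0 w t (R \ lnk t s k).card _ le_rfl (s + stp t k)
          · rw [mem_sdiff, mem_lnk]
            refine ⟨(hR _ _).2 hPF, ?_⟩
            rintro (h | h)
            · exact stp_ne t k s h.2
            · exact h.1 rfl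
          · intro x hx h
            rw [mem_sdiff, mem_lnk] at h
            exact h.2 (Or.inr ⟨hx, rfl⟩)
          · intro q' hqA hqG hq'
            have h1 := hq' (t + 1) ((ne_iff3 t _).2 (Or.inl rfl))
            rw [mem_sdiff, hR] at h1
            rw [mem_sdiff, mem_lnk]
            refine ⟨(hR _ _).2 h1.1, ?_⟩
            rintro (h | h)
            · have := h.2
              subst this
              omega
            · exact h.1 rfl
        rw [hz, mul_zero]
    · intro h
      exfalso
      apply h
      rw [mem_filter, mem_powerset]
      refine ⟨?_, Or.inl ⟨q, rfl⟩, mem_std.2 rfl⟩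
      rintro ⟨x, y⟩ hxy
      rw [mem_std] at hxy
      rw [hR, hxy]
      exact hq

theorem wst_mul (u : Fin 3 → K) (v r' : K) (t k : Fin 3) :
    wst (fun t => r' * u t) (r' * v) t k = r' * wst u v t k := by
  fin_cases k <;> rfl

/-- The arms theorem. -/
theorem arms (M : ℤ) (w : Finset (Fin 3 × ℤ × ℤ) → K) (r r' : K) (hr : r * r' = 1)
    (u : Fin 3 → K) (v : K) (hw0 : ∀ q, w (std q) = r)
    (hwk : ∀ t q k, w (lnk t q k) = wst u v t k) :
    ∀ n : ℕ, ∀ (R : Finset (Fin 3 × ℤ × ℤ)) (F : Finset (ℤ × ℤ)) (P X : Fin 3 → ℤ × ℤ),
    R.card ≤ n →
    (∀ t q, (t, q) ∈ R ↔ q ∈ F ∨ (P t ≠ X t ∧ q = P t) ∨ ∃ τ, τ ≠ t ∧ P τ ≠ X τ ∧ q = X τ) →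
    (∀ q ∈ F, InD M q) →
    (∀ t, InD M (P t)) → (∀ t, InD M (X t)) → (∀ t, P t ∉ F) → (∀ t, X t ∉ F) →
    (∀ t, Ac M t (X t) ≤ Ac M t (P t) ∧ Gc M t (P t) ≤ Gc M t (X t)) →
    (∀ t q, InD M q → inpar M t (P t) (X t) q → q ≠ P t → q ≠ X t → q ∈ F) →
    (∀ t t' q, t ≠ t' → inpar M t (P t) (X t) q → inpar M t' (P t') (X t') q → False) →
    Z tile2 w R = r ^ (F.card + (univ.filter (fun t => P t ≠ X t)).card) *
      ∏ t, Nt M (fun t => r' * u t) (r' * v) t (P t) (X t) := by
  classical
  intro n
  induction n with
  | zero =>
    intro R F P X hn hR hF hP hX hPF hXF live full sep
    have hRe : R = ∅ := Finset.card_eq_zero.1 (by omega)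
    have hact : ∀ t, P t = X t := by
      intro t
      by_contra h
      have := (hR t (P t)).2 (Or.inr (Or.inl ⟨h, rfl⟩))
      rw [hRe] at this
      simp at this
    have hFe : F = ∅ := by
      rw [Finset.eq_empty_iff_forall_notMem]
      intro q hq
      have := (hR 0 q).2 (Or.inl hq)
      rw [hRe] at this
      simp at this
    have hfil : (univ.filter (fun t => P t ≠ X t)) = (∅ : Finset (Fin 3)) := by
      rw [Finset.filter_eq_empty_iff]
      intro t _
      simp [hact t]
    rw [hfil, hFe, hRe, Z_empty tile2 w tile2_ne]
    simp only [card_empty, add_zero, pow_zero, one_mul]
    symm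
    apply Finset.prod_eq_one
    intro t _
    rw [hact t]
    exact Nt_self M _ _ t _ (hX t)
  | succ n ih =>
    intro R F P X hn hR hF hP hX hPF hXF live full sep
    by_cases hall : ∀ t, P t = X t
    · have hfil : (univ.filter (fun t => P t ≠ X t)) = (∅ : Finset (Fin 3)) := by
        rw [Finset.filter_eq_empty_iff]
        intro t _
        simp [hall t]
      rw [hfil, Z_full w r hw0 F.card R F rfl]
      · simp only [card_empty, add_zero]
        have : ∏ t, Nt M (fun t => r' * u t) (r' * v) t (P t) (X t) = 1 := by
          apply Finset.prod_eq_one
          intro t _
          rw [hall t]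
          exact Nt_self M _ _ t _ (hX t)
        rw [this, mul_one]
      · intro t q
        rw [hR]
        constructor
        · rintro (h | h | ⟨τ, _, h, _⟩)
          · exact h
          · exact absurd (hall t) h.1
          · exact absurd (hall τ) h
        · exact fun h => Or.inl h
    · push Not at hall
      obtain ⟨t, ht⟩ := hall
      -- distinctness
      have pP : ∀ τ, inpar M τ (P τ) (X τ) (P τ) := fun τ =>
        ⟨(live τ).1, le_rfl, le_rfl, (live τ).2⟩
      have pX : ∀ τ, inpar M τ (P τ) (X τ) (X τ) := fun τ =>
        ⟨le_rfl, (live τ).1, (live τ).2, le_rfl⟩
      have dPP : ∀ τ τ', τ ≠ τ' → P τ ≠ P τ' := fun τ τ' h e =>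
        sep τ τ' (P τ) h (pP τ) (e ▸ pP τ')
      have dXX : ∀ τ τ', τ ≠ τ' → X τ ≠ X τ' := fun τ τ' h e =>
        sep τ τ' (X τ) h (pX τ) (e ▸ pX τ')
      have dPX : ∀ τ τ', τ ≠ τ' → P τ ≠ X τ' := fun τ τ' h e =>
        sep τ τ' (P τ) h (pP τ) (e ▸ pX τ')
      have h0 : (t, P t) ∈ R := (hR _ _).2 (Or.inr (Or.inl ⟨ht, rfl⟩))
      have h1 : ∀ x, x ≠ t → (x, P t) ∉ R := by
        intro x hx h
        rw [hR] at h
        rcases h with h | ⟨_, h⟩ | ⟨τ, hτ, hτ', h⟩
        · exact hPF t h
        · exact dPP t x (Ne.symm hx) h
        · by_cases hτt : τ = t
          · subst hτt
            exact ht h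
          · exact dPX t τ (Ne.symm hτt) h
      rw [step_branch w R t (P t) h0 h1]
      -- the target value, term by term
      rw [← Finset.mul_prod_erase univ _ (mem_univ t), Nt_rec M _ _ t (P t) (X t) (hP t) ht
        (live t).1, Finset.sum_mul, Finset.mul_sum]
      refine Finset.sum_congr rfl ?_
      intro k _
      rw [wst_mul]
      have hf := stp_facts k
      have hcA := Ac_stp M t k (P t)
      have hcB := Bc_stp M t k (P t)
      have hcG := Gc_stp M t k (P t)
      have hcard : (R \ lnk t (P t) k).card ≤ n := by
        have : (R \ lnk t (P t) k).card < R.card := by
          apply Finset.card_lt_card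
          refine ⟨sdiff_subset, ?_⟩
          intro h
          have := h h0
          rw [mem_sdiff, mem_lnk] at this
          exact this.2 (Or.inl ⟨rfl, rfl⟩)
        omega
      -- condition for the link to fit
      have hcond : (∀ x, x ≠ t → (x, P t + stp t k) ∈ R) ↔
          (P t + stp t k ∈ F ∨ P t + stp t k = X t) := by
        constructor
        · intro h
          have ha := h (t + 1) ((ne_iff3 t _).2 (Or.inl rfl))
          have hb := h (t + 2) ((ne_iff3 t _).2 (Or.inr rfl))
          rw [hR] at ha hb
          by_contra hcon
          push Not at hcon
          obtain ⟨hc1, hc2⟩ := hcon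
          have ht12 : t + 1 ≠ t + 2 := by
            fin_cases t <;> decide
          have ha' : P t + stp t k = P (t + 1) ∧ P (t + 1) ≠ X (t + 1) ∨
              P t + stp t k = X (t + 2) ∧ P (t + 2) ≠ X (t + 2) := by
            rcases ha with ha | ⟨ha1, ha2⟩ | ⟨τ, hτ, hτ1, hτ2⟩
            · exact absurd ha hc1
            · exact Or.inl ⟨ha2, ha1⟩
            · have : τ = t ∨ τ = t + 2 := by
                by_contra hh
                push Not at hh
                have := (ne_iff3 t τ).1 hh.1
                tauto
              rcases this with rfl | rfl
              · exact absurd hτ2 hc2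
              · exact Or.inr ⟨hτ2, hτ1⟩
          have hb' : P t + stp t k = P (t + 2) ∧ P (t + 2) ≠ X (t + 2) ∨
              P t + stp t k = X (t + 1) ∧ P (t + 1) ≠ X (t + 1) := by
            rcases hb with hb | ⟨hb1, hb2⟩ | ⟨τ, hτ, hτ1, hτ2⟩
            · exact absurd hb hc1
            · exact Or.inl ⟨hb2, hb1⟩
            · have : τ = t ∨ τ = t + 1 := by
                by_contra hh
                push Not at hh
                have := (ne_iff3 t τ).1 hh.1
                tauto
              rcases this with rfl | rfl
              · exact absurd hτ2 hc2
              · exact Or.inr ⟨hτ2, hτ1⟩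
          rcases ha' with ⟨e1, n1⟩ | ⟨e1, n1⟩ <;> rcases hb' with ⟨e2, n2⟩ | ⟨e2, n2⟩
          · exact dPP _ _ ht12 (e1.symm.trans e2)
          · exact n1 (e1.symm.trans e2)
          · exact n1 (e2.symm.trans e1)
          · exact dXX _ _ (Ne.symm ht12) (e1.symm.trans e2)
        · rintro (h | h)
          · intro x _
            exact (hR _ _).2 (Or.inl h)
          · intro x hx
            refine (hR _ _).2 (Or.inr (Or.inr ⟨t, Ne.symm hx, ht, h⟩))
      by_cases hc : P t + stp t k ∈ F ∨ P t + stp t k = X t
      · rw [if_pos (hcond.2 hc), hwk]
        by_cases hlive : Ac M t (X t) ≤ Ac M t (P t + stp t k) ∧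
            Gc M t (P t + stp t k) ≤ Gc M t (X t)
        · -- live continuation
          have hQD : InD M (P t + stp t k) := by
            rcases hc with hc | hc
            · exact hF _ hc
            · rw [hc]
              exact hX t
          have hQpar : inpar M t (P t) (X t) (P t + stp t k) := by
            unfold inpar
            omega
          -- new data
          have key := ih (R \ lnk t (P t) k) (F.erase (P t + stp t k))
            (Function.update P t (P t + stp t k)) X hcard ?_ ?_ ?_ hX ?_ ?_ ?_ ?_ ?_
          · rw [key]
            have hprod : ∏ τ, Nt M (fun t => r' * u t) (r' * v) τ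
                (Function.update P t (P t + stp t k) τ) (X τ) =
                Nt M (fun t => r' * u t) (r' * v) t (P t + stp t k) (X t) *
                ∏ τ ∈ univ.erase t, Nt M (fun t => r' * u t) (r' * v) τ (P τ) (X τ) := by
              rw [← Finset.mul_prod_erase univ _ (mem_univ t)]
              congr 1
              · simp
              · apply Finset.prod_congr rfl
                intro τ hτ
                rw [Function.update_of_ne (Finset.ne_of_mem_erase hτ)]
            rw [hprod]
            have hexp : F.card + (univ.filter (fun t => P t ≠ X t)).card =
                (F.erase (P t + stp t k)).card + (univ.filter (fun τ =>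
                  Function.update P t (P t + stp t k) τ ≠ X τ)).card + 1 := by
              by_cases hQX : P t + stp t k = X t
              · have e1 : F.erase (P t + stp t k) = F := by
                  rw [hQX]
                  exact Finset.erase_eq_of_notMem (hXF t)
                have e2 : (univ.filter (fun τ => Function.update P t (P t + stp t k) τ ≠ X τ)) =
                    (univ.filter (fun t => P t ≠ X t)).erase t := by
                  ext τ
                  rw [mem_filter, mem_erase, mem_filter]
                  by_cases hτ : τ = t
                  · subst hτ
                    simp [hQX]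
                  · rw [Function.update_of_ne hτ]
                    simp [hτ]
                rw [e1, e2, Finset.card_erase_of_mem (by rw [mem_filter]; exact ⟨mem_univ _, ht⟩)]
                have : 0 < (univ.filter (fun t => P t ≠ X t)).card :=
                  Finset.card_pos.2 ⟨t, by rw [mem_filter]; exact ⟨mem_univ _, ht⟩⟩
                omega
              · have hQF : P t + stp t k ∈ F := by tauto
                have e2 : (univ.filter (fun τ => Function.update P t (P t + stp t k) τ ≠ X τ)) =
                    (univ.filter (fun t => P t ≠ X t)) := by
                  ext τ
                  rw [mem_filter, mem_filter]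
                  by_cases hτ : τ = t
                  · subst hτ
                    simp [hQX, ht]
                  · rw [Function.update_of_ne hτ]
                rw [e2, Finset.card_erase_of_mem hQF]
                have : 0 < F.card := Finset.card_pos.2 ⟨_, hQF⟩
                omega
            rw [hexp, pow_succ]
            linear_combination (-(wst u v t k * r ^ ((F.erase (P t + stp t k)).card +
              (univ.filter (fun τ => Function.update P t (P t + stp t k) τ ≠ X τ)).card) *
              (Nt M (fun t => r' * u t) (r' * v) t (P t + stp t k) (X t) *
                ∏ τ ∈ univ.erase t, Nt M (fun t => r' * u t) (r' * v) τ (P τ) (X τ)))) * hr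
          · -- characterisation of the new region
            intro x q
            rw [mem_sdiff, hR, mem_lnk, mem_erase]
            by_cases hx : x = t
            · subst hx
              rw [Function.update_self]
              have hPq : ∀ τ, τ ≠ x → Function.update P x (P x + stp x k) τ = P τ := by
                intro τ hτ
                exact Function.update_of_ne hτ _ _
              constructor
              · rintro ⟨h, h'⟩
                have hqP : q ≠ P x := fun e => h' (Or.inl ⟨rfl, e⟩)
                rcases h with h | h | ⟨τ, hτ, hτ1, hτ2⟩
                · by_cases hqQ : q = P x + stp x k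
                  · refine Or.inr (Or.inl ⟨?_, hqQ⟩)
                    intro e
                    apply hXF x
                    rw [← e, ← hqQ]
                    exact h
                  · exact Or.inl ⟨hqQ, h⟩
                · exact absurd h.2 hqP
                · refine Or.inr (Or.inr ⟨τ, hτ, ?_, hτ2⟩)
                  rw [hPq τ hτ]
                  exact hτ1
              · rintro (h | h | ⟨τ, hτ, hτ1, hτ2⟩)
                · refine ⟨Or.inl h.2, ?_⟩
                  rintro (e | e)
                  · exact hPF x (e.2 ▸ h.2)
                  · exact e.1 rfl
                · have hQF : P x + stp x k ∈ F := by tauto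
                  refine ⟨Or.inl (h.2 ▸ hQF), ?_⟩
                  rintro (e | e)
                  · exact stp_ne x k (P x) (h.2.symm.trans e.2)
                  · exact e.1 rfl
                · rw [hPq τ hτ] at hτ1
                  refine ⟨Or.inr (Or.inr ⟨τ, hτ, hτ1, hτ2⟩), ?_⟩
                  rintro (e | e)
                  · exact dPX x τ (Ne.symm hτ) (e.2.symm.trans hτ2)
                  · exact e.1 rfl
            · rw [Function.update_of_ne hx]
              constructor
              · rintro ⟨h, h'⟩
                have hqQ : q ≠ P t + stp t k := fun e => h' (Or.inr ⟨hx, e⟩)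
                rcases h with h | h | ⟨τ, hτ, hτ1, hτ2⟩
                · exact Or.inl ⟨hqQ, h⟩
                · exact Or.inr (Or.inl h)
                · by_cases hτt : τ = t
                  · subst hτt
                    refine Or.inr (Or.inr ⟨τ, hτ, ?_, hτ2⟩)
                    rw [Function.update_self]
                    intro e
                    exact hqQ (hτ2.trans e.symm)
                  · refine Or.inr (Or.inr ⟨τ, hτ, ?_, hτ2⟩)
                    rw [Function.update_of_ne hτt]
                    exact hτ1
              · rintro (h | h | ⟨τ, hτ, hτ1, hτ2⟩)
                · refine ⟨Or.inl h.2, ?_⟩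
                  rintro (e | e)
                  · exact hx e.1
                  · exact h.1 e.2
                · refine ⟨Or.inr (Or.inl h), ?_⟩
                  rintro (e | e)
                  · exact hx e.1
                  · have e' : P x = P t + stp t k := h.2.symm.trans e.2
                    exact sep x t (P x) hx (pP x) (by rw [e']; exact hQpar)
                · by_cases hτt : τ = t
                  · subst hτt
                    rw [Function.update_self] at hτ1
                    refine ⟨Or.inr (Or.inr ⟨τ, hτ, ht, hτ2⟩), ?_⟩
                    rintro (e | e)
                    · exact hx e.1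
                    · exact hτ1 (e.2.symm.trans hτ2)
                  · rw [Function.update_of_ne hτt] at hτ1
                    refine ⟨Or.inr (Or.inr ⟨τ, hτ, hτ1, hτ2⟩), ?_⟩
                    rintro (e | e)
                    · exact hx e.1
                    · have e' : X τ = P t + stp t k := hτ2.symm.trans e.2
                      exact sep τ t (X τ) hτt (pX τ) (by rw [e']; exact hQpar)
          · intro q hq
            exact hF q (Finset.mem_of_mem_erase hq)
          · intro τ
            by_cases hτ : τ = t
            · subst hτ
              rw [Function.update_self]
              exact hQD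
            · rw [Function.update_of_ne hτ]
              exact hP τ
          · intro τ
            by_cases hτ : τ = t
            · subst hτ
              rw [Function.update_self]
              exact Finset.notMem_erase _ _
            · rw [Function.update_of_ne hτ]
              exact fun h => hPF τ (Finset.mem_of_mem_erase h)
          · intro τ
            exact fun h => hXF τ (Finset.mem_of_mem_erase h)
          · intro τ
            by_cases hτ : τ = t
            · subst hτ
              rw [Function.update_self]
              exact hlive
            · rw [Function.update_of_ne hτ]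
              exact live τ
          · intro τ q hqD hq h2 h3
            by_cases hτ : τ = t
            · subst hτ
              rw [Function.update_self] at hq h2
              rw [mem_erase]
              refine ⟨h2, full τ q hqD ?_ ?_ h3⟩
              · unfold inpar at hq ⊢
                omega
              · rintro rfl
                unfold inpar at hq
                omega
            · rw [Function.update_of_ne hτ] at hq h2
              rw [mem_erase]
              refine ⟨?_, full τ q hqD hq h2 h3⟩
              intro e
              exact sep τ t q hτ hq (by rw [e]; exact hQpar)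
          · intro τ τ' q hne h2 h3
            have hmono : ∀ σ, inpar M σ (Function.update P t (P t + stp t k) σ) (X σ) q →
                inpar M σ (P σ) (X σ) q := by
              intro σ hσ
              by_cases hτ : σ = t
              · subst hτ
                rw [Function.update_self] at hσ
                unfold inpar at hσ ⊢
                omega
              · rw [Function.update_of_ne hτ] at hσ
                exact hσ
            exact sep τ τ' q hne (hmono τ h2) (hmono τ' h3)
        · -- dead continuation
          have hQF : P t + stp t k ∈ F := by
            rcases hc with hc | hc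
            · exact hc
            · exfalso
              apply hlive
              rw [hc]
              exact ⟨le_rfl, le_rfl⟩
          have hQD := hF _ hQF
          have hN : Nt M (fun t => r' * u t) (r' * v) t (P t + stp t k) (X t) = 0 := by
            apply Nt_dead
            · have := (inD_iff M t _).1 hQD
              omega
            · exact hX t
            · by_contra h
              push Not at h
              exact hlive ⟨h.1, h.2⟩
          have hz : Z tile2 w (R \ lnk t (P t) k) = 0 := by
            apply dead M w t (R \ lnk t (P t) k).card _ le_rfl (P t + stp t k)
            · rw [mem_sdiff, mem_lnk]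
              refine ⟨(hR _ _).2 (Or.inl hQF), ?_⟩
              rintro (h | h)
              · exact stp_ne t k _ h.2
              · exact h.1 rfl
            · intro x hx h
              rw [mem_sdiff, mem_lnk] at h
              exact h.2 (Or.inr ⟨hx, rfl⟩)
            · intro q hqA hqG hq
              have hqne : q ≠ P t := by
                rintro rfl
                exact h1 (t + 1) ((ne_iff3 t _).2 (Or.inl rfl))
                  (mem_sdiff.1 (hq _ ((ne_iff3 t _).2 (Or.inl rfl)))).1
              rw [mem_sdiff, mem_lnk]
              refine ⟨?_, ?_⟩
              · have ha := (mem_sdiff.1 (hq (t + 1) ((ne_iff3 t _).2 (Or.inl rfl)))).1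
                have hb := (mem_sdiff.1 (hq (t + 2) ((ne_iff3 t _).2 (Or.inr rfl)))).1
                rw [hR] at ha hb ⊢
                by_cases hqF : q ∈ F
                · exact Or.inl hqF
                · exfalso
                  have hqX : q ≠ X t := by
                    rintro rfl
                    exact hlive ⟨hqA, hqG⟩
                  have ht12 : t + 1 ≠ t + 2 := by
                    fin_cases t <;> decide
                  have ha' : q = P (t + 1) ∧ P (t + 1) ≠ X (t + 1) ∨
                      q = X (t + 2) ∧ P (t + 2) ≠ X (t + 2) := by
                    rcases ha with ha | ⟨ha1, ha2⟩ | ⟨τ, hτ, hτ1, hτ2⟩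
                    · exact absurd ha hqF
                    · exact Or.inl ⟨ha2, ha1⟩
                    · have : τ = t ∨ τ = t + 2 := by
                        by_contra hh
                        push Not at hh
                        have := (ne_iff3 t τ).1 hh.1
                        tauto
                      rcases this with rfl | rfl
                      · exact absurd hτ2 hqX
                      · exact Or.inr ⟨hτ2, hτ1⟩
                  have hb' : q = P (t + 2) ∧ P (t + 2) ≠ X (t + 2) ∨
                      q = X (t + 1) ∧ P (t + 1) ≠ X (t + 1) := by
                    rcases hb with hb | ⟨hb1, hb2⟩ | ⟨τ, hτ, hτ1, hτ2⟩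
                    · exact absurd hb hqF
                    · exact Or.inl ⟨hb2, hb1⟩
                    · have : τ = t ∨ τ = t + 1 := by
                        by_contra hh
                        push Not at hh
                        have := (ne_iff3 t τ).1 hh.1
                        tauto
                      rcases this with rfl | rfl
                      · exact absurd hτ2 hqX
                      · exact Or.inr ⟨hτ2, hτ1⟩
                  rcases ha' with ⟨e1, n1⟩ | ⟨e1, n1⟩ <;> rcases hb' with ⟨e2, n2⟩ | ⟨e2, n2⟩
                  · exact dPP _ _ ht12 (e1.symm.trans e2)
                  · exact n1 (e1.symm.trans e2)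
                  · exact n1 (e2.symm.trans e1)
                  · exact dXX _ _ (Ne.symm ht12) (e1.symm.trans e2)
              · rintro (h | h)
                · exact hqne h.2
                · exact h.1 rfl
          rw [hz, hN]
          ring
      · -- the link does not fit
        rw [if_neg (fun h => hc (hcond.1 h))]
        push Not at hc
        have hN : Nt M (fun t => r' * u t) (r' * v) t (P t + stp t k) (X t) = 0 := by
          have h3 := (inD_iff M t _).1 (hX t)
          have h4 := (inD_iff M t _).1 (hP t)
          have hdB : -1 ≤ dB k := by
            fin_cases k <;> simp [dB]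
          by_cases hB : Bc M t (P t + stp t k) = -1
          · exact Nt_bdry M _ _ t _ _ hB
          · apply Nt_dead
            · omega
            · exact hX t
            · by_contra hh
              push Not at hh
              apply hc.1
              apply full t
              · rw [inD_iff M t]
                have := ABG M t (P t + stp t k)
                omega
              · unfold inpar
                omega
              · exact stp_ne t k _
              · exact hc.2
        rw [hN]
        ring

end

end Pool.Agent.Q162.Bz
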