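import Pool.Agent.Q162.Benzel.Coord

/-!
Tilings of benzels are tilings of the model regions.
-/

namespace Pool.Agent.Q162.Bz

open Finset Pool.Agent.Q162.Benzel

/-- The benzel is the image of the model region. -/
theorem mem_benzel (M κ : ℤ) (hκ : κ = 0 ∨ κ = 1) (hM : 1 ≤ M) (c : Cell) :
    c ∈ (Reg M κ).map (phE M) ↔ c ∈ benzel (M + 2) (2 * M + 1 - κ) := by
  obtain ⟨c1, c2, c3⟩ := c
  unfold benzel
  simp only [Set.mem_setOf_eq]
  constructor
  · intro h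
    rw [mem_map] at h
    obtain ⟨⟨t, a, g⟩, hx, he⟩ := h
    rw [mem_Reg] at hx
    obtain ⟨hD, hm⟩ := hx
    unfold InD at hD
    have he' : ph M (t, a, g) = (c1, c2, c3) := he
    fin_cases t
    · have hm' : ¬ m1 M κ a g := hm
      unfold m1 at hm'
      simp only [ph, Prod.mk.injEq] at he'
      simp only at hD
      omega
    · have hm' : ¬ m2 M κ a g := hm
      unfold m2 at hm'
      simp only [ph, Prod.mk.injEq] at he'
      simp only at hD
      omega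
    · have hm' : ¬ m3 M κ a g := hm
      unfold m3 at hm'
      simp only [ph, Prod.mk.injEq] at he'
      simp only at hD
      omega
  · intro h
    obtain ⟨m, hm⟩ : ∃ m, M + c3 - c2 = 3 * m ∨ M + c3 - c2 = 3 * m + 1 ∨
        M + c3 - c2 = 3 * m + 2 := ⟨(M + c3 - c2) / 3, by omega⟩
    rw [mem_map]
    rcases hm with hm | hm | hm
    · refine ⟨(0, c2 + m, m - c3), ?_, ?_⟩
      · rw [mem_Reg]
        unfold InD ms m1
        simp only
        omega
      · show ph M (0, c2 + m, m - c3) = (c1, c2, c3)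
        simp only [ph, Prod.mk.injEq]
        omega
    · refine ⟨(2, c2 + m, m - c3 + 1), ?_, ?_⟩
      · rw [mem_Reg]
        unfold InD ms m3
        simp only
        omega
      · show ph M (2, c2 + m, m - c3 + 1) = (c1, c2, c3)
        simp only [ph, Prod.mk.injEq]
        omega
    · refine ⟨(1, c2 + m, m + 1 - c3), ?_, ?_⟩
      · rw [mem_Reg]
        unfold InD ms m2
        simp only
        omega
      · show ph M (1, c2 + m, m + 1 - c3) = (c1, c2, c3)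
        simp only [ph, Prod.mk.injEq]
        omega

theorem tile3_iff (M : ℤ) (T : Finset (Fin 3 × ℤ × ℤ)) :
    tile3 T ↔ Proto113 (T.map (phE M)) := by
  constructor
  · rintro ⟨a1, g1, a2, g2, a3, g3, rfl, hs⟩
    unfold Sh at hs
    unfold Proto113
    rcases hs with ⟨h1, h2, hs⟩ | ⟨h1, h2, h3, h4⟩ | ⟨h1, h2, h3, h4⟩ | ⟨h1, h2, hs⟩ |
      ⟨h1, h2, hs⟩ | ⟨h1, h2, h3, h4⟩
    · rcases hs with ⟨h3, h4⟩ | ⟨h3, h4⟩ | ⟨h3, h4⟩ | ⟨h3, h4⟩
      · exact Or.inl (cls_R0 M ⟨h1, h2, h3, h4⟩)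
      · exact Or.inr (Or.inr ⟨0, cls_b02 M ⟨h1, h2, h3, h4⟩⟩)
      · exact Or.inr (Or.inr ⟨0, cls_b01 M ⟨h1, h2, h3, h4⟩⟩)
      · exact Or.inr (Or.inl (cls_L2 M ⟨h1, h2, h3, h4⟩))
    · exact Or.inr (Or.inr ⟨1, cls_b10 M ⟨h1, h2, h3, h4⟩⟩)
    · exact Or.inr (Or.inr ⟨2, cls_b20 M ⟨h1, h2, h3, h4⟩⟩)
    · rcases hs with ⟨h3, h4⟩ | ⟨h3, h4⟩ | ⟨h3, h4⟩ | ⟨h3, h4⟩
      · exact Or.inr (Or.inr ⟨1, cls_b11 M ⟨h1, h2, h3, h4⟩⟩)
      · exact Or.inr (Or.inl (cls_L1 M ⟨h1, h2, h3, h4⟩))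
      · exact Or.inl (cls_R1 M ⟨h1, h2, h3, h4⟩)
      · exact Or.inr (Or.inr ⟨1, cls_b12 M ⟨h1, h2, h3, h4⟩⟩)
    · rcases hs with ⟨h3, h4⟩ | ⟨h3, h4⟩ | ⟨h3, h4⟩ | ⟨h3, h4⟩
      · exact Or.inr (Or.inl (cls_L0 M ⟨h1, h2, h3, h4⟩))
      · exact Or.inr (Or.inr ⟨2, cls_b22 M ⟨h1, h2, h3, h4⟩⟩)
      · exact Or.inl (cls_R2 M ⟨h1, h2, h3, h4⟩)
      · exact Or.inr (Or.inr ⟨2, cls_b21 M ⟨h1, h2, h3, h4⟩⟩)
    · exact Or.inr (Or.inr ⟨0, cls_b00 M ⟨h1, h2, h3, h4⟩⟩)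
  · rintro (h | h | ⟨i, h⟩)
    · exact bk_R M T h
    · exact bk_L M T h
    · fin_cases i
      · exact bk_b0 M T h
      · exact bk_b1 M T h
      · exact bk_b2 M T h

/-! Exclusivity of the kinds. -/

theorem not_right_left {T : Finset Cell} (h : IsRightStone T) (h' : IsLeftStone T) : False := by
  rw [isRight_iff] at h
  rw [isLeft_iff] at h'
  obtain ⟨x, y, z, hs, rfl⟩ := h
  obtain ⟨x', y', z', hs', h'⟩ := h'
  have h1 : (x + 1, y, z) ∈ ({(x' - 1, y', z'), (x', y' - 1, z'), (x', y', z' - 1)} :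
    Finset (ℤ × ℤ × ℤ)) := by rw [← h']; simp
  have h2 : (x, y + 1, z) ∈ ({(x' - 1, y', z'), (x', y' - 1, z'), (x', y', z' - 1)} :
    Finset (ℤ × ℤ × ℤ)) := by rw [← h']; simp
  have h3 : (x, y, z + 1) ∈ ({(x' - 1, y', z'), (x', y' - 1, z'), (x', y', z' - 1)} :
    Finset (ℤ × ℤ × ℤ)) := by rw [← h']; simp
  simp only [mem_insert, mem_singleton, Prod.mk.injEq] at h1 h2 h3
  omega

theorem not_right_bone {T : Finset Cell} (i : Fin 3) (h : IsRightStone T) (h' : IsBone i T) :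
    False := by
  rw [isRight_iff] at h
  obtain ⟨x, y, z, hs, rfl⟩ := h
  fin_cases i
  · replace h' := isBone0_iff.1 h'
    obtain ⟨x', y', z', hs', h'⟩ := h'
    have h1 : (x + 1, y, z) ∈ ({(x', y', z'), (x' + 1, y' - 1, z'), (x' + 2, y' - 2, z')} :
      Finset (ℤ × ℤ × ℤ)) := by rw [← h']; simp
    have h2 : (x, y, z + 1) ∈ ({(x', y', z'), (x' + 1, y' - 1, z'), (x' + 2, y' - 2, z')} :
      Finset (ℤ × ℤ × ℤ)) := by rw [← h']; simp
    simp only [mem_insert, mem_singleton, Prod.mk.injEq] at h1 h2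
    omega
  · replace h' := isBone1_iff.1 h'
    obtain ⟨x', y', z', hs', h'⟩ := h'
    have h1 : (x + 1, y, z) ∈ ({(x', y', z'), (x', y' + 1, z' - 1), (x', y' + 2, z' - 2)} :
      Finset (ℤ × ℤ × ℤ)) := by rw [← h']; simp
    have h2 : (x, y, z + 1) ∈ ({(x', y', z'), (x', y' + 1, z' - 1), (x', y' + 2, z' - 2)} :
      Finset (ℤ × ℤ × ℤ)) := by rw [← h']; simp
    simp only [mem_insert, mem_singleton, Prod.mk.injEq] at h1 h2
    omega
  · replace h' := isBone2_iff.1 h'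
    obtain ⟨x', y', z', hs', h'⟩ := h'
    have h1 : (x + 1, y, z) ∈ ({(x', y', z'), (x' - 1, y', z' + 1), (x' - 2, y', z' + 2)} :
      Finset (ℤ × ℤ × ℤ)) := by rw [← h']; simp
    have h2 : (x, y + 1, z) ∈ ({(x', y', z'), (x' - 1, y', z' + 1), (x' - 2, y', z' + 2)} :
      Finset (ℤ × ℤ × ℤ)) := by rw [← h']; simp
    simp only [mem_insert, mem_singleton, Prod.mk.injEq] at h1 h2
    omega

theorem not_left_bone {T : Finset Cell} (i : Fin 3) (h : IsLeftStone T) (h' : IsBone i T) :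
    False := by
  rw [isLeft_iff] at h
  obtain ⟨x, y, z, hs, rfl⟩ := h
  fin_cases i
  · replace h' := isBone0_iff.1 h'
    obtain ⟨x', y', z', hs', h'⟩ := h'
    have h1 : (x - 1, y, z) ∈ ({(x', y', z'), (x' + 1, y' - 1, z'), (x' + 2, y' - 2, z')} :
      Finset (ℤ × ℤ × ℤ)) := by rw [← h']; simp
    have h2 : (x, y, z - 1) ∈ ({(x', y', z'), (x' + 1, y' - 1, z'), (x' + 2, y' - 2, z')} :
      Finset (ℤ × ℤ × ℤ)) := by rw [← h']; simp
    simp only [mem_insert, mem_singleton, Prod.mk.injEq] at h1 h2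
    omega
  · replace h' := isBone1_iff.1 h'
    obtain ⟨x', y', z', hs', h'⟩ := h'
    have h1 : (x - 1, y, z) ∈ ({(x', y', z'), (x', y' + 1, z' - 1), (x', y' + 2, z' - 2)} :
      Finset (ℤ × ℤ × ℤ)) := by rw [← h']; simp
    have h2 : (x, y, z - 1) ∈ ({(x', y', z'), (x', y' + 1, z' - 1), (x', y' + 2, z' - 2)} :
      Finset (ℤ × ℤ × ℤ)) := by rw [← h']; simp
    simp only [mem_insert, mem_singleton, Prod.mk.injEq] at h1 h2
    omega
  · replace h' := isBone2_iff.1 h'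
    obtain ⟨x', y', z', hs', h'⟩ := h'
    have h1 : (x - 1, y, z) ∈ ({(x', y', z'), (x' - 1, y', z' + 1), (x' - 2, y', z' + 2)} :
      Finset (ℤ × ℤ × ℤ)) := by rw [← h']; simp
    have h2 : (x, y - 1, z) ∈ ({(x', y', z'), (x' - 1, y', z' + 1), (x' - 2, y', z' + 2)} :
      Finset (ℤ × ℤ × ℤ)) := by rw [← h']; simp
    simp only [mem_insert, mem_singleton, Prod.mk.injEq] at h1 h2
    omega

/-- Coordinate that is constant along a bone of direction `i`. -/
def cst (i : Fin 3) (c : Cell) : ℤ :=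
  match i with
  | 0 => c.2.2
  | 1 => c.1
  | 2 => c.2.1

theorem bone_cst {T : Finset Cell} {i : Fin 3} (h : IsBone i T) : ∀ c ∈ T, ∀ c' ∈ T,
    cst i c = cst i c' := by
  obtain ⟨⟨x, y, z⟩, _, rfl⟩ := h
  intro c hc c' hc'
  simp only [mem_insert, mem_singleton] at hc hc'
  fin_cases i <;> rcases hc with rfl | rfl | rfl <;> rcases hc' with rfl | rfl | rfl <;>
    simp [cst, dir]

theorem bone_ncst {T : Finset Cell} {i j : Fin 3} (hij : i ≠ j) (h : IsBone i T)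
    (h' : IsBone j T) : False := by
  have hc := bone_cst h'
  obtain ⟨⟨x, y, z⟩, _, rfl⟩ := h
  have h1 := hc (x, y, z) (by simp) ((x, y, z) + dir i) (by simp)
  fin_cases i <;> fin_cases j <;> simp [cst, dir] at h1 hij

section
variable {K : Type*} [CommRing K]

/-- Weights adapted to the kinds of tiles. -/
structure Wt (W : Finset Cell → K) (r v : K) (b : Fin 3 → K) : Prop where
  hR : ∀ T, IsRightStone T → W T = r
  hL : ∀ T, IsLeftStone T → W T = v
  hB : ∀ i T, IsBone i T → W T = b i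

theorem Wt.std {W : Finset Cell → K} {r v : K} {b : Fin 3 → K} (h : Wt W r v b) (M : ℤ)
    (q : ℤ × ℤ) : W ((std q).map (phE M)) = r := by
  obtain ⟨a, g⟩ := q
  rw [std_eq]
  exact h.hR _ (cls_R0 M ⟨rfl, rfl, rfl, rfl⟩)

theorem Wt.lnk {W : Finset Cell → K} {r v : K} {b : Fin 3 → K} (h : Wt W r v b) (M : ℤ)
    (t : Fin 3) (q : ℤ × ℤ) (k : Fin 3) :
    W ((lnk t q k).map (phE M)) = wst (fun t => b (t + 1)) v t k := by
  obtain ⟨a, g⟩ := q
  fin_cases t
  · rw [show (⟨0, by decide⟩ : Fin 3) = 0 from rfl, lnk0_eq]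
    fin_cases k
    · exact h.hB 1 _ (cls_b11 M (by simp [stp, Es, sub_eq_add_neg]))
    · exact h.hB 1 _ (cls_b10 M (by simp [stp, Es]))
    · exact h.hL _ (cls_L0 M (by simp [stp, Es, sub_eq_add_neg]))
  · rw [show (⟨1, by decide⟩ : Fin 3) = 1 from rfl, lnk1_eq]
    fin_cases k
    · exact h.hB 2 _ (cls_b20 M (by simp [stp, Es]))
    · exact h.hB 2 _ (cls_b22 M (by simp [stp, Es]))
    · exact h.hL _ (cls_L1 M (by simp [stp, Es]))
  · rw [show (⟨2, by decide⟩ : Fin 3) = 2 from rfl, lnk2_eq]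
    fin_cases k
    · exact h.hB 0 _ (cls_b02 M (by simp [stp, Es]))
    · exact h.hB 0 _ (cls_b01 M (by simp [stp, Es]))
    · exact h.hL _ (cls_L2 M (by simp [stp, Es]))

theorem Wt.T5 {W : Finset Cell → K} {r v : K} {b : Fin 3 → K} (h : Wt W r v b) (M : ℤ)
    (κ : Fin 5) (q : ℤ × ℤ) :
    W ((T5 κ q).map (phE M)) = w5 r (fun t => b (t + 1)) κ := by
  obtain ⟨a, g⟩ := q
  unfold Bz.T5
  fin_cases κ
  · exact h.hR _ (cls_R2 M (by simp [X5]))
  · exact h.hR _ (cls_R1 M (by simp [X5]))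
  · exact h.hB 0 _ (cls_b00 M (by simp [X5]; omega))
  · exact h.hB 1 _ (cls_b12 M (by simp [X5]))
  · exact h.hB 2 _ (cls_b21 M (by simp [X5]))

theorem Z_bridge (M κ : ℤ) (W : Finset Cell → K) :
    Z Proto113 W ((Reg M κ).map (phE M)) = Z tile3 (fun T => W (T.map (phE M))) (Reg M κ) :=
  Z_map (phE M) tile3 Proto113 (fun T => W (T.map (phE M))) W (Reg M κ)
    (fun T _ => tile3_iff M T) (fun _ _ _ => rfl)

end

/-- Tilings as a finite set. -/
theorem tilings_eq (proto : Finset Cell → Prop) (M κ : ℤ) (hκ : κ = 0 ∨ κ = 1) (hM : 1 ≤ M) :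
    {P | IsTiling proto (benzel (M + 2) (2 * M + 1 - κ)) P} =
      ((tils proto ((Reg M κ).map (phE M)) : Finset (Finset (Finset Cell))) :
        Set (Finset (Finset Cell))) := by
  ext P
  rw [Set.mem_setOf_eq, Finset.mem_coe, mem_tils]
  unfold IsTiling IsTil
  refine and_congr Iff.rfl (and_congr Iff.rfl ?_)
  refine forall_congr' ?_
  intro c
  rw [mem_benzel M κ hκ hM]

open Classical in
/-- Tilings by a subfamily of tiles, as a weighted count. -/
theorem card_sub {K : Type*} [CommRing K] (proto proto' : Finset Cell → Prop)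
    (h : ∀ T, proto' T → proto T) (R : Finset Cell) :
    ((tils proto' R).card : K) = Z proto (fun T => if proto' T then 1 else 0) R := by
  unfold Z
  have h1 : ∀ P ∈ tils proto R, (∏ T ∈ P, if proto' T then (1 : K) else 0) =
      if (∀ T ∈ P, proto' T) then 1 else 0 := by
    intro P _
    split_ifs with hP
    · exact Finset.prod_eq_one (fun T hT => if_pos (hP T hT))
    · push Not at hP
      obtain ⟨T, hT, hn⟩ := hP
      exact Finset.prod_eq_zero hT (if_neg hn)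
  rw [Finset.sum_congr rfl h1, ← Finset.sum_filter, Finset.sum_const, nsmul_eq_mul, mul_one]
  congr 2
  ext P
  rw [mem_filter, mem_tils, mem_tils]
  constructor
  · intro hP
    exact ⟨⟨fun T hT => h T (hP.1 T hT), hP.2.1, hP.2.2⟩, hP.1⟩
  · rintro ⟨hP, hP'⟩
    exact ⟨hP', hP.2.1, hP.2.2⟩

end Pool.Agent.Q162.Bz
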