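import Pool.Agent.Q162.Benzel.Three

/-!
The explicit formula for the larger region.
-/

namespace Pool.Agent.Q162.Bz

open Finset

section
variable {K : Type*} [CommRing K]

open Classical in
/-- Tiles at a source. -/
noncomputable def Qs (M : ℤ) (s : ℤ × ℤ) (x : Fin 3 × Fin 3 × Fin 3) :
    Finset (Finset (Fin 3 × ℤ × ℤ)) :=
  (univ.filter (fun t => s ≠ tg M t)).image (fun t => lnk t s (kf x t))

open Classical in
noncomputable def Ks (M : ℤ) (s : ℤ × ℤ) : Finset (Fin 3 × Fin 3 × Fin 3) :=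
  univ.filter (fun x => ∀ t, s = tg M t → kf x t = 0)

theorem Z32 (M : ℤ) (hM : 1 ≤ M) (w : Finset (Fin 3 × ℤ × ℤ) → K) :
    Z tile3 w (Reg M 0) = Z tile2 w (Reg M 0) := by
  unfold Z
  refine Finset.sum_congr ?_ (fun _ _ => rfl)
  ext P
  rw [mem_tils, mem_tils]
  constructor
  · intro hP
    have hc := cov_of M 0 hM P hP
    refine ⟨?_, hP.2.1, hP.2.2⟩
    intro T hT
    obtain ⟨a1, g1, a2, g2, a3, g3, rfl, hs⟩ := hP.1 T hT
    rw [tile2_iff]
    exact ⟨_, _, _, _, _, _, rfl, hs, no_tri hc hT⟩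
  · intro hP
    refine ⟨?_, hP.2.1, hP.2.2⟩
    intro T hT
    obtain ⟨a1, g1, a2, g2, a3, g3, he, hs, _⟩ := (tile2_iff T).1 (hP.1 T hT)
    exact ⟨_, _, _, _, _, _, he, hs⟩

theorem tils_tile3 (M : ℤ) {P : Finset (Finset (Fin 3 × ℤ × ℤ))}
    (hP : IsTil tile2 (Reg M 0) P) : IsTil tile3 (Reg M 0) P := by
  refine ⟨?_, hP.2.1, hP.2.2⟩
  intro T hT
  obtain ⟨a1, g1, a2, g2, a3, g3, he, hs, _⟩ := (tile2_iff T).1 (hP.1 T hT)
  exact ⟨_, _, _, _, _, _, he, hs⟩

/-- Two cells of a source are never in one tile. -/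
theorem src_two {M : ℤ} {P : Finset (Finset (Fin 3 × ℤ × ℤ))} (hP : IsTil tile2 (Reg M 0) P)
    {s : ℤ × ℤ} (hs : IsS M (Rel P) s) {T : Finset (Fin 3 × ℤ × ℤ)} (hT : T ∈ P)
    {t t' : Fin 3} (hne : t ≠ t') (h1 : (t, s) ∈ T) (h2 : (t', s) ∈ T) : False := by
  obtain ⟨a1, g1, a2, g2, a3, g3, rfl, _, _⟩ := (tile2_iff T).1 (hP.1 T hT)
  obtain ⟨a, g⟩ := s
  obtain ⟨_, h12, h23, h13⟩ := hs
  fin_cases t <;> fin_cases t'
  · exact hne rfl
  · have e1 := mem_tr0.1 h1
    have e2 := mem_tr1.1 h2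
    rw [← e1, ← e2] at hT
    exact h12 _ _ hT
  · have e1 := mem_tr0.1 h1
    have e2 := mem_tr2.1 h2
    rw [← e1, ← e2] at hT
    exact h13 _ _ hT
  · have e1 := mem_tr1.1 h1
    have e2 := mem_tr0.1 h2
    rw [← e1, ← e2] at hT
    exact h12 _ _ hT
  · exact hne rfl
  · have e1 := mem_tr1.1 h1
    have e2 := mem_tr2.1 h2
    rw [← e1, ← e2] at hT
    exact h23 _ _ hT
  · have e1 := mem_tr2.1 h1
    have e2 := mem_tr0.1 h2
    rw [← e1, ← e2] at hT
    exact h13 _ _ hT
  · have e1 := mem_tr2.1 h1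
    have e2 := mem_tr1.1 h2
    rw [← e1, ← e2] at hT
    exact h23 _ _ hT
  · exact hne rfl

theorem isS_of {M : ℤ} {P : Finset (Finset (Fin 3 × ℤ × ℤ))}
    {s : ℤ × ℤ} (hD : InD M s)
    (h : ∀ T ∈ P, ∀ t t' : Fin 3, t ≠ t' → (t, s) ∈ T → (t', s) ∈ T → False) :
    IsS M (Rel P) s := by
  obtain ⟨a, g⟩ := s
  refine ⟨hD, ?_, ?_, ?_⟩
  · intro a3 g3 hT
    exact h _ hT 0 1 (by decide) (mem_tr0.2 rfl) (mem_tr1.2 rfl)
  · intro a3 g3 hT
    exact h _ hT 1 2 (by decide) (mem_tr1.2 rfl) (mem_tr2.2 rfl)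
  · intro a3 g3 hT
    exact h _ hT 0 2 (by decide) (mem_tr0.2 rfl) (mem_tr2.2 rfl)

theorem isS_of_Qs {M : ℤ} {P : Finset (Finset (Fin 3 × ℤ × ℤ))}
    (hP : IsTil tile2 (Reg M 0) P) {s : ℤ × ℤ} (hD : InD M s) {x : Fin 3 × Fin 3 × Fin 3}
    (hQ : Qs M s x ⊆ P) : IsS M (Rel P) s := by
  apply isS_of hD
  intro T hT t t' hne h1 h2
  have hr := (mem_Reg0.1 (hP.subset hT h1)).2
  have hl : lnk t s (kf x t) ∈ P := by
    apply hQ
    unfold Qs
    rw [mem_image]
    exact ⟨t, by rw [mem_filter]; exact ⟨mem_univ _, hr⟩, rfl⟩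
  have := hP.uniq hT hl h1 (mem_lnk.2 (Or.inl ⟨rfl, rfl⟩))
  rw [this, mem_lnk] at h2
  rcases h2 with h2 | h2
  · exact hne h2.1.symm
  · exact stp_ne t _ s h2.2.symm

theorem kf_mk (k : Fin 3 → Fin 3) (t : Fin 3) : kf (k 0, k 1, k 2) t = k t := by
  fin_cases t <;> rfl

theorem kf_ext {x y : Fin 3 × Fin 3 × Fin 3} (h : ∀ t, kf x t = kf y t) : x = y := by
  obtain ⟨a, b, c⟩ := x
  obtain ⟨a', b', c'⟩ := y
  have h0 : a = a' := h 0
  have h1 : b = b' := h 1
  have h2 : c = c' := h 2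
  rw [h0, h1, h2]

theorem exists_Qs {M : ℤ} (hM : 1 ≤ M) {P : Finset (Finset (Fin 3 × ℤ × ℤ))}
    (hP : IsTil tile2 (Reg M 0) P) : ∃ s ∈ Dl M, ∃ x ∈ Ks M s, Qs M s x ⊆ P := by
  classical
  have hc := cov_of M 0 hM P (tils_tile3 M hP)
  obtain ⟨s, hs⟩ := exists_src hc
  have hk : ∀ t, ∃ k : Fin 3, (s = tg M t → k = 0) ∧ (s ≠ tg M t → lnk t s k ∈ P) := by
    intro t
    by_cases h : s = tg M t
    · exact ⟨0, fun _ => rfl, fun h' => absurd h h'⟩
    · obtain ⟨T, hT, hcT⟩ := (hP.2.2 (t, s)).2 (mem_Reg0.2 ⟨hs.1, h⟩)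
      rcases hP.1 T hT with ⟨q, rfl⟩ | ⟨t', q, k, rfl⟩
      · exfalso
        rw [mem_std] at hcT
        subst hcT
        exact src_two hP hs hT (show (0 : Fin 3) ≠ 1 by decide) (mem_std.2 rfl) (mem_std.2 rfl)
      · have hc' := mem_lnk.1 hcT
        rcases hc' with ⟨rfl, rfl⟩ | ⟨hne, rfl⟩
        · exact ⟨k, fun h' => absurd h' h, fun _ => hT⟩
        · exfalso
          have hex : ∃ y : Fin 3, y ≠ t ∧ y ≠ t' := by
            revert hne
            fin_cases t <;> fin_cases t' <;> decide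
          obtain ⟨y, hy, hy'⟩ := hex
          exact src_two hP hs hT hy.symm hcT (mem_lnk.2 (Or.inr ⟨hy', rfl⟩))
  choose k hk using hk
  refine ⟨s, mem_Dl.2 hs.1, (k 0, k 1, k 2), ?_, ?_⟩
  · unfold Ks
    rw [mem_filter]
    refine ⟨mem_univ _, ?_⟩
    intro t ht
    rw [kf_mk]
    exact (hk t).1 ht
  · intro T hT
    unfold Qs at hT
    rw [mem_image] at hT
    obtain ⟨t, ht, rfl⟩ := hT
    rw [mem_filter] at ht
    rw [kf_mk]
    exact (hk t).2 ht.2

theorem unique_Qs {M : ℤ} (hM : 1 ≤ M) {P : Finset (Finset (Fin 3 × ℤ × ℤ))}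
    (hP : IsTil tile2 (Reg M 0) P) {s s' : ℤ × ℤ} {x x' : Fin 3 × Fin 3 × Fin 3}
    (hs : s ∈ Dl M) (hs' : s' ∈ Dl M) (hx : x ∈ Ks M s) (hx' : x' ∈ Ks M s')
    (hQ : Qs M s x ⊆ P) (hQ' : Qs M s' x' ⊆ P) : s = s' ∧ x = x' := by
  classical
  have hc := cov_of M 0 hM P (tils_tile3 M hP)
  have h1 := isS_of_Qs hP (mem_Dl.1 hs) hQ
  have h2 := isS_of_Qs hP (mem_Dl.1 hs') hQ'
  have h3 := unique_src hc h1 h2
  subst h3
  refine ⟨rfl, ?_⟩
  apply kf_ext
  intro t
  by_cases h : s = tg M t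
  · unfold Ks at hx hx'
    rw [mem_filter] at hx hx'
    rw [hx.2 t h, hx'.2 t h]
  · have hl : ∀ y, Qs M s y ⊆ P → lnk t s (kf y t) ∈ P := by
      intro y hy
      apply hy
      unfold Qs
      rw [mem_image]
      exact ⟨t, by rw [mem_filter]; exact ⟨mem_univ _, h⟩, rfl⟩
    have := hP.uniq (hl x hQ) (hl x' hQ') (mem_lnk.2 (Or.inl ⟨rfl, rfl⟩))
      (mem_lnk.2 (Or.inl ⟨rfl, rfl⟩))
    exact lnk_inj this

open Classical in
theorem dec3 (M : ℤ) (hM : 1 ≤ M) (w : Finset (Fin 3 × ℤ × ℤ) → K) :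
    Z tile3 w (Reg M 0) = ∑ s ∈ Dl M, ∑ x ∈ Ks M s,
      ∑ P ∈ (tils tile2 (Reg M 0)).filter (fun P => Qs M s x ⊆ P), ∏ T ∈ P, w T := by
  rw [Z32 M hM w]
  simp_rw [Finset.sum_filter]
  have h1 : ∀ s ∈ Dl M, ∑ x ∈ Ks M s, ∑ P ∈ tils tile2 (Reg M 0),
      (if Qs M s x ⊆ P then ∏ T ∈ P, w T else 0) = ∑ P ∈ tils tile2 (Reg M 0),
      ∑ x ∈ Ks M s, (if Qs M s x ⊆ P then ∏ T ∈ P, w T else 0) := by
    intro s _
    exact Finset.sum_comm
  rw [Finset.sum_congr rfl h1, Finset.sum_comm]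
  unfold Z
  refine Finset.sum_congr rfl ?_
  intro P hP
  rw [mem_tils] at hP
  obtain ⟨s, hs, x, hx, hQ⟩ := exists_Qs hM hP
  rw [Finset.sum_eq_single s, Finset.sum_eq_single x, if_pos hQ]
  · intro y hy hne
    rw [if_neg]
    intro h
    exact hne (unique_Qs hM hP hs hs hy hx h hQ).2
  · intro h
    exact absurd hx h
  · intro s' hs' hne
    refine Finset.sum_eq_zero ?_
    intro y hy
    rw [if_neg]
    intro h
    exact hne (unique_Qs hM hP hs' hs hy hx h hQ).1
  · intro h
    exact absurd hs h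

open Classical in
/-- Contribution of one step. -/
noncomputable def fac (M : ℤ) (un : Fin 3 → K) (vn : K) (t : Fin 3) (s : ℤ × ℤ) (k : Fin 3) : K :=
  if s = tg M t then (if k = 0 then 1 else 0) else
    wst un vn t k * Nt M un vn t (s + stp t k) (tg M t)

theorem Nt_out (M : ℤ) (hM : 1 ≤ M) (un : Fin 3 → K) (vn : K) (t : Fin 3) (s : ℤ × ℤ)
    (hs : InD M s) (k : Fin 3) (h : ¬ InD M (s + stp t k)) :
    Nt M un vn t (s + stp t k) (tg M t) = 0 := by
  rw [inD_iff M t] at hs h
  have h1 := Ac_stp M t k s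
  have h2 := Bc_stp M t k s
  have h3 := Gc_stp M t k s
  have h4 := stp_facts k
  have h5 := tg_co M t
  have hdB : -1 ≤ dB k := by
    fin_cases k <;> simp [dB]
  by_cases hB : Bc M t (s + stp t k) = -1
  · exact Nt_bdry M _ _ t _ _ hB
  · apply Nt_dead
    · omega
    · exact tg_inD M hM t
    · omega

open Classical in
theorem inner3 (M : ℤ) (hM : 1 ≤ M) (w : Finset (Fin 3 × ℤ × ℤ) → K) (r r' : K)
    (hr : r * r' = 1) (u : Fin 3 → K) (v : K) (hw0 : ∀ q, w (std q) = r)
    (hwk : ∀ t q k, w (lnk t q k) = wst u v t k) (s : ℤ × ℤ) (hs : s ∈ Dl M)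
    (x : Fin 3 × Fin 3 × Fin 3) (hx : x ∈ Ks M s) :
    ∑ P ∈ (tils tile2 (Reg M 0)).filter (fun P => Qs M s x ⊆ P), ∏ T ∈ P, w T =
      r ^ ((Dl M).card - 1) * ((if Cmp x then 1 else 0) *
        ∏ t, fac M (fun t => r' * u t) (r' * v) t s (kf x t)) := by
  have hsD := mem_Dl.1 hs
  unfold Ks at hx
  rw [mem_filter] at hx
  have hx0 := hx.2
  by_cases hPD : ∀ t, InD M (Pk M s x t)
  · by_cases hC : Cmp x
    · rw [if_pos hC, one_mul]
      have sep := sep_all M hM s x hC
      have hco := tg_co M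
      have live : ∀ t, Ac M t (tg M t) ≤ Ac M t (Pk M s x t) ∧
          Gc M t (Pk M s x t) ≤ Gc M t (tg M t) := by
        intro t
        have h1 := hco t
        have h2 := (inD_iff M t _).1 (hPD t)
        have h3 := ABG M t (Pk M s x t)
        omega
      have pP : ∀ τ, inpar M τ (Pk M s x τ) (tg M τ) (Pk M s x τ) := fun τ =>
        ⟨(live τ).1, le_rfl, le_rfl, (live τ).2⟩
      have pX : ∀ τ, inpar M τ (Pk M s x τ) (tg M τ) (tg M τ) := fun τ =>
        ⟨le_rfl, (live τ).1, (live τ).2, le_rfl⟩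
      have dPP : ∀ τ τ', τ ≠ τ' → Pk M s x τ ≠ Pk M s x τ' := fun τ τ' h e =>
        sep τ τ' (Pk M s x τ) h (pP τ) (e ▸ pP τ')
      have dPX : ∀ τ τ', τ ≠ τ' → Pk M s x τ ≠ tg M τ' := fun τ τ' h e =>
        sep τ τ' (Pk M s x τ) h (pP τ) (e ▸ pX τ')
      have hPk : ∀ t, s ≠ tg M t → Pk M s x t = s + stp t (kf x t) := by
        intro t ht
        unfold Pk
        rw [if_neg ht]
      have hdisj : ∀ t t', t ≠ t' → s ≠ tg M t → s ≠ tg M t' →
          Disjoint (lnk t s (kf x t)) (lnk t' s (kf x t')) := by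
        intro t t' hne h1 h2
        rw [Finset.disjoint_left]
        rintro ⟨y, q⟩ ha hb
        rw [mem_lnk] at ha hb
        rcases ha with ⟨a1, a2⟩ | ⟨a1, a2⟩ <;> rcases hb with ⟨b1, b2⟩ | ⟨b1, b2⟩
        · exact hne (a1.symm.trans b1)
        · exact stp_ne t' _ s (b2.symm.trans a2)
        · exact stp_ne t _ s (a2.symm.trans b2)
        · apply dPP t t' hne
          rw [hPk t h1, hPk t' h2, ← a2, ← b2]
      have hQmem : ∀ T, T ∈ Qs M s x ↔ ∃ t, s ≠ tg M t ∧ lnk t s (kf x t) = T := by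
        intro T
        unfold Qs
        rw [mem_image]
        constructor
        · rintro ⟨t, ht, rfl⟩
          rw [mem_filter] at ht
          exact ⟨t, ht.2, rfl⟩
        · rintro ⟨t, ht, rfl⟩
          exact ⟨t, by rw [mem_filter]; exact ⟨mem_univ _, ht⟩, rfl⟩
      rw [sum_contain tile2 w tile2_ne (Reg M 0) (Qs M s x)]
      · rw [eval3 M hM w r r' hr u v hw0 hwk s hsD x hC hPD]
        · have hprodQ : ∏ T ∈ Qs M s x, w T = ∏ t ∈ univ.filter (fun t => s ≠ tg M t),
              wst u v t (kf x t) := by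
            unfold Qs
            rw [Finset.prod_image]
            · exact Finset.prod_congr rfl (fun t _ => hwk t s (kf x t))
            · intro t ht t' ht' h
              by_contra hne
              have ht2 := (mem_filter.1 ht).2
              have ht2' := (mem_filter.1 ht').2
              have := hdisj t t' hne ht2 ht2'
              have hh : lnk t s (kf x t) = lnk t' s (kf x t') := h
              rw [hh, Finset.disjoint_self_iff_empty] at this
              have h0 : (t', s) ∈ lnk t' s (kf x t') := mem_lnk.2 (Or.inl ⟨rfl, rfl⟩)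
              rw [this] at h0
              simp at h0
          rw [hprodQ]
          have hfac : ∏ t, fac M (fun t => r' * u t) (r' * v) t s (kf x t) =
              (∏ t ∈ univ.filter (fun t => s ≠ tg M t), (r' * wst u v t (kf x t))) *
              ∏ t, Nt M (fun t => r' * u t) (r' * v) t (Pk M s x t) (tg M t) := by
            rw [Finset.prod_filter, ← Finset.prod_mul_distrib]
            refine Finset.prod_congr rfl ?_
            intro t _
            unfold fac
            by_cases ht : s = tg M t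
            · rw [if_pos ht, if_pos (hx0 t ht), if_neg (by simpa using ht)]
              have : Pk M s x t = tg M t := by
                unfold Pk
                rw [if_pos ht, ht]
              rw [this, Nt_self M _ _ t _ (tg_inD M hM t), one_mul]
            · rw [if_neg ht, if_pos ht, hPk t ht, wst_mul]
          rw [hfac, Finset.prod_mul_distrib, Finset.prod_const]
          ring
        · intro t q
          rw [mem_sdiff, mem_Reg0, mem_biUnion]
          constructor
          · rintro ⟨⟨h1, h2⟩, h3⟩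
            have h4 : ∀ τ, s ≠ tg M τ → ¬ ((t = τ ∧ q = s) ∨ (t ≠ τ ∧ q = s + stp τ (kf x τ))) := by
              intro τ hτ h
              apply h3
              exact ⟨lnk τ s (kf x τ), (hQmem _).2 ⟨τ, hτ, rfl⟩, mem_lnk.2 h⟩
            have hqs : q ≠ s := by
              intro e
              by_cases hst : s = tg M t
              · exact h2 (e.trans hst)
              · exact h4 t hst (Or.inl ⟨rfl, e⟩)
            refine ⟨h1, h2, hqs, ?_⟩
            intro τ hτ e
            by_cases hst : s = tg M τ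
            · apply hqs
              rw [e]
              unfold Pk
              rw [if_pos hst]
            · apply h4 τ hst
              right
              refine ⟨hτ.symm, ?_⟩
              rw [e, hPk τ hst]
          · rintro ⟨h1, h2, h3, h4⟩
            refine ⟨⟨h1, h2⟩, ?_⟩
            rintro ⟨T, hT, hm⟩
            obtain ⟨τ, hτ, rfl⟩ := (hQmem T).1 hT
            rw [id, mem_lnk] at hm
            rcases hm with hm | hm
            · exact h3 hm.2
            · apply h4 τ hm.1.symm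
              rw [hPk τ hτ]
              exact hm.2
      · intro T hT
        obtain ⟨t, _, rfl⟩ := (hQmem T).1 hT
        exact Or.inr ⟨t, s, _, rfl⟩
      · intro T hT T' hT' hne
        obtain ⟨t, ht, rfl⟩ := (hQmem T).1 hT
        obtain ⟨t', ht', rfl⟩ := (hQmem T').1 hT'
        apply hdisj t t' _ ht ht'
        rintro rfl
        exact hne rfl
      · intro T hT
        obtain ⟨t, ht, rfl⟩ := (hQmem T).1 hT
        rintro ⟨y, q⟩ hy
        rw [mem_lnk] at hy
        rw [mem_Reg0]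
        rcases hy with ⟨rfl, rfl⟩ | ⟨hne, rfl⟩
        · exact ⟨hsD, ht⟩
        · rw [← hPk t ht]
          exact ⟨hPD t, dPX t y hne.symm⟩
    · rw [if_neg hC]
      have hemp : (tils tile2 (Reg M 0)).filter (fun P => Qs M s x ⊆ P) = ∅ := by
        rw [Finset.filter_eq_empty_iff]
        intro P hP hQ
        rw [mem_tils] at hP
        unfold Cmp at hC
        push Not at hC
        obtain ⟨t, h1, h2⟩ := hC
        have hst : s ≠ tg M t := by
          intro e
          rw [hx0 t e] at h1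
          simp at h1
        have hst' : s ≠ tg M (t + 1) := by
          intro e
          have h3 := hPD t
          unfold Pk at h3
          rw [if_neg hst, h1] at h3
          have h4 := (inD_iff M t _).1 h3
          have h5 := Bc_stp M t 1 s
          have h6 : Bc M t s = Ac M (t + 1) s := by
            fin_cases t <;> simp [Ac, Bc]
          have h7 := tg_co M (t + 1)
          rw [← e] at h7
          simp only [dB] at h5
          omega
        have hl : ∀ τ, s ≠ tg M τ → lnk τ s (kf x τ) ∈ P := by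
          intro τ hτ
          apply hQ
          unfold Qs
          rw [mem_image]
          exact ⟨τ, by rw [mem_filter]; exact ⟨mem_univ _, hτ⟩, rfl⟩
        have l1 := hl t hst
        have l2 := hl (t + 1) hst'
        rw [h1] at l1
        rw [h2] at l2
        have hstp : s + stp t 1 = s + stp (t + 1) 0 := by
          congr 1
        have hne1 : t + 2 ≠ t := (ne_iff3 t _).2 (Or.inr rfl)
        have hne2 : t + 2 ≠ t + 1 := by
          fin_cases t <;> decide
        have hne3 : t ≠ t + 1 := by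
          fin_cases t <;> decide
        have := hP.uniq l1 l2 (mem_lnk.2 (Or.inr ⟨hne1, rfl⟩))
          (mem_lnk.2 (Or.inr ⟨hne2, hstp⟩))
        have hm : (t, s) ∈ lnk (t + 1) s 0 := by
          rw [← this]
          exact mem_lnk.2 (Or.inl ⟨rfl, rfl⟩)
        rw [mem_lnk] at hm
        rcases hm with hm | hm
        · exact hne3 hm.1
        · exact stp_ne _ _ s hm.2.symm
      rw [hemp, Finset.sum_empty]
      ring
  · push Not at hPD
    obtain ⟨t, ht⟩ := hPD
    have hst : s ≠ tg M t := by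
      intro e
      apply ht
      unfold Pk
      rw [if_pos e]
      exact hsD
    unfold Pk at ht
    rw [if_neg hst] at ht
    have hemp : (tils tile2 (Reg M 0)).filter (fun P => Qs M s x ⊆ P) = ∅ := by
      rw [Finset.filter_eq_empty_iff]
      intro P hP hQ
      rw [mem_tils] at hP
      have hl : lnk t s (kf x t) ∈ P := by
        apply hQ
        unfold Qs
        rw [mem_image]
        exact ⟨t, by rw [mem_filter]; exact ⟨mem_univ _, hst⟩, rfl⟩
      have := hP.subset hl (mem_lnk.2 (Or.inr ⟨(ne_iff3 t (t + 1)).2 (Or.inl rfl), rfl⟩))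
      exact ht (mem_Reg0.1 this).1
    rw [hemp, Finset.sum_empty]
    have hz : fac M (fun t => r' * u t) (r' * v) t s (kf x t) = 0 := by
      unfold fac
      rw [if_neg hst, Nt_out M hM _ _ t s hsD _ ht, mul_zero]
    rw [Finset.prod_eq_zero (mem_univ t) hz]
    ring

theorem fac_sum (M : ℤ) (hM : 1 ≤ M) (un : Fin 3 → K) (vn : K) (t : Fin 3) (s : ℤ × ℤ)
    (hs : InD M s) :
    fac M un vn t s 0 + fac M un vn t s 1 + fac M un vn t s 2 = Nt M un vn t s (tg M t) := by
  by_cases h : s = tg M t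
  · have h' : Nt M un vn t s (tg M t) = 1 := by
      rw [h]
      exact Nt_self M _ _ t _ (tg_inD M hM t)
    unfold fac
    rw [if_pos h, if_pos h, if_pos h, if_pos rfl, if_neg (by decide), if_neg (by decide), h']
    ring
  · rw [Nt_rec M un vn t s (tg M t) hs h, Fin.sum_univ_three]
    · unfold fac
      rw [if_neg h, if_neg h, if_neg h]
    · have := tg_co M t
      have := (inD_iff M t s).1 hs
      omega

theorem fac_pair (M : ℤ) (hM : 1 ≤ M) (un : Fin 3 → K) (vn : K) (t : Fin 3) (s : ℤ × ℤ)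
    (hs : InD M s) :
    fac M un vn t s 1 * fac M un vn (t + 1) s 0 =
      un t * un (t + 1) * (Nt M un vn t (s + Es (t + 1)) (tg M t) *
        Nt M un vn (t + 1) (s + Es (t + 1)) (tg M (t + 1))) := by
  have e1 : stp t 1 = Es (t + 1) := rfl
  have e2 : stp (t + 1) 0 = Es (t + 1) := rfl
  have hBA : ∀ q, Bc M t q = Ac M (t + 1) q := by
    intro q
    fin_cases t <;> simp [Ac, Bc]
  have hB : Bc M t (s + Es (t + 1)) = Bc M t s - 1 := by
    rw [← e1, Bc_stp]
    rfl
  have hs' := (inD_iff M t s).1 hs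
  by_cases h1 : s = tg M t
  · have hc := tg_co M t
    rw [← h1] at hc
    have hz : Nt M un vn t (s + Es (t + 1)) (tg M t) = 0 := by
      apply Nt_bdry
      omega
    rw [hz]
    unfold fac
    rw [if_pos h1, if_neg (by decide)]
    ring
  · by_cases h2 : s = tg M (t + 1)
    · have hc := tg_co M (t + 1)
      rw [← h2] at hc
      have hz : Nt M un vn t (s + Es (t + 1)) (tg M t) = 0 := by
        apply Nt_bdry
        have := hBA s
        omega
      rw [hz]
      unfold fac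
      rw [if_neg h1, e1, hz]
      ring
    · unfold fac
      rw [if_neg h1, if_neg h2, e1, e2]
      simp only [wst]
      ring

/-- The explicit formula for the larger region. -/
theorem three_sum (M : ℤ) (hM : 1 ≤ M) (w : Finset (Fin 3 × ℤ × ℤ) → K) (r r' : K)
    (hr : r * r' = 1) (u : Fin 3 → K) (v : K) (hw0 : ∀ q, w (std q) = r)
    (hwk : ∀ t q k, w (lnk t q k) = wst u v t k)
    (N : Fin 3 → ℤ × ℤ → K) (hN : ∀ t q, N t q = Nt M (fun t => r' * u t) (r' * v) t q (tg M t)) :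
    Z tile3 w (Reg M 0) = r ^ ((Dl M).card - 1) * ∑ s ∈ Dl M,
      (N 0 s * N 1 s * N 2 s -
        (r' * u 0) * (r' * u 1) * (N 0 (s + Es 1) * N 1 (s + Es 1)) * N 2 s -
        (r' * u 1) * (r' * u 2) * (N 1 (s + Es 2) * N 2 (s + Es 2)) * N 0 s -
        (r' * u 2) * (r' * u 0) * (N 2 (s + Es 0) * N 0 (s + Es 0)) * N 1 s) := by
  classical
  rw [dec3 M hM w, Finset.mul_sum]
  refine Finset.sum_congr rfl ?_
  intro s hs
  have hsD := mem_Dl.1 hs
  rw [Finset.sum_congr rfl (fun x hx => inner3 M hM w r r' hr u v hw0 hwk s hs x hx),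
    ← Finset.mul_sum]
  congr 1
  have hext : ∑ x ∈ Ks M s, ((if Cmp x then 1 else 0) *
        ∏ t, fac M (fun t => r' * u t) (r' * v) t s (kf x t)) =
      ∑ x : Fin 3 × Fin 3 × Fin 3, ((if Cmp x then 1 else 0) *
        ∏ t, fac M (fun t => r' * u t) (r' * v) t s (kf x t)) := by
    apply Finset.sum_subset (Finset.subset_univ _)
    intro x _ hx
    unfold Ks at hx
    rw [mem_filter] at hx
    push Not at hx
    obtain ⟨t, h1, h2⟩ := hx (mem_univ _)
    have hz : fac M (fun t => r' * u t) (r' * v) t s (kf x t) = 0 := by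
      unfold fac
      rw [if_pos h1, if_neg h2]
    rw [Finset.prod_eq_zero (mem_univ t) hz, mul_zero]
  rw [hext]
  have f0 := fac_sum M hM (fun t => r' * u t) (r' * v) 0 s hsD
  have f1 := fac_sum M hM (fun t => r' * u t) (r' * v) 1 s hsD
  have f2 := fac_sum M hM (fun t => r' * u t) (r' * v) 2 s hsD
  have g0 := fac_pair M hM (fun t => r' * u t) (r' * v) 0 s hsD
  have g1 := fac_pair M hM (fun t => r' * u t) (r' * v) 1 s hsD
  have g2 := fac_pair M hM (fun t => r' * u t) (r' * v) 2 s hsD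
  have a01 : (0 : Fin 3) + 1 = 1 := rfl
  have a12 : (1 : Fin 3) + 1 = 2 := rfl
  have a20 : (2 : Fin 3) + 1 = 0 := rfl
  rw [a01] at g0
  rw [a12] at g1
  rw [a20] at g2
  rw [← hN, ← hN] at g0 g1 g2
  rw [← hN] at f0 f1 f2
  have hcmp : ∀ a b c : Fin 3, (if Cmp (a, b, c) then (1 : K) else 0) =
      1 - (if a = 1 ∧ b = 0 then 1 else 0) - (if b = 1 ∧ c = 0 then 1 else 0) -
        (if c = 1 ∧ a = 0 then 1 else 0) := by
    intro a b c
    have hC : Cmp (a, b, c) ↔ ¬ (a = 1 ∧ b = 0) ∧ ¬ (b = 1 ∧ c = 0) ∧ ¬ (c = 1 ∧ a = 0) := by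
      constructor
      · intro h
        exact ⟨h 0, h 1, h 2⟩
      · rintro ⟨h0, h1, h2⟩ t
        fin_cases t
        · exact h0
        · exact h1
        · exact h2
    rw [if_congr hC rfl rfl]
    fin_cases a <;> fin_cases b <;> fin_cases c <;> simp
  rw [Fintype.sum_prod_type]
  simp only [Fintype.sum_prod_type, Fin.sum_univ_three, Fin.prod_univ_three, hcmp, kf]
  set x0 := fac M (fun t => r' * u t) (r' * v) 0 s 0
  set x1 := fac M (fun t => r' * u t) (r' * v) 0 s 1
  set x2 := fac M (fun t => r' * u t) (r' * v) 0 s 2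
  set y0 := fac M (fun t => r' * u t) (r' * v) 1 s 0
  set y1 := fac M (fun t => r' * u t) (r' * v) 1 s 1
  set y2 := fac M (fun t => r' * u t) (r' * v) 1 s 2
  set z0 := fac M (fun t => r' * u t) (r' * v) 2 s 0
  set z1 := fac M (fun t => r' * u t) (r' * v) 2 s 1
  set z2 := fac M (fun t => r' * u t) (r' * v) 2 s 2
  have b1 : ¬ ((0 : Fin 3) = 1) := by decide
  have b2 : ¬ ((2 : Fin 3) = 1) := by decide
  have b3 : ¬ ((1 : Fin 3) = 0) := by decide
  have b4 : ¬ ((2 : Fin 3) = 0) := by decide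
  simp only [b1, b2, b3, b4, if_true, if_false, true_and, false_and, and_true, and_false]
  rw [← f0, ← f1, ← f2]
  linear_combination (-(z0 + z1 + z2)) * g0 - (x0 + x1 + x2) * g1 - (y0 + y1 + y2) * g2

end

end Pool.Agent.Q162.Bz
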