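import Pool.Agent.Q162.Benzel.Defs
import Pool.Agent.Q162.Benzel.Three2

/-!
Translation between cells of the benzel and the stone-and-link model.
-/

namespace Pool.Agent.Q162.Bz

open Finset Pool.Agent.Q162.Benzel

/-- Coordinates of a model cell. -/
def ph (M : ℤ) (x : Fin 3 × ℤ × ℤ) : ℤ × ℤ × ℤ :=
  match x with
  | (0, a, g) => (g - a + 1, 2 * a + g - M, M - a - 2 * g)
  | (1, a, g) => (g - a, 2 * a + g - M + 1, M - a - 2 * g)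
  | (2, a, g) => (g - a, 2 * a + g - M, M - a - 2 * g + 1)

theorem ph_inj (M : ℤ) : Function.Injective (ph M) := by
  rintro ⟨t, a, g⟩ ⟨t', a', g'⟩ h
  fin_cases t <;> fin_cases t' <;> simp only [ph, Prod.mk.injEq] at h ⊢
  all_goals first
    | (exfalso; omega)
    | (refine ⟨trivial, ?_, ?_⟩ <;> omega)

def phE (M : ℤ) : (Fin 3 × ℤ × ℤ) ↪ (ℤ × ℤ × ℤ) := ⟨ph M, ph_inj M⟩

theorem tr_map (M : ℤ) (p1 p2 p3 : ℤ × ℤ) : (tr p1 p2 p3).map (phE M) =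
    {ph M (0, p1), ph M (1, p2), ph M (2, p3)} := by
  unfold tr
  rw [Finset.map_insert, Finset.map_insert, Finset.map_singleton]
  rfl

theorem isRight_iff {T : Finset Cell} : IsRightStone T ↔ ∃ x y z : ℤ, x + y + z = 0 ∧
    T = ({(x + 1, y, z), (x, y + 1, z), (x, y, z + 1)} : Finset (ℤ × ℤ × ℤ)) := by
  unfold IsRightStone
  constructor
  · rintro ⟨⟨x, y, z⟩, h, hT⟩
    refine ⟨x, y, z, h, ?_⟩
    rw [hT]
    simp
  · rintro ⟨x, y, z, h, hT⟩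
    refine ⟨(x, y, z), h, ?_⟩
    rw [hT]
    simp

theorem isLeft_iff {T : Finset Cell} : IsLeftStone T ↔ ∃ x y z : ℤ, x + y + z = 2 ∧
    T = ({(x - 1, y, z), (x, y - 1, z), (x, y, z - 1)} : Finset (ℤ × ℤ × ℤ)) := by
  unfold IsLeftStone
  constructor
  · rintro ⟨⟨x, y, z⟩, h, hT⟩
    refine ⟨x, y, z, h, ?_⟩
    rw [hT]
    simp
  · rintro ⟨x, y, z, h, hT⟩
    refine ⟨(x, y, z), h, ?_⟩
    rw [hT]
    simp

theorem isBone0_iff {T : Finset Cell} : IsBone 0 T ↔ ∃ x y z : ℤ, x + y + z = 1 ∧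
    T = ({(x, y, z), (x + 1, y - 1, z), (x + 2, y - 2, z)} : Finset (ℤ × ℤ × ℤ)) := by
  unfold IsBone
  constructor
  · rintro ⟨⟨x, y, z⟩, h, hT⟩
    refine ⟨x, y, z, h, ?_⟩
    rw [hT]
    simp [dir, sub_eq_add_neg]
  · rintro ⟨x, y, z, h, hT⟩
    refine ⟨(x, y, z), h, ?_⟩
    rw [hT]
    simp [dir, sub_eq_add_neg]

theorem isBone1_iff {T : Finset Cell} : IsBone 1 T ↔ ∃ x y z : ℤ, x + y + z = 1 ∧
    T = ({(x, y, z), (x, y + 1, z - 1), (x, y + 2, z - 2)} : Finset (ℤ × ℤ × ℤ)) := by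
  unfold IsBone
  constructor
  · rintro ⟨⟨x, y, z⟩, h, hT⟩
    refine ⟨x, y, z, h, ?_⟩
    rw [hT]
    simp [dir, sub_eq_add_neg]
  · rintro ⟨x, y, z, h, hT⟩
    refine ⟨(x, y, z), h, ?_⟩
    rw [hT]
    simp [dir, sub_eq_add_neg]

theorem isBone2_iff {T : Finset Cell} : IsBone 2 T ↔ ∃ x y z : ℤ, x + y + z = 1 ∧
    T = ({(x, y, z), (x - 1, y, z + 1), (x - 2, y, z + 2)} : Finset (ℤ × ℤ × ℤ)) := by
  unfold IsBone
  constructor
  · rintro ⟨⟨x, y, z⟩, h, hT⟩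
    refine ⟨x, y, z, h, ?_⟩
    rw [hT]
    simp [dir, sub_eq_add_neg]
  · rintro ⟨x, y, z, h, hT⟩
    refine ⟨(x, y, z), h, ?_⟩
    rw [hT]
    simp [dir, sub_eq_add_neg]

theorem map_R0 {M x y z m a1 g1 a2 g2 a3 g3 : ℤ} (hx : x + y + z = 0)
    (hm : M + z - y = 3 * m) (h : a1 = y + m ∧ g1 = m - z ∧ a2 = y + m ∧ g2 = m - z ∧ a3 = y + m ∧ g3 = m - z) :
    (tr (a1, g1) (a2, g2) (a3, g3)).map (phE M) =
      ({(x + 1, y, z), (x, y + 1, z), (x, y, z + 1)} : Finset (ℤ × ℤ × ℤ)) := by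
  rw [tr_map]
  have h0 : ph M (0, a1, g1) = (x + 1, y, z) := by
    simp only [ph, Prod.mk.injEq]
    omega
  have h1 : ph M (1, a2, g2) = (x, y + 1, z) := by
    simp only [ph, Prod.mk.injEq]
    omega
  have h2 : ph M (2, a3, g3) = (x, y, z + 1) := by
    simp only [ph, Prod.mk.injEq]
    omega
  rw [h0, h1, h2]

theorem map_R1 {M x y z m a1 g1 a2 g2 a3 g3 : ℤ} (hx : x + y + z = 0)
    (hm : M + z - y = 3 * m + 1) (h : a1 = y + m + 1 ∧ g1 = m - z ∧ a2 = y + m ∧ g2 = m - z ∧ a3 = y + m ∧ g3 = m - z + 1) :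
    (tr (a1, g1) (a2, g2) (a3, g3)).map (phE M) =
      ({(x + 1, y, z), (x, y + 1, z), (x, y, z + 1)} : Finset (ℤ × ℤ × ℤ)) := by
  rw [tr_map]
  have h0 : ph M (0, a1, g1) = (x, y + 1, z) := by
    simp only [ph, Prod.mk.injEq]
    omega
  have h1 : ph M (1, a2, g2) = (x, y, z + 1) := by
    simp only [ph, Prod.mk.injEq]
    omega
  have h2 : ph M (2, a3, g3) = (x + 1, y, z) := by
    simp only [ph, Prod.mk.injEq]
    omega
  rw [h0, h1, h2]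
  ext c
  simp only [mem_insert, mem_singleton]
  tauto

theorem map_R2 {M x y z m a1 g1 a2 g2 a3 g3 : ℤ} (hx : x + y + z = 0)
    (hm : M + z - y = 3 * m + 2) (h : a1 = y + m + 1 ∧ g1 = m - z ∧ a2 = y + m ∧ g2 = m - z + 1 ∧ a3 = y + m + 1 ∧ g3 = m - z + 1) :
    (tr (a1, g1) (a2, g2) (a3, g3)).map (phE M) =
      ({(x + 1, y, z), (x, y + 1, z), (x, y, z + 1)} : Finset (ℤ × ℤ × ℤ)) := by
  rw [tr_map]
  have h0 : ph M (0, a1, g1) = (x, y, z + 1) := by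
    simp only [ph, Prod.mk.injEq]
    omega
  have h1 : ph M (1, a2, g2) = (x + 1, y, z) := by
    simp only [ph, Prod.mk.injEq]
    omega
  have h2 : ph M (2, a3, g3) = (x, y + 1, z) := by
    simp only [ph, Prod.mk.injEq]
    omega
  rw [h0, h1, h2]
  ext c
  simp only [mem_insert, mem_singleton]
  tauto

theorem map_L0 {M x y z m a1 g1 a2 g2 a3 g3 : ℤ} (hx : x + y + z = 2)
    (hm : M + z - y = 3 * m) (h : a1 = y + m ∧ g1 = m - z ∧ a2 = y + m - 1 ∧ g2 = m - z + 1 ∧ a3 = y + m - 1 ∧ g3 = m - z + 1) :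
    (tr (a1, g1) (a2, g2) (a3, g3)).map (phE M) =
      ({(x - 1, y, z), (x, y - 1, z), (x, y, z - 1)} : Finset (ℤ × ℤ × ℤ)) := by
  rw [tr_map]
  have h0 : ph M (0, a1, g1) = (x - 1, y, z) := by
    simp only [ph, Prod.mk.injEq]
    omega
  have h1 : ph M (1, a2, g2) = (x, y, z - 1) := by
    simp only [ph, Prod.mk.injEq]
    omega
  have h2 : ph M (2, a3, g3) = (x, y - 1, z) := by
    simp only [ph, Prod.mk.injEq]
    omega
  rw [h0, h1, h2]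
  ext c
  simp only [mem_insert, mem_singleton]
  tauto

theorem map_L1 {M x y z m a1 g1 a2 g2 a3 g3 : ℤ} (hx : x + y + z = 2)
    (hm : M + z - y = 3 * m + 1) (h : a1 = y + m ∧ g1 = m - z + 1 ∧ a2 = y + m - 1 ∧ g2 = m - z + 1 ∧ a3 = y + m ∧ g3 = m - z + 1) :
    (tr (a1, g1) (a2, g2) (a3, g3)).map (phE M) =
      ({(x - 1, y, z), (x, y - 1, z), (x, y, z - 1)} : Finset (ℤ × ℤ × ℤ)) := by
  rw [tr_map]
  have h0 : ph M (0, a1, g1) = (x, y, z - 1) := by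
    simp only [ph, Prod.mk.injEq]
    omega
  have h1 : ph M (1, a2, g2) = (x, y - 1, z) := by
    simp only [ph, Prod.mk.injEq]
    omega
  have h2 : ph M (2, a3, g3) = (x - 1, y, z) := by
    simp only [ph, Prod.mk.injEq]
    omega
  rw [h0, h1, h2]
  ext c
  simp only [mem_insert, mem_singleton]
  tauto

theorem map_L2 {M x y z m a1 g1 a2 g2 a3 g3 : ℤ} (hx : x + y + z = 2)
    (hm : M + z - y = 3 * m + 2) (h : a1 = y + m ∧ g1 = m - z + 1 ∧ a2 = y + m ∧ g2 = m - z + 1 ∧ a3 = y + m ∧ g3 = m - z + 2) :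
    (tr (a1, g1) (a2, g2) (a3, g3)).map (phE M) =
      ({(x - 1, y, z), (x, y - 1, z), (x, y, z - 1)} : Finset (ℤ × ℤ × ℤ)) := by
  rw [tr_map]
  have h0 : ph M (0, a1, g1) = (x, y - 1, z) := by
    simp only [ph, Prod.mk.injEq]
    omega
  have h1 : ph M (1, a2, g2) = (x - 1, y, z) := by
    simp only [ph, Prod.mk.injEq]
    omega
  have h2 : ph M (2, a3, g3) = (x, y, z - 1) := by
    simp only [ph, Prod.mk.injEq]
    omega
  rw [h0, h1, h2]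
  ext c
  simp only [mem_insert, mem_singleton]
  tauto

theorem map_b00 {M x y z m a1 g1 a2 g2 a3 g3 : ℤ} (hx : x + y + z = 1)
    (hm : M + z - y = 3 * m) (h : a1 = y + m ∧ g1 = m - z ∧ a2 = y + m - 2 ∧ g2 = m - z + 1 ∧ a3 = y + m - 1 ∧ g3 = m - z + 1) :
    (tr (a1, g1) (a2, g2) (a3, g3)).map (phE M) =
      ({(x, y, z), (x + 1, y - 1, z), (x + 2, y - 2, z)} : Finset (ℤ × ℤ × ℤ)) := by
  rw [tr_map]
  have h0 : ph M (0, a1, g1) = (x, y, z) := by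
    simp only [ph, Prod.mk.injEq]
    omega
  have h1 : ph M (1, a2, g2) = (x + 2, y - 2, z) := by
    simp only [ph, Prod.mk.injEq]
    omega
  have h2 : ph M (2, a3, g3) = (x + 1, y - 1, z) := by
    simp only [ph, Prod.mk.injEq]
    omega
  rw [h0, h1, h2]
  ext c
  simp only [mem_insert, mem_singleton]
  tauto

theorem map_b01 {M x y z m a1 g1 a2 g2 a3 g3 : ℤ} (hx : x + y + z = 1)
    (hm : M + z - y = 3 * m + 1) (h : a1 = y + m - 1 ∧ g1 = m - z + 1 ∧ a2 = y + m - 1 ∧ g2 = m - z + 1 ∧ a3 = y + m ∧ g3 = m - z + 1) :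
    (tr (a1, g1) (a2, g2) (a3, g3)).map (phE M) =
      ({(x, y, z), (x + 1, y - 1, z), (x + 2, y - 2, z)} : Finset (ℤ × ℤ × ℤ)) := by
  rw [tr_map]
  have h0 : ph M (0, a1, g1) = (x + 2, y - 2, z) := by
    simp only [ph, Prod.mk.injEq]
    omega
  have h1 : ph M (1, a2, g2) = (x + 1, y - 1, z) := by
    simp only [ph, Prod.mk.injEq]
    omega
  have h2 : ph M (2, a3, g3) = (x, y, z) := by
    simp only [ph, Prod.mk.injEq]
    omega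
  rw [h0, h1, h2]
  ext c
  simp only [mem_insert, mem_singleton]
  tauto

theorem map_b02 {M x y z m a1 g1 a2 g2 a3 g3 : ℤ} (hx : x + y + z = 1)
    (hm : M + z - y = 3 * m + 2) (h : a1 = y + m ∧ g1 = m - z + 1 ∧ a2 = y + m ∧ g2 = m - z + 1 ∧ a3 = y + m - 1 ∧ g3 = m - z + 2) :
    (tr (a1, g1) (a2, g2) (a3, g3)).map (phE M) =
      ({(x, y, z), (x + 1, y - 1, z), (x + 2, y - 2, z)} : Finset (ℤ × ℤ × ℤ)) := by
  rw [tr_map]
  have h0 : ph M (0, a1, g1) = (x + 1, y - 1, z) := by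
    simp only [ph, Prod.mk.injEq]
    omega
  have h1 : ph M (1, a2, g2) = (x, y, z) := by
    simp only [ph, Prod.mk.injEq]
    omega
  have h2 : ph M (2, a3, g3) = (x + 2, y - 2, z) := by
    simp only [ph, Prod.mk.injEq]
    omega
  rw [h0, h1, h2]
  ext c
  simp only [mem_insert, mem_singleton]
  tauto

theorem map_b10 {M x y z m a1 g1 a2 g2 a3 g3 : ℤ} (hx : x + y + z = 1)
    (hm : M + z - y = 3 * m) (h : a1 = y + m ∧ g1 = m - z ∧ a2 = y + m ∧ g2 = m - z + 1 ∧ a3 = y + m ∧ g3 = m - z + 1) :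
    (tr (a1, g1) (a2, g2) (a3, g3)).map (phE M) =
      ({(x, y, z), (x, y + 1, z - 1), (x, y + 2, z - 2)} : Finset (ℤ × ℤ × ℤ)) := by
  rw [tr_map]
  have h0 : ph M (0, a1, g1) = (x, y, z) := by
    simp only [ph, Prod.mk.injEq]
    omega
  have h1 : ph M (1, a2, g2) = (x, y + 2, z - 2) := by
    simp only [ph, Prod.mk.injEq]
    omega
  have h2 : ph M (2, a3, g3) = (x, y + 1, z - 1) := by
    simp only [ph, Prod.mk.injEq]
    omega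
  rw [h0, h1, h2]
  ext c
  simp only [mem_insert, mem_singleton]
  tauto

theorem map_b11 {M x y z m a1 g1 a2 g2 a3 g3 : ℤ} (hx : x + y + z = 1)
    (hm : M + z - y = 3 * m + 1) (h : a1 = y + m + 1 ∧ g1 = m - z + 1 ∧ a2 = y + m ∧ g2 = m - z + 1 ∧ a3 = y + m ∧ g3 = m - z + 1) :
    (tr (a1, g1) (a2, g2) (a3, g3)).map (phE M) =
      ({(x, y, z), (x, y + 1, z - 1), (x, y + 2, z - 2)} : Finset (ℤ × ℤ × ℤ)) := by
  rw [tr_map]
  have h0 : ph M (0, a1, g1) = (x, y + 2, z - 2) := by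
    simp only [ph, Prod.mk.injEq]
    omega
  have h1 : ph M (1, a2, g2) = (x, y + 1, z - 1) := by
    simp only [ph, Prod.mk.injEq]
    omega
  have h2 : ph M (2, a3, g3) = (x, y, z) := by
    simp only [ph, Prod.mk.injEq]
    omega
  rw [h0, h1, h2]
  ext c
  simp only [mem_insert, mem_singleton]
  tauto

theorem map_b12 {M x y z m a1 g1 a2 g2 a3 g3 : ℤ} (hx : x + y + z = 1)
    (hm : M + z - y = 3 * m + 2) (h : a1 = y + m + 1 ∧ g1 = m - z + 1 ∧ a2 = y + m ∧ g2 = m - z + 1 ∧ a3 = y + m + 1 ∧ g3 = m - z + 2) :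
    (tr (a1, g1) (a2, g2) (a3, g3)).map (phE M) =
      ({(x, y, z), (x, y + 1, z - 1), (x, y + 2, z - 2)} : Finset (ℤ × ℤ × ℤ)) := by
  rw [tr_map]
  have h0 : ph M (0, a1, g1) = (x, y + 1, z - 1) := by
    simp only [ph, Prod.mk.injEq]
    omega
  have h1 : ph M (1, a2, g2) = (x, y, z) := by
    simp only [ph, Prod.mk.injEq]
    omega
  have h2 : ph M (2, a3, g3) = (x, y + 2, z - 2) := by
    simp only [ph, Prod.mk.injEq]
    omega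
  rw [h0, h1, h2]
  ext c
  simp only [mem_insert, mem_singleton]
  tauto

theorem map_b20 {M x y z m a1 g1 a2 g2 a3 g3 : ℤ} (hx : x + y + z = 1)
    (hm : M + z - y = 3 * m) (h : a1 = y + m ∧ g1 = m - z ∧ a2 = y + m ∧ g2 = m - z - 1 ∧ a3 = y + m ∧ g3 = m - z) :
    (tr (a1, g1) (a2, g2) (a3, g3)).map (phE M) =
      ({(x, y, z), (x - 1, y, z + 1), (x - 2, y, z + 2)} : Finset (ℤ × ℤ × ℤ)) := by
  rw [tr_map]
  have h0 : ph M (0, a1, g1) = (x, y, z) := by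
    simp only [ph, Prod.mk.injEq]
    omega
  have h1 : ph M (1, a2, g2) = (x - 2, y, z + 2) := by
    simp only [ph, Prod.mk.injEq]
    omega
  have h2 : ph M (2, a3, g3) = (x - 1, y, z + 1) := by
    simp only [ph, Prod.mk.injEq]
    omega
  rw [h0, h1, h2]
  ext c
  simp only [mem_insert, mem_singleton]
  tauto

theorem map_b21 {M x y z m a1 g1 a2 g2 a3 g3 : ℤ} (hx : x + y + z = 1)
    (hm : M + z - y = 3 * m + 1) (h : a1 = y + m + 1 ∧ g1 = m - z - 1 ∧ a2 = y + m ∧ g2 = m - z ∧ a3 = y + m ∧ g3 = m - z + 1) :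
    (tr (a1, g1) (a2, g2) (a3, g3)).map (phE M) =
      ({(x, y, z), (x - 1, y, z + 1), (x - 2, y, z + 2)} : Finset (ℤ × ℤ × ℤ)) := by
  rw [tr_map]
  have h0 : ph M (0, a1, g1) = (x - 2, y, z + 2) := by
    simp only [ph, Prod.mk.injEq]
    omega
  have h1 : ph M (1, a2, g2) = (x - 1, y, z + 1) := by
    simp only [ph, Prod.mk.injEq]
    omega
  have h2 : ph M (2, a3, g3) = (x, y, z) := by
    simp only [ph, Prod.mk.injEq]
    omega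
  rw [h0, h1, h2]
  ext c
  simp only [mem_insert, mem_singleton]
  tauto

theorem map_b22 {M x y z m a1 g1 a2 g2 a3 g3 : ℤ} (hx : x + y + z = 1)
    (hm : M + z - y = 3 * m + 2) (h : a1 = y + m + 1 ∧ g1 = m - z ∧ a2 = y + m ∧ g2 = m - z + 1 ∧ a3 = y + m + 1 ∧ g3 = m - z) :
    (tr (a1, g1) (a2, g2) (a3, g3)).map (phE M) =
      ({(x, y, z), (x - 1, y, z + 1), (x - 2, y, z + 2)} : Finset (ℤ × ℤ × ℤ)) := by
  rw [tr_map]
  have h0 : ph M (0, a1, g1) = (x - 1, y, z + 1) := by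
    simp only [ph, Prod.mk.injEq]
    omega
  have h1 : ph M (1, a2, g2) = (x, y, z) := by
    simp only [ph, Prod.mk.injEq]
    omega
  have h2 : ph M (2, a3, g3) = (x - 2, y, z + 2) := by
    simp only [ph, Prod.mk.injEq]
    omega
  rw [h0, h1, h2]
  ext c
  simp only [mem_insert, mem_singleton]
  tauto

theorem cls_R0 (M : ℤ) {a1 g1 a2 g2 a3 g3 : ℤ}
    (h : a2 = a1 ∧ g2 = g1 ∧ a3 = a1 ∧ g3 = g1) :
    IsRightStone ((tr (a1, g1) (a2, g2) (a3, g3)).map (phE M)) := by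
  rw [isRight_iff]
  obtain ⟨m, hm⟩ : ∃ m, m = M - 0 - (a1) - (g1) := ⟨_, rfl⟩
  refine ⟨0 - ((a1) - m) - (m - (g1)), (a1) - m, m - (g1), by ring, ?_⟩
  exact map_R0 (m := m) (by ring) (by omega) (by omega)

theorem cls_R1 (M : ℤ) {a1 g1 a2 g2 a3 g3 : ℤ}
    (h : a2 = a1 - 1 ∧ g2 = g1 ∧ a3 = a1 - 1 ∧ g3 = g1 + 1) :
    IsRightStone ((tr (a1, g1) (a2, g2) (a3, g3)).map (phE M)) := by
  rw [isRight_iff]
  obtain ⟨m, hm⟩ : ∃ m, m = M - 1 - (a1 - 1) - (g1) := ⟨_, rfl⟩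
  refine ⟨0 - ((a1 - 1) - m) - (m - (g1)), (a1 - 1) - m, m - (g1), by ring, ?_⟩
  exact map_R1 (m := m) (by ring) (by omega) (by omega)

theorem cls_R2 (M : ℤ) {a1 g1 a2 g2 a3 g3 : ℤ}
    (h : a2 = a1 - 1 ∧ g2 = g1 + 1 ∧ a3 = a1 ∧ g3 = g1 + 1) :
    IsRightStone ((tr (a1, g1) (a2, g2) (a3, g3)).map (phE M)) := by
  rw [isRight_iff]
  obtain ⟨m, hm⟩ : ∃ m, m = M - 2 - (a1 - 1) - (g1) := ⟨_, rfl⟩
  refine ⟨0 - ((a1 - 1) - m) - (m - (g1)), (a1 - 1) - m, m - (g1), by ring, ?_⟩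
  exact map_R2 (m := m) (by ring) (by omega) (by omega)

theorem cls_L0 (M : ℤ) {a1 g1 a2 g2 a3 g3 : ℤ}
    (h : a2 = a1 - 1 ∧ g2 = g1 + 1 ∧ a3 = a1 - 1 ∧ g3 = g1 + 1) :
    IsLeftStone ((tr (a1, g1) (a2, g2) (a3, g3)).map (phE M)) := by
  rw [isLeft_iff]
  obtain ⟨m, hm⟩ : ∃ m, m = M - 0 - (a1) - (g1) := ⟨_, rfl⟩
  refine ⟨2 - ((a1) - m) - (m - (g1)), (a1) - m, m - (g1), by ring, ?_⟩
  exact map_L0 (m := m) (by ring) (by omega) (by omega)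

theorem cls_L1 (M : ℤ) {a1 g1 a2 g2 a3 g3 : ℤ}
    (h : a2 = a1 - 1 ∧ g2 = g1 ∧ a3 = a1 ∧ g3 = g1) :
    IsLeftStone ((tr (a1, g1) (a2, g2) (a3, g3)).map (phE M)) := by
  rw [isLeft_iff]
  obtain ⟨m, hm⟩ : ∃ m, m = M - 1 - (a1) - (g1 - 1) := ⟨_, rfl⟩
  refine ⟨2 - ((a1) - m) - (m - (g1 - 1)), (a1) - m, m - (g1 - 1), by ring, ?_⟩
  exact map_L1 (m := m) (by ring) (by omega) (by omega)

theorem cls_L2 (M : ℤ) {a1 g1 a2 g2 a3 g3 : ℤ}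
    (h : a2 = a1 ∧ g2 = g1 ∧ a3 = a1 ∧ g3 = g1 + 1) :
    IsLeftStone ((tr (a1, g1) (a2, g2) (a3, g3)).map (phE M)) := by
  rw [isLeft_iff]
  obtain ⟨m, hm⟩ : ∃ m, m = M - 2 - (a1) - (g1 - 1) := ⟨_, rfl⟩
  refine ⟨2 - ((a1) - m) - (m - (g1 - 1)), (a1) - m, m - (g1 - 1), by ring, ?_⟩
  exact map_L2 (m := m) (by ring) (by omega) (by omega)

theorem cls_b00 (M : ℤ) {a1 g1 a2 g2 a3 g3 : ℤ}
    (h : a2 = a1 - 2 ∧ g2 = g1 + 1 ∧ a3 = a1 - 1 ∧ g3 = g1 + 1) :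
    IsBone 0 ((tr (a1, g1) (a2, g2) (a3, g3)).map (phE M)) := by
  rw [isBone0_iff]
  obtain ⟨m, hm⟩ : ∃ m, m = M - 0 - (a1) - (g1) := ⟨_, rfl⟩
  refine ⟨1 - ((a1) - m) - (m - (g1)), (a1) - m, m - (g1), by ring, ?_⟩
  exact map_b00 (m := m) (by ring) (by omega) (by omega)

theorem cls_b01 (M : ℤ) {a1 g1 a2 g2 a3 g3 : ℤ}
    (h : a2 = a1 ∧ g2 = g1 ∧ a3 = a1 + 1 ∧ g3 = g1) :
    IsBone 0 ((tr (a1, g1) (a2, g2) (a3, g3)).map (phE M)) := by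
  rw [isBone0_iff]
  obtain ⟨m, hm⟩ : ∃ m, m = M - 1 - (a1 + 1) - (g1 - 1) := ⟨_, rfl⟩
  refine ⟨1 - ((a1 + 1) - m) - (m - (g1 - 1)), (a1 + 1) - m, m - (g1 - 1), by ring, ?_⟩
  exact map_b01 (m := m) (by ring) (by omega) (by omega)

theorem cls_b02 (M : ℤ) {a1 g1 a2 g2 a3 g3 : ℤ}
    (h : a2 = a1 ∧ g2 = g1 ∧ a3 = a1 - 1 ∧ g3 = g1 + 1) :
    IsBone 0 ((tr (a1, g1) (a2, g2) (a3, g3)).map (phE M)) := by
  rw [isBone0_iff]
  obtain ⟨m, hm⟩ : ∃ m, m = M - 2 - (a1) - (g1 - 1) := ⟨_, rfl⟩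
  refine ⟨1 - ((a1) - m) - (m - (g1 - 1)), (a1) - m, m - (g1 - 1), by ring, ?_⟩
  exact map_b02 (m := m) (by ring) (by omega) (by omega)

theorem cls_b10 (M : ℤ) {a1 g1 a2 g2 a3 g3 : ℤ}
    (h : a2 = a1 ∧ g2 = g1 + 1 ∧ a3 = a1 ∧ g3 = g1 + 1) :
    IsBone 1 ((tr (a1, g1) (a2, g2) (a3, g3)).map (phE M)) := by
  rw [isBone1_iff]
  obtain ⟨m, hm⟩ : ∃ m, m = M - 0 - (a1) - (g1) := ⟨_, rfl⟩
  refine ⟨1 - ((a1) - m) - (m - (g1)), (a1) - m, m - (g1), by ring, ?_⟩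
  exact map_b10 (m := m) (by ring) (by omega) (by omega)

theorem cls_b11 (M : ℤ) {a1 g1 a2 g2 a3 g3 : ℤ}
    (h : a2 = a1 - 1 ∧ g2 = g1 ∧ a3 = a1 - 1 ∧ g3 = g1) :
    IsBone 1 ((tr (a1, g1) (a2, g2) (a3, g3)).map (phE M)) := by
  rw [isBone1_iff]
  obtain ⟨m, hm⟩ : ∃ m, m = M - 1 - (a1 - 1) - (g1 - 1) := ⟨_, rfl⟩
  refine ⟨1 - ((a1 - 1) - m) - (m - (g1 - 1)), (a1 - 1) - m, m - (g1 - 1), by ring, ?_⟩
  exact map_b11 (m := m) (by ring) (by omega) (by omega)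

theorem cls_b12 (M : ℤ) {a1 g1 a2 g2 a3 g3 : ℤ}
    (h : a2 = a1 - 1 ∧ g2 = g1 ∧ a3 = a1 ∧ g3 = g1 + 1) :
    IsBone 1 ((tr (a1, g1) (a2, g2) (a3, g3)).map (phE M)) := by
  rw [isBone1_iff]
  obtain ⟨m, hm⟩ : ∃ m, m = M - 2 - (a1 - 1) - (g1 - 1) := ⟨_, rfl⟩
  refine ⟨1 - ((a1 - 1) - m) - (m - (g1 - 1)), (a1 - 1) - m, m - (g1 - 1), by ring, ?_⟩
  exact map_b12 (m := m) (by ring) (by omega) (by omega)

theorem cls_b20 (M : ℤ) {a1 g1 a2 g2 a3 g3 : ℤ}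
    (h : a2 = a1 ∧ g2 = g1 - 1 ∧ a3 = a1 ∧ g3 = g1) :
    IsBone 2 ((tr (a1, g1) (a2, g2) (a3, g3)).map (phE M)) := by
  rw [isBone2_iff]
  obtain ⟨m, hm⟩ : ∃ m, m = M - 0 - (a1) - (g1) := ⟨_, rfl⟩
  refine ⟨1 - ((a1) - m) - (m - (g1)), (a1) - m, m - (g1), by ring, ?_⟩
  exact map_b20 (m := m) (by ring) (by omega) (by omega)

theorem cls_b21 (M : ℤ) {a1 g1 a2 g2 a3 g3 : ℤ}
    (h : a2 = a1 - 1 ∧ g2 = g1 + 1 ∧ a3 = a1 - 1 ∧ g3 = g1 + 2) :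
    IsBone 2 ((tr (a1, g1) (a2, g2) (a3, g3)).map (phE M)) := by
  rw [isBone2_iff]
  obtain ⟨m, hm⟩ : ∃ m, m = M - 1 - (a1 - 1) - (g1 + 1) := ⟨_, rfl⟩
  refine ⟨1 - ((a1 - 1) - m) - (m - (g1 + 1)), (a1 - 1) - m, m - (g1 + 1), by ring, ?_⟩
  exact map_b21 (m := m) (by ring) (by omega) (by omega)

theorem cls_b22 (M : ℤ) {a1 g1 a2 g2 a3 g3 : ℤ}
    (h : a2 = a1 - 1 ∧ g2 = g1 + 1 ∧ a3 = a1 ∧ g3 = g1) :
    IsBone 2 ((tr (a1, g1) (a2, g2) (a3, g3)).map (phE M)) := by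
  rw [isBone2_iff]
  obtain ⟨m, hm⟩ : ∃ m, m = M - 2 - (a1 - 1) - (g1) := ⟨_, rfl⟩
  refine ⟨1 - ((a1 - 1) - m) - (m - (g1)), (a1 - 1) - m, m - (g1), by ring, ?_⟩
  exact map_b22 (m := m) (by ring) (by omega) (by omega)

theorem bk_R (M : ℤ) (T : Finset (Fin 3 × ℤ × ℤ)) (h : IsRightStone (T.map (phE M))) : tile3 T := by
  rw [isRight_iff] at h
  obtain ⟨x, y, z, hx, h⟩ := h
  obtain ⟨m, hm⟩ : ∃ m, M + z - y = 3 * m ∨ M + z - y = 3 * m + 1 ∨ M + z - y = 3 * m + 2 :=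
    ⟨(M + z - y) / 3, by omega⟩
  rcases hm with hm | hm | hm
  · refine ⟨y + m, m - z, y + m, m - z, y + m, m - z, ?_, by unfold Sh; omega⟩
    apply Finset.map_injective (phE M)
    rw [h]
    exact (map_R0 hx hm ⟨rfl, rfl, rfl, rfl, rfl, rfl⟩).symm
  · refine ⟨y + m + 1, m - z, y + m, m - z, y + m, m - z + 1, ?_, by unfold Sh; omega⟩
    apply Finset.map_injective (phE M)
    rw [h]
    exact (map_R1 hx hm ⟨rfl, rfl, rfl, rfl, rfl, rfl⟩).symm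
  · refine ⟨y + m + 1, m - z, y + m, m - z + 1, y + m + 1, m - z + 1, ?_, by unfold Sh; omega⟩
    apply Finset.map_injective (phE M)
    rw [h]
    exact (map_R2 hx hm ⟨rfl, rfl, rfl, rfl, rfl, rfl⟩).symm

theorem bk_L (M : ℤ) (T : Finset (Fin 3 × ℤ × ℤ)) (h : IsLeftStone (T.map (phE M))) : tile3 T := by
  rw [isLeft_iff] at h
  obtain ⟨x, y, z, hx, h⟩ := h
  obtain ⟨m, hm⟩ : ∃ m, M + z - y = 3 * m ∨ M + z - y = 3 * m + 1 ∨ M + z - y = 3 * m + 2 :=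
    ⟨(M + z - y) / 3, by omega⟩
  rcases hm with hm | hm | hm
  · refine ⟨y + m, m - z, y + m - 1, m - z + 1, y + m - 1, m - z + 1, ?_, by unfold Sh; omega⟩
    apply Finset.map_injective (phE M)
    rw [h]
    exact (map_L0 hx hm ⟨rfl, rfl, rfl, rfl, rfl, rfl⟩).symm
  · refine ⟨y + m, m - z + 1, y + m - 1, m - z + 1, y + m, m - z + 1, ?_, by unfold Sh; omega⟩
    apply Finset.map_injective (phE M)
    rw [h]
    exact (map_L1 hx hm ⟨rfl, rfl, rfl, rfl, rfl, rfl⟩).symm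
  · refine ⟨y + m, m - z + 1, y + m, m - z + 1, y + m, m - z + 2, ?_, by unfold Sh; omega⟩
    apply Finset.map_injective (phE M)
    rw [h]
    exact (map_L2 hx hm ⟨rfl, rfl, rfl, rfl, rfl, rfl⟩).symm

theorem bk_b0 (M : ℤ) (T : Finset (Fin 3 × ℤ × ℤ)) (h : IsBone 0 (T.map (phE M))) : tile3 T := by
  rw [isBone0_iff] at h
  obtain ⟨x, y, z, hx, h⟩ := h
  obtain ⟨m, hm⟩ : ∃ m, M + z - y = 3 * m ∨ M + z - y = 3 * m + 1 ∨ M + z - y = 3 * m + 2 :=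
    ⟨(M + z - y) / 3, by omega⟩
  rcases hm with hm | hm | hm
  · refine ⟨y + m, m - z, y + m - 2, m - z + 1, y + m - 1, m - z + 1, ?_, by unfold Sh; omega⟩
    apply Finset.map_injective (phE M)
    rw [h]
    exact (map_b00 hx hm ⟨rfl, rfl, rfl, rfl, rfl, rfl⟩).symm
  · refine ⟨y + m - 1, m - z + 1, y + m - 1, m - z + 1, y + m, m - z + 1, ?_, by unfold Sh; omega⟩
    apply Finset.map_injective (phE M)
    rw [h]
    exact (map_b01 hx hm ⟨rfl, rfl, rfl, rfl, rfl, rfl⟩).symm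
  · refine ⟨y + m, m - z + 1, y + m, m - z + 1, y + m - 1, m - z + 2, ?_, by unfold Sh; omega⟩
    apply Finset.map_injective (phE M)
    rw [h]
    exact (map_b02 hx hm ⟨rfl, rfl, rfl, rfl, rfl, rfl⟩).symm

theorem bk_b1 (M : ℤ) (T : Finset (Fin 3 × ℤ × ℤ)) (h : IsBone 1 (T.map (phE M))) : tile3 T := by
  rw [isBone1_iff] at h
  obtain ⟨x, y, z, hx, h⟩ := h
  obtain ⟨m, hm⟩ : ∃ m, M + z - y = 3 * m ∨ M + z - y = 3 * m + 1 ∨ M + z - y = 3 * m + 2 :=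
    ⟨(M + z - y) / 3, by omega⟩
  rcases hm with hm | hm | hm
  · refine ⟨y + m, m - z, y + m, m - z + 1, y + m, m - z + 1, ?_, by unfold Sh; omega⟩
    apply Finset.map_injective (phE M)
    rw [h]
    exact (map_b10 hx hm ⟨rfl, rfl, rfl, rfl, rfl, rfl⟩).symm
  · refine ⟨y + m + 1, m - z + 1, y + m, m - z + 1, y + m, m - z + 1, ?_, by unfold Sh; omega⟩
    apply Finset.map_injective (phE M)
    rw [h]
    exact (map_b11 hx hm ⟨rfl, rfl, rfl, rfl, rfl, rfl⟩).symm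
  · refine ⟨y + m + 1, m - z + 1, y + m, m - z + 1, y + m + 1, m - z + 2, ?_, by unfold Sh; omega⟩
    apply Finset.map_injective (phE M)
    rw [h]
    exact (map_b12 hx hm ⟨rfl, rfl, rfl, rfl, rfl, rfl⟩).symm

theorem bk_b2 (M : ℤ) (T : Finset (Fin 3 × ℤ × ℤ)) (h : IsBone 2 (T.map (phE M))) : tile3 T := by
  rw [isBone2_iff] at h
  obtain ⟨x, y, z, hx, h⟩ := h
  obtain ⟨m, hm⟩ : ∃ m, M + z - y = 3 * m ∨ M + z - y = 3 * m + 1 ∨ M + z - y = 3 * m + 2 :=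
    ⟨(M + z - y) / 3, by omega⟩
  rcases hm with hm | hm | hm
  · refine ⟨y + m, m - z, y + m, m - z - 1, y + m, m - z, ?_, by unfold Sh; omega⟩
    apply Finset.map_injective (phE M)
    rw [h]
    exact (map_b20 hx hm ⟨rfl, rfl, rfl, rfl, rfl, rfl⟩).symm
  · refine ⟨y + m + 1, m - z - 1, y + m, m - z, y + m, m - z + 1, ?_, by unfold Sh; omega⟩
    apply Finset.map_injective (phE M)
    rw [h]
    exact (map_b21 hx hm ⟨rfl, rfl, rfl, rfl, rfl, rfl⟩).symm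
  · refine ⟨y + m + 1, m - z, y + m, m - z + 1, y + m + 1, m - z, ?_, by unfold Sh; omega⟩
    apply Finset.map_injective (phE M)
    rw [h]
    exact (map_b22 hx hm ⟨rfl, rfl, rfl, rfl, rfl, rfl⟩).symm

end Pool.Agent.Q162.Bz
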