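import Mathlib

/-!
Weighted exact covers of a finite set by tiles: removal of a set of tiles, branching at a cell,
transport along an injection.
-/

namespace Pool.Agent.Q162.Bz

open Finset

section General

variable {C : Type*} [DecidableEq C]

/-- `P` is a tiling of `R` by sets satisfying `tile`. -/
def IsTil (tile : Finset C → Prop) (R : Finset C) (P : Finset (Finset C)) : Prop :=
  (∀ T ∈ P, tile T) ∧ (∀ T ∈ P, ∀ T' ∈ P, T ≠ T' → Disjoint T T') ∧
    (∀ c, (∃ T ∈ P, c ∈ T) ↔ c ∈ R)

open Classical in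
/-- The finite set of all tilings. -/
noncomputable def tils (tile : Finset C → Prop) (R : Finset C) : Finset (Finset (Finset C)) :=
  R.powerset.powerset.filter (IsTil tile R)

theorem mem_tils {tile : Finset C → Prop} {R : Finset C} {P : Finset (Finset C)} :
    P ∈ tils tile R ↔ IsTil tile R P := by
  classical
  unfold tils
  rw [mem_filter]
  constructor
  · exact fun h => h.2
  · intro h
    refine ⟨?_, h⟩
    rw [mem_powerset]
    intro T hT
    rw [mem_powerset]
    intro c hc
    exact (h.2.2 c).1 ⟨T, hT, hc⟩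

theorem IsTil.subset {tile : Finset C → Prop} {R : Finset C} {P : Finset (Finset C)}
    (h : IsTil tile R P) {T : Finset C} (hT : T ∈ P) : T ⊆ R :=
  fun c hc => (h.2.2 c).1 ⟨T, hT, hc⟩

theorem IsTil.uniq {tile : Finset C → Prop} {R : Finset C} {P : Finset (Finset C)}
    (h : IsTil tile R P) {T T' : Finset C} (hT : T ∈ P) (hT' : T' ∈ P) {c : C}
    (hc : c ∈ T) (hc' : c ∈ T') : T = T' := by
  by_contra hne
  exact (Finset.disjoint_left.1 (h.2.1 T hT T' hT' hne)) hc hc'

variable {K : Type*} [CommSemiring K]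

/-- The weighted number of tilings. -/
noncomputable def Z (tile : Finset C → Prop) (w : Finset C → K) (R : Finset C) : K :=
  ∑ P ∈ tils tile R, ∏ T ∈ P, w T

theorem tils_empty (tile : Finset C → Prop) (ht : ∀ T, tile T → T.Nonempty) :
    tils tile (∅ : Finset C) = {∅} := by
  ext P
  rw [mem_tils, mem_singleton]
  constructor
  · intro h
    by_contra hne
    obtain ⟨T, hT⟩ := Finset.nonempty_iff_ne_empty.2 hne
    obtain ⟨c, hc⟩ := ht T (h.1 T hT)
    have := (h.2.2 c).1 ⟨T, hT, hc⟩
    simp at this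
  · rintro rfl
    refine ⟨by simp, by simp, by simp⟩

theorem Z_empty (tile : Finset C → Prop) (w : Finset C → K) (ht : ∀ T, tile T → T.Nonempty) :
    Z tile w (∅ : Finset C) = 1 := by
  unfold Z
  rw [tils_empty tile ht]
  simp

open Classical in
/-- Sum over tilings that contain a given family of tiles. -/
theorem sum_contain (tile : Finset C → Prop) (w : Finset C → K)
    (ht : ∀ T, tile T → T.Nonempty) (R : Finset C) (Q : Finset (Finset C))
    (hQt : ∀ T ∈ Q, tile T) (hQd : ∀ T ∈ Q, ∀ T' ∈ Q, T ≠ T' → Disjoint T T')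
    (hQR : ∀ T ∈ Q, T ⊆ R) :
    ∑ P ∈ (tils tile R).filter (fun P => Q ⊆ P), ∏ T ∈ P, w T =
      (∏ T ∈ Q, w T) * Z tile w (R \ Q.biUnion id) := by
  unfold Z
  rw [Finset.mul_sum]
  have hdis : ∀ P' ∈ tils tile (R \ Q.biUnion id), Disjoint P' Q := by
    intro P' hP'
    rw [mem_tils] at hP'
    rw [Finset.disjoint_left]
    intro T hT hTQ
    obtain ⟨c, hc⟩ := ht T (hQt T hTQ)
    have h1 := hP'.subset hT hc
    rw [mem_sdiff] at h1
    exact h1.2 (mem_biUnion.2 ⟨T, hTQ, hc⟩)
  refine Finset.sum_nbij' (fun P => P \ Q) (fun P' => P' ∪ Q) ?_ ?_ ?_ ?_ ?_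
  · intro P hP
    rw [mem_filter, mem_tils] at hP
    obtain ⟨hP, hQ⟩ := hP
    rw [mem_tils]
    refine ⟨fun T hT => hP.1 T (mem_sdiff.1 hT).1,
      fun T hT T' hT' => hP.2.1 T (mem_sdiff.1 hT).1 T' (mem_sdiff.1 hT').1, ?_⟩
    intro c
    constructor
    · rintro ⟨T, hT, hc⟩
      rw [mem_sdiff] at hT
      rw [mem_sdiff]
      refine ⟨(hP.2.2 c).1 ⟨T, hT.1, hc⟩, ?_⟩
      intro h
      obtain ⟨T', hT', hc'⟩ := mem_biUnion.1 h
      have := hP.uniq hT.1 (hQ hT') hc hc'
      subst this
      exact hT.2 hT'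
    · intro h
      rw [mem_sdiff] at h
      obtain ⟨T, hT, hc⟩ := (hP.2.2 c).2 h.1
      refine ⟨T, mem_sdiff.2 ⟨hT, ?_⟩, hc⟩
      intro hTQ
      exact h.2 (mem_biUnion.2 ⟨T, hTQ, hc⟩)
  · intro P' hP'
    have hd := hdis P' hP'
    rw [mem_tils] at hP'
    rw [mem_filter, mem_tils]
    refine ⟨⟨?_, ?_, ?_⟩, subset_union_right⟩
    · intro T hT
      rcases mem_union.1 hT with h | h
      · exact hP'.1 T h
      · exact hQt T h
    · intro T hT T' hT' hne
      rcases mem_union.1 hT with h | h <;> rcases mem_union.1 hT' with h' | h'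
      · exact hP'.2.1 T h T' h' hne
      · rw [Finset.disjoint_left]
        intro c hc hc'
        exact (mem_sdiff.1 (hP'.subset h hc)).2 (mem_biUnion.2 ⟨T', h', hc'⟩)
      · rw [Finset.disjoint_left]
        intro c hc hc'
        exact (mem_sdiff.1 (hP'.subset h' hc')).2 (mem_biUnion.2 ⟨T, h, hc⟩)
      · exact hQd T h T' h' hne
    · intro c
      constructor
      · rintro ⟨T, hT, hc⟩
        rcases mem_union.1 hT with h | h
        · exact (mem_sdiff.1 (hP'.subset h hc)).1
        · exact hQR T h hc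
      · intro hc
        by_cases h : c ∈ Q.biUnion id
        · obtain ⟨T, hT, hcT⟩ := mem_biUnion.1 h
          exact ⟨T, mem_union_right _ hT, hcT⟩
        · obtain ⟨T, hT, hcT⟩ := (hP'.2.2 c).2 (mem_sdiff.2 ⟨hc, h⟩)
          exact ⟨T, mem_union_left _ hT, hcT⟩
  · intro P hP
    rw [mem_filter] at hP
    exact sdiff_union_of_subset hP.2
  · intro P' hP'
    have hd := hdis P' hP'
    show (P' ∪ Q) \ Q = P'
    rw [union_sdiff_right]
    exact sdiff_eq_self_of_disjoint hd
  · intro P hP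
    rw [mem_filter] at hP
    rw [mul_comm]
    exact (prod_sdiff hP.2).symm

open Classical in
theorem sum_contain_one (tile : Finset C → Prop) (w : Finset C → K)
    (ht : ∀ T, tile T → T.Nonempty) (R : Finset C) (T : Finset C)
    (hT : tile T) (hTR : T ⊆ R) :
    ∑ P ∈ (tils tile R).filter (fun P => T ∈ P), ∏ T ∈ P, w T =
      w T * Z tile w (R \ T) := by
  have h := sum_contain tile w ht R {T} (by simpa using hT) (by
    intro A hA B hB hne
    rw [mem_singleton] at hA hB
    exact absurd (hA.trans hB.symm) hne) (by simpa using hTR)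
  simp only [singleton_subset_iff, prod_singleton, singleton_biUnion, id] at h
  exact h

open Classical in
/-- Branching at a cell. -/
theorem Z_branch (tile : Finset C → Prop) (w : Finset C → K)
    (ht : ∀ T, tile T → T.Nonempty) (R : Finset C) (c : C) (hc : c ∈ R) :
    Z tile w R = ∑ T ∈ R.powerset.filter (fun T => tile T ∧ c ∈ T), w T * Z tile w (R \ T) := by
  have h1 : ∀ T ∈ R.powerset.filter (fun T => tile T ∧ c ∈ T), w T * Z tile w (R \ T) =
      ∑ P ∈ (tils tile R).filter (fun P => T ∈ P), ∏ T ∈ P, w T := by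
    intro T hT
    rw [mem_filter, mem_powerset] at hT
    exact (sum_contain_one tile w ht R T hT.2.1 hT.1).symm
  rw [Finset.sum_congr rfl h1]
  have h2 : ∀ T ∈ R.powerset.filter (fun T => tile T ∧ c ∈ T),
      ∑ P ∈ (tils tile R).filter (fun P => T ∈ P), ∏ T ∈ P, w T =
      ∑ P ∈ tils tile R, if T ∈ P then ∏ T ∈ P, w T else 0 := by
    intro T _
    rw [Finset.sum_filter]
  rw [Finset.sum_congr rfl h2, Finset.sum_comm]
  unfold Z
  refine Finset.sum_congr rfl ?_
  intro P hP
  rw [mem_tils] at hP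
  obtain ⟨T, hT, hcT⟩ := (hP.2.2 c).2 hc
  rw [Finset.sum_eq_single T]
  · rw [if_pos hT]
  · intro T' hT' hne
    rw [if_neg]
    intro h
    rw [mem_filter] at hT'
    exact hne (hP.uniq h hT hT'.2.2 hcT)
  · intro h
    exfalso
    apply h
    rw [mem_filter, mem_powerset]
    exact ⟨hP.subset hT, hP.1 T hT, hcT⟩

/-- Transport along an injection. -/
theorem Z_map {C' : Type*} [DecidableEq C'] (e : C ↪ C') (tile : Finset C → Prop)
    (tile' : Finset C' → Prop) (w : Finset C → K) (w' : Finset C' → K) (R : Finset C)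
    (h1 : ∀ T, T ⊆ R → (tile T ↔ tile' (T.map e))) (h2 : ∀ T, T ⊆ R → tile T → w' (T.map e) = w T) :
    Z tile' w' (R.map e) = Z tile w R := by
  classical
  unfold Z
  symm
  refine Finset.sum_bij (fun P _ => P.map (Finset.mapEmbedding e).toEmbedding) ?_ ?_ ?_ ?_
  · intro P hP
    rw [mem_tils] at hP ⊢
    refine ⟨?_, ?_, ?_⟩
    · intro T hT
      rw [mem_map] at hT
      obtain ⟨T0, hT0, rfl⟩ := hT
      exact (h1 T0 (hP.subset hT0)).1 (hP.1 T0 hT0)
    · intro T hT T' hT' hne
      rw [mem_map] at hT hT'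
      obtain ⟨T0, hT0, rfl⟩ := hT
      obtain ⟨T1, hT1, rfl⟩ := hT'
      have hne' : T0 ≠ T1 := fun h => hne (by rw [h])
      have := hP.2.1 T0 hT0 T1 hT1 hne'
      exact (Finset.disjoint_map e).2 this
    · intro c
      constructor
      · rintro ⟨T, hT, hc⟩
        rw [mem_map] at hT
        obtain ⟨T0, hT0, rfl⟩ := hT
        have hc' : c ∈ T0.map e := hc
        rw [mem_map] at hc' ⊢
        obtain ⟨a, ha, rfl⟩ := hc'
        exact ⟨a, hP.subset hT0 ha, rfl⟩
      · intro hc
        rw [mem_map] at hc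
        obtain ⟨a, ha, rfl⟩ := hc
        obtain ⟨T0, hT0, hc0⟩ := (hP.2.2 a).2 ha
        exact ⟨T0.map e, mem_map.2 ⟨T0, hT0, rfl⟩, mem_map.2 ⟨a, hc0, rfl⟩⟩
  · intro P _ P' _ h
    exact Finset.map_injective _ h
  · intro P' hP'
    rw [mem_tils] at hP'
    have hsub : ∀ T ∈ P', ∃ T0, T0 ⊆ R ∧ T0.map e = T := by
      intro T hT
      have := hP'.subset hT
      obtain ⟨u, hu, huT⟩ := Finset.subset_map_iff.1 this
      exact ⟨u, hu, huT.symm⟩
    refine ⟨R.powerset.filter (fun T0 => T0.map e ∈ P'), ?_, ?_⟩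
    · rw [mem_tils]
      refine ⟨?_, ?_, ?_⟩
      · intro T hT
        rw [mem_filter, mem_powerset] at hT
        exact (h1 T hT.1).2 (hP'.1 _ hT.2)
      · intro T hT T' hT' hne
        rw [mem_filter, mem_powerset] at hT hT'
        have := hP'.2.1 _ hT.2 _ hT'.2 (fun h => hne (Finset.map_injective _ h))
        exact (Finset.disjoint_map e).1 this
      · intro c
        constructor
        · rintro ⟨T, hT, hc⟩
          rw [mem_filter, mem_powerset] at hT
          exact hT.1 hc
        · intro hc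
          obtain ⟨T, hT, hcT⟩ := (hP'.2.2 (e c)).2 (mem_map.2 ⟨c, hc, rfl⟩)
          obtain ⟨T0, hT0, rfl⟩ := hsub T hT
          refine ⟨T0, mem_filter.2 ⟨mem_powerset.2 hT0, hT⟩, ?_⟩
          rw [mem_map] at hcT
          obtain ⟨a, ha, hae⟩ := hcT
          rwa [e.injective hae] at ha
    · ext T
      rw [mem_map]
      constructor
      · rintro ⟨T0, hT0, rfl⟩
        rw [mem_filter] at hT0
        exact hT0.2
      · intro hT
        obtain ⟨T0, hT0, rfl⟩ := hsub T hT
        exact ⟨T0, mem_filter.2 ⟨mem_powerset.2 hT0, hT⟩, rfl⟩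
  · intro P hP
    rw [mem_tils] at hP
    rw [Finset.prod_map]
    refine Finset.prod_congr rfl ?_
    intro T hT
    exact (h2 T (hP.subset hT) (hP.1 T hT)).symm

end General

end Pool.Agent.Q162.Bz
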