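import Pool.Agent.Q162.Benzel.Bridge

/-!
Explicit formulas for weighted tiling sums of the two families of benzels.
-/

namespace Pool.Agent.Q162.Bz

open Finset Pool.Agent.Q162.Benzel

section
variable {K : Type*} [CommRing K]

theorem fb_neg_one (u v : K) (a : ℤ) : fb u v a (-1) = 0 := by
  unfold fb
  rw [show a + -1 = a - 1 by ring, show a - 1 + 1 = a by ring, Dz_symm u v a (a - 1)]
  ring

theorem fb_neg (u v : K) (a b : ℤ) (h : a < 0) : fb u v a b = 0 := by
  unfold fb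
  rw [Dz_neg u v (Or.inl h), Dz_neg u v (Or.inl (by omega))]
  ring

theorem Nt_tg (M : ℤ) (un : Fin 3 → K) (vn : K) (t : Fin 3) (q : ℤ × ℤ) :
    Nt M un vn t q (tg M t) = fb (un t) vn (Ac M t q) (Bc M t q) := by
  have h1 := tg_co M t
  have h2 := ABG M t q
  unfold Nt Np fb
  rw [h1.1, h1.2.2]
  have e1 : M - Gc M t q = Ac M t q + Bc M t q := by omega
  rw [e1, sub_zero]
  congr 2
  · ring
  · ring

/-- Sum over the triangle of stones. -/
noncomputable def S3 (m : ℤ) (Φ : ℤ → ℤ → ℤ → K) : K :=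
  ∑ q ∈ Dl m, Φ q.1 (m - q.1 - q.2) q.2

theorem Dl_shift_b (M : ℤ) (G : ℤ × ℤ → K) (h : ∀ q, M - q.1 - q.2 = 0 → G q = 0) :
    ∑ q ∈ Dl M, G q = ∑ q ∈ Dl (M - 1), G q := by
  symm
  apply Finset.sum_subset
  · intro q hq
    rw [mem_Dl] at hq ⊢
    unfold InD at hq ⊢
    omega
  · intro q hq hq'
    apply h
    rw [mem_Dl] at hq hq'
    unfold InD at hq hq'
    omega

theorem Dl_shift_a (M : ℤ) (G : ℤ × ℤ → K) (h : ∀ q : ℤ × ℤ, q.1 = 0 → G q = 0) :
    ∑ q ∈ Dl M, G q = ∑ q ∈ Dl (M - 1), G (q.1 + 1, q.2) := by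
  symm
  refine Finset.sum_bij_ne_zero (fun q _ _ => (q.1 + 1, q.2)) ?_ ?_ ?_ ?_
  · intro q hq _
    rw [mem_Dl] at hq ⊢
    unfold InD at hq ⊢
    simp only
    omega
  · intro q _ _ q' _ _ e
    rw [Prod.mk.injEq] at e
    ext
    · omega
    · exact e.2
  · intro q hq hne
    have h1 : q.1 ≠ 0 := fun e => hne (h q e)
    refine ⟨(q.1 - 1, q.2), ?_, ?_, ?_⟩
    · rw [mem_Dl] at hq ⊢
      unfold InD at hq ⊢
      simp only
      omega
    · simpa using hne
    · ext
      · simp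
      · rfl
  · intro q _ _
    rfl

theorem Dl_shift_g (M : ℤ) (G : ℤ × ℤ → K) (h : ∀ q : ℤ × ℤ, q.2 = 0 → G q = 0) :
    ∑ q ∈ Dl M, G q = ∑ q ∈ Dl (M - 1), G (q.1, q.2 + 1) := by
  symm
  refine Finset.sum_bij_ne_zero (fun q _ _ => (q.1, q.2 + 1)) ?_ ?_ ?_ ?_
  · intro q hq _
    rw [mem_Dl] at hq ⊢
    unfold InD at hq ⊢
    simp only
    omega
  · intro q _ _ q' _ _ e
    rw [Prod.mk.injEq] at e
    ext
    · exact e.1
    · omega
  · intro q hq hne
    have h1 : q.2 ≠ 0 := fun e => hne (h q e)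
    refine ⟨(q.1, q.2 - 1), ?_, ?_, ?_⟩
    · rw [mem_Dl] at hq ⊢
      unfold InD at hq ⊢
      simp only
      omega
    · simpa using hne
    · ext
      · rfl
      · simp
  · intro q _ _
    rfl

/-- The explicit formula for the larger region. -/
theorem three_formula (M : ℤ) (hM : 1 ≤ M) (w : Finset (Fin 3 × ℤ × ℤ) → K) (r r' : K)
    (hr : r * r' = 1) (u : Fin 3 → K) (v : K) (hw0 : ∀ q, w (std q) = r)
    (hwk : ∀ t q k, w (lnk t q k) = wst u v t k)
    (f : Fin 3 → ℤ → ℤ → K) (hf : ∀ t a b, f t a b = fb (r' * u t) (r' * v) a b) :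
    Z tile3 w (Reg M 0) = r ^ ((Dl M).card - 1) * (
      S3 M (fun a b g => f 0 a b * f 1 b g * f 2 g a) -
      (r' * u 0) * (r' * u 1) * S3 (M - 1) (fun a b g => f 0 a b * f 1 b (g + 1) * f 2 g a) -
      (r' * u 1) * (r' * u 2) * S3 (M - 1) (fun a b g => f 0 a b * f 1 b g * f 2 g (a + 1)) -
      (r' * u 2) * (r' * u 0) * S3 (M - 1) (fun a b g => f 0 a (b + 1) * f 1 b g * f 2 g a)) := by
  rw [three_sum M hM w r r' hr u v hw0 hwk
    (fun t q => Nt M (fun t => r' * u t) (r' * v) t q (tg M t)) (fun _ _ => rfl)]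
  congr 1
  have hN : ∀ t q, Nt M (fun t => r' * u t) (r' * v) t q (tg M t) = f t (Ac M t q) (Bc M t q) := by
    intro t q
    rw [Nt_tg, hf]
  have z1 : ∀ t a, f t a (-1) = 0 := by
    intro t a
    rw [hf, fb_neg_one]
  have z2 : ∀ t b, f t (-1) b = 0 := by
    intro t b
    rw [hf, fb_neg _ _ _ _ (by norm_num)]
  rw [Finset.sum_sub_distrib, Finset.sum_sub_distrib, Finset.sum_sub_distrib]
  congr 1
  · congr 1
    · congr 1
      · unfold S3
        refine Finset.sum_congr rfl ?_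
        rintro ⟨a, g⟩ _
        simp only [hN, Ac, Bc]
      · unfold S3
        rw [Finset.mul_sum, Dl_shift_b M]
        · refine Finset.sum_congr rfl ?_
          rintro ⟨a, g⟩ _
          simp only [hN, Ac, Bc, Es, Prod.mk_add_mk]
          rw [show M - (a + 0) - (g + 1) = M - 1 - a - g by ring, add_zero]
          ring
        · rintro ⟨a, g⟩ hq
          simp only at hq
          simp only [hN, Ac, Bc, Es, Prod.mk_add_mk]
          rw [show M - (a + 0) - (g + 1) = -1 by linarith, z1, z2]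
          ring
    · unfold S3
      rw [Finset.mul_sum, Dl_shift_g M]
      · refine Finset.sum_congr rfl ?_
        rintro ⟨a, g⟩ _
        simp only [hN, Ac, Bc, Es, Prod.mk_add_mk]
        rw [show M - (a + 1) - (g + 1 + -1) = M - 1 - a - g by ring,
          show g + 1 + -1 = g by ring, show M - a - (g + 1) = M - 1 - a - g by ring]
        ring
      · rintro ⟨a, g⟩ hq
        simp only at hq
        subst hq
        simp only [hN, Ac, Bc, Es, Prod.mk_add_mk, zero_add]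
        rw [z1, z2]
        ring
  · unfold S3
    rw [Finset.mul_sum, Dl_shift_a M]
    · refine Finset.sum_congr rfl ?_
      rintro ⟨a, g⟩ _
      simp only [hN, Ac, Bc, Es, Prod.mk_add_mk]
      rw [show M - (a + 1 + -1) - (g + 0) = M - 1 - a - g + 1 by ring,
        show a + 1 + -1 = a by ring, show M - (a + 1) - g = M - 1 - a - g by ring, add_zero]
      ring
    · rintro ⟨a, g⟩ hq
      simp only at hq
      subst hq
      simp only [hN, Ac, Bc, Es, Prod.mk_add_mk, zero_add]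
      rw [z1, z2]
      ring

/-- The two formulas in terms of tilings of benzels. -/
theorem bz3 (M : ℤ) (hM : 1 ≤ M) (W : Finset Cell → K) (r r' v : K) (b : Fin 3 → K)
    (hr : r * r' = 1) (hW : Wt W r v b)
    (f : Fin 3 → ℤ → ℤ → K) (hf : ∀ t a c, f t a c = fb (r' * b (t + 1)) (r' * v) a c) :
    Z Proto113 W ((Reg M 0).map (phE M)) = r ^ ((Dl M).card - 1) * (
      S3 M (fun a b g => f 0 a b * f 1 b g * f 2 g a) -
      (r' * b 1) * (r' * b 2) * S3 (M - 1) (fun a b g => f 0 a b * f 1 b (g + 1) * f 2 g a) -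
      (r' * b 2) * (r' * b 0) * S3 (M - 1) (fun a b g => f 0 a b * f 1 b g * f 2 g (a + 1)) -
      (r' * b 0) * (r' * b 1) * S3 (M - 1) (fun a b g => f 0 a (b + 1) * f 1 b g * f 2 g a)) := by
  rw [Z_bridge]
  exact three_formula M hM _ r r' hr (fun t => b (t + 1)) v (hW.std M) (hW.lnk M) f hf

theorem bz4 (M : ℤ) (hM : 1 ≤ M) (W : Finset Cell → K) (r r' v : K) (b : Fin 3 → K)
    (hr : r * r' = 1) (hW : Wt W r v b)
    (f : Fin 3 → ℤ → ℤ → K) (hf : ∀ t a c, f t a c = fb (r' * b (t + 1)) (r' * v) a c) :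
    Z Proto113 W ((Reg M 1).map (phE M)) = r ^ ((Dl M).card - 3) * (
      r * S3 (M - 2) (fun a b g => f 0 g (b + 1) * f 1 a (g + 1) * f 2 b (a + 1)) +
      r * S3 (M - 1) (fun a b g => f 0 g b * f 1 a g * f 2 b a) +
      b 0 * S3 (M - 2) (fun a b g => f 0 g b * f 1 a (g + 1) * f 2 b (a + 1)) +
      b 1 * S3 (M - 2) (fun a b g => f 0 g (b + 1) * f 1 a g * f 2 b (a + 1)) +
      b 2 * S3 (M - 2) (fun a b g => f 0 g (b + 1) * f 1 a (g + 1) * f 2 b a)) := by
  rw [Z_bridge]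
  exact four_formula M hM _ r r' hr (fun t => b (t + 1)) v (hW.std M) (hW.lnk M) (hW.T5 M) f hf

end

end Pool.Agent.Q162.Bz
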