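import Pool.Agent.Q162.Benzel.Reg

/-!
The weighted count for the smaller region.
-/

namespace Pool.Agent.Q162.Bz

open Finset

section
variable {K : Type*} [CommRing K]

/-- Corners. -/
def cr (M : ℤ) (t : Fin 3) : ℤ × ℤ :=
  match t with
  | 0 => (M, 0)
  | 1 => (0, 0)
  | 2 => (0, M)

theorem cr_co (M : ℤ) (t : Fin 3) : Ac M t (cr M t) = M ∧ Bc M t (cr M t) = 0 ∧
    Gc M t (cr M t) = 0 := by
  fin_cases t <;> simp [Ac, Bc, Gc, cr]

theorem Gc_succ (M : ℤ) (t : Fin 3) (q : ℤ × ℤ) : Gc M (t + 1) q = Ac M t q := by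
  fin_cases t <;> simp [Ac, Gc]

theorem cr_inD (M : ℤ) (hM : 1 ≤ M) (t : Fin 3) : InD M (cr M t) := by
  rw [inD_iff M t]
  have := cr_co M t
  omega

theorem cr_inj (M : ℤ) (hM : 1 ≤ M) {t t' : Fin 3} (h : cr M t = cr M t') : t = t' := by
  fin_cases t <;> fin_cases t' <;> simp [cr] at h <;> first | rfl | omega

theorem ms_one (M : ℤ) (t : Fin 3) (q : ℤ × ℤ) : ms M 1 t q ↔ ∃ τ, τ ≠ t ∧ q = cr M τ := by
  obtain ⟨a, g⟩ := q
  constructor
  · intro h
    fin_cases t
    · have h' : m1 M 1 a g := h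
      unfold m1 at h'
      rcases h' with h' | h'
      · exact ⟨2, by decide, by rw [cr, h'.1, h'.2]⟩
      · exact ⟨1, by decide, by rw [cr, h'.2.1, h'.2.2]⟩
    · have h' : m2 M 1 a g := h
      unfold m2 at h'
      rcases h' with h' | h'
      · exact ⟨0, by decide, by rw [cr, h'.1, h'.2]⟩
      · exact ⟨2, by decide, by rw [cr, h'.2.1, h'.2.2]⟩
    · have h' : m3 M 1 a g := h
      unfold m3 at h'
      rcases h' with h' | h'
      · exact ⟨1, by decide, by rw [cr, h'.1, h'.2]⟩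
      · exact ⟨0, by decide, by rw [cr, h'.2.1, h'.2.2]⟩
  · rintro ⟨τ, hτ, h⟩
    fin_cases t <;> fin_cases τ <;> simp [cr] at h hτ <;> obtain ⟨rfl, rfl⟩ := h <;>
      simp [ms, m1, m2, m3]

theorem third (t τ σ x : Fin 3) (h1 : τ ≠ t) (h2 : σ ≠ t) (h3 : σ ≠ τ) (h4 : x ≠ t) :
    x = τ ∨ x = σ := by
  fin_cases t <;> fin_cases τ <;> fin_cases σ <;> fin_cases x <;> simp_all

theorem succ_or (t t' : Fin 3) (h : t ≠ t') : t' = t + 1 ∨ t = t' + 1 := by
  fin_cases t <;> fin_cases t' <;> simp_all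

open Classical in
/-- Value of the region with a three-stone tile removed. -/
theorem eval4 (M : ℤ) (hM : 1 ≤ M) (w : Finset (Fin 3 × ℤ × ℤ) → K) (r r' : K) (hr : r * r' = 1)
    (u : Fin 3 → K) (v : K) (hw0 : ∀ q, w (std q) = r)
    (hwk : ∀ t q k, w (lnk t q k) = wst u v t k) (X : Fin 3 → ℤ × ℤ)
    (hXD : ∀ t, InD M (X t)) (hXs : ∀ t, Ac M t (X (t + 1)) < Ac M t (X t))
    (R : Finset (Fin 3 × ℤ × ℤ)) (hR : ∀ t q, (t, q) ∈ R ↔ (t, q) ∈ Reg M 1 ∧ q ≠ X t) :
    Z tile2 w R = r ^ ((Dl M).card - 3) *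
      ∏ t, Nt M (fun t => r' * u t) (r' * v) t (cr M t) (X t) := by
  have hco := cr_co M
  have live : ∀ t, Ac M t (X t) ≤ Ac M t (cr M t) ∧ Gc M t (cr M t) ≤ Gc M t (X t) := by
    intro t
    have h1 := hco t
    have h2 := (inD_iff M t _).1 (hXD t)
    have h3 := ABG M t (X t)
    omega
  have sep : ∀ t t' q, t ≠ t' → inpar M t (cr M t) (X t) q → inpar M t' (cr M t') (X t') q →
      False := by
    intro t t' q hne h1 h2
    rcases succ_or t t' hne with rfl | rfl
    · have h3 := hXs t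
      have h4 := Gc_succ M t q
      have h5 := Gc_succ M t (X (t + 1))
      unfold inpar at h1 h2
      omega
    · have h3 := hXs t'
      have h4 := Gc_succ M t' q
      have h5 := Gc_succ M t' (X (t' + 1))
      unfold inpar at h1 h2
      omega
  have pP : ∀ τ, inpar M τ (cr M τ) (X τ) (cr M τ) := fun τ =>
    ⟨(live τ).1, le_rfl, le_rfl, (live τ).2⟩
  have pX : ∀ τ, inpar M τ (cr M τ) (X τ) (X τ) := fun τ =>
    ⟨le_rfl, (live τ).1, (live τ).2, le_rfl⟩
  have dXX : ∀ τ τ', τ ≠ τ' → X τ ≠ X τ' := fun τ τ' h e =>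
    sep τ τ' (X τ) h (pX τ) (e ▸ pX τ')
  have dPX : ∀ τ τ', τ ≠ τ' → cr M τ ≠ X τ' := fun τ τ' h e =>
    sep τ τ' (cr M τ) h (pP τ) (e ▸ pX τ')
  set F : Finset (ℤ × ℤ) := (Dl M).filter (fun q => (∀ t, q ≠ cr M t) ∧ ∀ t, q ≠ X t) with hFdef
  have hmemF : ∀ q, q ∈ F ↔ InD M q ∧ (∀ t, q ≠ cr M t) ∧ ∀ t, q ≠ X t := by
    intro q
    rw [hFdef, mem_filter, mem_Dl]
  have key := arms M w r r' hr u v hw0 hwk R.card R F (cr M) X le_rfl ?_ ?_ (cr_inD M hM) hXD
    ?_ ?_ live ?_ sep
  · rw [key]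
    congr 2
    -- counting
    have hsplit : (Dl M).card = F.card + ((Dl M).filter
        (fun q => ¬ ((∀ t, q ≠ cr M t) ∧ ∀ t, q ≠ X t))).card := by
      rw [hFdef]
      exact (Finset.card_filter_add_card_filter_not _).symm
    have himg : (Dl M).filter (fun q => ¬ ((∀ t, q ≠ cr M t) ∧ ∀ t, q ≠ X t)) =
        (univ.image (cr M)) ∪ ((univ.filter (fun t => cr M t ≠ X t)).image X) := by
      ext q
      rw [mem_filter, mem_union, mem_image, mem_image, mem_Dl]
      constructor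
      · rintro ⟨hD, h⟩
        by_cases hc : ∃ t, q = cr M t
        · obtain ⟨t, ht⟩ := hc
          exact Or.inl ⟨t, mem_univ _, ht.symm⟩
        · right
          push Not at hc
          by_contra hcon
          apply h
          refine ⟨hc, ?_⟩
          intro t e
          apply hcon
          refine ⟨t, ?_, e.symm⟩
          rw [mem_filter]
          refine ⟨mem_univ _, ?_⟩
          intro e'
          exact hc t (e.trans e'.symm)
      · rintro (⟨t, _, rfl⟩ | ⟨t, ht, rfl⟩)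
        · exact ⟨cr_inD M hM t, fun h => h.1 t rfl⟩
        · exact ⟨hXD t, fun h => h.2 t rfl⟩
    have hdisj : Disjoint (univ.image (cr M))
        ((univ.filter (fun t => cr M t ≠ X t)).image X) := by
      rw [Finset.disjoint_left]
      intro q h1 h2
      rw [mem_image] at h1 h2
      obtain ⟨t, _, rfl⟩ := h1
      obtain ⟨t', ht', h⟩ := h2
      rw [mem_filter] at ht'
      by_cases htt : t = t'
      · subst htt
        exact ht'.2 h.symm
      · exact dPX t t' htt h.symm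
    rw [himg, Finset.card_union_of_disjoint hdisj,
      Finset.card_image_of_injective _ (fun t t' h => cr_inj M hM h),
      Finset.card_image_of_injOn] at hsplit
    · simp only [card_univ, Fintype.card_fin] at hsplit
      omega
    · intro t _ t' _ h
      by_contra hne
      exact dXX t t' hne h
  · intro t q
    rw [hR, hmemF, mem_Reg, ms_one]
    constructor
    · rintro ⟨⟨hD, hms⟩, hq⟩
      by_cases h1 : q = cr M t
      · right; left
        refine ⟨?_, h1⟩
        intro e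
        exact hq (h1.trans e)
      · have hcr : ∀ τ, q ≠ cr M τ := by
          intro τ e
          by_cases hτ : τ = t
          · subst hτ
            exact h1 e
          · exact hms ⟨τ, hτ, e⟩
        by_cases h2 : ∃ τ, q = X τ
        · obtain ⟨τ, hτ⟩ := h2
          right; right
          refine ⟨τ, ?_, ?_, hτ⟩
          · rintro rfl
            exact hq hτ
          · intro e
            exact hcr τ (hτ.trans e.symm)
        · left
          push Not at h2
          exact ⟨hD, hcr, h2⟩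
    · rintro (⟨hD, h1, h2⟩ | ⟨h1, rfl⟩ | ⟨τ, hτ, h1, rfl⟩)
      · refine ⟨⟨hD, ?_⟩, h2 t⟩
        rintro ⟨τ, _, e⟩
        exact h1 τ e
      · refine ⟨⟨cr_inD M hM t, ?_⟩, h1⟩
        rintro ⟨τ, hτ, e⟩
        exact hτ (cr_inj M hM e).symm
      · refine ⟨⟨hXD τ, ?_⟩, dXX τ t hτ⟩
        rintro ⟨σ, hσ, e⟩
        by_cases hστ : σ = τ
        · subst hστ
          exact h1 e.symm
        · exact dPX σ τ hστ e.symm
  · intro q hq
    exact ((hmemF q).1 hq).1
  · intro t h
    exact ((hmemF _).1 h).2.1 t rfl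
  · intro t h
    exact ((hmemF _).1 h).2.2 t rfl
  · intro t q hD hq h1 h2
    rw [hmemF]
    refine ⟨hD, ?_, ?_⟩
    · intro τ e
      by_cases hτ : τ = t
      · subst hτ
        exact h1 e
      · exact sep τ t q hτ (e ▸ pP τ) hq
    · intro τ e
      by_cases hτ : τ = t
      · subst hτ
        exact h2 e
      · exact sep τ t q hτ (e ▸ pX τ) hq

open Classical in
theorem dec4 (M : ℤ) (hM : 1 ≤ M) (w : Finset (Fin 3 × ℤ × ℤ) → K) :
    Z tile3 w (Reg M 1) = ∑ X ∈ (Reg M 1).powerset.filter tileX,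
      w X * Z tile2 w (Reg M 1 \ X) := by
  have hX3 : ∀ X, tileX X → tile3 X := by
    rintro X ⟨a1, g1, a2, g2, a3, g3, rfl, hs, _⟩
    exact ⟨_, _, _, _, _, _, rfl, hs⟩
  have huniq : ∀ P, IsTil tile3 (Reg M 1) P → ∀ X ∈ P, ∀ Y ∈ P, tileX X → tileX Y → X = Y := by
    intro P hP X hX Y hY hXX hYY
    have hc := cov_of M 1 hM P hP
    obtain ⟨a1, g1, a2, g2, a3, g3, rfl, hs, ht⟩ := hXX
    obtain ⟨b1, h1, b2, h2, b3, h3, rfl, hs', ht'⟩ := hYY
    obtain ⟨rfl, rfl, rfl, rfl, rfl, rfl⟩ := unique_tri hc hX ht hY ht'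
    rfl
  have h1 : Z tile3 w (Reg M 1) = ∑ X ∈ (Reg M 1).powerset.filter tileX,
      ∑ P ∈ (tils tile3 (Reg M 1)).filter (fun P => X ∈ P), ∏ T ∈ P, w T := by
    have h2 : ∀ X ∈ (Reg M 1).powerset.filter tileX,
        ∑ P ∈ (tils tile3 (Reg M 1)).filter (fun P => X ∈ P), ∏ T ∈ P, w T =
        ∑ P ∈ tils tile3 (Reg M 1), if X ∈ P then ∏ T ∈ P, w T else 0 := by
      intro X _
      rw [Finset.sum_filter]
    rw [Finset.sum_congr rfl h2, Finset.sum_comm]
    unfold Z
    refine Finset.sum_congr rfl ?_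
    intro P hP
    rw [mem_tils] at hP
    have hc := cov_of M 1 hM P hP
    obtain ⟨a1, g1, a2, g2, a3, g3, ht, htri⟩ := exists_tri hc
    rw [Finset.sum_eq_single (tr (a1, g1) (a2, g2) (a3, g3))]
    · rw [if_pos]
      exact ht
    · intro Y hY hne
      rw [if_neg]
      intro hYP
      rw [mem_filter] at hY
      exact hne (huniq P hP Y hYP _ ht hY.2 ⟨_, _, _, _, _, _, rfl, hc.shape ht, htri⟩)
    · intro h
      exfalso
      apply h
      rw [mem_filter, mem_powerset]
      exact ⟨hP.subset ht, ⟨_, _, _, _, _, _, rfl, hc.shape ht, htri⟩⟩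
  rw [h1]
  refine Finset.sum_congr rfl ?_
  intro X hX
  rw [mem_filter, mem_powerset] at hX
  rw [sum_contain_one tile3 w tile3_ne (Reg M 1) X (hX3 X hX.2) hX.1]
  congr 1
  unfold Z
  refine Finset.sum_congr ?_ (fun _ _ => rfl)
  ext P'
  rw [mem_tils, mem_tils]
  constructor
  · intro hP'
    have hins : IsTil tile3 (Reg M 1) (insert X P') := by
      refine ⟨?_, ?_, ?_⟩
      · intro T hT
        rw [mem_insert] at hT
        rcases hT with rfl | hT
        · exact hX3 _ hX.2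
        · exact hP'.1 T hT
      · have hd : ∀ T ∈ P', Disjoint X T := by
          intro T hT
          rw [Finset.disjoint_left]
          intro c hc hc'
          exact (mem_sdiff.1 (hP'.subset hT hc')).2 hc
        intro T hT T' hT' hne
        rw [mem_insert] at hT hT'
        rcases hT with rfl | hT <;> rcases hT' with rfl | hT'
        · exact absurd rfl hne
        · exact hd T' hT'
        · exact (hd T hT).symm
        · exact hP'.2.1 T hT T' hT' hne
      · intro c
        constructor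
        · rintro ⟨T, hT, hc⟩
          rw [mem_insert] at hT
          rcases hT with rfl | hT
          · exact hX.1 hc
          · exact (mem_sdiff.1 (hP'.subset hT hc)).1
        · intro hc
          by_cases hcX : c ∈ X
          · exact ⟨X, mem_insert_self _ _, hcX⟩
          · obtain ⟨T, hT, hcT⟩ := (hP'.2.2 c).2 (mem_sdiff.2 ⟨hc, hcX⟩)
            exact ⟨T, mem_insert_of_mem hT, hcT⟩
    refine ⟨?_, hP'.2.1, hP'.2.2⟩
    intro T hT
    obtain ⟨a1, g1, a2, g2, a3, g3, rfl, hs⟩ := hP'.1 T hT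
    rw [tile2_iff]
    refine ⟨_, _, _, _, _, _, rfl, hs, ?_⟩
    intro htri
    have := huniq _ hins X (mem_insert_self _ _) _ (mem_insert_of_mem hT) hX.2
      ⟨_, _, _, _, _, _, rfl, hs, htri⟩
    obtain ⟨c, hc⟩ := tile3_ne _ (hP'.1 _ hT)
    have h4 := hP'.subset hT hc
    rw [mem_sdiff] at h4
    apply h4.2
    rw [this]
    exact hc
  · intro hP'
    refine ⟨?_, hP'.2.1, hP'.2.2⟩
    intro T hT
    obtain ⟨a1, g1, a2, g2, a3, g3, he, hs, _⟩ := (tile2_iff T).1 (hP'.1 T hT)
    exact ⟨_, _, _, _, _, _, he, hs⟩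

end

end Pool.Agent.Q162.Bz
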