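import Pool.Agent.Q162.Benzel.Four

/-!
The explicit formula for the smaller region.
-/

namespace Pool.Agent.Q162.Bz

open Finset

section
variable {K : Type*} [CommRing K]

/-- Offsets of the three cells of a three-stone tile. -/
def X5 (κ : Fin 5) (t : Fin 3) : ℤ × ℤ :=
  match κ, t with
  | 0, 0 => (1, 0)
  | 0, 1 => (0, 1)
  | 0, 2 => (1, 1)
  | 1, 0 => (1, 0)
  | 1, 1 => (0, 0)
  | 1, 2 => (0, 1)
  | 2, 0 => (2, 0)
  | 2, 1 => (0, 1)
  | 2, 2 => (1, 1)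
  | 3, 0 => (1, 0)
  | 3, 1 => (0, 0)
  | 3, 2 => (1, 1)
  | 4, 0 => (1, 0)
  | 4, 1 => (0, 1)
  | 4, 2 => (0, 2)

/-- How much smaller the triangle of base points is. -/
def e5 (κ : Fin 5) : ℤ := if κ = 1 then 1 else 2

def T5 (κ : Fin 5) (q : ℤ × ℤ) : Finset (Fin 3 × ℤ × ℤ) :=
  tr (q + X5 κ 0) (q + X5 κ 1) (q + X5 κ 2)

theorem T5_tileX (κ : Fin 5) (q : ℤ × ℤ) : tileX (T5 κ q) := by
  obtain ⟨a, g⟩ := q
  refine ⟨_, _, _, _, _, _, rfl, ?_, ?_⟩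
  · fin_cases κ <;> simp [Sh, X5] <;> omega
  · fin_cases κ <;> simp [Tri, X5]

theorem T5_sub (M : ℤ) (hM : 1 ≤ M) (κ : Fin 5) (q : ℤ × ℤ) (hq : q ∈ Dl (M - e5 κ)) :
    T5 κ q ⊆ Reg M 1 := by
  obtain ⟨a, g⟩ := q
  rw [mem_Dl] at hq
  unfold InD at hq
  simp only at hq
  rintro ⟨t, y⟩ hy
  unfold T5 at hy
  rw [mem_tr] at hy
  rw [mem_Reg]
  rcases hy with ⟨rfl, rfl⟩ | ⟨rfl, rfl⟩ | ⟨rfl, rfl⟩
  · fin_cases κ <;> simp [X5, InD, ms, m1, e5] at hq ⊢ <;> omega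
  · fin_cases κ <;> simp [X5, InD, ms, m2, e5] at hq ⊢ <;> omega
  · fin_cases κ <;> simp [X5, InD, ms, m3, e5] at hq ⊢ <;> omega

theorem T5_inj {κ κ' : Fin 5} {q q' : ℤ × ℤ} (h : T5 κ q = T5 κ' q') : κ = κ' ∧ q = q' := by
  obtain ⟨h1, h2, h3⟩ := tr_inj h
  obtain ⟨a, g⟩ := q
  obtain ⟨a', g'⟩ := q'
  fin_cases κ <;> fin_cases κ' <;> simp [X5] at h1 h2 h3 ⊢ <;> omega

theorem T5_surj (M : ℤ) (hM : 1 ≤ M) (X : Finset (Fin 3 × ℤ × ℤ)) (hX : tileX X)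
    (hXR : X ⊆ Reg M 1) : ∃ κ q, q ∈ Dl (M - e5 κ) ∧ T5 κ q = X := by
  obtain ⟨a1, g1, a2, g2, a3, g3, rfl, hs, ht⟩ := hX
  have h1 := hXR (mem_tr0.2 rfl)
  have h2 := hXR (mem_tr1.2 rfl)
  have h3 := hXR (mem_tr2.2 rfl)
  rw [mem_Reg] at h1 h2 h3
  obtain ⟨h1, _⟩ := h1
  obtain ⟨h2, _⟩ := h2
  obtain ⟨h3, _⟩ := h3
  unfold InD at h1 h2 h3
  simp only at h1 h2 h3
  have e1 : ∀ {p1 p2 p3 q1 q2 q3 : ℤ × ℤ}, p1 = q1 → p2 = q2 → p3 = q3 →
      tr p1 p2 p3 = tr q1 q2 q3 := by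
    rintro _ _ _ _ _ _ rfl rfl rfl
    rfl
  unfold Sh at hs
  unfold Tri at ht
  rcases hs with ⟨k1, k2, hs⟩ | ⟨k1, k2, k3, k4⟩ | ⟨k1, k2, k3, k4⟩ | ⟨k1, k2, hs⟩ |
    ⟨k1, k2, hs⟩ | ⟨k1, k2, k3, k4⟩
  · exact absurd ⟨k1.symm, k2.symm⟩ ht.1
  · exact absurd ⟨by omega, by omega⟩ ht.2.1
  · exact absurd ⟨by omega, by omega⟩ ht.2.2
  · rcases hs with ⟨k3, k4⟩ | ⟨k3, k4⟩ | ⟨k3, k4⟩ | ⟨k3, k4⟩
    · exact absurd ⟨by omega, by omega⟩ ht.2.1
    · exact absurd ⟨by omega, by omega⟩ ht.2.2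
    · refine ⟨1, (a2, g2), ?_, ?_⟩
      · rw [mem_Dl]
        unfold InD
        simp [e5]
        omega
      · exact e1 (by ext <;> simp [X5] <;> omega) (by ext <;> simp [X5])
          (by ext <;> simp [X5] <;> omega)
    · refine ⟨3, (a2, g2), ?_, ?_⟩
      · rw [mem_Dl]
        unfold InD
        simp [e5]
        omega
      · exact e1 (by ext <;> simp [X5] <;> omega) (by ext <;> simp [X5])
          (by ext <;> simp [X5] <;> omega)
  · rcases hs with ⟨k3, k4⟩ | ⟨k3, k4⟩ | ⟨k3, k4⟩ | ⟨k3, k4⟩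
    · exact absurd ⟨by omega, by omega⟩ ht.2.1
    · exact absurd ⟨by omega, by omega⟩ ht.2.2
    · refine ⟨0, (a2, g1), ?_, ?_⟩
      · rw [mem_Dl]
        unfold InD
        simp [e5]
        omega
      · exact e1 (by ext <;> simp [X5] <;> omega) (by ext <;> simp [X5] <;> omega)
          (by ext <;> simp [X5] <;> omega)
    · refine ⟨4, (a2, g1), ?_, ?_⟩
      · rw [mem_Dl]
        unfold InD
        simp [e5]
        omega
      · exact e1 (by ext <;> simp [X5] <;> omega) (by ext <;> simp [X5] <;> omega)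
          (by ext <;> simp [X5] <;> omega)
  · refine ⟨2, (a2, g1), ?_, ?_⟩
    · rw [mem_Dl]
      unfold InD
      simp [e5]
      omega
    · exact e1 (by ext <;> simp [X5] <;> omega) (by ext <;> simp [X5] <;> omega)
        (by ext <;> simp [X5] <;> omega)

open Classical in
theorem sum_tileX (M : ℤ) (hM : 1 ≤ M) (G : Finset (Fin 3 × ℤ × ℤ) → K) :
    ∑ X ∈ (Reg M 1).powerset.filter tileX, G X = ∑ κ : Fin 5, ∑ q ∈ Dl (M - e5 κ), G (T5 κ q) := by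
  rw [Finset.sum_sigma']
  symm
  refine Finset.sum_bij (fun x _ => T5 x.1 x.2) ?_ ?_ ?_ ?_
  · rintro ⟨κ, q⟩ hx
    rw [mem_sigma] at hx
    rw [mem_filter, mem_powerset]
    exact ⟨T5_sub M hM κ q hx.2, T5_tileX κ q⟩
  · rintro ⟨κ, q⟩ _ ⟨κ', q'⟩ _ h
    obtain ⟨rfl, rfl⟩ := T5_inj h
    rfl
  · intro X hX
    rw [mem_filter, mem_powerset] at hX
    obtain ⟨κ, q, hq, h⟩ := T5_surj M hM X hX.2 hX.1
    exact ⟨⟨κ, q⟩, mem_sigma.2 ⟨mem_univ _, hq⟩, h⟩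
  · intro x _
    rfl

/-- Weighted ballot-type numbers. -/
def fb (u v : K) (a b : ℤ) : K := Dz u v a (a + b) - Dz u v (a - 1) (a + b + 1)

theorem Nt_cr (M : ℤ) (un : Fin 3 → K) (vn : K) (t : Fin 3) (X : ℤ × ℤ) :
    Nt M un vn t (cr M t) X = fb (un t) vn (Gc M t X) (Bc M t X) := by
  have h1 := cr_co M t
  have h2 := ABG M t X
  unfold Nt Np fb
  rw [h1.1, h1.2.1, h1.2.2]
  have e1 : M - Ac M t X = Gc M t X + Bc M t X := by omega
  rw [e1, sub_zero, Dz_symm _ _ (Gc M t X + Bc M t X)]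
  simp only [sub_zero, add_zero]

/-- Weight of a three-stone tile. -/
def w5 (r : K) (u : Fin 3 → K) (κ : Fin 5) : K :=
  match κ with
  | 0 => r
  | 1 => r
  | 2 => u 2
  | 3 => u 0
  | 4 => u 1

theorem four_sum (M : ℤ) (hM : 1 ≤ M) (w : Finset (Fin 3 × ℤ × ℤ) → K) (r r' : K)
    (hr : r * r' = 1) (u : Fin 3 → K) (v : K) (hw0 : ∀ q, w (std q) = r)
    (hwk : ∀ t q k, w (lnk t q k) = wst u v t k) (hw5 : ∀ κ q, w (T5 κ q) = w5 r u κ) :
    Z tile3 w (Reg M 1) = r ^ ((Dl M).card - 3) * ∑ κ : Fin 5, w5 r u κ *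
      ∑ q ∈ Dl (M - e5 κ), ∏ t : Fin 3, fb (r' * u t) (r' * v) (Gc M t (q + X5 κ t))
        (Bc M t (q + X5 κ t)) := by
  classical
  rw [dec4 M hM w, sum_tileX M hM, Finset.mul_sum]
  refine Finset.sum_congr rfl ?_
  intro κ _
  rw [Finset.mul_sum, Finset.mul_sum]
  refine Finset.sum_congr rfl ?_
  intro q hq
  have hsub := T5_sub M hM κ q hq
  have hpos : ∀ t, (t, q + X5 κ t) ∈ T5 κ q := by
    intro t
    unfold T5
    rw [mem_tr]
    fin_cases t <;> simp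
  have hXD : ∀ t, InD M (q + X5 κ t) := fun t => (mem_Reg.1 (hsub (hpos t))).1
  rw [eval4 M hM w r r' hr u v hw0 hwk (fun t => q + X5 κ t) hXD ?_ _ ?_, hw5]
  · have : ∏ t, Nt M (fun t => r' * u t) (r' * v) t (cr M t) (q + X5 κ t) =
        ∏ t : Fin 3, fb (r' * u t) (r' * v) (Gc M t (q + X5 κ t)) (Bc M t (q + X5 κ t)) :=
      Finset.prod_congr rfl (fun t _ => Nt_cr M _ _ t _)
    rw [this]
    ring
  · intro t
    obtain ⟨a, g⟩ := q
    fin_cases t <;> fin_cases κ <;> simp [Ac, X5] <;> omega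
  · intro t y
    rw [mem_sdiff]
    have : (t, y) ∈ T5 κ q ↔ y = q + X5 κ t := by
      unfold T5
      rw [mem_tr]
      fin_cases t <;> simp
    rw [this]

/-- The explicit formula for the smaller region. -/
theorem four_formula (M : ℤ) (hM : 1 ≤ M) (w : Finset (Fin 3 × ℤ × ℤ) → K) (r r' : K)
    (hr : r * r' = 1) (u : Fin 3 → K) (v : K) (hw0 : ∀ q, w (std q) = r)
    (hwk : ∀ t q k, w (lnk t q k) = wst u v t k) (hw5 : ∀ κ q, w (T5 κ q) = w5 r u κ)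
    (f : Fin 3 → ℤ → ℤ → K) (hf : ∀ t a b, f t a b = fb (r' * u t) (r' * v) a b) :
    Z tile3 w (Reg M 1) = r ^ ((Dl M).card - 3) * (
      r * ∑ q ∈ Dl (M - 2), f 0 q.2 (M - 2 - q.1 - q.2 + 1) * f 1 q.1 (q.2 + 1) *
        f 2 (M - 2 - q.1 - q.2) (q.1 + 1) +
      r * ∑ q ∈ Dl (M - 1), f 0 q.2 (M - 1 - q.1 - q.2) * f 1 q.1 q.2 *
        f 2 (M - 1 - q.1 - q.2) q.1 +
      u 2 * ∑ q ∈ Dl (M - 2), f 0 q.2 (M - 2 - q.1 - q.2) * f 1 q.1 (q.2 + 1) *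
        f 2 (M - 2 - q.1 - q.2) (q.1 + 1) +
      u 0 * ∑ q ∈ Dl (M - 2), f 0 q.2 (M - 2 - q.1 - q.2 + 1) * f 1 q.1 q.2 *
        f 2 (M - 2 - q.1 - q.2) (q.1 + 1) +
      u 1 * ∑ q ∈ Dl (M - 2), f 0 q.2 (M - 2 - q.1 - q.2 + 1) * f 1 q.1 (q.2 + 1) *
        f 2 (M - 2 - q.1 - q.2) q.1) := by
  rw [four_sum M hM w r r' hr u v hw0 hwk hw5]
  congr 1
  rw [Fin.sum_univ_five]
  have hsm : ∀ (m : ℤ) (g h : ℤ × ℤ → K), (∀ q, g q = h q) →
      ∑ q ∈ Dl m, g q = ∑ q ∈ Dl m, h q := fun m g h hgh =>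
    Finset.sum_congr rfl (fun q _ => hgh q)
  congr 1
  · congr 1
    · congr 1
      · congr 1
        · congr 1
          apply hsm
          rintro ⟨a, g⟩
          simp only [Fin.prod_univ_three, ← hf, Gc, Bc, X5, Prod.mk_add_mk, Prod.fst, Prod.snd]
          congr 1
          · congr 1
            · congr 1 <;> ring
            · congr 1 <;> ring
          · congr 1 <;> ring
        · congr 1
          apply hsm
          rintro ⟨a, g⟩
          simp only [Fin.prod_univ_three, ← hf, Gc, Bc, X5, Prod.mk_add_mk, Prod.fst, Prod.snd]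
          congr 1
          · congr 1
            · congr 1 <;> ring
            · congr 1 <;> ring
          · congr 1 <;> ring
      · congr 1
        apply hsm
        rintro ⟨a, g⟩
        simp only [Fin.prod_univ_three, ← hf, Gc, Bc, X5, Prod.mk_add_mk, Prod.fst, Prod.snd]
        congr 1
        · congr 1
          · congr 1 <;> ring
          · congr 1 <;> ring
        · congr 1 <;> ring
    · congr 1
      apply hsm
      rintro ⟨a, g⟩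
      simp only [Fin.prod_univ_three, ← hf, Gc, Bc, X5, Prod.mk_add_mk, Prod.fst, Prod.snd]
      congr 1
      · congr 1
        · congr 1 <;> ring
        · congr 1 <;> ring
      · congr 1 <;> ring
  · congr 1
    apply hsm
    rintro ⟨a, g⟩
    simp only [Fin.prod_univ_three, ← hf, Gc, Bc, X5, Prod.mk_add_mk, Prod.fst, Prod.snd]
    congr 1
    · congr 1
      · congr 1 <;> ring
      · congr 1 <;> ring
    · congr 1 <;> ring

end

end Pool.Agent.Q162.Bz
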