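import Mathlib

/-!
Geometry of exact covers of the triangle by stones, links and three-stone tiles.
Everything is expressed through an abstract relation on six integers, the coordinates of the three
cells of a tile.
-/

namespace Pool.Agent.Q162.Bz

/-- Shapes of all tiles. -/
def Sh (a1 g1 a2 g2 a3 g3 : ℤ) : Prop :=
  (a2 = a1 ∧ g2 = g1 ∧ ((a3 = a1 ∧ g3 = g1) ∨ (a3 = a1 - 1 ∧ g3 = g1 + 1) ∨
    (a3 = a1 + 1 ∧ g3 = g1) ∨ (a3 = a1 ∧ g3 = g1 + 1))) ∨
  (a2 = a1 ∧ g2 = g1 + 1 ∧ a3 = a1 ∧ g3 = g1 + 1) ∨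
  (a2 = a1 ∧ g2 = g1 - 1 ∧ a3 = a1 ∧ g3 = g1) ∨
  (a2 = a1 - 1 ∧ g2 = g1 ∧ ((a3 = a1 - 1 ∧ g3 = g1) ∨ (a3 = a1 ∧ g3 = g1) ∨
    (a3 = a1 - 1 ∧ g3 = g1 + 1) ∨ (a3 = a1 ∧ g3 = g1 + 1))) ∨
  (a2 = a1 - 1 ∧ g2 = g1 + 1 ∧ ((a3 = a1 - 1 ∧ g3 = g1 + 1) ∨ (a3 = a1 ∧ g3 = g1) ∨
    (a3 = a1 ∧ g3 = g1 + 1) ∨ (a3 = a1 - 1 ∧ g3 = g1 + 2))) ∨
  (a2 = a1 - 2 ∧ g2 = g1 + 1 ∧ a3 = a1 - 1 ∧ g3 = g1 + 1)

/-- Three-stone shapes: all three positions differ. -/
def Tri (a1 g1 a2 g2 a3 g3 : ℤ) : Prop :=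
  ¬ (a1 = a2 ∧ g1 = g2) ∧ ¬ (a2 = a3 ∧ g2 = g3) ∧ ¬ (a1 = a3 ∧ g1 = g3)

/-- Cells missing from the triangle (`κ = 1` for the smaller region). -/
def m1 (M κ a g : ℤ) : Prop := (a = 0 ∧ g = M) ∨ (κ = 1 ∧ a = 0 ∧ g = 0)
def m2 (M κ a g : ℤ) : Prop := (a = M ∧ g = 0) ∨ (κ = 1 ∧ a = 0 ∧ g = M)
def m3 (M κ a g : ℤ) : Prop := (a = 0 ∧ g = 0) ∨ (κ = 1 ∧ a = M ∧ g = 0)

structure Cov (M κ : ℤ) (τ : ℤ → ℤ → ℤ → ℤ → ℤ → ℤ → Prop) : Prop where
  hM : 1 ≤ M
  shape : ∀ {a1 g1 a2 g2 a3 g3}, τ a1 g1 a2 g2 a3 g3 → Sh a1 g1 a2 g2 a3 g3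
  mem : ∀ {a1 g1 a2 g2 a3 g3}, τ a1 g1 a2 g2 a3 g3 →
    (0 ≤ a1 ∧ 0 ≤ g1 ∧ a1 + g1 ≤ M ∧ ¬ m1 M κ a1 g1) ∧
    (0 ≤ a2 ∧ 0 ≤ g2 ∧ a2 + g2 ≤ M ∧ ¬ m2 M κ a2 g2) ∧
    (0 ≤ a3 ∧ 0 ≤ g3 ∧ a3 + g3 ≤ M ∧ ¬ m3 M κ a3 g3)
  ex1 : ∀ a g, 0 ≤ a → 0 ≤ g → a + g ≤ M → ¬ m1 M κ a g → ∃ a2 g2 a3 g3, τ a g a2 g2 a3 g3
  ex2 : ∀ a g, 0 ≤ a → 0 ≤ g → a + g ≤ M → ¬ m2 M κ a g → ∃ a1 g1 a3 g3, τ a1 g1 a g a3 g3
  ex3 : ∀ a g, 0 ≤ a → 0 ≤ g → a + g ≤ M → ¬ m3 M κ a g → ∃ a1 g1 a2 g2, τ a1 g1 a2 g2 a g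
  un1 : ∀ {a1 g1 a2 g2 a3 g3 b1 h1 b2 h2 b3 h3}, τ a1 g1 a2 g2 a3 g3 → τ b1 h1 b2 h2 b3 h3 →
    a1 = b1 → g1 = h1 → a2 = b2 ∧ g2 = h2 ∧ a3 = b3 ∧ g3 = h3
  un2 : ∀ {a1 g1 a2 g2 a3 g3 b1 h1 b2 h2 b3 h3}, τ a1 g1 a2 g2 a3 g3 → τ b1 h1 b2 h2 b3 h3 →
    a2 = b2 → g2 = h2 → a1 = b1 ∧ g1 = h1 ∧ a3 = b3 ∧ g3 = h3
  un3 : ∀ {a1 g1 a2 g2 a3 g3 b1 h1 b2 h2 b3 h3}, τ a1 g1 a2 g2 a3 g3 → τ b1 h1 b2 h2 b3 h3 →
    a3 = b3 → g3 = h3 → a1 = b1 ∧ g1 = h1 ∧ a2 = b2 ∧ g2 = h2
  flux : ∀ {a1 g1 a2 g2 a3 g3 b1 h1 b2 h2 b3 h3} (c : ℤ), 1 ≤ c → c ≤ M →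
    τ a1 g1 a2 g2 a3 g3 → τ b1 h1 b2 h2 b3 h3 → c ≤ a1 → a2 < c → c ≤ b1 → b2 < c →
    a1 = b1 ∧ g1 = h1 ∧ a2 = b2 ∧ g2 = h2

variable {M κ : ℤ} {τ : ℤ → ℤ → ℤ → ℤ → ℤ → ℤ → Prop}

/-- Types 1 and 2 of the stone are covered by the same tile. -/
def S12 (τ : ℤ → ℤ → ℤ → ℤ → ℤ → ℤ → Prop) (c j : ℤ) : Prop := ∃ a3 g3, τ c j c j a3 g3

theorem rowA (h : Cov M κ τ) (c g : ℤ)
    (hA : ∀ a1 g1 a3 g3, τ a1 g1 c g a3 g3 → ¬ (a1 = c ∧ g1 = g + 1))
    (hent : ∀ j, 0 ≤ j → j ≤ g → ∀ a1 g1 a3 g3, τ a1 g1 c j a3 g3 → a1 ≤ c)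
    (hpr : ∀ j, 0 ≤ j → j ≤ g → 0 ≤ c ∧ c + j ≤ M ∧ ¬ m2 M κ c j) :
    ∀ j, 0 ≤ j → j ≤ g → S12 τ c j := by
  have ca : ∀ n : ℕ, ∀ j, j = g - n → 0 ≤ j → ∀ a1 g1 a3 g3, τ a1 g1 c j a3 g3 →
      ¬ (a1 = c ∧ g1 = j + 1) := by
    intro n
    induction n with
    | zero =>
      intro j hj hj0 a1 g1 a3 g3 ht
      have : j = g := by simpa using hj
      subst this
      exact hA a1 g1 a3 g3 ht
    | succ n ih =>
      intro j hj hj0 a1 g1 a3 g3 ht hc
      push_cast at hj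
      obtain ⟨hp1, hp2, hp3⟩ := hpr (j + 1) (by omega) (by omega)
      obtain ⟨b1, h1, b3, h3, ht'⟩ := h.ex2 c (j + 1) hp1 (by omega) hp2 hp3
      have hs := h.shape ht
      have hs' := h.shape ht'
      have he := hent (j + 1) (by omega) (by omega) _ _ _ _ ht'
      unfold Sh at hs hs'
      rcases hs' with hs' | hs' | hs' | hs' | hs' | hs'
      · have := h.un1 ht ht' (by omega) (by omega)
        omega
      · have := h.un3 ht ht' (by omega) (by omega)
        omega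
      · exact ih (j + 1) (by omega) (by omega) _ _ _ _ ht' ⟨by omega, by omega⟩
      · omega
      · omega
      · omega
  have cb : ∀ n : ℕ, ∀ j, j = (n : ℤ) → j ≤ g → S12 τ c j := by
    intro n
    induction n using Nat.strong_induction_on with
    | _ n ih =>
      intro j hj hjg
      have hj0 : 0 ≤ j := by omega
      obtain ⟨hp1, hp2, hp3⟩ := hpr j hj0 hjg
      obtain ⟨b1, h1, b3, h3, ht'⟩ := h.ex2 c j hp1 hj0 hp2 hp3
      have hs' := h.shape ht'
      have hm := h.mem ht'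
      have he := hent j hj0 hjg _ _ _ _ ht'
      have hcan := ca (g - j).toNat j (by omega) hj0 _ _ _ _ ht'
      unfold Sh at hs'
      rcases hs' with hs' | hs' | hs' | hs' | hs' | hs'
      · have e1 : b1 = c := by omega
        have e2 : h1 = j := by omega
        subst e1 e2
        exact ⟨_, _, ht'⟩
      · exfalso
        obtain ⟨a3, g3, ht⟩ := ih (n - 1) (by omega) (j - 1) (by omega) (by omega)
        have := h.un1 ht ht' (by omega) (by omega)
        omega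
      · exact absurd ⟨by omega, by omega⟩ hcan
      · omega
      · omega
      · omega
  intro j hj0 hjg
  exact cb j.toNat j (by omega) hjg

theorem rowB (h : Cov M κ τ) (c g : ℤ)
    (hB : ∀ a2 g2 a3 g3, τ c g a2 g2 a3 g3 → ¬ (a2 = c ∧ g2 = g + 1))
    (hex : ∀ j, 0 ≤ j → j ≤ g → ∀ a2 g2 a3 g3, τ c j a2 g2 a3 g3 → c ≤ a2)
    (hpr : ∀ j, 0 ≤ j → j ≤ g → 0 ≤ c ∧ c + j ≤ M ∧ ¬ m1 M κ c j) :
    ∀ j, 0 ≤ j → j ≤ g → S12 τ c j := by
  have ca : ∀ n : ℕ, ∀ j, j = g - n → 0 ≤ j → ∀ a2 g2 a3 g3, τ c j a2 g2 a3 g3 →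
      ¬ (a2 = c ∧ g2 = j + 1) := by
    intro n
    induction n with
    | zero =>
      intro j hj hj0 a1 g1 a3 g3 ht
      have : j = g := by simpa using hj
      subst this
      exact hB a1 g1 a3 g3 ht
    | succ n ih =>
      intro j hj hj0 a2 g2 a3 g3 ht hc
      push_cast at hj
      obtain ⟨hp1, hp2, hp3⟩ := hpr (j + 1) (by omega) (by omega)
      obtain ⟨b2, h2, b3, h3, ht'⟩ := h.ex1 c (j + 1) hp1 (by omega) hp2 hp3
      have hs := h.shape ht
      have hs' := h.shape ht'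
      have he := hex (j + 1) (by omega) (by omega) _ _ _ _ ht'
      unfold Sh at hs hs'
      rcases hs' with hs' | hs' | hs' | hs' | hs' | hs'
      · have := h.un2 ht ht' (by omega) (by omega)
        omega
      · exact ih (j + 1) (by omega) (by omega) _ _ _ _ ht' ⟨by omega, by omega⟩
      · have := h.un3 ht ht' (by omega) (by omega)
        omega
      · omega
      · omega
      · omega
  have cb : ∀ n : ℕ, ∀ j, j = (n : ℤ) → j ≤ g → S12 τ c j := by
    intro n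
    induction n using Nat.strong_induction_on with
    | _ n ih =>
      intro j hj hjg
      have hj0 : 0 ≤ j := by omega
      obtain ⟨hp1, hp2, hp3⟩ := hpr j hj0 hjg
      obtain ⟨b2, h2, b3, h3, ht'⟩ := h.ex1 c j hp1 hj0 hp2 hp3
      have hs' := h.shape ht'
      have hm := h.mem ht'
      have he := hex j hj0 hjg _ _ _ _ ht'
      have hcan := ca (g - j).toNat j (by omega) hj0 _ _ _ _ ht'
      unfold Sh at hs'
      rcases hs' with hs' | hs' | hs' | hs' | hs' | hs'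
      · have e1 : b2 = c := by omega
        have e2 : h2 = j := by omega
        subst e1 e2
        exact ⟨_, _, ht'⟩
      · exact absurd ⟨by omega, by omega⟩ hcan
      · exfalso
        obtain ⟨a3, g3, ht⟩ := ih (n - 1) (by omega) (j - 1) (by omega) (by omega)
        have := h.un2 ht ht' (by omega) (by omega)
        omega
      · omega
      · omega
      · omega
  intro j hj0 hjg
  exact cb j.toNat j (by omega) hjg

theorem fill1 (h : Cov M κ τ) (c : ℤ) (hc : 1 ≤ c) : ∀ n : ℕ, ∀ j, M - c - j ≤ n →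
    ∀ a3 g3, τ c j c (j + 1) a3 g3 → ∃ q a2 g2 b3 h3, j < q ∧ a2 < c ∧ τ c q a2 g2 b3 h3 := by
  intro n
  induction n with
  | zero =>
    intro j hj a3 g3 ht
    have := h.mem ht
    omega
  | succ n ih =>
    intro j hj a3 g3 ht
    push_cast at hj
    have hm := h.mem ht
    obtain ⟨b2, h2, b3, h3, ht'⟩ := h.ex1 c (j + 1) (by omega) (by omega) (by omega)
      (by unfold m1; omega)
    have hs := h.shape ht
    have hs' := h.shape ht'
    unfold Sh at hs hs'
    rcases hs' with hs' | hs' | hs' | hs' | hs' | hs'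
    · have := h.un2 ht ht' (by omega) (by omega)
      omega
    · have e1 : b2 = c := by omega
      have e2 : h2 = j + 1 + 1 := by omega
      subst e1 e2
      obtain ⟨q, a2, g2, b3, h3, hq, ha, hq'⟩ := ih (j + 1) (by omega) _ _ ht'
      exact ⟨q, a2, g2, b3, h3, by omega, ha, hq'⟩
    · have := h.un3 ht ht' (by omega) (by omega)
      omega
    · exact ⟨j + 1, _, _, _, _, by omega, by omega, ht'⟩
    · exact ⟨j + 1, _, _, _, _, by omega, by omega, ht'⟩
    · exact ⟨j + 1, _, _, _, _, by omega, by omega, ht'⟩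

theorem fill2 (h : Cov M κ τ) (c : ℤ) (hc : c + 1 ≤ M) : ∀ n : ℕ, ∀ j, M - c - j ≤ n →
    ∀ a3 g3, τ c (j + 1) c j a3 g3 → ∃ q a1 g1 b3 h3, j < q ∧ c < a1 ∧ τ a1 g1 c q b3 h3 := by
  intro n
  induction n with
  | zero =>
    intro j hj a3 g3 ht
    have := h.mem ht
    omega
  | succ n ih =>
    intro j hj a3 g3 ht
    push_cast at hj
    have hm := h.mem ht
    unfold m1 at hm
    obtain ⟨b1, h1, b3, h3, ht'⟩ := h.ex2 c (j + 1) (by omega) (by omega) (by omega)
      (by unfold m2; omega)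
    have hs := h.shape ht
    have hs' := h.shape ht'
    unfold Sh at hs hs'
    rcases hs' with hs' | hs' | hs' | hs' | hs' | hs'
    · have := h.un1 ht ht' (by omega) (by omega)
      omega
    · have := h.un3 ht ht' (by omega) (by omega)
      omega
    · have e1 : b1 = c := by omega
      have e2 : h1 = j + 1 + 1 := by omega
      subst e1 e2
      obtain ⟨q, a2, g2, b3, h3, hq, ha, hq'⟩ := ih (j + 1) (by omega) _ _ ht'
      exact ⟨q, a2, g2, b3, h3, by omega, ha, hq'⟩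
    · exact ⟨j + 1, _, _, _, _, by omega, by omega, ht'⟩
    · exact ⟨j + 1, _, _, _, _, by omega, by omega, ht'⟩
    · exact ⟨j + 1, _, _, _, _, by omega, by omega, ht'⟩

/-- A source: no tile contains two of its cells. -/
structure Src (M κ : ℤ) (τ : ℤ → ℤ → ℤ → ℤ → ℤ → ℤ → Prop) (c g : ℤ) : Prop where
  hc : 0 ≤ c
  hg : 0 ≤ g
  hcg : c + g ≤ M
  p3 : ¬ m3 M κ c g
  p1 : 1 ≤ c → ¬ m1 M κ c g
  p2 : c + 1 ≤ M → ¬ m2 M κ c g
  n12 : ∀ a3 g3, ¬ τ c g c g a3 g3
  n23 : ∀ a1 g1, ¬ τ a1 g1 c g c g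
  n13 : ∀ a2 g2, ¬ τ c g a2 g2 c g

theorem srcE (h : Cov M κ τ) {c g : ℤ} (s : Src M κ τ c g) (hc : 1 ≤ c) {a1 g1 a2 g2 a3 g3 : ℤ}
    (ht : τ a1 g1 a2 g2 a3 g3) (h1 : c ≤ a1) (h2 : a2 < c) : a1 = c ∧ g ≤ g1 := by
  have hs0 := s.hcg
  have hs1 := s.hg
  obtain ⟨b2, h2', b3, h3, ht'⟩ := h.ex1 c g s.hc s.hg s.hcg (s.p1 hc)
  have hs' := h.shape ht'
  unfold Sh at hs'
  rcases hs' with hs' | hs' | hs' | hs' | hs' | hs'
  · exfalso
    have e1 : b2 = c := by omega
    have e2 : h2' = g := by omega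
    subst e1 e2
    exact s.n12 _ _ ht'
  · have e1 : b2 = c := by omega
    have e2 : h2' = g + 1 := by omega
    subst e1 e2
    obtain ⟨q, a2', g2', b3', h3', hq, ha, hq'⟩ := fill1 h b2 hc (M - b2 - g).toNat g (by omega) _ _ ht'
    have := h.flux b2 hc (by omega) ht hq' h1 h2 le_rfl ha
    omega
  · exfalso
    have e1 : b3 = c := by omega
    have e2 : h3 = g := by omega
    subst e1 e2
    exact s.n13 _ _ ht'
  · have := h.flux c hc (by omega) ht ht' h1 h2 le_rfl (by omega)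
    omega
  · have := h.flux c hc (by omega) ht ht' h1 h2 le_rfl (by omega)
    omega
  · have := h.flux c hc (by omega) ht ht' h1 h2 le_rfl (by omega)
    omega

theorem srcF (h : Cov M κ τ) {c g : ℤ} (s : Src M κ τ c g) (hc : c + 1 ≤ M)
    {a1 g1 a2 g2 a3 g3 : ℤ}
    (ht : τ a1 g1 a2 g2 a3 g3) (h1 : c + 1 ≤ a1) (h2 : a2 < c + 1) : a2 = c ∧ g ≤ g2 := by
  have hs0 := s.hcg
  have hs1 := s.hg
  have hs2 := s.hc
  obtain ⟨b1, h1', b3, h3, ht'⟩ := h.ex2 c g s.hc s.hg s.hcg (s.p2 hc)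
  have hs' := h.shape ht'
  unfold Sh at hs'
  rcases hs' with hs' | hs' | hs' | hs' | hs' | hs'
  · exfalso
    have e1 : b1 = c := by omega
    have e2 : h1' = g := by omega
    subst e1 e2
    exact s.n12 _ _ ht'
  · exfalso
    have e1 : b3 = c := by omega
    have e2 : h3 = g := by omega
    subst e1 e2
    exact s.n23 _ _ ht'
  · have e1 : b1 = c := by omega
    have e2 : h1' = g + 1 := by omega
    subst e1 e2
    obtain ⟨q, a2', g2', b3', h3', hq, ha, hq'⟩ := fill2 h b1 hc (M - b1 - g).toNat g (by omega) _ _ ht'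
    have := h.flux (b1 + 1) (by omega) (by omega) ht hq' h1 h2 (by omega) (by omega)
    omega
  · by_cases hh : b3 = c ∧ h3 = g
    · exfalso
      obtain ⟨rfl, rfl⟩ := hh
      exact s.n23 _ _ ht'
    · have := h.flux (c + 1) (by omega) (by omega) ht ht' h1 h2 (by omega) (by omega)
      omega
  · have := h.flux (c + 1) (by omega) (by omega) ht ht' h1 h2 (by omega) (by omega)
    omega
  · have hm := h.mem ht'
    have := h.flux (c + 1) (by omega) (by omega) ht ht' h1 h2 (by omega) (by omega)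
    omega

/-- The initial segment of row `c` up to `g` is untouched by the first curve. -/
def Vr (τ : ℤ → ℤ → ℤ → ℤ → ℤ → ℤ → Prop) (c g : ℤ) : Prop :=
  ∀ j, 0 ≤ j → j ≤ g → S12 τ c j ∧ ∀ a1 g1 a2 g2, τ a1 g1 a2 g2 c j → ¬ Tri a1 g1 a2 g2 c j

theorem Vr_mono {c g g' : ℤ} (h : Vr τ c g) (hg : g' ≤ g) : Vr τ c g' :=
  fun j h0 h1 => h j h0 (by omega)

/-- From the `S12` property of a segment and the exclusion of the bone that skips a row. -/
theorem Vr_of (h : Cov M κ τ) (c g : ℤ) (hS : ∀ j, 0 ≤ j → j ≤ g → S12 τ c j)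
    (hsk : ∀ j, 0 ≤ j → j ≤ g → ∀ a3 g3, ¬ τ (c + 1) (j - 1) (c - 1) j a3 g3) : Vr τ c g := by
  intro j h0 hg
  refine ⟨hS j h0 hg, ?_⟩
  intro a1 g1 a2 g2 ht htri
  have hs := h.shape ht
  have hm := h.mem ht
  unfold Tri at htri
  unfold Sh at hs
  rcases hs with hs | hs | hs | hs | hs | hs
  · omega
  · omega
  · omega
  · by_cases h1 : a1 = c
    · obtain ⟨a3, g3, ht'⟩ := hS (j - 1) (by omega) (by omega)
      have := h.un1 ht ht' (by omega) (by omega)
      omega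
    · obtain ⟨a3, g3, ht'⟩ := hS (j - 1) (by omega) (by omega)
      have := h.un2 ht ht' (by omega) (by omega)
      omega
  · by_cases h1 : a1 = c
    · obtain ⟨a3, g3, ht'⟩ := hS (j - 1) (by omega) (by omega)
      have := h.un1 ht ht' (by omega) (by omega)
      omega
    · obtain ⟨a3, g3, ht'⟩ := hS (j - 1) (by omega) (by omega)
      have := h.un2 ht ht' (by omega) (by omega)
      omega
  · have e1 : a1 = c + 1 := by omega
    have e2 : g1 = j - 1 := by omega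
    have e3 : a2 = c - 1 := by omega
    have e4 : g2 = j := by omega
    subst e1 e2 e3 e4
    exact hsk _ h0 hg _ _ ht

theorem src_row (h : Cov M κ τ) {c g : ℤ} (s : Src M κ τ c g) : Vr τ c (g - 1) := by
  have hs0 := s.hcg
  have hs1 := s.hg
  have hs2 := s.hc
  have hM := h.hM
  apply Vr_of h
  · apply rowA h
    · intro a1 g1 a3 g3 ht hh
      have hs := h.shape ht
      unfold Sh at hs
      have e1 : a1 = c := by omega
      have e2 : g1 = g := by omega
      have e3 : a3 = c := by omega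
      have e4 : g3 = g := by omega
      subst e1 e2
      subst e3 e4
      exact s.n13 _ _ ht
    · intro j hj0 hj1 a1 g1 a3 g3 ht
      by_contra hcon
      push Not at hcon
      have hm := h.mem ht
      have := srcF h s (by omega) ht (by omega) (by omega)
      omega
    · intro j hj0 hj1
      unfold m2
      omega
  · intro j hj0 hj1 a3 g3 ht
    have hm := h.mem ht
    have := srcE h s (by omega) ht (by omega) (by omega)
    omega

theorem src_noTri (h : Cov M κ τ) {c g : ℤ} (s : Src M κ τ c g) {a1 g1 a2 g2 : ℤ}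
    (ht : τ a1 g1 a2 g2 c g) : ¬ Tri a1 g1 a2 g2 c g := by
  intro htri
  have hs0 := s.hcg
  have hs1 := s.hg
  have hs2 := s.hc
  have hM := h.hM
  have hs := h.shape ht
  have hm := h.mem ht
  unfold Tri at htri
  unfold Sh at hs
  have key : (1 ≤ c ∧ c ≤ a1 ∧ a2 < c ∧ (a1 ≠ c ∨ g1 < g)) ∨
      (c + 1 ≤ M ∧ c + 1 ≤ a1 ∧ a2 < c + 1 ∧ (a2 ≠ c ∨ g2 < g)) := by
    omega
  rcases key with ⟨h1, h2, h3, h4⟩ | ⟨h1, h2, h3, h4⟩
  · have := srcE h s h1 ht h2 h3
    omega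
  · have := srcF h s h1 ht h2 h3
    omega

/-- First step of the type 3 arm of a source. -/
theorem src_step (h : Cov M κ τ) {c g : ℤ} (s : Src M κ τ c g) {a b : ℤ}
    (ht : τ a b a b c g) : Vr τ a b := by
  have hs0 := s.hcg
  have hs1 := s.hg
  have hs2 := s.hc
  have hM := h.hM
  have hs := h.shape ht
  have hm := h.mem ht
  have hne : ¬ (a = c ∧ b = g) := by
    rintro ⟨rfl, rfl⟩
    exact s.n12 _ _ ht
  have hcases : (a = c ∧ b = g - 1) ∨ (a = c - 1 ∧ b = g) ∨ (a = c + 1 ∧ b = g - 1) := by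
    unfold Sh at hs
    omega
  rcases hcases with ⟨e1, e2⟩ | ⟨e1, e2⟩ | ⟨e1, e2⟩
  · subst e1 e2
    exact src_row h s
  · subst e1 e2
    apply Vr_of h
    · apply rowA h
      · intro a1 g1 a3 g3 ht' hh
        have := h.un2 ht ht' (by omega) (by omega)
        omega
      · intro j hj0 hj1 a1 g1 a3 g3 ht'
        by_contra hcon
        push Not at hcon
        have hm' := h.mem ht'
        have h1 := srcE h s (by omega) ht' (by omega) (by omega)
        have hs' := h.shape ht'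
        unfold Sh at hs'
        have e3 : j = b := by omega
        have := h.un2 ht ht' (by omega) (by omega)
        omega
      · intro j hj0 hj1
        unfold m2
        omega
    · intro j hj0 hj1 a3 g3 ht'
      have hm' := h.mem ht'
      have := srcE h s (by omega) ht' (by omega) (by omega)
      omega
  · subst e1 e2
    apply Vr_of h
    · apply rowB h
      · intro a2 g2 a3 g3 ht' hh
        have := h.un1 ht ht' (by omega) (by omega)
        omega
      · intro j hj0 hj1 a2 g2 a3 g3 ht'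
        by_contra hcon
        push Not at hcon
        have hm' := h.mem ht'
        have h1 := srcF h s (by omega) ht' (by omega) (by omega)
        have hs' := h.shape ht'
        unfold Sh at hs'
        have e3 : j = g - 1 := by omega
        have := h.un1 ht ht' (by omega) (by omega)
        omega
      · intro j hj0 hj1
        unfold m1
        omega
    · intro j hj0 hj1 a3 g3 ht'
      have hm' := h.mem ht'
      have := srcF h s (by omega) ht' (by omega) (by omega)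
      omega

/-- Later steps of the type 3 arm. -/
theorem Vr_step (h : Cov M κ τ) {c g : ℤ} (v : Vr τ c g) (hg : 0 ≤ g) {a b : ℤ}
    (ht : τ a b a b c g) (hne : ¬ (a = c ∧ b = g)) : Vr τ a b := by
  have hM := h.hM
  have hs := h.shape ht
  have hm := h.mem ht
  have hcases : (a = c ∧ b = g - 1) ∨ (a = c - 1 ∧ b = g) ∨ (a = c + 1 ∧ b = g - 1) := by
    unfold Sh at hs
    omega
  rcases hcases with ⟨e1, e2⟩ | ⟨e1, e2⟩ | ⟨e1, e2⟩
  · subst e1 e2
    exact Vr_mono v (by omega)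
  · subst e1 e2
    apply Vr_of h
    · apply rowA h
      · intro a1 g1 a3 g3 ht' hh
        have := h.un2 ht ht' (by omega) (by omega)
        omega
      · intro j hj0 hj1 a1 g1 a3 g3 ht'
        by_contra hcon
        push Not at hcon
        have hm' := h.mem ht'
        have hs' := h.shape ht'
        unfold Sh at hs'
        by_cases hh : a1 = c
        · obtain ⟨⟨b3, h3, ht''⟩, _⟩ := v g1 (by omega) (by omega)
          have := h.un1 ht' ht'' (by omega) (by omega)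
          omega
        · have e3 : a3 = c := by omega
          have e4 : g3 = j := by omega
          subst e3 e4
          exact (v _ hj0 hj1).2 _ _ _ _ ht' (by unfold Tri; omega)
      · intro j hj0 hj1
        unfold m2
        omega
    · intro j hj0 hj1 a3 g3 ht'
      have hm' := h.mem ht'
      obtain ⟨⟨b3, h3, ht''⟩, _⟩ := v (j - 1) (by omega) (by omega)
      have := h.un1 ht' ht'' (by omega) (by omega)
      omega
  · subst e1 e2
    apply Vr_of h
    · apply rowB h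
      · intro a2 g2 a3 g3 ht' hh
        have := h.un1 ht ht' (by omega) (by omega)
        omega
      · intro j hj0 hj1 a2 g2 a3 g3 ht'
        by_contra hcon
        push Not at hcon
        have hm' := h.mem ht'
        have hs' := h.shape ht'
        unfold Sh at hs'
        by_cases hh : a2 = c
        · obtain ⟨⟨b3, h3, ht''⟩, _⟩ := v g2 (by omega) (by omega)
          have := h.un2 ht' ht'' (by omega) (by omega)
          omega
        · have e3 : a3 = c := by omega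
          have e4 : g3 = j + 1 := by omega
          subst e3 e4
          exact (v (j + 1) (by omega) (by omega)).2 _ _ _ _ ht' (by unfold Tri; omega)
      · intro j hj0 hj1
        unfold m1
        omega
    · intro j hj0 hj1 a3 g3 ht'
      have hm' := h.mem ht'
      obtain ⟨⟨b3, h3, ht''⟩, _⟩ := v j (by omega) (by omega)
      have := h.un2 ht' ht'' (by omega) (by omega)
      omega

/-- In the smaller region no arm of type 3 can live in the untouched part. -/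
theorem noarm (h : Cov M 1 τ) : ∀ n : ℕ, ∀ c g : ℤ, c + 2 * g ≤ n → Vr τ c g →
    ∀ a3 g3, τ c g c g a3 g3 → ¬ (a3 = c ∧ g3 = g) → False := by
  intro n
  induction n with
  | zero =>
    intro c g hn v a3 g3 ht hne
    have hm := h.mem ht
    unfold m1 at hm
    omega
  | succ n ih =>
    intro c g hn v a3 g3 ht hne
    push_cast at hn
    have hm := h.mem ht
    obtain ⟨a1, g1, a2, g2, ht'⟩ := h.ex3 c g (by omega) (by omega) (by omega)
      (by unfold m1 m2 at hm; unfold m3; omega)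
    have hs := h.shape ht'
    have hnt := (v g (by omega) le_rfl).2 _ _ _ _ ht'
    have hm' := h.mem ht'
    by_cases h1 : a1 = c ∧ g1 = g
    · have := h.un1 ht ht' h1.1.symm h1.2.symm
      omega
    by_cases h2 : a2 = c ∧ g2 = g
    · have := h.un2 ht ht' h2.1.symm h2.2.symm
      omega
    have h12 : a1 = a2 ∧ g1 = g2 := by
      unfold Tri at hnt
      omega
    obtain ⟨rfl, rfl⟩ := h12
    have v' := Vr_step h v (by omega) ht' h1
    refine ih a1 g1 ?_ v' _ _ ht' (fun e => h1 ⟨e.1.symm, e.2.symm⟩)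
    unfold Sh at hs
    omega

/-- No sources in the smaller region. -/
theorem no_src (h : Cov M 1 τ) {c g : ℤ} (s : Src M 1 τ c g) : False := by
  have hs0 := s.hcg
  have hs1 := s.hg
  have hs2 := s.hc
  obtain ⟨a1, g1, a2, g2, ht⟩ := h.ex3 c g s.hc s.hg s.hcg s.p3
  have hnt := src_noTri h s ht
  have h1 : ¬ (a1 = c ∧ g1 = g) := by
    rintro ⟨rfl, rfl⟩
    exact s.n13 _ _ ht
  have h2 : ¬ (a2 = c ∧ g2 = g) := by
    rintro ⟨rfl, rfl⟩
    exact s.n23 _ _ ht
  have h12 : a1 = a2 ∧ g1 = g2 := by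
    unfold Tri at hnt
    omega
  obtain ⟨rfl, rfl⟩ := h12
  have hm := h.mem ht
  exact noarm h (a1 + 2 * g1).toNat a1 g1 (by omega) (src_step h s ht) _ _ ht
    (fun e => h1 ⟨e.1.symm, e.2.symm⟩)

/-- In the larger region, a stone whose type 3 cell is alone is a source or untouched. -/
theorem back3 (h : Cov M 0 τ) : ∀ n : ℕ, ∀ c g : ℤ, 2 * M - (c + 2 * g) ≤ n →
    ∀ a1 g1 a2 g2, τ a1 g1 a2 g2 c g → ¬ (a1 = c ∧ g1 = g) → ¬ (a2 = c ∧ g2 = g) →
    Vr τ c g ∨ Src M 0 τ c g := by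
  intro n
  induction n with
  | zero =>
    intro c g hn a1 g1 a2 g2 ht h1 h2
    have hm := h.mem ht
    have hM := h.hM
    right
    have hg : c = 0 ∧ g = M := by omega
    have key : ∀ a3 g3, ¬ τ c g c g a3 g3 := by
      intro a3 g3 ht'
      have := (h.mem ht').1.2.2.2
      unfold m1 at this
      omega
    refine ⟨by omega, by omega, by omega, by unfold m3; omega, by omega, by unfold m2; omega, key,
      ?_, ?_⟩
    · intro b1 h1' ht'
      have := h.un3 ht ht' rfl rfl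
      omega
    · intro b1 h1' ht'
      have := h.un3 ht ht' rfl rfl
      omega
  | succ n ih =>
    intro c g hn a1 g1 a2 g2 ht h1 h2
    push_cast at hn
    have hm := h.mem ht
    have hM := h.hM
    by_cases hS : S12 τ c g
    · left
      obtain ⟨a3, g3, ht'⟩ := hS
      have hne : ¬ (c = a3 ∧ g = g3) := by
        intro e
        have := h.un3 ht ht' e.1 e.2
        omega
      have hs := h.shape ht'
      unfold Sh at hs
      rcases ih a3 g3 (by omega) c g c g ht' hne hne with v | s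
      · exact Vr_step h v (h.mem ht').2.2.2.1 ht' hne
      · exact src_step h s ht'
    · right
      refine ⟨by omega, by omega, by omega, (hm.2.2.2.2.2), ?_, ?_, fun a3 g3 ht' => hS ⟨a3, g3, ht'⟩,
        ?_, ?_⟩
      · unfold m1; omega
      · unfold m2; omega
      · intro b1 h1' ht'
        have := h.un3 ht ht' rfl rfl
        omega
      · intro b1 h1' ht'
        have := h.un3 ht ht' rfl rfl
        omega

/-- No three-stone tiles in the larger region. -/
theorem no_tri (h : Cov M 0 τ) {a1 g1 a2 g2 a3 g3 : ℤ} (ht : τ a1 g1 a2 g2 a3 g3) :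
    ¬ Tri a1 g1 a2 g2 a3 g3 := by
  intro htri
  have htri' := htri
  unfold Tri at htri'
  rcases back3 h (2 * M - (a3 + 2 * g3)).toNat a3 g3 (by omega) a1 g1 a2 g2 ht htri'.2.2
    htri'.2.1 with v | s
  · exact (v g3 (h.mem ht).2.2.2.1 le_rfl).2 _ _ _ _ ht htri
  · exact src_noTri h s ht htri

end Pool.Agent.Q162.Bz
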