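import Pool.Agent.Q162.Benzel.Geom

/-!
Exactly one three-stone tile in the smaller region; exactly one source in the larger region.
-/

namespace Pool.Agent.Q162.Bz

variable {M κ : ℤ} {τ : ℤ → ℤ → ℤ → ℤ → ℤ → ℤ → Prop}

/-- Type 1 links. -/
def L1 (τ : ℤ → ℤ → ℤ → ℤ → ℤ → ℤ → Prop) (u v : ℤ × ℤ) : Prop :=
  τ u.1 u.2 v.1 v.2 v.1 v.2 ∧ u ≠ v

/-- The type 1 cell of `v` is covered by a tile that meets `v` in this cell only. -/
def Lone1 (τ : ℤ → ℤ → ℤ → ℤ → ℤ → ℤ → Prop) (v : ℤ × ℤ) : Prop :=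
  ∃ a2 g2 a3 g3, τ v.1 v.2 a2 g2 a3 g3 ∧ ¬ (v.1 = a2 ∧ v.2 = g2) ∧ ¬ (v.1 = a3 ∧ v.2 = g3)

theorem L1_right (h : Cov M κ τ) : Relator.RightUnique (L1 τ) := by
  rintro ⟨a, b⟩ ⟨c, d⟩ ⟨e, f⟩ ⟨h1, _⟩ ⟨h2, _⟩
  have := h.un1 h1 h2 rfl rfl
  ext
  · exact this.1
  · exact this.2.1

theorem L1_left (h : Cov M κ τ) : Relator.RightUnique (Function.swap (L1 τ)) := by
  rintro ⟨a, b⟩ ⟨c, d⟩ ⟨e, f⟩ ⟨h1, _⟩ ⟨h2, _⟩
  have := h.un2 h1 h2 rfl rfl
  ext
  · exact this.1
  · exact this.2.1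

theorem L1_lone_src {u v : ℤ × ℤ} (hl : L1 τ u v) : Lone1 τ u := by
  refine ⟨_, _, _, _, hl.1, ?_, ?_⟩
  · intro e
    exact hl.2 (Prod.ext e.1 e.2)
  · intro e
    exact hl.2 (Prod.ext e.1 e.2)

theorem L1_lone_tgt (h : Cov M κ τ) {u v : ℤ × ℤ} (hl : L1 τ u v) (hv : ¬ m1 M κ v.1 v.2) :
    Lone1 τ v := by
  have hm := h.mem hl.1
  obtain ⟨a2, g2, a3, g3, ht⟩ := h.ex1 v.1 v.2 hm.2.1.1 hm.2.1.2.1 hm.2.1.2.2.1 hv
  refine ⟨a2, g2, a3, g3, ht, ?_, ?_⟩
  · intro e
    have := h.un2 hl.1 ht e.1 e.2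
    exact hl.2 (Prod.ext this.1 this.2.1)
  · intro e
    have := h.un3 hl.1 ht e.1 e.2
    exact hl.2 (Prod.ext this.1 this.2.1)

theorem L1_measure (h : Cov M κ τ) {u v : ℤ × ℤ} (hl : L1 τ u v) :
    v.1 - v.2 < u.1 - u.2 := by
  have hs := h.shape hl.1
  have hne : ¬ (u.1 = v.1 ∧ u.2 = v.2) := fun e => hl.2 (Prod.ext e.1 e.2)
  unfold Sh at hs
  omega

theorem lone_cases {v : ℤ × ℤ} (hl : Lone1 τ v) :
    (∃ a2 g2 a3 g3, τ v.1 v.2 a2 g2 a3 g3 ∧ Tri v.1 v.2 a2 g2 a3 g3) ∨ ∃ v', L1 τ v v' := by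
  obtain ⟨a2, g2, a3, g3, ht, h2, h3⟩ := hl
  by_cases htri : Tri v.1 v.2 a2 g2 a3 g3
  · exact Or.inl ⟨_, _, _, _, ht, htri⟩
  · right
    unfold Tri at htri
    have e : a2 = a3 ∧ g2 = g3 := by tauto
    obtain ⟨rfl, rfl⟩ := e
    exact ⟨(a2, g2), ht, fun e => h2 ⟨by rw [e], by rw [e]⟩⟩

/-- Existence of a three-stone tile in the smaller region. -/
theorem exists_tri (h : Cov M 1 τ) : ∃ a1 g1 a2 g2 a3 g3, τ a1 g1 a2 g2 a3 g3 ∧
    Tri a1 g1 a2 g2 a3 g3 := by
  have key : ∀ n : ℕ, ∀ v : ℤ × ℤ, M + (v.1 - v.2) ≤ n → Lone1 τ v →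
      ∃ a1 g1 a2 g2 a3 g3, τ a1 g1 a2 g2 a3 g3 ∧ Tri a1 g1 a2 g2 a3 g3 := by
    intro n
    induction n with
    | zero =>
      intro v hv hl
      rcases lone_cases hl with ⟨a2, g2, a3, g3, ht, htri⟩ | ⟨v', hl'⟩
      · exact ⟨_, _, _, _, _, _, ht, htri⟩
      · have := L1_measure h hl'
        have hm := h.mem hl'.1
        omega
    | succ n ih =>
      intro v hv hl
      push_cast at hv
      rcases lone_cases hl with ⟨a2, g2, a3, g3, ht, htri⟩ | ⟨v', hl'⟩
      · exact ⟨_, _, _, _, _, _, ht, htri⟩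
      · have := L1_measure h hl'
        have hm := h.mem hl'.1
        refine ih v' (by omega) (L1_lone_tgt h hl' ?_)
        unfold m2 m3 at hm
        unfold m1
        omega
  have hM := h.hM
  obtain ⟨a2, g2, a3, g3, ht⟩ := h.ex1 M 0 (by omega) le_rfl (by omega) (by unfold m1; omega)
  have hm := h.mem ht
  unfold m2 m3 at hm
  exact key (M + (M - 0)).toNat (M, 0) (by simp only; omega) ⟨a2, g2, a3, g3, ht,
    by simp only; omega, by simp only; omega⟩

theorem back_A (h : Cov M 1 τ) : ∀ n : ℕ, ∀ v : ℤ × ℤ, M - (v.1 - v.2) ≤ n → Lone1 τ v →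
    Relation.ReflTransGen (L1 τ) (M, 0) v := by
  intro n
  induction n with
  | zero =>
    intro v hv hl
    obtain ⟨a2, g2, a3, g3, ht, h2, h3⟩ := hl
    have hm := h.mem ht
    have : v = (M, 0) := by
      ext
      · simp only; omega
      · simp only; omega
    rw [this]
  | succ n ih =>
    intro v hv hl
    push_cast at hv
    by_cases hA : v = (M, 0)
    · rw [hA]
    have hA' : ¬ (v.1 = M ∧ v.2 = 0) := fun e => hA (Prod.ext e.1 e.2)
    have hex : ∃ a1 g1, τ a1 g1 v.1 v.2 v.1 v.2 := by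
      by_contra hcon
      push Not at hcon
      obtain ⟨a2, g2, a3, g3, ht, h2, h3⟩ := hl
      have hm := (h.mem ht).1
      unfold m1 at hm
      apply no_src h (c := v.1) (g := v.2)
      refine ⟨by omega, by omega, by omega, by unfold m3; omega, by intro _; unfold m1; omega,
        by intro _; unfold m2; omega, ?_, hcon, ?_⟩
      · intro b3 h3' ht'
        have := h.un1 ht ht' rfl rfl
        exact h2 ⟨this.1.symm, this.2.1.symm⟩
      · intro b3 h3' ht'
        have := h.un1 ht ht' rfl rfl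
        exact h3 ⟨this.2.2.1.symm, this.2.2.2.symm⟩
    obtain ⟨a1, g1, ht⟩ := hex
    have hL : L1 τ (a1, g1) v := by
      refine ⟨ht, ?_⟩
      intro e
      obtain ⟨a2, g2, a3, g3, ht', h2, h3⟩ := hl
      have e1 : a1 = v.1 := by rw [← e]
      have e2 : g1 = v.2 := by rw [← e]
      have := h.un1 ht ht' e1 e2
      exact h2 ⟨this.1, this.2.1⟩
    have hms := L1_measure h hL
    simp only at hms
    exact (ih (a1, g1) (by simp only; omega) (L1_lone_src hL)).tail hL

/-- Uniqueness of the three-stone tile in the smaller region. -/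
theorem unique_tri (h : Cov M 1 τ) {a1 g1 a2 g2 a3 g3 b1 h1 b2 h2 b3 h3 : ℤ}
    (ht : τ a1 g1 a2 g2 a3 g3) (htri : Tri a1 g1 a2 g2 a3 g3)
    (ht' : τ b1 h1 b2 h2 b3 h3) (htri' : Tri b1 h1 b2 h2 b3 h3) :
    a1 = b1 ∧ g1 = h1 ∧ a2 = b2 ∧ g2 = h2 ∧ a3 = b3 ∧ g3 = h3 := by
  have hend : ∀ {a1 g1 a2 g2 a3 g3 : ℤ}, τ a1 g1 a2 g2 a3 g3 → Tri a1 g1 a2 g2 a3 g3 →
      ∀ z, Relation.ReflTransGen (L1 τ) (a1, g1) z → z = (a1, g1) := by
    intro a1 g1 a2 g2 a3 g3 ht htri z hz
    rcases Relation.ReflTransGen.cases_head hz with e | ⟨y, hy, _⟩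
    · exact e.symm
    · exfalso
      have := h.un1 ht hy.1 rfl rfl
      unfold Tri at htri
      exact htri.2.1 ⟨this.1.trans this.2.2.1.symm, this.2.1.trans this.2.2.2.symm⟩
  have lone : ∀ {a1 g1 a2 g2 a3 g3 : ℤ}, τ a1 g1 a2 g2 a3 g3 → Tri a1 g1 a2 g2 a3 g3 →
      Lone1 τ (a1, g1) := by
    intro a1 g1 a2 g2 a3 g3 ht htri
    unfold Tri at htri
    exact ⟨a2, g2, a3, g3, ht, htri.1, htri.2.2⟩
  have r1 := back_A h (M - (a1 - g1)).toNat (a1, g1) (by simp only; omega) (lone ht htri)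
  have r2 := back_A h (M - (b1 - h1)).toNat (b1, h1) (by simp only; omega) (lone ht' htri')
  have heq : (a1, g1) = (b1, h1) := by
    rcases Relation.ReflTransGen.total_of_right_unique (L1_right h) r1 r2 with hr | hr
    · exact (hend ht htri _ hr).symm
    · exact hend ht' htri' _ hr
  rw [Prod.mk.injEq] at heq
  have := h.un1 ht ht' heq.1 heq.2
  exact ⟨heq.1, heq.2, this.1, this.2.1, this.2.2.1, this.2.2.2⟩

/-- No tile contains two cells of the stone `v`. -/
def IsS (M : ℤ) (τ : ℤ → ℤ → ℤ → ℤ → ℤ → ℤ → Prop) (v : ℤ × ℤ) : Prop :=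
  (0 ≤ v.1 ∧ 0 ≤ v.2 ∧ v.1 + v.2 ≤ M) ∧ (∀ a3 g3, ¬ τ v.1 v.2 v.1 v.2 a3 g3) ∧
    (∀ a1 g1, ¬ τ a1 g1 v.1 v.2 v.1 v.2) ∧ (∀ a2 g2, ¬ τ v.1 v.2 a2 g2 v.1 v.2)

theorem exists_src (h : Cov M 0 τ) : ∃ s, IsS M τ s := by
  have hM := h.hM
  have key : ∀ n : ℕ, ∀ v : ℤ × ℤ, M - (v.1 - v.2) ≤ n → (0 ≤ v.1 ∧ 0 ≤ v.2 ∧ v.1 + v.2 ≤ M) →
      (v = (0, M) ∨ Lone1 τ v) → ∃ s, IsS M τ s := by
    intro n
    induction n with
    | zero =>
      intro v hv hD hl
      have hvA : v.1 = M ∧ v.2 = 0 := by omega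
      refine ⟨v, hD, ?_, ?_, ?_⟩
      · intro a3 g3 ht
        have hm := (h.mem ht).2.1
        unfold m2 at hm
        omega
      · intro a3 g3 ht
        have hm := (h.mem ht).2.1
        unfold m2 at hm
        omega
      · rcases hl with hl | hl
        · intro a3 g3 ht
          rw [hl] at hvA
          simp only at hvA
          omega
        · intro a2 g2 ht
          obtain ⟨b2, h2', b3, h3', ht', hh2, hh3⟩ := hl
          have := h.un1 ht ht' rfl rfl
          exact hh3 ⟨this.2.2.1, this.2.2.2⟩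
    | succ n ih =>
      intro v hv hD hl
      push_cast at hv
      by_cases hS : ∃ a1 g1, τ a1 g1 v.1 v.2 v.1 v.2
      · obtain ⟨a1, g1, ht⟩ := hS
        have hL : L1 τ (a1, g1) v := by
          refine ⟨ht, ?_⟩
          intro e
          have e1 : a1 = v.1 := by rw [← e]
          have e2 : g1 = v.2 := by rw [← e]
          rcases hl with hl | hl
          · rw [hl] at e1 e2
            simp only at e1 e2
            have hm := (h.mem ht).1
            unfold m1 at hm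
            omega
          · obtain ⟨b2, h2', b3, h3', ht', hh2, hh3⟩ := hl
            have := h.un1 ht ht' e1 e2
            exact hh2 ⟨this.1, this.2.1⟩
        have hms := L1_measure h hL
        have hm := (h.mem ht).1
        simp only at hms
        exact ih (a1, g1) (by simp only; omega) ⟨hm.1, hm.2.1, hm.2.2.1⟩
          (Or.inr (L1_lone_src hL))
      · refine ⟨v, hD, ?_, fun a1 g1 ht => hS ⟨a1, g1, ht⟩, ?_⟩
        · intro a3 g3 ht
          rcases hl with hl | hl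
          · have hm := (h.mem ht).1
            have e1 : v.1 = 0 := by rw [hl]
            have e2 : v.2 = M := by rw [hl]
            unfold m1 at hm
            omega
          · obtain ⟨b2, h2', b3, h3', ht', hh2, hh3⟩ := hl
            have := h.un1 ht ht' rfl rfl
            exact hh2 ⟨this.1, this.2.1⟩
        · intro a2 g2 ht
          rcases hl with hl | hl
          · have hm := (h.mem ht).1
            have e1 : v.1 = 0 := by rw [hl]
            have e2 : v.2 = M := by rw [hl]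
            unfold m1 at hm
            omega
          · obtain ⟨b2, h2', b3, h3', ht', hh2, hh3⟩ := hl
            have := h.un1 ht ht' rfl rfl
            exact hh3 ⟨this.2.2.1, this.2.2.2⟩
  exact key (M - (0 - M)).toNat (0, M) (by simp only; omega) ⟨le_rfl, by simp only; omega,
    by simp only; omega⟩ (Or.inl rfl)

theorem fwd_C (h : Cov M 0 τ) : ∀ n : ℕ, ∀ v : ℤ × ℤ, M + (v.1 - v.2) ≤ n →
    (v = (0, M) ∨ Lone1 τ v) → Relation.ReflTransGen (L1 τ) v (0, M) := by
  have hM := h.hM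
  intro n
  induction n with
  | zero =>
    intro v hv hl
    rcases hl with hl | hl
    · rw [hl]
    · obtain ⟨a2, g2, a3, g3, ht, h2, h3⟩ := hl
      have hm := h.mem ht
      unfold m1 at hm
      omega
  | succ n ih =>
    intro v hv hl
    push_cast at hv
    rcases hl with hl | hl
    · rw [hl]
    · rcases lone_cases hl with ⟨a2, g2, a3, g3, ht, htri⟩ | ⟨v', hl'⟩
      · exact absurd htri (no_tri h ht)
      · have hms := L1_measure h hl'
        refine Relation.ReflTransGen.head hl' (ih v' (by omega) ?_)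
        by_cases hC : v' = (0, M)
        · exact Or.inl hC
        · right
          apply L1_lone_tgt h hl'
          unfold m1
          intro e
          apply hC
          ext
          · simp only; omega
          · simp only; omega

theorem src_lone (h : Cov M 0 τ) {s : ℤ × ℤ} (hs : IsS M τ s) : s = (0, M) ∨ Lone1 τ s := by
  by_cases hC : s = (0, M)
  · exact Or.inl hC
  · right
    obtain ⟨⟨h1, h2, h3⟩, h12, h23, h13⟩ := hs
    obtain ⟨a2, g2, a3, g3, ht⟩ := h.ex1 s.1 s.2 h1 h2 h3 (by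
      unfold m1
      intro e
      apply hC
      ext
      · simp only; omega
      · simp only; omega)
    refine ⟨a2, g2, a3, g3, ht, ?_, ?_⟩
    · intro e
      rw [← e.1, ← e.2] at ht
      exact h12 _ _ ht
    · intro e
      rw [← e.1, ← e.2] at ht
      exact h13 _ _ ht

theorem unique_src (h : Cov M 0 τ) {s s' : ℤ × ℤ} (hs : IsS M τ s) (hs' : IsS M τ s') :
    s = s' := by
  have r1 := fwd_C h (M + (s.1 - s.2)).toNat s (by omega) (src_lone h hs)
  have r2 := fwd_C h (M + (s'.1 - s'.2)).toNat s' (by omega) (src_lone h hs')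
  have hend : ∀ {s : ℤ × ℤ}, IsS M τ s → ∀ z, Relation.ReflTransGen (L1 τ) z s → z = s := by
    intro s hs z hz
    rcases Relation.ReflTransGen.cases_tail hz with e | ⟨y, _, hy⟩
    · exact e.symm
    · exact absurd hy.1 (hs.2.2.1 _ _)
  have r1' := Relation.reflTransGen_swap.2 r1
  have r2' := Relation.reflTransGen_swap.2 r2
  rcases Relation.ReflTransGen.total_of_right_unique (L1_left h) r1' r2' with hr | hr
  · have := Relation.reflTransGen_swap.1 hr
    exact (hend hs _ this).symm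
  · have := Relation.reflTransGen_swap.1 hr
    exact hend hs' _ this

end Pool.Agent.Q162.Bz
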