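import Pool.Agent.Q162.Benzel.Arms2
import Pool.Agent.Q162.Benzel.Geom2

/-!
The two regions of the model and the covers of them.
-/

namespace Pool.Agent.Q162.Bz

open Finset

/-- The tile with given positions of its three cells. -/
def tr (p1 p2 p3 : ℤ × ℤ) : Finset (Fin 3 × ℤ × ℤ) := {(0, p1), (1, p2), (2, p3)}

theorem mem_tr {x : Fin 3} {y p1 p2 p3 : ℤ × ℤ} :
    (x, y) ∈ tr p1 p2 p3 ↔ (x = 0 ∧ y = p1) ∨ (x = 1 ∧ y = p2) ∨ (x = 2 ∧ y = p3) := by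
  unfold tr
  simp only [mem_insert, mem_singleton, Prod.mk.injEq]

theorem mem_tr0 {y p1 p2 p3 : ℤ × ℤ} : ((0 : Fin 3), y) ∈ tr p1 p2 p3 ↔ y = p1 := by
  rw [mem_tr]
  simp

theorem mem_tr1 {y p1 p2 p3 : ℤ × ℤ} : ((1 : Fin 3), y) ∈ tr p1 p2 p3 ↔ y = p2 := by
  rw [mem_tr]
  simp

theorem mem_tr2 {y p1 p2 p3 : ℤ × ℤ} : ((2 : Fin 3), y) ∈ tr p1 p2 p3 ↔ y = p3 := by
  rw [mem_tr]
  simp

theorem tr_inj {p1 p2 p3 q1 q2 q3 : ℤ × ℤ} (h : tr p1 p2 p3 = tr q1 q2 q3) :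
    p1 = q1 ∧ p2 = q2 ∧ p3 = q3 := by
  refine ⟨?_, ?_, ?_⟩
  · rw [← mem_tr0 (p2 := q2) (p3 := q3), ← h, mem_tr0]
  · rw [← mem_tr1 (p1 := q1) (p3 := q3), ← h, mem_tr1]
  · rw [← mem_tr2 (p1 := q1) (p2 := q2), ← h, mem_tr2]

theorem std_eq (q : ℤ × ℤ) : std q = tr q q q := rfl

theorem lnk0_eq (q : ℤ × ℤ) (k : Fin 3) : lnk 0 q k = tr q (q + stp 0 k) (q + stp 0 k) := by
  ext ⟨x, y⟩
  rw [mem_lnk, mem_tr]
  fin_cases x <;> simp

theorem lnk1_eq (q : ℤ × ℤ) (k : Fin 3) : lnk 1 q k = tr (q + stp 1 k) q (q + stp 1 k) := by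
  ext ⟨x, y⟩
  rw [mem_lnk, mem_tr]
  fin_cases x <;> simp

theorem lnk2_eq (q : ℤ × ℤ) (k : Fin 3) : lnk 2 q k = tr (q + stp 2 k) (q + stp 2 k) q := by
  ext ⟨x, y⟩
  rw [mem_lnk, mem_tr]
  fin_cases x <;> simp

/-- All tiles. -/
def tile3 (T : Finset (Fin 3 × ℤ × ℤ)) : Prop :=
  ∃ a1 g1 a2 g2 a3 g3, T = tr (a1, g1) (a2, g2) (a3, g3) ∧ Sh a1 g1 a2 g2 a3 g3

/-- Three-stone tiles. -/
def tileX (T : Finset (Fin 3 × ℤ × ℤ)) : Prop :=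
  ∃ a1 g1 a2 g2 a3 g3, T = tr (a1, g1) (a2, g2) (a3, g3) ∧ Sh a1 g1 a2 g2 a3 g3 ∧
    Tri a1 g1 a2 g2 a3 g3

theorem tile3_ne (T : Finset (Fin 3 × ℤ × ℤ)) (h : tile3 T) : T.Nonempty := by
  obtain ⟨a1, g1, a2, g2, a3, g3, rfl, _⟩ := h
  exact ⟨(0, (a1, g1)), mem_tr0.2 rfl⟩

theorem tile2_iff (T : Finset (Fin 3 × ℤ × ℤ)) : tile2 T ↔
    ∃ a1 g1 a2 g2 a3 g3, T = tr (a1, g1) (a2, g2) (a3, g3) ∧ Sh a1 g1 a2 g2 a3 g3 ∧
      ¬ Tri a1 g1 a2 g2 a3 g3 := by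
  constructor
  · rintro (⟨⟨a, g⟩, rfl⟩ | ⟨t, ⟨a, g⟩, k, rfl⟩)
    · exact ⟨a, g, a, g, a, g, std_eq _, by unfold Sh; omega, by unfold Tri; omega⟩
    · fin_cases t
      · refine ⟨a, g, _, _, _, _, lnk0_eq _ _, ?_, ?_⟩
        · fin_cases k <;> simp [Sh, stp, Es, sub_eq_add_neg]
        · unfold Tri
          tauto
      · refine ⟨_, _, a, g, _, _, lnk1_eq _ _, ?_, ?_⟩
        · fin_cases k <;> simp [Sh, stp, Es, sub_eq_add_neg]
        · unfold Tri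
          tauto
      · refine ⟨_, _, _, _, a, g, lnk2_eq _ _, ?_, ?_⟩
        · fin_cases k <;> simp [Sh, stp, Es, sub_eq_add_neg]
        · unfold Tri
          tauto
  · rintro ⟨a1, g1, a2, g2, a3, g3, rfl, hs, ht⟩
    unfold Sh at hs
    unfold Tri at ht
    have e0 : ∀ (t : Fin 3) (q : ℤ × ℤ) (k : Fin 3) (p1 p2 p3 : ℤ × ℤ),
        lnk t q k = tr p1 p2 p3 → tile2 (tr p1 p2 p3) := fun t q k p1 p2 p3 h =>
      Or.inr ⟨t, q, k, h.symm⟩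
    have e1 : ∀ {p1 p2 p3 q1 q2 q3 : ℤ × ℤ}, p1 = q1 → p2 = q2 → p3 = q3 →
        tr p1 p2 p3 = tr q1 q2 q3 := by
      rintro _ _ _ _ _ _ rfl rfl rfl
      rfl
    rcases hs with ⟨h1, h2, hs⟩ | ⟨h1, h2, h3, h4⟩ | ⟨h1, h2, h3, h4⟩ | ⟨h1, h2, hs⟩ |
      ⟨h1, h2, hs⟩ | ⟨h1, h2, h3, h4⟩
    · rcases hs with ⟨h3, h4⟩ | ⟨h3, h4⟩ | ⟨h3, h4⟩ | ⟨h3, h4⟩
      · exact Or.inl ⟨(a1, g1), e1 rfl (Prod.ext h1 h2) (Prod.ext h3 h4)⟩
      · apply e0 2 (a3, g3) 0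
        rw [lnk2_eq]
        exact e1 (by ext <;> simp [stp, Es] <;> omega) (by ext <;> simp [stp, Es] <;> omega) rfl
      · apply e0 2 (a3, g3) 1
        rw [lnk2_eq]
        exact e1 (by ext <;> simp [stp, Es] <;> omega) (by ext <;> simp [stp, Es] <;> omega) rfl
      · apply e0 2 (a3, g3) 2
        rw [lnk2_eq]
        exact e1 (by ext <;> simp [stp, Es] <;> omega) (by ext <;> simp [stp, Es] <;> omega) rfl
    · apply e0 0 (a1, g1) 1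
      rw [lnk0_eq]
      exact e1 rfl (by ext <;> simp [stp, Es] <;> omega) (by ext <;> simp [stp, Es] <;> omega)
    · apply e0 1 (a2, g2) 0
      rw [lnk1_eq]
      exact e1 (by ext <;> simp [stp, Es] <;> omega) rfl (by ext <;> simp [stp, Es] <;> omega)
    · rcases hs with ⟨h3, h4⟩ | ⟨h3, h4⟩ | ⟨h3, h4⟩ | ⟨h3, h4⟩
      · apply e0 0 (a1, g1) 0
        rw [lnk0_eq]
        exact e1 rfl (by ext <;> simp [stp, Es] <;> omega) (by ext <;> simp [stp, Es] <;> omega)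
      · apply e0 1 (a2, g2) 2
        rw [lnk1_eq]
        exact e1 (by ext <;> simp [stp, Es] <;> omega) rfl (by ext <;> simp [stp, Es] <;> omega)
      · exfalso
        apply ht
        omega
      · exfalso
        apply ht
        omega
    · rcases hs with ⟨h3, h4⟩ | ⟨h3, h4⟩ | ⟨h3, h4⟩ | ⟨h3, h4⟩
      · apply e0 0 (a1, g1) 2
        rw [lnk0_eq]
        exact e1 rfl (by ext <;> simp [stp, Es] <;> omega) (by ext <;> simp [stp, Es] <;> omega)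
      · apply e0 1 (a2, g2) 1
        rw [lnk1_eq]
        exact e1 (by ext <;> simp [stp, Es] <;> omega) rfl (by ext <;> simp [stp, Es] <;> omega)
      · exfalso
        apply ht
        omega
      · exfalso
        apply ht
        omega
    · exfalso
      apply ht
      omega

/-- The triangle of stones. -/
noncomputable def Dl (M : ℤ) : Finset (ℤ × ℤ) :=
  ((Icc 0 M) ×ˢ (Icc 0 M)).filter (fun q => q.1 + q.2 ≤ M)

theorem mem_Dl {M : ℤ} {q : ℤ × ℤ} : q ∈ Dl M ↔ InD M q := by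
  unfold Dl InD
  simp only [mem_filter, mem_product, mem_Icc]
  constructor <;> intro h <;> omega

/-- Missing cells. -/
def ms (M κ : ℤ) (t : Fin 3) (q : ℤ × ℤ) : Prop :=
  match t with
  | 0 => m1 M κ q.1 q.2
  | 1 => m2 M κ q.1 q.2
  | 2 => m3 M κ q.1 q.2

open Classical in
/-- The region. -/
noncomputable def Reg (M κ : ℤ) : Finset (Fin 3 × ℤ × ℤ) :=
  (univ ×ˢ Dl M).filter (fun x => ¬ ms M κ x.1 x.2)

theorem mem_Reg {M κ : ℤ} {t : Fin 3} {q : ℤ × ℤ} :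
    (t, q) ∈ Reg M κ ↔ InD M q ∧ ¬ ms M κ t q := by
  classical
  unfold Reg
  rw [mem_filter, mem_product, mem_Dl]
  simp

/-- The relation of a tiling. -/
def Rel (P : Finset (Finset (Fin 3 × ℤ × ℤ))) (a1 g1 a2 g2 a3 g3 : ℤ) : Prop :=
  tr (a1, g1) (a2, g2) (a3, g3) ∈ P

open Classical in
/-- Height change of a cell with respect to level `c`. -/
noncomputable def phi (c : ℤ) (x : Fin 3 × ℤ × ℤ) : ℤ :=
  if x.1 = 0 ∧ c ≤ x.2.1 then 1 else if x.1 = 1 ∧ c ≤ x.2.1 then -1 else 0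

theorem phi_tr (c a1 g1 a2 g2 a3 g3 : ℤ) :
    ∑ x ∈ tr (a1, g1) (a2, g2) (a3, g3), phi c x =
      (if c ≤ a1 then 1 else 0) - (if c ≤ a2 then 1 else 0) := by
  unfold tr
  rw [Finset.sum_insert, Finset.sum_insert, Finset.sum_singleton]
  · unfold phi
    simp
    split_ifs <;> rfl
  · simp
  · simp

theorem phi_Reg (M κ c : ℤ) (hM : 1 ≤ M) (h1 : 1 ≤ c) (h2 : c ≤ M) :
    ∑ x ∈ Reg M κ, phi c x = 1 := by
  classical
  unfold Reg
  rw [Finset.sum_filter, Finset.sum_product_right]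
  have : ∀ q ∈ Dl M, (∑ t : Fin 3, if ¬ ms M κ t q then phi c (t, q) else 0) =
      if q = (M, 0) then 1 else 0 := by
    intro q hq
    rw [mem_Dl] at hq
    unfold InD at hq
    rw [Fin.sum_univ_three]
    unfold phi
    simp only [ms]
    by_cases hc : c ≤ q.1
    · have hm1 : ¬ m1 M κ q.1 q.2 := by unfold m1; omega
      by_cases hA : q = (M, 0)
      · have hm2 : m2 M κ q.1 q.2 := by unfold m2; rw [hA]; simp
        rw [if_pos hm1, if_pos ⟨trivial, hc⟩, if_neg (by simpa using hm2), if_pos hA]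
        simp
      · have hm2 : ¬ m2 M κ q.1 q.2 := by
          unfold m2
          intro e
          apply hA
          ext
          · simp only; omega
          · simp only; omega
        simp [hc, hm1, hm2, hA]
    · have hA : q ≠ (M, 0) := by
        rintro rfl
        exact hc h2
      simp [hc, hA]
  rw [Finset.sum_congr rfl this, Finset.sum_ite_eq']
  rw [if_pos]
  rw [mem_Dl]
  unfold InD
  simp only
  omega

theorem cov_of (M κ : ℤ) (hM : 1 ≤ M) (P : Finset (Finset (Fin 3 × ℤ × ℤ)))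
    (hP : IsTil tile3 (Reg M κ) P) : Cov M κ (Rel P) := by
  classical
  have hmem : ∀ {a1 g1 a2 g2 a3 g3}, Rel P a1 g1 a2 g2 a3 g3 →
      ((0 : Fin 3), (a1, g1)) ∈ Reg M κ ∧ ((1 : Fin 3), (a2, g2)) ∈ Reg M κ ∧
      ((2 : Fin 3), (a3, g3)) ∈ Reg M κ := by
    intro a1 g1 a2 g2 a3 g3 h
    have := hP.subset h
    exact ⟨this (mem_tr0.2 rfl), this (mem_tr1.2 rfl), this (mem_tr2.2 rfl)⟩
  have hshape : ∀ {a1 g1 a2 g2 a3 g3}, Rel P a1 g1 a2 g2 a3 g3 → Sh a1 g1 a2 g2 a3 g3 := by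
    intro a1 g1 a2 g2 a3 g3 h
    obtain ⟨b1, h1, b2, h2, b3, h3, he, hs⟩ := hP.1 _ h
    obtain ⟨e1, e2, e3⟩ := tr_inj he
    rw [Prod.mk.injEq] at e1 e2 e3
    obtain ⟨rfl, rfl⟩ := e1
    obtain ⟨rfl, rfl⟩ := e2
    obtain ⟨rfl, rfl⟩ := e3
    exact hs
  have hex : ∀ t q, (t, q) ∈ Reg M κ → ∃ a1 g1 a2 g2 a3 g3, Rel P a1 g1 a2 g2 a3 g3 ∧
      (t, q) ∈ tr (a1, g1) (a2, g2) (a3, g3) := by
    intro t q h
    obtain ⟨T, hT, hc⟩ := (hP.2.2 (t, q)).2 h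
    obtain ⟨b1, h1, b2, h2, b3, h3, rfl, hs⟩ := hP.1 _ hT
    exact ⟨b1, h1, b2, h2, b3, h3, hT, hc⟩
  refine ⟨hM, hshape, ?_, ?_, ?_, ?_, ?_, ?_, ?_, ?_⟩
  · intro a1 g1 a2 g2 a3 g3 h
    obtain ⟨h1, h2, h3⟩ := hmem h
    rw [mem_Reg] at h1 h2 h3
    unfold InD ms at h1 h2 h3
    simp only at h1 h2 h3
    refine ⟨⟨h1.1.1, h1.1.2.1, h1.1.2.2, h1.2⟩, ⟨h2.1.1, h2.1.2.1, h2.1.2.2, h2.2⟩,
      ⟨h3.1.1, h3.1.2.1, h3.1.2.2, h3.2⟩⟩
  · intro a g h1 h2 h3 h4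
    obtain ⟨a1, g1, a2, g2, a3, g3, hr, hm⟩ := hex 0 (a, g) (mem_Reg.2 ⟨⟨h1, h2, h3⟩, h4⟩)
    rw [mem_tr0, Prod.mk.injEq] at hm
    obtain ⟨rfl, rfl⟩ := hm
    exact ⟨_, _, _, _, hr⟩
  · intro a g h1 h2 h3 h4
    obtain ⟨a1, g1, a2, g2, a3, g3, hr, hm⟩ := hex 1 (a, g) (mem_Reg.2 ⟨⟨h1, h2, h3⟩, h4⟩)
    rw [mem_tr1, Prod.mk.injEq] at hm
    obtain ⟨rfl, rfl⟩ := hm
    exact ⟨_, _, _, _, hr⟩
  · intro a g h1 h2 h3 h4
    obtain ⟨a1, g1, a2, g2, a3, g3, hr, hm⟩ := hex 2 (a, g) (mem_Reg.2 ⟨⟨h1, h2, h3⟩, h4⟩)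
    rw [mem_tr2, Prod.mk.injEq] at hm
    obtain ⟨rfl, rfl⟩ := hm
    exact ⟨_, _, _, _, hr⟩
  · intro a1 g1 a2 g2 a3 g3 b1 h1 b2 h2 b3 h3 ht ht' e1 e2
    subst e1 e2
    have := tr_inj (hP.uniq ht ht' (mem_tr0.2 rfl) (mem_tr0.2 rfl))
    simp only [Prod.mk.injEq] at this
    tauto
  · intro a1 g1 a2 g2 a3 g3 b1 h1 b2 h2 b3 h3 ht ht' e1 e2
    subst e1 e2
    have := tr_inj (hP.uniq ht ht' (mem_tr1.2 rfl) (mem_tr1.2 rfl))
    simp only [Prod.mk.injEq] at this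
    tauto
  · intro a1 g1 a2 g2 a3 g3 b1 h1 b2 h2 b3 h3 ht ht' e1 e2
    subst e1 e2
    have := tr_inj (hP.uniq ht ht' (mem_tr2.2 rfl) (mem_tr2.2 rfl))
    simp only [Prod.mk.injEq] at this
    tauto
  · intro a1 g1 a2 g2 a3 g3 b1 h1 b2 h2 b3 h3 c hc1 hc2 ht ht' ha1 ha2 hb1 hb2
    have hsum : ∑ T ∈ P, ∑ x ∈ T, phi c x = 1 := by
      rw [← phi_Reg M κ c hM hc1 hc2]
      rw [← Finset.sum_biUnion]
      · refine Finset.sum_congr ?_ (fun _ _ => rfl)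
        ext x
        rw [mem_biUnion]
        exact hP.2.2 x
      · intro T hT T' hT' hne
        exact hP.2.1 T hT T' hT' hne
    have hnn : ∀ T ∈ P, 0 ≤ ∑ x ∈ T, phi c x := by
      intro T hT
      obtain ⟨a1, g1, a2, g2, a3, g3, rfl, hs⟩ := hP.1 T hT
      rw [phi_tr]
      unfold Sh at hs
      have : a2 ≤ a1 := by omega
      split_ifs <;> omega
    by_contra hcon
    have hne : tr (a1, g1) (a2, g2) (a3, g3) ≠ tr (b1, h1) (b2, h2) (b3, h3) := by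
      intro e
      have := tr_inj e
      simp only [Prod.mk.injEq] at this
      tauto
    have h2le : ∑ T ∈ ({tr (a1, g1) (a2, g2) (a3, g3), tr (b1, h1) (b2, h2) (b3, h3)} :
        Finset (Finset (Fin 3 × ℤ × ℤ))), ∑ x ∈ T, phi c x ≤ ∑ T ∈ P, ∑ x ∈ T, phi c x := by
      apply Finset.sum_le_sum_of_subset_of_nonneg
      · intro T hT
        rw [mem_insert, mem_singleton] at hT
        rcases hT with rfl | rfl
        · exact ht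
        · exact ht'
      · intro T hT _
        exact hnn T hT
    rw [Finset.sum_pair hne, phi_tr, phi_tr, hsum] at h2le
    rw [if_pos ha1, if_neg (by omega), if_pos hb1, if_neg (by omega)] at h2le
    omega

end Pool.Agent.Q162.Bz
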