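import Pool.Agent.Q162.Benzel.Form

/-!
Large Schröder numbers and the type 112 counts.
-/

namespace Pool.Agent.Q162.Benzel

/-- Steps east, north and north-east. -/
def IsStep (s : ℤ × ℤ) : Prop := s = (1, 0) ∨ s = (0, 1) ∨ s = (1, 1)

/-- The list of steps `l` describes a lattice path that starts at the origin and never goes above
the line `y = x`. -/
def IsPath (l : List (ℤ × ℤ)) : Prop :=
  (∀ s ∈ l, IsStep s) ∧ ∀ l', l' <+: l → l'.sum.2 ≤ l'.sum.1

/-- The large Schröder number: the number of such paths from `(0, 0)` to `(n, n)`. -/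
noncomputable def schroeder (n : ℕ) : ℕ :=
  Set.ncard {l : List (ℤ × ℤ) | IsPath l ∧ l.sum = ((n : ℤ), (n : ℤ))}

end Pool.Agent.Q162.Benzel

namespace Pool.Agent.Q162.Bz

open Finset Pool.Agent.Q162.Benzel

section
variable {K : Type*} [CommRing K]

theorem fb_rec (u v : K) (a b : ℤ) (ha : 0 ≤ a) (hb : 0 ≤ b) (h : a ≠ 0 ∨ b ≠ 0) :
    fb u v a b = u * fb u v (a - 1) (b + 1) + u * fb u v a (b - 1) + v * fb u v (a - 1) b := by
  unfold fb
  rw [Dz_rec u v a (a + b) (by omega), Dz_rec u v (a - 1) (a + b + 1) (Or.inr (by omega))]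
  have e1 : a - 1 + (b + 1) = a + b := by ring
  have e2 : a + (b - 1) = a + b - 1 := by ring
  have e3 : a - 1 + b = a + b - 1 := by ring
  have e4 : a + b - 1 + 1 = a + b := by ring
  have e5 : a + b + 1 - 1 = a + b := by ring
  rw [e1, e2, e3, e4, e5]
  ring

theorem fb_zero_zero (u v : K) : fb u v 0 0 = 1 := by
  unfold fb
  rw [show (0 : ℤ) + 0 = 0 by rfl, Dz_zero, Dz_neg u v (Or.inl (by norm_num))]
  ring

theorem fb_zero_nat (u v : K) (b : ℕ) : fb u v 0 b = u ^ b := by
  induction b with
  | zero => rw [Nat.cast_zero, fb_zero_zero, pow_zero]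
  | succ b ih =>
    rw [fb_rec u v 0 _ le_rfl (by omega) (Or.inr (by omega)),
      fb_neg u v (0 - 1) _ (by norm_num), fb_neg u v (0 - 1) _ (by norm_num)]
    push_cast
    rw [show (b : ℤ) + 1 - 1 = b by ring, ih]
    ring

theorem fb_one_zero (v : K) (b : ℤ) (hb : 0 ≤ b) : fb 1 v 0 b = 1 := by
  obtain ⟨n, rfl⟩ := Int.eq_ofNat_of_zero_le hb
  rw [fb_zero_nat, one_pow]

/-- With vanishing weight of the unit steps only the diagonal is left. -/
theorem fb_u_zero (a : ℕ) : ∀ b : ℤ, 0 ≤ b → fb (0 : K) 1 a b = if b = 0 then 1 else 0 := by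
  induction a with
  | zero =>
    intro b hb
    obtain ⟨n, rfl⟩ := Int.eq_ofNat_of_zero_le hb
    rw [Nat.cast_zero, fb_zero_nat]
    rcases n with _ | n
    · simp
    · rw [if_neg (by omega)]
      simp
  | succ a ih =>
    intro b hb
    rw [fb_rec 0 1 _ b (by omega) hb (Or.inl (by omega))]
    push_cast
    rw [show (a : ℤ) + 1 - 1 = a by ring, ih b hb]
    ring

end

/-- The number of paths to a point. -/
theorem paths_count : ∀ n : ℕ, ∀ x y : ℤ, x + y = n → 0 ≤ y → y ≤ x →
    {l : List (ℤ × ℤ) | IsPath l ∧ l.sum = (x, y)}.Finite ∧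
    ((Set.ncard {l : List (ℤ × ℤ) | IsPath l ∧ l.sum = (x, y)} : ℕ) : ℤ) = fb 1 1 y (x - y) := by
  have hempty : ∀ x y : ℤ, ¬ (0 ≤ y ∧ y ≤ x) →
      {l : List (ℤ × ℤ) | IsPath l ∧ l.sum = (x, y)} = ∅ := by
    intro x y h
    rw [Set.eq_empty_iff_forall_notMem]
    rintro l ⟨⟨h1, h2⟩, h3⟩
    have h4 := h2 l (List.prefix_refl l)
    rw [h3] at h4
    simp only at h4
    have h5 : ∀ l : List (ℤ × ℤ), (∀ s ∈ l, IsStep s) → 0 ≤ l.sum.2 := by
      intro l
      induction l with
      | nil => intro _; simp
      | cons s l ih =>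
        intro hs
        rw [List.sum_cons]
        have := ih (fun s hs' => hs s (List.mem_cons_of_mem _ hs'))
        have h6 : 0 ≤ s.2 := by
          rcases hs s List.mem_cons_self with rfl | rfl | rfl <;> norm_num
        show 0 ≤ s.2 + l.sum.2
        omega
    have h6 := h5 l h1
    rw [h3] at h6
    exact h ⟨h6, h4⟩
  intro n
  induction n using Nat.strong_induction_on with
  | _ n ih =>
    intro x y hn hy hyx
    by_cases h0 : x = 0 ∧ y = 0
    · obtain ⟨rfl, rfl⟩ := h0
      have hset : {l : List (ℤ × ℤ) | IsPath l ∧ l.sum = ((0 : ℤ), (0 : ℤ))} = {[]} := by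
        ext l
        rw [Set.mem_setOf_eq, Set.mem_singleton_iff]
        constructor
        · rintro ⟨⟨h1, h2⟩, h3⟩
          rcases l with _ | ⟨s, l⟩
          · rfl
          · exfalso
            have h5 : ∀ l : List (ℤ × ℤ), (∀ s ∈ l, IsStep s) → 0 ≤ l.sum.1 + l.sum.2 := by
              intro l
              induction l with
              | nil => intro _; simp
              | cons s l ih =>
                intro hs
                rw [List.sum_cons]
                have := ih (fun s hs' => hs s (List.mem_cons_of_mem _ hs'))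
                have h6 : 0 ≤ s.1 + s.2 := by
                  rcases hs s List.mem_cons_self with rfl | rfl | rfl <;> norm_num
                show 0 ≤ s.1 + l.sum.1 + (s.2 + l.sum.2)
                omega
            have h6 := h5 l (fun s hs' => h1 s (List.mem_cons_of_mem _ hs'))
            rw [List.sum_cons] at h3
            have h7 : s.1 + l.sum.1 = 0 := by
              have := congrArg Prod.fst h3
              simpa using this
            have h8 : s.2 + l.sum.2 = 0 := by
              have := congrArg Prod.snd h3
              simpa using this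
            have h9 : 0 < s.1 + s.2 := by
              rcases h1 s List.mem_cons_self with rfl | rfl | rfl <;> norm_num
            omega
        · rintro rfl
          refine ⟨⟨by simp, ?_⟩, rfl⟩
          intro l' hl'
          rw [List.prefix_nil.1 hl']
          exact le_rfl
      rw [hset]
      refine ⟨Set.finite_singleton _, ?_⟩
      rw [Set.ncard_singleton, sub_self, fb_zero_zero]
      rfl
    · set A : ℤ → ℤ → Set (List (ℤ × ℤ)) := fun x y => {l | IsPath l ∧ l.sum = (x, y)} with hA
      have hfin : ∀ x' y' : ℤ, x' + y' < x + y → (A x' y').Finite ∧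
          (((A x' y').ncard : ℕ) : ℤ) = if 0 ≤ y' ∧ y' ≤ x' then fb 1 1 y' (x' - y') else 0 := by
        intro x' y' hlt
        by_cases h : 0 ≤ y' ∧ y' ≤ x'
        · rw [if_pos h]
          exact ih (x' + y').toNat (by omega) x' y' (by omega) h.1 h.2
        · rw [if_neg h]
          have : A x' y' = ∅ := hempty x' y' h
          rw [this]
          exact ⟨Set.finite_empty, by simp⟩
      have hset : A x y = ((fun l => l ++ [((1 : ℤ), (0 : ℤ))]) '' (A (x - 1) y)) ∪
          (((fun l => l ++ [((0 : ℤ), (1 : ℤ))]) '' (A x (y - 1))) ∪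
          ((fun l => l ++ [((1 : ℤ), (1 : ℤ))]) '' (A (x - 1) (y - 1)))) := by
        have hpre : ∀ (l : List (ℤ × ℤ)) (s : ℤ × ℤ), IsPath (l ++ [s]) ↔
            IsPath l ∧ IsStep s ∧ (l.sum + s).2 ≤ (l.sum + s).1 := by
          intro l s
          constructor
          · rintro ⟨h1, h2⟩
            refine ⟨⟨fun s hs => h1 s (List.mem_append_left _ hs),
              fun l' hl' => h2 l' (hl'.trans (List.prefix_append l [s]))⟩,
              h1 s (List.mem_append_right _ (List.mem_singleton_self s)), ?_⟩
            have := h2 (l ++ [s]) (List.prefix_refl _)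
            rw [List.sum_append, List.sum_singleton] at this
            exact this
          · rintro ⟨⟨h1, h2⟩, h3, h4⟩
            refine ⟨?_, ?_⟩
            · intro s' hs'
              rcases List.mem_append.1 hs' with h | h
              · exact h1 s' h
              · rw [List.mem_singleton.1 h]
                exact h3
            · intro l' hl'
              rcases List.prefix_concat_iff.1 hl' with h | h
              · rw [h, List.sum_append, List.sum_singleton]
                exact h4
              · exact h2 l' h
        ext l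
        constructor
        · rintro ⟨h1, h2⟩
          rcases List.eq_nil_or_concat l with rfl | ⟨l', s, rfl⟩
          · exfalso
            rw [List.sum_nil] at h2
            have e1 : (0 : ℤ) = x := congrArg Prod.fst h2
            have e2 : (0 : ℤ) = y := congrArg Prod.snd h2
            exact h0 ⟨e1.symm, e2.symm⟩
          · rw [List.concat_eq_append] at h1 h2 ⊢
            rw [hpre] at h1
            rw [List.sum_append, List.sum_singleton] at h2
            have e1 : l'.sum.1 + s.1 = x := congrArg Prod.fst h2
            have e2 : l'.sum.2 + s.2 = y := congrArg Prod.snd h2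
            rcases h1.2.1 with rfl | rfl | rfl
            · left
              refine ⟨l', ⟨h1.1, ?_⟩, rfl⟩
              ext
              · simp only at e1 ⊢; omega
              · simp only at e2 ⊢; omega
            · right; left
              refine ⟨l', ⟨h1.1, ?_⟩, rfl⟩
              ext
              · simp only at e1 ⊢; omega
              · simp only at e2 ⊢; omega
            · right; right
              refine ⟨l', ⟨h1.1, ?_⟩, rfl⟩
              ext
              · simp only at e1 ⊢; omega
              · simp only at e2 ⊢; omega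
        · rintro (⟨l', ⟨h1, h2⟩, rfl⟩ | ⟨l', ⟨h1, h2⟩, rfl⟩ | ⟨l', ⟨h1, h2⟩, rfl⟩)
          · refine ⟨(hpre _ _).2 ⟨h1, Or.inl rfl, ?_⟩, ?_⟩
            · rw [h2]
              simp only [Prod.mk_add_mk]
              omega
            · rw [List.sum_append, List.sum_singleton, h2]
              simp
          · refine ⟨(hpre _ _).2 ⟨h1, Or.inr (Or.inl rfl), ?_⟩, ?_⟩
            · rw [h2]
              simp only [Prod.mk_add_mk]
              omega
            · rw [List.sum_append, List.sum_singleton, h2]
              simp
          · refine ⟨(hpre _ _).2 ⟨h1, Or.inr (Or.inr rfl), ?_⟩, ?_⟩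
            · rw [h2]
              simp only [Prod.mk_add_mk]
              omega
            · rw [List.sum_append, List.sum_singleton, h2]
              simp
      have hinj : ∀ s : ℤ × ℤ, Function.Injective (fun l : List (ℤ × ℤ) => l ++ [s]) := by
        intro s l l' h
        exact List.append_cancel_right h
      have hdis : ∀ s s' : ℤ × ℤ, s ≠ s' → ∀ B B' : Set (List (ℤ × ℤ)),
          Disjoint ((fun l : List (ℤ × ℤ) => l ++ [s]) '' B)
            ((fun l : List (ℤ × ℤ) => l ++ [s']) '' B') := by
        intro s s' hne B B'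
        rw [Set.disjoint_left]
        rintro l ⟨l1, _, rfl⟩ ⟨l2, _, h⟩
        have := (List.append_inj' h rfl).2
        rw [List.cons.injEq] at this
        exact hne this.1.symm
      obtain ⟨f1, c1⟩ := hfin (x - 1) y (by omega)
      obtain ⟨f2, c2⟩ := hfin x (y - 1) (by omega)
      obtain ⟨f3, c3⟩ := hfin (x - 1) (y - 1) (by omega)
      have g1 := f1.image (fun l => l ++ [((1 : ℤ), (0 : ℤ))])
      have g2 := f2.image (fun l => l ++ [((0 : ℤ), (1 : ℤ))])
      have g3 := f3.image (fun l => l ++ [((1 : ℤ), (1 : ℤ))])
      show (A x y).Finite ∧ (((A x y).ncard : ℕ) : ℤ) = fb 1 1 y (x - y)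
      rw [hset]
      refine ⟨g1.union (g2.union g3), ?_⟩
      rw [Set.ncard_union_eq _ g1 (g2.union g3), Set.ncard_union_eq _ g2 g3,
        Set.ncard_image_of_injective _ (hinj _), Set.ncard_image_of_injective _ (hinj _),
        Set.ncard_image_of_injective _ (hinj _)]
      · push_cast
        rw [c1, c2, c3, fb_rec 1 1 y (x - y) hy (by omega) (by omega)]
        have k1 : (if 0 ≤ y ∧ y ≤ x - 1 then fb (1 : ℤ) 1 y (x - 1 - y) else 0) =
            fb 1 1 y (x - y - 1) := by
          split_ifs with h
          · congr 1; ring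
          · have : x - y - 1 = -1 := by omega
            rw [this, fb_neg_one]
        have k2 : (if 0 ≤ y - 1 ∧ y - 1 ≤ x then fb (1 : ℤ) 1 (y - 1) (x - (y - 1)) else 0) =
            fb 1 1 (y - 1) (x - y + 1) := by
          split_ifs with h
          · congr 1; ring
          · rw [fb_neg _ _ _ _ (by omega)]
        have k3 : (if 0 ≤ y - 1 ∧ y - 1 ≤ x - 1 then fb (1 : ℤ) 1 (y - 1) (x - 1 - (y - 1))
            else 0) = fb 1 1 (y - 1) (x - y) := by
          split_ifs with h
          · congr 1; ring
          · rw [fb_neg _ _ _ _ (by omega)]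
        rw [k1, k2, k3]
        ring
      · exact hdis _ _ (by decide) _ _
      · rw [Set.disjoint_union_right]
        exact ⟨hdis _ _ (by decide) _ _, hdis _ _ (by decide) _ _⟩

theorem schroeder_eq (n : ℕ) : ((schroeder n : ℕ) : ℤ) = fb 1 1 (n : ℤ) 0 := by
  have := (paths_count (n + n) n n (by push_cast; ring) (by omega) le_rfl).2
  rw [sub_self] at this
  exact this

end Pool.Agent.Q162.Bz
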