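import Pool.Agent.Q162.Benzel.Schr

/-!
Type 112 counts of the two families of benzels.
-/

namespace Pool.Agent.Q162.Bz

open Finset Pool.Agent.Q162.Benzel

section
variable {K : Type*} [CommRing K]

theorem S3_rot (m : ℤ) (Φ : ℤ → ℤ → ℤ → K) : S3 m Φ = S3 m (fun a b g => Φ b g a) := by
  unfold S3
  refine Finset.sum_bij (fun q _ => (q.2, m - q.1 - q.2)) ?_ ?_ ?_ ?_
  · intro q hq
    rw [mem_Dl] at hq ⊢
    unfold InD at hq ⊢
    simp only
    omega
  · intro q _ q' _ e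
    rw [Prod.mk.injEq] at e
    ext
    · omega
    · exact e.1
  · intro q hq
    rw [mem_Dl] at hq
    unfold InD at hq
    refine ⟨(m - q.1 - q.2, q.1), ?_, ?_⟩
    · rw [mem_Dl]
      unfold InD
      simp only
      omega
    · ext
      · rfl
      · show m - (m - q.1 - q.2) - q.1 = q.2
        ring
  · intro q _
    simp only
    congr 1
    ring

theorem S3_rot2 (m : ℤ) (Φ : ℤ → ℤ → ℤ → K) : S3 m Φ = S3 m (fun a b g => Φ g a b) := by
  rw [S3_rot m Φ, S3_rot m (fun a b g => Φ b g a)]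

theorem S3_neg (m : ℤ) (hm : m < 0) (Φ : ℤ → ℤ → ℤ → K) : S3 m Φ = 0 := by
  unfold S3
  have : Dl m = ∅ := by
    rw [Finset.eq_empty_iff_forall_notMem]
    intro q hq
    rw [mem_Dl] at hq
    unfold InD at hq
    omega
  rw [this, Finset.sum_empty]

theorem S3_congr (m : ℤ) (Φ Ψ : ℤ → ℤ → ℤ → K)
    (h : ∀ a b g, 0 ≤ a → 0 ≤ b → 0 ≤ g → a + b + g = m → Φ a b g = Ψ a b g) :
    S3 m Φ = S3 m Ψ := by
  unfold S3
  refine Finset.sum_congr rfl ?_
  intro q hq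
  rw [mem_Dl] at hq
  unfold InD at hq
  exact h _ _ _ (by omega) (by omega) (by omega) (by omega)

theorem S3_zero (m : ℕ) (Φ : ℤ → ℤ → ℤ → K) (h : ∀ a b g, a ≠ 0 → 0 ≤ a → 0 ≤ b → 0 ≤ g →
    Φ a b g = 0) : S3 (m : ℤ) Φ = ∑ i ∈ range (m + 1), Φ 0 ((m : ℤ) - i) i := by
  unfold S3
  symm
  refine Finset.sum_bij_ne_zero (fun i _ _ => ((0 : ℤ), (i : ℤ))) ?_ ?_ ?_ ?_
  · intro i hi _
    rw [mem_range] at hi
    rw [mem_Dl]
    unfold InD
    simp only
    omega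
  · intro i _ _ j _ _ e
    rw [Prod.mk.injEq] at e
    exact_mod_cast e.2
  · intro q hq hne
    rw [mem_Dl] at hq
    unfold InD at hq
    have hq1 : q.1 = 0 := by
      by_contra h1
      exact hne (h _ _ _ h1 hq.1 (by omega) hq.2.1)
    refine ⟨q.2.toNat, ?_, ?_, ?_⟩
    · rw [mem_range]
      omega
    · rw [Int.toNat_of_nonneg hq.2.1]
      rw [hq1, sub_zero] at hne
      exact hne
    · ext
      · exact hq1.symm
      · simp [Int.toNat_of_nonneg hq.2.1]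
  · intro i _ _
    simp

/-- Telescoping for the larger region. -/
theorem tele3 (M : ℕ) (hM : 1 ≤ M) (Ψ : ℤ → ℤ → K) :
    ∑ i ∈ range (M + 1), Ψ ((M : ℤ) - i) i - ∑ i ∈ range M, Ψ ((M : ℤ) - 1 - i) ((i : ℤ) + 1) =
      Ψ M 0 := by
  rw [Finset.sum_range_succ']
  have : ∀ i ∈ range M, Ψ ((M : ℤ) - ((i + 1 : ℕ) : ℤ)) ((i + 1 : ℕ) : ℤ) =
      Ψ ((M : ℤ) - 1 - i) ((i : ℤ) + 1) := by
    intro i _
    push_cast
    congr 1
    ring
  rw [Finset.sum_congr rfl this]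
  simp

end

/-- Weight of the three bone directions when direction `i` is excluded. -/
def bw (i j : Fin 3) : ℤ := if j = i then 0 else 1

open Classical in
theorem wt112 (i : Fin 3) : Wt (fun T => if Proto112 i T then (1 : ℤ) else 0) 1 1 (bw i) := by
  refine ⟨?_, ?_, ?_⟩
  · intro T hT
    exact if_pos (Or.inl hT)
  · intro T hT
    exact if_pos (Or.inr (Or.inl hT))
  · intro j T hT
    unfold bw
    by_cases h : j = i
    · rw [if_pos h, if_neg]
      rintro (h' | h' | ⟨j', hj', h'⟩)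
      · exact not_right_bone j h' hT
      · exact not_left_bone j h' hT
      · apply bone_ncst (i := j') (j := j) _ h' hT
        rw [h]
        exact hj'
    · rw [if_neg h]
      exact if_pos (Or.inr (Or.inr ⟨j, h, hT⟩))

theorem proto112_le (i : Fin 3) (T : Finset Cell) (h : Proto112 i T) : Proto113 T := by
  rcases h with h | h | ⟨j, _, h⟩
  · exact Or.inl h
  · exact Or.inr (Or.inl h)
  · exact Or.inr (Or.inr ⟨j, h⟩)

theorem T112_card (i : Fin 3) (M κ : ℤ) (hκ : κ = 0 ∨ κ = 1) (hM : 1 ≤ M) :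
    ((T112 i (M + 2) (2 * M + 1 - κ) : ℕ) : ℤ) =
      Z Proto113 (fun T => by classical exact if Proto112 i T then (1 : ℤ) else 0)
        ((Reg M κ).map (phE M)) := by
  unfold T112
  rw [tilings_eq _ M κ hκ hM, Set.ncard_coe_finset]
  exact card_sub Proto113 (Proto112 i) (proto112_le i) _

/-- Type 112 counts of the larger region. -/
theorem T112_larger (i : Fin 3) (M : ℕ) (hM : 1 ≤ M) :
    ((T112 i ((M : ℤ) + 2) (2 * (M : ℤ) + 1) : ℕ) : ℤ) = fb (1 : ℤ) 1 (M : ℤ) 0 := by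
  have h0 := T112_card i (M : ℤ) 0 (Or.inl rfl) (by omega)
  rw [sub_zero] at h0
  rw [h0, bz3 (M : ℤ) (by omega) _ 1 1 1 (bw i) (by norm_num) (wt112 i)
    (fun t a c => fb (bw i (t + 1)) 1 a c) (by intro t a c; simp)]
  have hc1 : (M : ℤ) - 1 = ((M - 1 : ℕ) : ℤ) := by omega
  have hr1 : M - 1 + 1 = M := by omega
  have hz : ∀ a b : ℤ, a ≠ 0 → 0 ≤ a → 0 ≤ b → fb (0 : ℤ) 1 b a = 0 := by
    intro a b h1 h2 h3
    obtain ⟨n, rfl⟩ := Int.eq_ofNat_of_zero_le h3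
    rw [fb_u_zero n a h2, if_neg h1]
  have ho : ∀ b : ℤ, 0 ≤ b → fb (0 : ℤ) 1 b 0 = 1 := by
    intro b h3
    obtain ⟨n, rfl⟩ := Int.eq_ofNat_of_zero_le h3
    rw [fb_u_zero n 0 le_rfl, if_pos rfl]
  have key : S3 (M : ℤ) (fun a b g => fb (1 : ℤ) 1 a b * fb (1 : ℤ) 1 b g * fb (0 : ℤ) 1 g a) -
      S3 ((M : ℤ) - 1) (fun a b g => fb (1 : ℤ) 1 a b * fb (1 : ℤ) 1 b (g + 1) *
        fb (0 : ℤ) 1 g a) = fb (1 : ℤ) 1 (M : ℤ) 0 := by
    rw [← tele3 M hM (fun b g => fb (1 : ℤ) 1 b g)]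
    congr 1
    · rw [S3_zero]
      · refine Finset.sum_congr rfl ?_
        intro j hj
        rw [mem_range] at hj
        rw [fb_one_zero _ _ (by omega), ho _ (by omega)]
        ring
      · intro a b g h1 h2 h3 h4
        rw [hz a g h1 h2 h4, mul_zero]
    · rw [hc1, S3_zero, hr1]
      · refine Finset.sum_congr rfl ?_
        intro j hj
        rw [mem_range] at hj
        rw [fb_one_zero _ _ (by omega), ho _ (by omega)]
        ring
      · intro a b g h1 h2 h3 h4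
        rw [hz a g h1 h2 h4, mul_zero]
  fin_cases i
  · simp [bw]
    exact key
  · simp [bw]
    rw [← key, S3_rot2 (M : ℤ) (fun a b g => fb (0 : ℤ) 1 a b * fb 1 1 b g * fb 1 1 g a),
      S3_rot2 ((M : ℤ) - 1) (fun a b g => fb (0 : ℤ) 1 a b * fb 1 1 b g * fb 1 1 g (a + 1))]
    congr 1
    · apply S3_congr
      intros
      ring
    · apply S3_congr
      intros
      ring
  · simp [bw]
    rw [← key, S3_rot (M : ℤ) (fun a b g => fb (1 : ℤ) 1 a b * fb 0 1 b g * fb 1 1 g a),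
      S3_rot ((M : ℤ) - 1) (fun a b g => fb (1 : ℤ) 1 a (b + 1) * fb 0 1 b g * fb 1 1 g a)]
    congr 1
    · apply S3_congr
      intros
      ring
    · apply S3_congr
      intros
      ring

/-- Antidiagonal sums of the ballot-type numbers. -/
noncomputable def Ud (m : ℕ) : ℤ := ∑ i ∈ range (m + 1), fb (1 : ℤ) 1 (i : ℤ) ((m : ℤ) - i)

theorem Ud_double (m : ℕ) : fb (1 : ℤ) 1 ((m : ℤ) + 1) 0 = 2 * Ud m := by
  -- sum the recursion over the antidiagonal `m + 1`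
  have h1 : Ud (m + 1) = Ud (m + 1) - fb (1 : ℤ) 1 ((m : ℤ) + 1) 0 + Ud m + Ud m := by
    have e : ∀ i ∈ range (m + 1 + 1), fb (1 : ℤ) 1 (i : ℤ) (((m + 1 : ℕ) : ℤ) - i) =
        fb (1 : ℤ) 1 ((i : ℤ) - 1) (((m + 1 : ℕ) : ℤ) - i + 1) +
        fb (1 : ℤ) 1 (i : ℤ) (((m + 1 : ℕ) : ℤ) - i - 1) +
        fb (1 : ℤ) 1 ((i : ℤ) - 1) (((m + 1 : ℕ) : ℤ) - i) := by
      intro i hi
      rw [mem_range] at hi
      rw [fb_rec 1 1 (i : ℤ) (((m + 1 : ℕ) : ℤ) - i) (by omega) (by omega) (by omega)]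
      ring
    have s0 : Ud (m + 1) = ∑ i ∈ range (m + 1 + 1), fb (1 : ℤ) 1 (i : ℤ) (((m + 1 : ℕ) : ℤ) - i) :=
      rfl
    have s0' : Ud (m + 1) = ∑ i ∈ range (m + 1), fb (1 : ℤ) 1 (i : ℤ) (((m + 1 : ℕ) : ℤ) - i) +
        fb (1 : ℤ) 1 ((m : ℤ) + 1) 0 := by
      rw [s0, Finset.sum_range_succ]
      push_cast
      rw [sub_self]
    have s1 : ∑ i ∈ range (m + 1 + 1), fb (1 : ℤ) 1 ((i : ℤ) - 1) (((m + 1 : ℕ) : ℤ) - i + 1) =
        Ud (m + 1) - fb (1 : ℤ) 1 ((m : ℤ) + 1) 0 := by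
      rw [Finset.sum_range_succ', s0', add_sub_cancel_right,
        fb_neg _ _ (((0 : ℕ) : ℤ) - 1) _ (by norm_num), add_zero]
      refine Finset.sum_congr rfl ?_
      intro i _
      push_cast
      congr 1 <;> ring
    have s2 : ∑ i ∈ range (m + 1 + 1), fb (1 : ℤ) 1 (i : ℤ) (((m + 1 : ℕ) : ℤ) - i - 1) =
        Ud m := by
      rw [Finset.sum_range_succ]
      push_cast
      rw [show (m : ℤ) + 1 - (m + 1) - 1 = -1 by ring, fb_neg_one, add_zero]
      refine Finset.sum_congr rfl ?_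
      intro i _
      congr 1
      ring
    have s3 : ∑ i ∈ range (m + 1 + 1), fb (1 : ℤ) 1 ((i : ℤ) - 1) (((m + 1 : ℕ) : ℤ) - i) =
        Ud m := by
      rw [Finset.sum_range_succ', fb_neg _ _ (((0 : ℕ) : ℤ) - 1) _ (by norm_num), add_zero]
      refine Finset.sum_congr rfl ?_
      intro i _
      push_cast
      congr 1 <;> ring
    calc Ud (m + 1) = _ := s0
      _ = _ := Finset.sum_congr rfl e
      _ = _ := by rw [Finset.sum_add_distrib, Finset.sum_add_distrib, s1, s2, s3]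
  linarith

/-- Type 112 counts of the smaller region. -/
theorem T112_smaller (i : Fin 3) (M : ℕ) (hM : 1 ≤ M) :
    ((T112 i ((M : ℤ) + 2) (2 * (M : ℤ)) : ℕ) : ℤ) =
      fb (1 : ℤ) 1 (M : ℤ) 0 - fb (1 : ℤ) 1 ((M : ℤ) - 1) 0 := by
  have h0 := T112_card i (M : ℤ) 1 (Or.inr rfl) (by omega)
  rw [show (2 : ℤ) * M + 1 - 1 = 2 * M by ring] at h0
  rw [h0, bz4 (M : ℤ) (by omega) _ 1 1 1 (bw i) (by norm_num) (wt112 i)
    (fun t a c => fb (bw i (t + 1)) 1 a c) (by intro t a c; simp)]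
  have hz : ∀ a b : ℤ, a ≠ 0 → 0 ≤ a → 0 ≤ b → fb (0 : ℤ) 1 b a = 0 := by
    intro a b h1 h2 h3
    obtain ⟨n, rfl⟩ := Int.eq_ofNat_of_zero_le h3
    rw [fb_u_zero n a h2, if_neg h1]
  have ho : ∀ b : ℤ, 0 ≤ b → fb (0 : ℤ) 1 b 0 = 1 := by
    intro b h3
    obtain ⟨n, rfl⟩ := Int.eq_ofNat_of_zero_le h3
    rw [fb_u_zero n 0 le_rfl, if_pos rfl]
  obtain ⟨m, rfl⟩ : ∃ m, M = m + 1 := ⟨M - 1, by omega⟩
  have hc1 : ((m + 1 : ℕ) : ℤ) - 1 = (m : ℤ) := by push_cast; ring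
  have hc2 : ((m + 1 : ℕ) : ℤ) - 2 = (m : ℤ) - 1 := by push_cast; ring
  rw [hc1, hc2]
  -- the two surviving sums
  have k1 : S3 (m : ℤ) (fun a b g => fb (1 : ℤ) 1 g b * fb (1 : ℤ) 1 a g * fb (0 : ℤ) 1 b a) =
      Ud m := by
    rw [S3_zero]
    · refine Finset.sum_congr rfl ?_
      intro j hj
      rw [mem_range] at hj
      rw [fb_one_zero _ _ (by omega), ho _ (by omega)]
      ring
    · intro a b g h1 h2 h3 h4
      rw [hz a b h1 h2 h3, mul_zero]
  have k2 : S3 ((m : ℤ) - 1) (fun a b g => fb (1 : ℤ) 1 g (b + 1) * fb (1 : ℤ) 1 a (g + 1) *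
      fb (0 : ℤ) 1 b a) = Ud m - fb (1 : ℤ) 1 (m : ℤ) 0 := by
    rcases m with _ | m
    · rw [S3_neg _ (by simp)]
      unfold Ud
      simp
    · rw [show ((m + 1 : ℕ) : ℤ) - 1 = (m : ℤ) by push_cast; ring, S3_zero]
      · unfold Ud
        rw [Finset.sum_range_succ _ (m + 1), sub_self, add_sub_cancel_right]
        refine Finset.sum_congr rfl ?_
        intro j hj
        rw [mem_range] at hj
        rw [fb_one_zero _ _ (by omega), ho _ (by omega)]
        push_cast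
        rw [show (m : ℤ) + 1 - j = m - j + 1 by ring]
        ring
      · intro a b g h1 h2 h3 h4
        rw [hz a b h1 h2 h3, mul_zero]
  have k3 : ∀ Φ : ℤ → ℤ → ℤ → ℤ, (∀ a b g, 0 ≤ a → 0 ≤ b → 0 ≤ g → Φ a b g = 0) →
      S3 ((m : ℤ) - 1) Φ = 0 := by
    intro Φ h
    rw [S3_congr ((m : ℤ) - 1) Φ (fun _ _ _ => 0) (fun a b g ha hb hg _ => h a b g ha hb hg)]
    unfold S3
    simp
  have hfin : fb (1 : ℤ) 1 (((m + 1 : ℕ) : ℤ)) 0 = 2 * Ud m := by
    push_cast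
    exact Ud_double m
  rw [hfin]
  fin_cases i
  · simp [bw]
    rw [k1, k2, k3, k3]
    · ring
    · intro a b g ha hb hg
      rw [hz (a + 1) b (by omega) (by omega) hb, mul_zero]
    · intro a b g ha hb hg
      rw [hz (a + 1) b (by omega) (by omega) hb, mul_zero]
  · simp [bw]
    have k1' : S3 (m : ℤ) (fun a b g => fb (0 : ℤ) 1 g b * fb (1 : ℤ) 1 a g * fb (1 : ℤ) 1 b a) =
        Ud m := by
      rw [← k1, S3_rot2 (m : ℤ) (fun a b g => fb (0 : ℤ) 1 g b * fb (1 : ℤ) 1 a g *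
        fb (1 : ℤ) 1 b a)]
      apply S3_congr
      intros
      ring
    have k2' : S3 ((m : ℤ) - 1) (fun a b g => fb (0 : ℤ) 1 g b * fb (1 : ℤ) 1 a (g + 1) *
        fb (1 : ℤ) 1 b (a + 1)) = Ud m - fb (1 : ℤ) 1 (m : ℤ) 0 := by
      rw [← k2, S3_rot2 ((m : ℤ) - 1) (fun a b g => fb (0 : ℤ) 1 g b * fb (1 : ℤ) 1 a (g + 1) *
        fb (1 : ℤ) 1 b (a + 1))]
      apply S3_congr
      intros
      ring
    rw [k1', k2', k3, k3]
    · ring
    · intro a b g ha hb hg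
      rw [hz (b + 1) g (by omega) (by omega) hg]
      ring
    · intro a b g ha hb hg
      rw [hz (b + 1) g (by omega) (by omega) hg]
      ring
  · simp [bw]
    have k1' : S3 (m : ℤ) (fun a b g => fb (1 : ℤ) 1 g b * fb (0 : ℤ) 1 a g * fb (1 : ℤ) 1 b a) =
        Ud m := by
      rw [← k1, S3_rot (m : ℤ) (fun a b g => fb (1 : ℤ) 1 g b * fb (0 : ℤ) 1 a g *
        fb (1 : ℤ) 1 b a)]
      apply S3_congr
      intros
      ring
    have k2' : S3 ((m : ℤ) - 1) (fun a b g => fb (1 : ℤ) 1 g (b + 1) * fb (0 : ℤ) 1 a g *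
        fb (1 : ℤ) 1 b (a + 1)) = Ud m - fb (1 : ℤ) 1 (m : ℤ) 0 := by
      rw [← k2, S3_rot ((m : ℤ) - 1) (fun a b g => fb (1 : ℤ) 1 g (b + 1) * fb (0 : ℤ) 1 a g *
        fb (1 : ℤ) 1 b (a + 1))]
      apply S3_congr
      intros
      ring
    rw [k1', k2', k3, k3]
    · ring
    · intro a b g ha hb hg
      rw [hz (g + 1) a (by omega) (by omega) ha]
      ring
    · intro a b g ha hb hg
      rw [hz (g + 1) a (by omega) (by omega) ha]
      ring

/-- Type 112 counts of the larger benzels are the large Schröder numbers. -/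
theorem T112_larger' (i : Fin 3) (n : ℕ) (hn : 1 ≤ n) :
    T112 i ((n : ℤ) + 2) (2 * (n : ℤ) + 1) = schroeder n := by
  have h1 := T112_larger i n hn
  rw [← schroeder_eq n] at h1
  exact_mod_cast h1

/-- Type 112 counts of the smaller benzels are differences of large Schröder numbers. -/
theorem T112_smaller' (i : Fin 3) (n : ℕ) (hn : 1 ≤ n) :
    ((T112 i ((n : ℤ) + 2) (2 * (n : ℤ)) : ℕ) : ℤ) = (schroeder n : ℤ) - schroeder (n - 1) := by
  rw [T112_smaller i n hn, schroeder_eq, schroeder_eq]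
  congr 2
  omega

end Pool.Agent.Q162.Bz
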