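import Pool.Agent.Q162.Benzel.Four2

/-!
The weighted count for the larger region.
-/

namespace Pool.Agent.Q162.Bz

open Finset

section
variable {K : Type*} [CommRing K]

/-- Targets of the arms. -/
def tg (M : ℤ) (t : Fin 3) : ℤ × ℤ :=
  match t with
  | 0 => (0, M)
  | 1 => (M, 0)
  | 2 => (0, 0)

theorem tg_co (M : ℤ) (t : Fin 3) : Ac M t (tg M t) = 0 ∧ Bc M t (tg M t) = 0 ∧
    Gc M t (tg M t) = M := by
  fin_cases t <;> simp [Ac, Bc, Gc, tg]

theorem tg_inD (M : ℤ) (hM : 1 ≤ M) (t : Fin 3) : InD M (tg M t) := by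
  rw [inD_iff M t]
  have := tg_co M t
  omega

theorem tg_inj (M : ℤ) (hM : 1 ≤ M) {t t' : Fin 3} (h : tg M t = tg M t') : t = t' := by
  fin_cases t <;> fin_cases t' <;> simp [tg] at h <;> first | rfl | omega

theorem ms_zero (M : ℤ) (t : Fin 3) (q : ℤ × ℤ) : ms M 0 t q ↔ q = tg M t := by
  obtain ⟨a, g⟩ := q
  fin_cases t <;> simp [ms, m1, m2, m3, tg]

theorem mem_Reg0 {M : ℤ} {t : Fin 3} {q : ℤ × ℤ} :
    (t, q) ∈ Reg M 0 ↔ InD M q ∧ q ≠ tg M t := by
  rw [mem_Reg, ms_zero]

/-- Choice of three steps. -/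
def kf (x : Fin 3 × Fin 3 × Fin 3) (t : Fin 3) : Fin 3 :=
  match t with
  | 0 => x.1
  | 1 => x.2.1
  | 2 => x.2.2

/-- First positions of the arms. -/
def Pk (M : ℤ) (s : ℤ × ℤ) (x : Fin 3 × Fin 3 × Fin 3) (t : Fin 3) : ℤ × ℤ :=
  if s = tg M t then s else s + stp t (kf x t)

/-- Compatible choices. -/
def Cmp (x : Fin 3 × Fin 3 × Fin 3) : Prop := ∀ t, ¬ (kf x t = 1 ∧ kf x (t + 1) = 0)

theorem dk (k : Fin 3) (h : dA k = 0) : k = 1 := by
  fin_cases k <;> simp [dA] at h <;> rfl

theorem dk' (k : Fin 3) (h : dG k = 0) : k = 0 := by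
  fin_cases k <;> simp [dG] at h <;> rfl

theorem Pk_facts (M : ℤ) (s : ℤ × ℤ) (x : Fin 3 × Fin 3 × Fin 3) (t : Fin 3) :
    Ac M t (Pk M s x t) ≤ Ac M t s ∧ Gc M t s ≤ Gc M t (Pk M s x t) := by
  unfold Pk
  split_ifs
  · exact ⟨le_rfl, le_rfl⟩
  · have h1 := stp_facts (kf x t)
    have h2 := Ac_stp M t (kf x t) s
    have h3 := Gc_stp M t (kf x t) s
    omega

theorem s_not_inpar (M : ℤ) (s : ℤ × ℤ) (x : Fin 3 × Fin 3 × Fin 3) (t : Fin 3)
    (hs : s ≠ tg M t) : ¬ inpar M t (Pk M s x t) (tg M t) s := by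
  intro h
  unfold Pk at h
  rw [if_neg hs] at h
  have h1 := stp_facts (kf x t)
  have h2 := Ac_stp M t (kf x t) s
  have h3 := Gc_stp M t (kf x t) s
  unfold inpar at h
  omega

theorem inpar_self (M : ℤ) (s : ℤ × ℤ) (x : Fin 3 × Fin 3 × Fin 3) (t : Fin 3)
    (hs : s = tg M t) (q : ℤ × ℤ) (h : inpar M t (Pk M s x t) (tg M t) q) : q = s := by
  unfold Pk at h
  rw [if_pos hs] at h
  unfold inpar at h
  rw [hs] at h ⊢
  exact co_ext M t _ _ (by omega) (by omega)

theorem sep_one (M : ℤ) (hM : 1 ≤ M) (s : ℤ × ℤ) (x : Fin 3 × Fin 3 × Fin 3) (hx : Cmp x)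
    (t : Fin 3) (q : ℤ × ℤ) (h1 : inpar M t (Pk M s x t) (tg M t) q)
    (h2 : inpar M (t + 1) (Pk M s x (t + 1)) (tg M (t + 1)) q) : False := by
  by_cases hs1 : s = tg M t
  · have := inpar_self M s x t hs1 q h1
    subst this
    refine s_not_inpar M q x (t + 1) ?_ h2
    intro h
    have := tg_inj M hM (hs1.symm.trans h)
    fin_cases t <;> simp at this
  · by_cases hs2 : s = tg M (t + 1)
    · have := inpar_self M s x (t + 1) hs2 q h2
      subst this
      exact s_not_inpar M q x t hs1 h1
    · apply hx t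
      unfold Pk at h1 h2
      rw [if_neg hs1] at h1
      rw [if_neg hs2] at h2
      have a1 := stp_facts (kf x t)
      have a2 := Ac_stp M t (kf x t) s
      have a3 := stp_facts (kf x (t + 1))
      have a4 := Gc_stp M (t + 1) (kf x (t + 1)) s
      have a5 := Gc_succ M t s
      have a6 := Gc_succ M t q
      unfold inpar at h1 h2
      exact ⟨dk _ (by omega), dk' _ (by omega)⟩

theorem sep_all (M : ℤ) (hM : 1 ≤ M) (s : ℤ × ℤ) (x : Fin 3 × Fin 3 × Fin 3) (hx : Cmp x)
    (t t' : Fin 3) (q : ℤ × ℤ) (hne : t ≠ t') (h1 : inpar M t (Pk M s x t) (tg M t) q)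
    (h2 : inpar M t' (Pk M s x t') (tg M t') q) : False := by
  rcases succ_or t t' hne with rfl | rfl
  · exact sep_one M hM s x hx t q h1 h2
  · exact sep_one M hM s x hx t' q h2 h1

open Classical in
/-- Value of the larger region with the tiles at a source removed. -/
theorem eval3 (M : ℤ) (hM : 1 ≤ M) (w : Finset (Fin 3 × ℤ × ℤ) → K) (r r' : K) (hr : r * r' = 1)
    (u : Fin 3 → K) (v : K) (hw0 : ∀ q, w (std q) = r)
    (hwk : ∀ t q k, w (lnk t q k) = wst u v t k) (s : ℤ × ℤ) (hs : InD M s)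
    (x : Fin 3 × Fin 3 × Fin 3) (hx : Cmp x) (hPD : ∀ t, InD M (Pk M s x t))
    (R : Finset (Fin 3 × ℤ × ℤ)) (hR : ∀ t q, (t, q) ∈ R ↔ InD M q ∧ q ≠ tg M t ∧ q ≠ s ∧
      ∀ τ, τ ≠ t → q ≠ Pk M s x τ) :
    Z tile2 w R = r ^ ((Dl M).card - 1) * r' ^ (univ.filter (fun t => s ≠ tg M t)).card *
      ∏ t, Nt M (fun t => r' * u t) (r' * v) t (Pk M s x t) (tg M t) := by
  have hco := tg_co M
  have sep := sep_all M hM s x hx
  have live : ∀ t, Ac M t (tg M t) ≤ Ac M t (Pk M s x t) ∧
      Gc M t (Pk M s x t) ≤ Gc M t (tg M t) := by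
    intro t
    have h1 := hco t
    have h2 := (inD_iff M t _).1 (hPD t)
    have h3 := ABG M t (Pk M s x t)
    omega
  have pP : ∀ τ, inpar M τ (Pk M s x τ) (tg M τ) (Pk M s x τ) := fun τ =>
    ⟨(live τ).1, le_rfl, le_rfl, (live τ).2⟩
  have pX : ∀ τ, inpar M τ (Pk M s x τ) (tg M τ) (tg M τ) := fun τ =>
    ⟨le_rfl, (live τ).1, (live τ).2, le_rfl⟩
  have dPP : ∀ τ τ', τ ≠ τ' → Pk M s x τ ≠ Pk M s x τ' := fun τ τ' h e =>
    sep τ τ' (Pk M s x τ) h (pP τ) (e ▸ pP τ')
  have dPX : ∀ τ τ', τ ≠ τ' → Pk M s x τ ≠ tg M τ' := fun τ τ' h e =>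
    sep τ τ' (Pk M s x τ) h (pP τ) (e ▸ pX τ')
  have hPs : ∀ t, s ≠ tg M t → Pk M s x t ≠ s := by
    intro t ht
    unfold Pk
    rw [if_neg ht]
    exact stp_ne t _ s
  have hPs' : ∀ t, s = tg M t → Pk M s x t = s := by
    intro t ht
    unfold Pk
    rw [if_pos ht]
  set F : Finset (ℤ × ℤ) := (Dl M).filter (fun q => (∀ t, q ≠ tg M t) ∧ (∀ t, q ≠ Pk M s x t) ∧
    q ≠ s) with hFdef
  have hmemF : ∀ q, q ∈ F ↔ InD M q ∧ (∀ t, q ≠ tg M t) ∧ (∀ t, q ≠ Pk M s x t) ∧ q ≠ s := by
    intro q
    rw [hFdef, mem_filter, mem_Dl]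
  have key := arms M w r r' hr u v hw0 hwk R.card R F (Pk M s x) (tg M) le_rfl ?_ ?_ hPD
    (tg_inD M hM) ?_ ?_ live ?_ sep
  · rw [key]
    congr 1
    -- counting
    have hsplit : (Dl M).card = F.card + ((Dl M).filter
        (fun q => ¬ ((∀ t, q ≠ tg M t) ∧ (∀ t, q ≠ Pk M s x t) ∧ q ≠ s))).card := by
      rw [hFdef]
      exact (Finset.card_filter_add_card_filter_not _).symm
    have himg : (Dl M).filter (fun q => ¬ ((∀ t, q ≠ tg M t) ∧ (∀ t, q ≠ Pk M s x t) ∧ q ≠ s)) =
        ((univ.image (tg M)) ∪ ((univ.filter (fun t => Pk M s x t ≠ tg M t)).image (Pk M s x)))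
          ∪ {s} := by
      ext q
      rw [mem_filter, mem_union, mem_union, mem_image, mem_image, mem_Dl, mem_singleton]
      constructor
      · rintro ⟨hD, h⟩
        by_cases hqs : q = s
        · exact Or.inr hqs
        · left
          by_cases hc : ∃ t, q = tg M t
          · obtain ⟨t, ht⟩ := hc
            exact Or.inl ⟨t, mem_univ _, ht.symm⟩
          · right
            push Not at hc
            by_contra hcon
            apply h
            refine ⟨hc, ?_, hqs⟩
            intro t e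
            apply hcon
            refine ⟨t, ?_, e.symm⟩
            rw [mem_filter]
            refine ⟨mem_univ _, ?_⟩
            intro e'
            exact hc t (e.trans e')
      · rintro ((⟨t, _, rfl⟩ | ⟨t, ht, rfl⟩) | rfl)
        · exact ⟨tg_inD M hM t, fun h => h.1 t rfl⟩
        · exact ⟨hPD t, fun h => h.2.1 t rfl⟩
        · exact ⟨hs, fun h => h.2.2 rfl⟩
    have hdisj : Disjoint (univ.image (tg M))
        ((univ.filter (fun t => Pk M s x t ≠ tg M t)).image (Pk M s x)) := by
      rw [Finset.disjoint_left]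
      intro q h1 h2
      rw [mem_image] at h1 h2
      obtain ⟨t, _, rfl⟩ := h1
      obtain ⟨t', ht', h⟩ := h2
      rw [mem_filter] at ht'
      by_cases htt : t' = t
      · subst htt
        exact ht'.2 h
      · exact dPX t' t htt h
    have hc1 : ((univ.image (tg M)) ∪
        ((univ.filter (fun t => Pk M s x t ≠ tg M t)).image (Pk M s x))).card =
        3 + (univ.filter (fun t => Pk M s x t ≠ tg M t)).card := by
      rw [Finset.card_union_of_disjoint hdisj,
        Finset.card_image_of_injective _ (fun t t' h => tg_inj M hM h),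
        Finset.card_image_of_injOn]
      · simp only [card_univ, Fintype.card_fin]
      · intro t _ t' _ h
        by_contra hne
        exact dPP t t' hne h
    rw [himg] at hsplit
    have hpow : ∀ a b : ℕ, r ^ (a + b) * r' ^ b = r ^ a := by
      intro a b
      rw [pow_add, mul_assoc, ← mul_pow, hr, one_pow, mul_one]
    by_cases hst : ∃ t0, s = tg M t0
    · obtain ⟨t0, ht0⟩ := hst
      have hin : s ∈ (univ.image (tg M)) ∪
          ((univ.filter (fun t => Pk M s x t ≠ tg M t)).image (Pk M s x)) := by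
        rw [mem_union, mem_image]
        exact Or.inl ⟨t0, mem_univ _, ht0.symm⟩
      have hun : ((univ.image (tg M)) ∪ ((univ.filter (fun t => Pk M s x t ≠ tg M t)).image
          (Pk M s x))) ∪ {s} = ((univ.image (tg M)) ∪ ((univ.filter
            (fun t => Pk M s x t ≠ tg M t)).image (Pk M s x))) := by
        apply Finset.union_eq_left.2
        intro y hy
        rw [mem_singleton] at hy
        rw [hy]
        exact hin
      rw [hun, hc1] at hsplit
      have hpr : (univ.filter (fun t => s ≠ tg M t)).card = 2 := by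
        have : univ.filter (fun t => s ≠ tg M t) = univ.erase t0 := by
          ext t
          rw [mem_filter, mem_erase]
          constructor
          · rintro ⟨_, h⟩
            refine ⟨?_, mem_univ _⟩
            rintro rfl
            exact h ht0
          · rintro ⟨h, _⟩
            refine ⟨mem_univ _, ?_⟩
            intro e
            exact h (tg_inj M hM (e.symm.trans ht0))
        rw [this, Finset.card_erase_of_mem (mem_univ _)]
        simp
      rw [hpr]
      have e : (Dl M).card - 1 = (F.card + (univ.filter (fun t => Pk M s x t ≠ tg M t)).card) + 2 := by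
        omega
      rw [e, hpow]
    · push Not at hst
      have hin : Disjoint ((univ.image (tg M)) ∪
          ((univ.filter (fun t => Pk M s x t ≠ tg M t)).image (Pk M s x))) {s} := by
        rw [Finset.disjoint_singleton_right, mem_union, mem_image, mem_image]
        rintro (⟨t, _, h⟩ | ⟨t, _, h⟩)
        · exact hst t h.symm
        · exact hPs t (hst t) h
      rw [Finset.card_union_of_disjoint hin, hc1, card_singleton] at hsplit
      have hpr : (univ.filter (fun t => s ≠ tg M t)).card = 3 := by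
        rw [Finset.filter_true_of_mem (fun t _ => hst t)]
        simp
      rw [hpr]
      have e : (Dl M).card - 1 = (F.card + (univ.filter (fun t => Pk M s x t ≠ tg M t)).card) + 3 := by
        omega
      rw [e, hpow]
  · intro t q
    rw [hR, hmemF]
    constructor
    · rintro ⟨hD, h1, h2, h3⟩
      by_cases h4 : q = Pk M s x t
      · right; left
        refine ⟨?_, h4⟩
        intro e
        exact h1 (h4.trans e)
      · have hall : ∀ τ, q ≠ Pk M s x τ := by
          intro τ
          by_cases hτ : τ = t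
          · subst hτ
            exact h4
          · exact h3 τ hτ
        by_cases h5 : ∃ τ, q = tg M τ
        · obtain ⟨τ, hτ⟩ := h5
          right; right
          refine ⟨τ, ?_, ?_, hτ⟩
          · rintro rfl
            exact h1 hτ
          · intro e
            exact hall τ (hτ.trans e.symm)
        · left
          push Not at h5
          exact ⟨hD, h5, hall, h2⟩
    · rintro (⟨hD, h1, h2, h3⟩ | ⟨h1, rfl⟩ | ⟨τ, hτ, h1, rfl⟩)
      · exact ⟨hD, h1 t, h3, fun τ _ => h2 τ⟩
      · refine ⟨hPD t, h1, ?_, ?_⟩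
        · intro e
          by_cases hst : s = tg M t
          · exact h1 (e.trans hst)
          · exact hPs t hst e
        · intro τ hτ
          exact (dPP τ t hτ).symm
      · refine ⟨tg_inD M hM τ, ?_, ?_, ?_⟩
        · intro e
          exact hτ (tg_inj M hM e)
        · intro e
          apply h1
          rw [hPs' τ e.symm, e]
        · intro σ hσ e
          by_cases hστ : σ = τ
          · subst hστ
            exact h1 e.symm
          · exact dPX σ τ hστ e.symm
  · intro q hq
    exact ((hmemF q).1 hq).1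
  · intro t h
    exact ((hmemF _).1 h).2.2.1 t rfl
  · intro t h
    exact ((hmemF _).1 h).2.1 t rfl
  · intro t q hD hq h1 h2
    rw [hmemF]
    refine ⟨hD, ?_, ?_, ?_⟩
    · intro τ e
      by_cases hτ : τ = t
      · subst hτ
        exact h2 e
      · exact sep τ t q hτ (e ▸ pX τ) hq
    · intro τ e
      by_cases hτ : τ = t
      · subst hτ
        exact h1 e
      · exact sep τ t q hτ (e ▸ pP τ) hq
    · rintro rfl
      by_cases hst : q = tg M t
      · exact h2 hst
      · exact s_not_inpar M q x t hst hq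

end

end Pool.Agent.Q162.Bz
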