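import Mathlib

/-!
The trace of a weighted composition operator on polynomials of bounded degree.
-/

namespace Pool.Agent.Q162.Bz

open Polynomial Finset

section
variable {R : Type*} [CommRing R]

theorem coeff_lin (D : ℕ) (L : R[X] →ₗ[R] R[X]) (p : R[X]) (hp : p ∈ degreeLT R (D + 1)) (i : ℕ) :
    (L p).coeff i = ∑ j ∈ range (D + 1), p.coeff j * (L (X ^ j)).coeff i := by
  have h1 : p = ∑ j ∈ range (D + 1), p.coeff j • (X : R[X]) ^ j := by
    conv_lhs => rw [p.as_sum_range' (D + 1) (by
      rcases eq_or_ne p 0 with h | h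
      · rw [h]; simp
      · rw [mem_degreeLT] at hp
        exact (natDegree_lt_iff_degree_lt h).2 hp)]
    refine Finset.sum_congr rfl ?_
    intro j _
    rw [← C_mul_X_pow_eq_monomial, smul_eq_C_mul]
  conv_lhs => rw [h1, map_sum, finsetSum_coeff]
  refine Finset.sum_congr rfl ?_
  intro j _
  rw [map_smul, coeff_smul, smul_eq_mul]

theorem trace_restrict (D : ℕ) (L : R[X] →ₗ[R] R[X])
    (hL : ∀ p ∈ degreeLT R (D + 1), L p ∈ degreeLT R (D + 1)) :
    LinearMap.trace R (degreeLT R (D + 1)) (L.restrict hL) =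
      ∑ i ∈ range (D + 1), (L (X ^ i)).coeff i := by
  rw [LinearMap.trace_eq_matrix_trace R (Module.Basis.ofEquivFun (degreeLTEquiv R (D + 1)))]
  rw [Matrix.trace, ← Fin.sum_univ_eq_sum_range (fun i => (L (X ^ i)).coeff i)]
  refine Finset.sum_congr rfl ?_
  intro i _
  rw [Matrix.diag_apply, LinearMap.toMatrix_apply]
  have hb : (((Module.Basis.ofEquivFun (degreeLTEquiv R (D + 1))) i : degreeLT R (D + 1)) : R[X]) =
      X ^ (i : ℕ) := by
    have hX : (X : R[X]) ^ (i : ℕ) ∈ degreeLT R (D + 1) := by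
      rw [mem_degreeLT]
      refine lt_of_le_of_lt (degree_X_pow_le _) ?_
      exact_mod_cast i.2
    have : (Module.Basis.ofEquivFun (degreeLTEquiv R (D + 1))) i = ⟨X ^ (i : ℕ), hX⟩ := by
      rw [Module.Basis.coe_ofEquivFun, LinearEquiv.symm_apply_eq]
      funext j
      rw [show (degreeLTEquiv R (D + 1)) ⟨X ^ (i : ℕ), hX⟩ j = ((X : R[X]) ^ (i : ℕ)).coeff j
        from rfl, coeff_X_pow]
      by_cases hij : i = j
      · subst hij
        simp
      · have : (j : ℕ) ≠ i := fun h => hij (Fin.ext h.symm)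
        rw [if_neg this]
        exact Function.update_of_ne (Ne.symm hij) _ _
    rw [this]
  rw [Module.Basis.ofEquivFun_repr_apply]
  rw [show (degreeLTEquiv R (D + 1)) ((L.restrict hL) ((Module.Basis.ofEquivFun
    (degreeLTEquiv R (D + 1))) i)) i = (L (((Module.Basis.ofEquivFun
    (degreeLTEquiv R (D + 1))) i : degreeLT R (D + 1)) : R[X])).coeff i from rfl, hb]

theorem taylor_mem (D : ℕ) (β : R) (p : R[X]) (hp : p ∈ degreeLT R (D + 1)) :
    p.comp (X + C β) ∈ degreeLT R (D + 1) := by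
  rw [mem_degreeLT] at hp ⊢
  have : p.comp (X + C β) = taylor β p := rfl
  rw [this, degree_taylor]
  exact hp

/-- Substitution as a linear map. -/
noncomputable def sbst (q : R[X]) : R[X] →ₗ[R] R[X] := (aeval q).toLinearMap

theorem sbst_apply (q p : R[X]) : sbst q p = p.comp q := by
  unfold sbst
  rw [AlgHom.toLinearMap_apply, comp_eq_aeval]

/-- The trace of a weighted composition operator with a fixed point. -/
theorem trace_comp (D : ℕ) (L : R[X] →ₗ[R] R[X]) (W Φ : R[X])
    (h : ∀ p, L p = W * p.comp Φ)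
    (hL : ∀ p ∈ degreeLT R (D + 1), L p ∈ degreeLT R (D + 1))
    (β : R) (hβ : Φ.eval β = β) :
    ∑ i ∈ range (D + 1), (L (X ^ i)).coeff i =
      W.eval β * ∑ k ∈ range (D + 1), (Φ.derivative.eval β) ^ k := by
  rw [← trace_restrict D L hL]
  have h1 : ∀ p ∈ degreeLT R (D + 1), sbst (X + C β) p ∈ degreeLT R (D + 1) := by
    intro p hp
    rw [sbst_apply]
    exact taylor_mem D β p hp
  have h2 : ∀ p ∈ degreeLT R (D + 1), (L ∘ₗ sbst (X + C (-β))) p ∈ degreeLT R (D + 1) := by
    intro p hp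
    rw [LinearMap.comp_apply, sbst_apply]
    exact hL _ (taylor_mem D (-β) p hp)
  have h3 : ∀ p ∈ degreeLT R (D + 1),
      (sbst (X + C β) ∘ₗ (L ∘ₗ sbst (X + C (-β)))) p ∈ degreeLT R (D + 1) := by
    intro p hp
    exact h1 _ (h2 p hp)
  have e1 : L.restrict hL = ((L ∘ₗ sbst (X + C (-β))).restrict h2) *
      ((sbst (X + C β)).restrict h1) := by
    ext p
    rw [Module.End.mul_apply, LinearMap.coe_restrict_apply, LinearMap.coe_restrict_apply,
      LinearMap.coe_restrict_apply, LinearMap.comp_apply, sbst_apply, sbst_apply, comp_assoc]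
    congr 2
    simp
  have e2 : (sbst (X + C β) ∘ₗ (L ∘ₗ sbst (X + C (-β)))).restrict h3 =
      ((sbst (X + C β)).restrict h1) * ((L ∘ₗ sbst (X + C (-β))).restrict h2) := by
    ext p
    rfl
  rw [e1, LinearMap.trace_mul_comm, ← e2, trace_restrict, Finset.mul_sum]
  refine Finset.sum_congr rfl ?_
  intro k _
  rw [LinearMap.comp_apply, LinearMap.comp_apply, sbst_apply, sbst_apply, h]
  have e3 : (((X : R[X]) ^ k).comp (X + C (-β))).comp Φ = (Φ - C β) ^ k := by
    simp [sub_eq_add_neg]
  rw [e3, mul_comp, pow_comp, sub_comp, C_comp]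
  have e4 : ∃ ψ : R[X], Φ.comp (X + C β) - C β = X * ψ := by
    have : X ∣ Φ.comp (X + C β) - C β := by
      rw [X_dvd_iff, coeff_sub, coeff_C_zero]
      rw [coeff_zero_eq_eval_zero, eval_comp]
      simp [hβ]
    exact this
  obtain ⟨ψ, hψ⟩ := e4
  have e5 : ψ.eval 0 = Φ.derivative.eval β := by
    have := congrArg (fun p : R[X] => p.derivative.eval 0) hψ
    simp only [derivative_sub, derivative_comp, derivative_C, derivative_mul, derivative_X,
      eval_sub, eval_mul, eval_comp, eval_add, eval_X, eval_C, derivative_add, eval_one,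
      eval_zero] at this
    simpa using this.symm
  rw [hψ, mul_pow, ← mul_assoc, mul_comm (W.comp (X + C β)), mul_assoc, coeff_X_pow_mul',
    if_pos le_rfl, Nat.sub_self, mul_coeff_zero, coeff_zero_eq_eval_zero (W.comp _), eval_comp,
    coeff_zero_eq_eval_zero, eval_pow, e5]
  simp

end

end Pool.Agent.Q162.Bz
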