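import Pool.Agent.Q162.Benzel.Adic
import Pool.Agent.Q162.Benzel.Schr
import Pool.Agent.Q162.Benzel.Tr

/-!
Ballot numbers and the traces of three weighted composition operators.
-/

namespace Pool.Agent.Q162.Bz

open Polynomial Finset

/-- Ballot numbers. -/
def bl (a b : ℕ) : ℤ := fb (1 : ℤ) 0 (a : ℤ) (b : ℤ)

theorem bl_zero (b : ℕ) : bl 0 b = 1 := by
  unfold bl
  rw [Nat.cast_zero, fb_one_zero 0 _ (by omega)]

theorem bl_succ_zero (a : ℕ) : bl (a + 1) 0 = bl a 1 := by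
  unfold bl
  rw [fb_rec (1 : ℤ) 0 _ _ (by omega) (by omega) (Or.inl (by omega))]
  push_cast
  rw [fb_neg_one, show (a : ℤ) + 1 - 1 = a by ring]
  ring

theorem bl_succ_succ (a b : ℕ) : bl (a + 1) (b + 1) = bl a (b + 2) + bl (a + 1) b := by
  unfold bl
  rw [fb_rec (1 : ℤ) 0 _ _ (by omega) (by omega) (Or.inl (by omega))]
  push_cast
  rw [show (a : ℤ) + 1 - 1 = a by ring, show (b : ℤ) + 1 - 1 = b by ring,
    show (b : ℤ) + 1 + 1 = b + 2 by ring]
  ring

section
variable {R : Type*} [CommRing R]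

/-- Generating polynomials of the ballot numbers. -/
noncomputable def Ph (t : R) (N b : ℕ) : R[X] :=
  ∑ a ∈ range (N + 1), C (((bl a b : ℤ) : R) * t ^ a) * X ^ a

theorem Ph_coeff (t : R) (N b : ℕ) (ht : t ^ (N + 1) = 0) (a : ℕ) :
    (Ph t N b).coeff a = ((bl a b : ℤ) : R) * t ^ a := by
  unfold Ph
  rw [finsetSum_coeff]
  simp only [coeff_C_mul_X_pow]
  by_cases h : a < N + 1
  · rw [Finset.sum_eq_single a]
    · rw [if_pos rfl]
    · intro c _ hc
      rw [if_neg (Ne.symm hc)]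
    · intro h'
      exact absurd (mem_range.2 h) h'
  · rw [Finset.sum_eq_zero]
    · obtain ⟨d, rfl⟩ := Nat.exists_eq_add_of_le (Nat.le_of_not_lt h)
      rw [pow_add, ht, zero_mul, mul_zero]
    · intro c hc
      rw [mem_range] at hc
      rw [if_neg (by omega)]

theorem Ph_zero (t : R) (N : ℕ) (ht : t ^ (N + 1) = 0) :
    Ph t N 0 = 1 + C t * X * Ph t N 1 := by
  ext a
  rcases a with _ | a
  · rw [Ph_coeff t N 0 ht, coeff_add, mul_assoc, coeff_C_mul, coeff_X_mul_zero, bl_zero]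
    simp
  · rw [Ph_coeff t N 0 ht, coeff_add, mul_assoc, coeff_C_mul, coeff_X_mul, Ph_coeff t N 1 ht,
      bl_succ_zero, coeff_one, if_neg (by omega)]
    ring

theorem Ph_succ (t : R) (N b : ℕ) (ht : t ^ (N + 1) = 0) :
    Ph t N (b + 1) = Ph t N b + C t * X * Ph t N (b + 2) := by
  ext a
  rcases a with _ | a
  · rw [Ph_coeff t N _ ht, coeff_add, mul_assoc, coeff_C_mul, coeff_X_mul_zero, bl_zero,
      Ph_coeff t N b ht, bl_zero]
    simp
  · rw [coeff_add, mul_assoc, coeff_C_mul, coeff_X_mul, Ph_coeff t N (b + 1) ht,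
      Ph_coeff t N b ht, Ph_coeff t N (b + 2) ht, bl_succ_succ]
    push_cast
    ring

theorem Ph_mul (t : R) (N : ℕ) (ht : t ^ (N + 1) = 0) (b : ℕ) :
    Ph t N 0 * Ph t N b = Ph t N (b + 1) := by
  have key : ∀ a b : ℕ, (Ph t N 0 * Ph t N b - Ph t N (b + 1)).coeff a = 0 := by
    have g0 : Ph t N 0 * Ph t N 0 - Ph t N 1 = C t * (X * (Ph t N 0 * Ph t N 1 - Ph t N 2)) := by
      have h1 := Ph_succ t N 0 ht
      have h2 : Ph t N 0 * Ph t N 0 = Ph t N 0 * (1 + C t * X * Ph t N 1) := by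
        rw [← Ph_zero t N ht]
      rw [h2]
      rw [zero_add, zero_add] at h1
      linear_combination -h1
    have g1 : ∀ b, Ph t N 0 * Ph t N (b + 1) - Ph t N (b + 1 + 1) =
        (Ph t N 0 * Ph t N b - Ph t N (b + 1)) +
        C t * (X * (Ph t N 0 * Ph t N (b + 2) - Ph t N (b + 2 + 1))) := by
      intro b
      have h1 := Ph_succ t N b ht
      have h2 := Ph_succ t N (b + 1) ht
      linear_combination Ph t N 0 * h1 - h2
    intro a
    induction a with
    | zero =>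
      intro b
      induction b with
      | zero => rw [g0, coeff_C_mul, coeff_X_mul_zero, mul_zero]
      | succ b ih => rw [g1, coeff_add, ih, coeff_C_mul, coeff_X_mul_zero, mul_zero, add_zero]
    | succ a iha =>
      intro b
      induction b with
      | zero => rw [g0, coeff_C_mul, coeff_X_mul, iha, mul_zero]
      | succ b ih => rw [g1, coeff_add, ih, coeff_C_mul, coeff_X_mul, iha, mul_zero, add_zero]
  have : Ph t N 0 * Ph t N b - Ph t N (b + 1) = 0 := by
    ext a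
    rw [key, coeff_zero]
  exact sub_eq_zero.1 this

theorem Ph_pow (t : R) (N : ℕ) (ht : t ^ (N + 1) = 0) (b : ℕ) :
    (Ph t N 0) ^ (b + 1) = Ph t N b := by
  induction b with
  | zero => rw [zero_add, pow_one]
  | succ b ih => rw [pow_succ', ih, Ph_mul t N ht]

theorem Ph_mem (t : R) (N : ℕ) (ht : t ^ (N + 1) = 0) (b : ℕ) :
    Ph t N b ∈ degreeLT R (N + 1) := by
  rw [mem_degreeLT, degree_lt_iff_coeff_zero]
  intro m hm
  rw [Ph_coeff t N b ht]
  obtain ⟨d, rfl⟩ := Nat.exists_eq_add_of_le hm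
  rw [pow_add, ht, zero_mul, mul_zero]

/-- The solution of `β = 1 + t β ^ 3`. -/
theorem exists_beta (t : R) (N : ℕ) (ht : t ^ (N + 1) = 0) : ∃ β : R, β = 1 + t * β ^ 3 := by
  have h : ∀ k : ℕ, ∃ β c : R, (1 + t * β ^ 3) - β = t ^ k * c := by
    intro k
    induction k with
    | zero => exact ⟨0, 1, by ring⟩
    | succ k ih =>
      obtain ⟨β, c, h⟩ := ih
      refine ⟨1 + t * β ^ 3, c * ((1 + t * β ^ 3) ^ 2 + (1 + t * β ^ 3) * β + β ^ 2), ?_⟩
      have h' : (1 + t * (1 + t * β ^ 3) ^ 3) - (1 + t * β ^ 3) =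
        t * ((1 + t * β ^ 3) - β) * ((1 + t * β ^ 3) ^ 2 + (1 + t * β ^ 3) * β + β ^ 2) := by ring
      rw [h', h]
      ring
  obtain ⟨β, c, h⟩ := h (N + 1)
  refine ⟨β, ?_⟩
  rw [ht, zero_mul] at h
  exact (sub_eq_zero.1 h).symm

/-- The fixed point. -/
theorem Ph_fixed (t : R) (N : ℕ) (ht : t ^ (N + 1) = 0) (β : R) (hβ : β = 1 + t * β ^ 3) :
    (Ph t N 0).eval β = β := by
  set u := (Ph t N 0).eval β with hu
  have h1 : u = 1 + t * β * u ^ 2 := by
    have := congrArg (fun p : R[X] => p.eval β) (Ph_zero t N ht)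
    simp only [eval_add, eval_one, eval_mul, eval_C, eval_X] at this
    have e2 : Ph t N 1 = (Ph t N 0) ^ 2 := by rw [← Ph_pow t N ht 1]
    rw [e2, eval_pow, ← hu] at this
    exact this
  have h2 : (u - β) * (1 - t * (β * (u + β))) = 0 := by
    linear_combination h1 - hβ
  have h3 : IsUnit (1 - t * (β * (u + β))) := by
    apply IsNilpotent.isUnit_one_sub
    refine ⟨N + 1, ?_⟩
    rw [mul_pow, ht, zero_mul]
  exact sub_eq_zero.1 ((h3.mul_left_eq_zero).1 h2)

/-- The multiplier at the fixed point. -/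
theorem Ph_tau (t : R) (N : ℕ) (ht : t ^ (N + 1) = 0) (β : R) (hβ : β = 1 + t * β ^ 3) :
    (Ph t N 0).derivative.eval β * (2 - β) = β - 1 ∧
    ((Ph t N 0).derivative.eval β) ^ (N + 1) = 0 := by
  have hf := Ph_fixed t N ht β hβ
  set τ := (Ph t N 0).derivative.eval β with hτ
  have h1 : τ = t * (β ^ 2 + 2 * β * β * τ) := by
    have h0 : Ph t N 0 = 1 + C t * X * (Ph t N 0) ^ 2 := by
      conv_lhs => rw [Ph_zero t N ht]
      rw [← Ph_pow t N ht 1]
    have := congrArg (fun p : R[X] => p.derivative.eval β) h0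
    simp only [derivative_add, derivative_one, derivative_mul, derivative_C, derivative_X,
      derivative_pow, eval_add, eval_mul, eval_C, eval_X, eval_pow, eval_zero, eval_one, hf,
      ← hτ, Nat.reduceSub] at this
    push_cast at this
    linear_combination this
  refine ⟨?_, ?_⟩
  · have h2 : t * β ^ 3 = β - 1 := by linear_combination -hβ
    have : τ * β = β - 1 + 2 * (β - 1) * τ := by
      calc τ * β = t * (β ^ 2 + 2 * β * β * τ) * β := by rw [← h1]
        _ = t * β ^ 3 + 2 * (t * β ^ 3) * τ := by ring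
        _ = _ := by rw [h2]
    linear_combination this
  · rw [h1, mul_pow, ht, zero_mul]

/-- Weighted composition operators. -/
noncomputable def wop (w φ : R[X]) : R[X] →ₗ[R] R[X] := (LinearMap.mulLeft R w) ∘ₗ sbst φ

theorem wop_apply (w φ p : R[X]) : wop w φ p = w * p.comp φ := by
  unfold wop
  rw [LinearMap.comp_apply, sbst_apply, LinearMap.mulLeft_apply]

theorem wop_mem (S : Submodule R R[X]) (L : R[X] →ₗ[R] R[X]) (h : ∀ n, L (X ^ n) ∈ S) (p : R[X]) :
    L p ∈ S := by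
  rw [p.as_sum_range_C_mul_X_pow, map_sum]
  refine Submodule.sum_mem _ ?_
  intro i _
  rw [← smul_eq_C_mul, map_smul]
  exact Submodule.smul_mem _ _ (h i)

theorem degLT_mono {m n : ℕ} (h : m ≤ n) {p : R[X]} (hp : p ∈ degreeLT R m) :
    p ∈ degreeLT R n := by
  rw [mem_degreeLT] at hp ⊢
  exact lt_of_lt_of_le hp (by exact_mod_cast h)

/-- The trace of a product of three weighted composition operators, in coordinates. -/
theorem trace_three (t : R) (N : ℕ) (ht : t ^ (N + 1) = 0) (β : R) (hβ : β = 1 + t * β ^ 3)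
    (s : ℕ) :
    ∑ n ∈ range (N + 3), ∑ j ∈ range (N + 3), ∑ k ∈ range (N + 3),
      (((bl j (n + s) : ℤ) : R) * t ^ j) * ((((bl k j : ℤ) : R) * t ^ k) *
        (((bl n k : ℤ) : R) * t ^ n)) =
    β ^ (3 + s) * ∑ k ∈ range (N + 3), ((Ph t N 0).derivative.eval β ^ 3) ^ k := by
  have hf := Ph_fixed t N ht β hβ
  set φ := Ph t N 0 with hφ
  have hU : ∀ n s', wop (φ ^ (s' + 1)) φ (X ^ n) = Ph t N (n + s') := by
    intro n s'
    rw [wop_apply, X_pow_comp, ← pow_add, show s' + 1 + n = n + s' + 1 by ring, Ph_pow t N ht]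
  have hm : ∀ s' p, wop (φ ^ (s' + 1)) φ p ∈ degreeLT R (N + 2 + 1) := by
    intro s' p
    refine wop_mem _ _ ?_ p
    intro n
    rw [hU]
    exact degLT_mono (by omega) (Ph_mem t N ht _)
  have hc := trace_comp (N + 2) (wop (φ ^ (0 + 1)) φ ∘ₗ (wop (φ ^ (0 + 1)) φ ∘ₗ
    wop (φ ^ (s + 1)) φ)) (φ * (φ.comp φ * (φ ^ (s + 1)).comp (φ.comp φ)))
    (φ.comp (φ.comp φ)) (by
      intro p
      rw [LinearMap.comp_apply, LinearMap.comp_apply, wop_apply, wop_apply, wop_apply]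
      simp only [mul_comp, zero_add, pow_one, comp_assoc]
      ring) (by
      intro p _
      exact hm 0 _) β (by rw [eval_comp, eval_comp, hf, hf, hf])
  have he : (φ * (φ.comp φ * (φ ^ (s + 1)).comp (φ.comp φ))).eval β = β ^ (3 + s) := by
    rw [eval_mul, eval_mul, eval_comp, eval_comp, eval_comp, eval_pow, hf, hf, hf]
    ring
  have hd : (φ.comp (φ.comp φ)).derivative.eval β = (φ.derivative.eval β) ^ 3 := by
    rw [derivative_comp, derivative_comp, eval_mul, eval_mul, eval_comp, eval_comp, eval_comp,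
      hf, hf]
    ring
  rw [he, hd] at hc
  rw [← hc]
  refine Finset.sum_congr rfl ?_
  intro n _
  rw [LinearMap.comp_apply, LinearMap.comp_apply, coeff_lin (N + 2) _ _ (hm 0 _)]
  rw [Finset.sum_comm]
  refine Finset.sum_congr rfl ?_
  intro k _
  rw [coeff_lin (N + 2) _ _ (hm s _), Finset.sum_mul]
  refine Finset.sum_congr rfl ?_
  intro j _
  rw [hU, hU, hU, Ph_coeff t N _ ht, Ph_coeff t N _ ht, Ph_coeff t N _ ht, add_zero, add_zero]
  ring

theorem trace_one (t : R) (N : ℕ) (ht : t ^ (N + 1) = 0) (β : R) (hβ : β = 1 + t * β ^ 3) :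
    ∑ n ∈ range (N + 3), ((2 - X) ^ 2 * Ph t N n).coeff n =
    β * (2 - β) ^ 2 * ∑ k ∈ range (N + 3), ((Ph t N 0).derivative.eval β) ^ k := by
  have hf := Ph_fixed t N ht β hβ
  set φ := Ph t N 0 with hφ
  have hU : ∀ n, wop ((2 - X) ^ 2 * φ) φ (X ^ n) = (2 - X) ^ 2 * Ph t N n := by
    intro n
    rw [wop_apply, X_pow_comp, mul_assoc, ← pow_succ', Ph_pow t N ht]
  have hm : ∀ p, wop ((2 - X) ^ 2 * φ) φ p ∈ degreeLT R (N + 2 + 1) := by
    intro p
    refine wop_mem _ _ ?_ p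
    intro n
    rw [hU, mem_degreeLT, degree_lt_iff_coeff_zero]
    intro m hm
    obtain ⟨d, rfl⟩ := Nat.exists_eq_add_of_le' hm
    have h0 : ∀ e, (Ph t N n).coeff (N + 1 + e) = 0 := by
      intro e
      rw [Ph_coeff t N n ht, pow_add, ht, zero_mul, mul_zero]
    have e1 : ((2 - X) ^ 2 * Ph t N n) = C 4 * Ph t N n - C 4 * (X * Ph t N n) +
        X * (X * Ph t N n) := by
      rw [show (C (4 : R) : R[X]) = 4 from rfl]
      ring
    rw [e1, coeff_add, coeff_sub, coeff_C_mul, coeff_C_mul,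
      show d + (N + 2 + 1) = d + N + 2 + 1 by ring, coeff_X_mul, coeff_X_mul,
      show d + N + 2 = d + N + 1 + 1 by ring, coeff_X_mul,
      show d + N + 1 + 1 + 1 = N + 1 + (d + 2) by ring, show d + N + 1 + 1 = N + 1 + (d + 1) by ring,
      show d + N + 1 = N + 1 + d by ring, h0, h0, h0]
    ring
  have hc := trace_comp (N + 2) (wop ((2 - X) ^ 2 * φ) φ) ((2 - X) ^ 2 * φ) φ
    (fun p => wop_apply _ _ p) (fun p _ => hm p) β hf
  rw [show N + 2 + 1 = N + 3 by ring] at hc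
  rw [eval_mul, hf] at hc
  have he : ((2 - X : R[X]) ^ 2).eval β = (2 - β) ^ 2 := by simp
  rw [he] at hc
  rw [show β * (2 - β) ^ 2 = (2 - β) ^ 2 * β by ring, ← hc]
  refine Finset.sum_congr rfl ?_
  intro n _
  rw [hU]

/-- The identity of traces. -/
theorem trace_identity (t : R) (N : ℕ) (ht : t ^ (N + 1) = 0) :
    (∑ n ∈ range (N + 3), ∑ j ∈ range (N + 3), ∑ k ∈ range (N + 3),
      (((bl j n : ℤ) : R) * t ^ j) * ((((bl k j : ℤ) : R) * t ^ k) *
        (((bl n k : ℤ) : R) * t ^ n))) -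
    3 * t * (∑ n ∈ range (N + 3), ∑ j ∈ range (N + 3), ∑ k ∈ range (N + 3),
      (((bl j (n + 1) : ℤ) : R) * t ^ j) * ((((bl k j : ℤ) : R) * t ^ k) *
        (((bl n k : ℤ) : R) * t ^ n))) =
    ∑ n ∈ range (N + 3), ((2 - X) ^ 2 * Ph t N n).coeff n := by
  obtain ⟨β, hβ⟩ := exists_beta t N ht
  have h0 := trace_three t N ht β hβ 0
  have h1 := trace_three t N ht β hβ 1
  have h2 := trace_one t N ht β hβ
  obtain ⟨h3, h4⟩ := Ph_tau t N ht β hβ
  simp only [add_zero] at h0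
  rw [h0, h1, h2]
  set τ := (Ph t N 0).derivative.eval β with hτ
  have g1 : (1 - τ) * ∑ k ∈ range (N + 3), τ ^ k = 1 := by
    have := mul_neg_geom_sum τ (N + 3)
    rw [this, show N + 3 = N + 1 + 2 by ring, pow_add, h4, zero_mul, sub_zero]
  have g3 : (1 - τ ^ 3) * ∑ k ∈ range (N + 3), (τ ^ 3) ^ k = 1 := by
    have := mul_neg_geom_sum (τ ^ 3) (N + 3)
    rw [this, ← pow_mul, show 3 * (N + 3) = N + 1 + (2 * N + 8) by ring, pow_add, h4, zero_mul,
      sub_zero]
  set s1 := ∑ k ∈ range (N + 3), τ ^ k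
  set s3 := ∑ k ∈ range (N + 3), (τ ^ 3) ^ k
  have g2 : s3 * (1 + τ + τ ^ 2) = s1 := by
    linear_combination (-(s3 * (1 + τ + τ ^ 2))) * g1 + s1 * g3
  have g4 : t * β ^ 3 = β - 1 := by linear_combination -hβ
  have g5 : β ^ 2 - 3 * β + 3 = (2 - β) ^ 2 * (1 + τ + τ ^ 2) := by
    linear_combination (-(2 - β) - (β - 1) - τ * (2 - β)) * h3
  have e1 : β ^ 3 * s3 - 3 * t * (β ^ (3 + 1) * s3) = β * (β ^ 2 - 3 * β + 3) * s3 := by
    linear_combination (-3 * β * s3) * g4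
  rw [e1, g5, ← g2]
  ring

end

end Pool.Agent.Q162.Bz
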