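import Pool.Agent.Q162.Benzel.Tr2
import Pool.Agent.Q162.Benzel.Adic2
import Pool.Agent.Q162.Benzel.T112

/-!
The number of tilings of the `(n, 2n-3)`-benzel by right stones and bones.
-/

namespace Pool.Agent.Q162.Bz

open Polynomial Finset Pool.Agent.Q162.Benzel

theorem coeff_double {K : Type*} [AddCommMonoid K] (D m : ℕ) (hm : m < D) (G : ℕ → ℕ → K) :
    ∑ j ∈ range D, ∑ k ∈ range D, (if j + k = m then G j k else 0) =
      ∑ p ∈ antidiagonal m, G p.1 p.2 := by
  rw [← Finset.sum_product', ← Finset.sum_filter]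
  refine Finset.sum_congr ?_ (fun _ _ => rfl)
  ext ⟨j, k⟩
  rw [mem_filter, mem_product, mem_range, mem_range, HasAntidiagonal.mem_antidiagonal]
  simp only
  omega

theorem coeff_trip {K : Type*} [AddCommMonoid K] (D m : ℕ) (hm : m < D) (F : ℕ → ℕ → ℕ → K) :
    ∑ i ∈ range D, ∑ j ∈ range D, ∑ k ∈ range D, (if i + j + k = m then F i j k else 0) =
      ∑ p ∈ antidiagonal m, ∑ p' ∈ antidiagonal p.2, F p.1 p'.1 p'.2 := by
  rw [← coeff_double D m hm (fun i e => ∑ p' ∈ antidiagonal e, F i p'.1 p'.2)]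
  refine Finset.sum_congr rfl ?_
  intro i _
  by_cases h : i ≤ m
  · have hr : ∑ e ∈ range D, (if i + e = m then ∑ p' ∈ antidiagonal e, F i p'.1 p'.2 else 0) =
        ∑ p' ∈ antidiagonal (m - i), F i p'.1 p'.2 := by
      rw [Finset.sum_eq_single (m - i)]
      · rw [if_pos (by omega)]
      · intro b _ hb
        rw [if_neg (by omega)]
      · intro h'
        exact absurd (mem_range.2 (by omega)) h'
    rw [hr, ← coeff_double D (m - i) (by omega)]
    refine Finset.sum_congr rfl ?_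
    intro j _
    refine Finset.sum_congr rfl ?_
    intro k _
    by_cases h' : i + j + k = m
    · rw [if_pos h', if_pos (by omega)]
    · rw [if_neg h', if_neg (by omega)]
  · rw [Finset.sum_eq_zero, Finset.sum_eq_zero]
    · intro e _
      rw [if_neg (by omega)]
    · intro j _
      refine Finset.sum_eq_zero ?_
      intro k _
      rw [if_neg (by omega)]

/-- The combination of triangle sums as a combination of ballot numbers. -/
theorem ballot_identity (N : ℕ) :
    (∑ p ∈ antidiagonal (N + 1), ∑ p' ∈ antidiagonal p.2,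
      bl p.1 p'.1 * bl p'.1 p'.2 * bl p'.2 p.1) -
    3 * (∑ p ∈ antidiagonal N, ∑ p' ∈ antidiagonal p.2,
      bl p.1 p'.1 * bl p'.1 p'.2 * bl p'.2 (p.1 + 1)) =
    4 * bl (N + 1) (N + 1) - 4 * bl (N + 1) (N + 2) + bl (N + 1) (N + 3) := by
  set I : Ideal ℤ[X] := Ideal.span {(X : ℤ[X]) ^ (N + 1 + 1)} with hI
  set mk := Ideal.Quotient.mk I with hmk
  set t := mk X with ht
  have ht0 : t ^ (N + 1 + 1) = 0 := by
    rw [ht, ← map_pow, hmk, Ideal.Quotient.eq_zero_iff_mem, hI]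
    exact Ideal.mem_span_singleton_self _
  have hC : ∀ (c : ℤ) (k : ℕ), mk (C c * X ^ k) = ((c : ℤ) : ℤ[X] ⧸ I) * t ^ k := by
    intro c k
    rw [map_mul, map_pow]
    congr 1
  have key := trace_identity t (N + 1) ht0
  set D := N + 1 + 3 with hD
  set PA : ℤ[X] := ∑ a ∈ range D, ∑ b ∈ range D, ∑ g ∈ range D,
    C (bl a b * bl b g * bl g a) * X ^ (a + b + g) with hPA
  set PB : ℤ[X] := ∑ a ∈ range D, ∑ b ∈ range D, ∑ g ∈ range D,
    C (bl a b * bl b g * bl g (a + 1)) * X ^ (a + b + g) with hPB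
  set PC : ℤ[X] := ∑ n ∈ range (N + 4), C (4 * bl n n) * X ^ n -
    ∑ n ∈ range (N + 3), C (4 * bl n (n + 1)) * X ^ n +
    ∑ n ∈ range (N + 2), C (bl n (n + 2)) * X ^ n with hPC
  have eA : mk PA = ∑ n ∈ range D, ∑ j ∈ range D, ∑ k ∈ range D,
      (((bl j n : ℤ) : ℤ[X] ⧸ I) * t ^ j) * ((((bl k j : ℤ) : ℤ[X] ⧸ I) * t ^ k) *
        (((bl n k : ℤ) : ℤ[X] ⧸ I) * t ^ n)) := by
    rw [hPA, map_sum]
    refine Finset.sum_congr rfl ?_
    intro n _
    rw [map_sum, Finset.sum_comm]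
    refine Finset.sum_congr rfl ?_
    intro k _
    rw [map_sum]
    refine Finset.sum_congr rfl ?_
    intro j _
    rw [hC]
    push_cast
    ring
  have eB : mk PB = ∑ n ∈ range D, ∑ j ∈ range D, ∑ k ∈ range D,
      (((bl j (n + 1) : ℤ) : ℤ[X] ⧸ I) * t ^ j) * ((((bl k j : ℤ) : ℤ[X] ⧸ I) * t ^ k) *
        (((bl n k : ℤ) : ℤ[X] ⧸ I) * t ^ n)) := by
    rw [hPB, map_sum]
    refine Finset.sum_congr rfl ?_
    intro n _
    rw [map_sum, Finset.sum_comm]
    refine Finset.sum_congr rfl ?_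
    intro k _
    rw [map_sum]
    refine Finset.sum_congr rfl ?_
    intro j _
    rw [hC]
    push_cast
    ring
  have eC : mk PC = ∑ n ∈ range D, ((2 - X) ^ 2 * Ph t (N + 1) n).coeff n := by
    have e1 : ∀ n, ((2 - X) ^ 2 * Ph t (N + 1) n).coeff n =
        4 * (Ph t (N + 1) n).coeff n - 4 * (X * Ph t (N + 1) n).coeff n +
          (X * (X * Ph t (N + 1) n)).coeff n := by
      intro n
      have : ((2 - X) ^ 2 * Ph t (N + 1) n) = C 4 * Ph t (N + 1) n -
          C 4 * (X * Ph t (N + 1) n) + X * (X * Ph t (N + 1) n) := by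
        rw [show (C (4 : ℤ[X] ⧸ I) : (ℤ[X] ⧸ I)[X]) = 4 from rfl]
        ring
      rw [this, coeff_add, coeff_sub, coeff_C_mul, coeff_C_mul]
    rw [Finset.sum_congr rfl (fun n _ => e1 n), Finset.sum_add_distrib, Finset.sum_sub_distrib,
      hPC, map_add, map_sub, map_sum, map_sum, map_sum]
    congr 1
    · congr 1
      · refine Finset.sum_congr rfl ?_
        intro n _
        rw [hC, Ph_coeff t _ _ ht0]
        push_cast
        ring
      · rw [show D = N + 3 + 1 by omega]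
        conv_rhs => rw [Finset.sum_range_succ', coeff_X_mul_zero, mul_zero, add_zero]
        refine Finset.sum_congr rfl ?_
        intro n _
        rw [hC, coeff_X_mul, Ph_coeff t _ _ ht0]
        push_cast
        ring
    · rw [show D = N + 2 + 1 + 1 by omega]
      conv_rhs => rw [Finset.sum_range_succ', Finset.sum_range_succ', coeff_X_mul_zero,
        coeff_X_mul, coeff_X_mul_zero, add_zero, add_zero]
      refine Finset.sum_congr rfl ?_
      intro n _
      rw [hC, coeff_X_mul, coeff_X_mul, Ph_coeff t _ _ ht0]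
  rw [← eA, ← eB, ← eC] at key
  have key2 : mk (PA - 3 * X * PB - PC) = 0 := by
    rw [map_sub, map_sub, map_mul, map_mul, ← key, ← ht]
    have : mk 3 = 3 := map_ofNat mk 3
    rw [this]
    ring
  rw [hmk, Ideal.Quotient.eq_zero_iff_mem, hI, Ideal.mem_span_singleton, X_pow_dvd_iff] at key2
  have key3 := key2 (N + 1) (by omega)
  have c3 : (3 * X * PB : ℤ[X]) = C 3 * (X * PB) := by
    rw [show (C (3 : ℤ) : ℤ[X]) = 3 from rfl]
    ring
  rw [coeff_sub, coeff_sub, c3, coeff_C_mul, coeff_X_mul] at key3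
  have cA : PA.coeff (N + 1) = ∑ p ∈ antidiagonal (N + 1), ∑ p' ∈ antidiagonal p.2,
      bl p.1 p'.1 * bl p'.1 p'.2 * bl p'.2 p.1 := by
    rw [← coeff_trip D (N + 1) (by omega) (fun a b g => bl a b * bl b g * bl g a), hPA]
    simp only [finsetSum_coeff, coeff_C_mul_X_pow]
    refine Finset.sum_congr rfl ?_
    intro a _
    refine Finset.sum_congr rfl ?_
    intro b _
    refine Finset.sum_congr rfl ?_
    intro g _
    by_cases h : a + b + g = N + 1
    · rw [if_pos h, if_pos h.symm]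
    · rw [if_neg h, if_neg (Ne.symm h)]
  have cB : PB.coeff N = ∑ p ∈ antidiagonal N, ∑ p' ∈ antidiagonal p.2,
      bl p.1 p'.1 * bl p'.1 p'.2 * bl p'.2 (p.1 + 1) := by
    rw [← coeff_trip D N (by omega) (fun a b g => bl a b * bl b g * bl g (a + 1)), hPB]
    simp only [finsetSum_coeff, coeff_C_mul_X_pow]
    refine Finset.sum_congr rfl ?_
    intro a _
    refine Finset.sum_congr rfl ?_
    intro b _
    refine Finset.sum_congr rfl ?_
    intro g _
    by_cases h : a + b + g = N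
    · rw [if_pos h, if_pos h.symm]
    · rw [if_neg h, if_neg (Ne.symm h)]
  have cC : PC.coeff (N + 1) = 4 * bl (N + 1) (N + 1) - 4 * bl (N + 1) (N + 2) +
      bl (N + 1) (N + 3) := by
    have hs : ∀ (E : ℕ) (F : ℕ → ℤ), N + 1 < E →
        (∑ n ∈ range E, C (F n) * X ^ n : ℤ[X]).coeff (N + 1) = F (N + 1) := by
      intro E F hE
      simp only [finsetSum_coeff, coeff_C_mul_X_pow]
      rw [Finset.sum_eq_single (N + 1)]
      · rw [if_pos rfl]
      · intro b _ hb
        rw [if_neg (Ne.symm hb)]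
      · intro h'
        exact absurd (mem_range.2 hE) h'
    rw [hPC, coeff_add, coeff_sub, hs _ (fun n => 4 * bl n n) (by omega),
      hs _ (fun n => 4 * bl n (n + 1)) (by omega), hs _ (fun n => bl n (n + 2)) (by omega)]
  rw [cA, cB, cC] at key3
  linear_combination key3

theorem bl_fact (a : ℕ) : ∀ b : ℕ, bl a b * (a.factorial : ℤ) * ((a + b + 1).factorial : ℤ) =
    (b + 1) * ((2 * a + b).factorial : ℤ) := by
  induction a with
  | zero =>
    intro b
    rw [bl_zero, show 0 + b + 1 = b + 1 by ring, show 2 * 0 + b = b by ring, Nat.factorial_succ]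
    push_cast
    simp
  | succ a iha =>
    intro b
    induction b with
    | zero =>
      have h := iha 1
      rw [show a + 1 + 1 = a + 2 by ring] at h
      rw [bl_succ_zero, show a + 1 + 0 + 1 = a + 2 by ring,
        show 2 * (a + 1) + 0 = (2 * a + 1) + 1 by ring, Nat.factorial_succ a,
        Nat.factorial_succ (2 * a + 1)]
      push_cast at h ⊢
      linear_combination ((a : ℤ) + 1) * h
    | succ b ihb =>
      have h := iha (b + 2)
      rw [show a + (b + 2) + 1 = (a + b + 2) + 1 by ring, Nat.factorial_succ (a + b + 2),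
        show 2 * a + (b + 2) = 2 * a + b + 2 by ring] at h
      rw [show a + 1 + b + 1 = a + b + 2 by ring, show 2 * (a + 1) + b = 2 * a + b + 2 by ring,
        Nat.factorial_succ a] at ihb
      rw [bl_succ_succ, show a + 1 + (b + 1) + 1 = (a + b + 2) + 1 by ring,
        Nat.factorial_succ (a + b + 2), show 2 * (a + 1) + (b + 1) = (2 * a + b + 2) + 1 by ring,
        Nat.factorial_succ (2 * a + b + 2), Nat.factorial_succ a]
      push_cast at h ihb ⊢
      linear_combination ((a : ℤ) + 1) * h + ((a : ℤ) + b + 3) * ihb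

open Classical in
theorem wt103 : Wt (fun T => if Proto103 T then (1 : ℤ) else 0) 1 0 (fun _ => 1) := by
  refine ⟨?_, ?_, ?_⟩
  · intro T hT
    exact if_pos (Or.inl hT)
  · intro T hT
    refine if_neg ?_
    rintro (h | ⟨j, h⟩)
    · exact not_right_left h hT
    · exact not_left_bone j hT h
  · intro j T hT
    exact if_pos (Or.inr ⟨j, hT⟩)

theorem proto103_le (T : Finset Cell) (h : Proto103 T) : Proto113 T := by
  rcases h with h | h
  · exact Or.inl h
  · exact Or.inr (Or.inr h)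

theorem T103_card (M : ℤ) (hM : 1 ≤ M) :
    ((T103 (M + 2) (2 * M + 1) : ℕ) : ℤ) =
      Z Proto113 (fun T => by classical exact if Proto103 T then (1 : ℤ) else 0)
        ((Reg M 0).map (phE M)) := by
  unfold T103
  have := tilings_eq Proto103 M 0 (Or.inl rfl) hM
  rw [sub_zero] at this
  rw [this, Set.ncard_coe_finset]
  exact card_sub Proto113 Proto103 proto103_le _

theorem T103_sum (N : ℕ) :
    ((T103 (((N + 1 : ℕ) : ℤ) + 2) (2 * ((N + 1 : ℕ) : ℤ) + 1) : ℕ) : ℤ) =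
    4 * bl (N + 1) (N + 1) - 4 * bl (N + 1) (N + 2) + bl (N + 1) (N + 3) := by
  rw [T103_card _ (by omega), bz3 _ (by omega) _ 1 1 0 (fun _ => 1) (by norm_num) wt103
    (fun _ a c => fb 1 0 a c) (by intro t a c; simp), ← ballot_identity N]
  have e1 : ((N + 1 : ℕ) : ℤ) - 1 = ((N : ℕ) : ℤ) := by push_cast; ring
  rw [e1]
  have hA : S3 ((N + 1 : ℕ) : ℤ) (fun a b g => fb (1 : ℤ) 0 a b * fb 1 0 b g * fb 1 0 g a) =
      ∑ p ∈ antidiagonal (N + 1), ∑ p' ∈ antidiagonal p.2,
      bl p.1 p'.1 * bl p'.1 p'.2 * bl p'.2 p.1 := by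
    rw [S3_toNat]
    exact S3_nat (N + 1) (fun a b g => bl a b * bl b g * bl g a)
  have hB : S3 ((N : ℕ) : ℤ) (fun a b g => fb (1 : ℤ) 0 a b * fb 1 0 b g * fb 1 0 g (a + 1)) =
      ∑ p ∈ antidiagonal N, ∑ p' ∈ antidiagonal p.2,
      bl p.1 p'.1 * bl p'.1 p'.2 * bl p'.2 (p.1 + 1) := by
    rw [S3_toNat, ← S3_nat N (fun a b g => bl a b * bl b g * bl g (a + 1))]
    congr 1
  have hB1 : S3 ((N : ℕ) : ℤ) (fun a b g => fb (1 : ℤ) 0 a b * fb 1 0 b (g + 1) * fb 1 0 g a) =
      S3 ((N : ℕ) : ℤ) (fun a b g => fb (1 : ℤ) 0 a b * fb 1 0 b g * fb 1 0 g (a + 1)) := by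
    rw [S3_rot]
    congr 1
    funext a b g
    ring
  have hB2 : S3 ((N : ℕ) : ℤ) (fun a b g => fb (1 : ℤ) 0 a (b + 1) * fb 1 0 b g * fb 1 0 g a) =
      S3 ((N : ℕ) : ℤ) (fun a b g => fb (1 : ℤ) 0 a b * fb 1 0 b g * fb 1 0 g (a + 1)) := by
    rw [S3_rot2]
    congr 1
    funext a b g
    ring
  rw [hA, hB1, hB2, hB]
  simp only [one_pow, mul_one, one_mul]
  ring

/-- The closed formula. -/
theorem T103_formula (n : ℕ) (hn : 5 ≤ n) :
    ((T103 (n : ℤ) (2 * (n : ℤ) - 3) : ℕ) : ℚ) =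
      (3 * n + 3) * ((3 * n - 7).factorial : ℚ) /
        (((n - 5).factorial : ℚ) * ((2 * n - 1).factorial : ℚ)) := by
  obtain ⟨m, rfl⟩ := Nat.exists_eq_add_of_le' hn
  have h := T103_sum (m + 2)
  rw [show (((m + 2 + 1 : ℕ) : ℤ) + 2) = ((m + 5 : ℕ) : ℤ) by push_cast; ring,
    show (2 * ((m + 2 + 1 : ℕ) : ℤ) + 1) = 2 * ((m + 5 : ℕ) : ℤ) - 3 by push_cast; ring] at h
  have f1 := bl_fact (m + 3) (m + 3)
  have f2 := bl_fact (m + 3) (m + 4)
  have f3 := bl_fact (m + 3) (m + 5)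
  rw [show m + 2 + 1 = m + 3 by ring, show m + 2 + 2 = m + 4 by ring,
    show m + 2 + 3 = m + 5 by ring] at h
  rw [show m + 3 + (m + 3) + 1 = 2 * m + 7 by ring, show 2 * (m + 3) + (m + 3) = 3 * m + 8 + 1 by ring,
    Nat.factorial_succ (3 * m + 8)] at f1
  rw [show m + 3 + (m + 4) + 1 = 2 * m + 7 + 1 by ring,
    show 2 * (m + 3) + (m + 4) = 3 * m + 8 + 1 + 1 by ring,
    Nat.factorial_succ (3 * m + 8 + 1), Nat.factorial_succ (3 * m + 8),
    Nat.factorial_succ (2 * m + 7)] at f2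
  rw [show m + 3 + (m + 5) + 1 = 2 * m + 7 + 1 + 1 by ring,
    show 2 * (m + 3) + (m + 5) = 3 * m + 8 + 1 + 1 + 1 by ring,
    Nat.factorial_succ (3 * m + 8 + 1 + 1), Nat.factorial_succ (3 * m + 8 + 1),
    Nat.factorial_succ (3 * m + 8),
    Nat.factorial_succ (2 * m + 7 + 1), Nat.factorial_succ (2 * m + 7)] at f3
  have hq : ((T103 ((m + 5 : ℕ) : ℤ) (2 * ((m + 5 : ℕ) : ℤ) - 3) : ℕ) : ℚ) =
      4 * ((bl (m + 3) (m + 3) : ℤ) : ℚ) - 4 * ((bl (m + 3) (m + 4) : ℤ) : ℚ) +
        ((bl (m + 3) (m + 5) : ℤ) : ℚ) := by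
    exact_mod_cast h
  rw [hq, show 3 * (m + 5) - 7 = 3 * m + 8 by omega, show m + 5 - 5 = m by omega,
    show 2 * (m + 5) - 1 = 2 * m + 7 + 1 + 1 by omega, Nat.factorial_succ (2 * m + 7 + 1),
    Nat.factorial_succ (2 * m + 7)]
  have g1 : ((bl (m + 3) (m + 3) : ℤ) : ℚ) * ((m + 3).factorial : ℚ) * ((2 * m + 7).factorial : ℚ) =
      (m + 4) * ((3 * m + 9) * ((3 * m + 8).factorial : ℚ)) := by
    have := congrArg (fun z : ℤ => (z : ℚ)) f1
    push_cast at this
    linear_combination this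
  have g2 : ((bl (m + 3) (m + 4) : ℤ) : ℚ) * ((m + 3).factorial : ℚ) *
      ((2 * m + 8) * ((2 * m + 7).factorial : ℚ)) =
      (m + 5) * ((3 * m + 10) * ((3 * m + 9) * ((3 * m + 8).factorial : ℚ))) := by
    have := congrArg (fun z : ℤ => (z : ℚ)) f2
    push_cast at this
    linear_combination this
  have g3 : ((bl (m + 3) (m + 5) : ℤ) : ℚ) * ((m + 3).factorial : ℚ) *
      ((2 * m + 9) * ((2 * m + 8) * ((2 * m + 7).factorial : ℚ))) =
      (m + 6) * ((3 * m + 11) * ((3 * m + 10) * ((3 * m + 9) * ((3 * m + 8).factorial : ℚ)))) := by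
    have := congrArg (fun z : ℤ => (z : ℚ)) f3
    push_cast at this
    linear_combination this
  have hm3 : ((m + 3).factorial : ℚ) = (m + 3) * ((m + 2) * ((m + 1) * (m.factorial : ℚ))) := by
    rw [Nat.factorial_succ, Nat.factorial_succ, Nat.factorial_succ]
    push_cast
    ring
  have p0 : ((m.factorial : ℕ) : ℚ) ≠ 0 := by exact_mod_cast Nat.factorial_ne_zero m
  have p1 : (((2 * m + 7).factorial : ℕ) : ℚ) ≠ 0 := by exact_mod_cast Nat.factorial_ne_zero _
  have p2 : ((m : ℚ) + 3) ≠ 0 := by positivity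
  have p3 : ((m : ℚ) + 2) ≠ 0 := by positivity
  have p4 : ((m : ℚ) + 1) ≠ 0 := by positivity
  have p5 : (2 * (m : ℚ) + 8) ≠ 0 := by positivity
  have p6 : (2 * (m : ℚ) + 9) ≠ 0 := by positivity
  have q1 : ((bl (m + 3) (m + 3) : ℤ) : ℚ) = (m + 4) * ((3 * m + 9) * ((3 * m + 8).factorial : ℚ)) /
      (((m + 3).factorial : ℚ) * ((2 * m + 7).factorial : ℚ)) := by
    rw [eq_div_iff (by rw [hm3]; positivity), ← g1]
    ring
  have q2 : ((bl (m + 3) (m + 4) : ℤ) : ℚ) =
      (m + 5) * ((3 * m + 10) * ((3 * m + 9) * ((3 * m + 8).factorial : ℚ))) /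
      (((m + 3).factorial : ℚ) * ((2 * m + 8) * ((2 * m + 7).factorial : ℚ))) := by
    rw [eq_div_iff (by rw [hm3]; positivity), ← g2]
    ring
  have q3 : ((bl (m + 3) (m + 5) : ℤ) : ℚ) =
      (m + 6) * ((3 * m + 11) * ((3 * m + 10) * ((3 * m + 9) * ((3 * m + 8).factorial : ℚ)))) /
      (((m + 3).factorial : ℚ) * ((2 * m + 9) * ((2 * m + 8) * ((2 * m + 7).factorial : ℚ)))) := by
    rw [eq_div_iff (by rw [hm3]; positivity), ← g3]
    ring
  rw [q1, q2, q3, hm3]
  push_cast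
  field_simp
  ring

end Pool.Agent.Q162.Bz
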